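import Pool.Agent.MP_5d9b3c_ag.P3D.SpecX
import Pool.Agent.MP_5d9b3c_ag.P3K.Spec

/-!
From a family of boxes on a stable model to the Poincare series.
-/

namespace Pool.Agent.MP_5d9b3c_ag.P3D

open MP_ee8c61_ag M3 M3RESID P3 P3K P3T P3G Set MvPolynomial
open M3B1 (pd)

noncomputable section

/-- The restriction of an invariant vector field to the fixed field. -/
def rst {F L : Type} [Field F] [Algebra F ℂ] [Field L] [Algebra ℂ L] {A : GA F L} {X : VF L}
    (h : A.InvV X) : Derivation F A.fix A.fix :=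
  Derivation.mk'
    { toFun := fun g => ⟨X g, h.fix g.2⟩
      map_add' := fun g g' => Subtype.ext (map_add X (g : L) g')
      map_smul' := fun a g => Subtype.ext (by
        show X (algebraMap ℂ L (algebraMap F ℂ a) * g) = algebraMap ℂ L (algebraMap F ℂ a) * X g
        rw [Derivation.leibniz, Derivation.map_algebraMap, smul_zero, add_zero, smul_eq_mul]) }
    fun g g' => Subtype.ext (X.leibniz (g : L) g')

theorem coe_rst {F L : Type} [Field F] [Algebra F ℂ] [Field L] [Algebra ℂ L] {A : GA F L}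
    {X : VF L} (h : A.InvV X) (g : A.fix) : (rst h g : L) = X g := rfl

variable {p : ℕ} [Fact p.Prime] [Algebra ℚ_[p] ℂ]

theorem coe_aeval (P : MvPolynomial (Fin 3) ℚ_[p]) :
    ((aeval (xK p) P : (AK p).fix) : KK 3) = ip 3 (map (algebraMap ℚ_[p] ℂ) P) := by
  induction P using MvPolynomial.induction_on with
  | C a => rw [aeval_C, coe_alg, map_C]; exact ((ip 3).commutes _).symm
  | add P Q hP hQ => rw [map_add, Subfield.coe_add, hP, hQ, map_add, map_add]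
  | mul_X P i hP => rw [map_mul, Subfield.coe_mul, hP, map_mul, map_mul, aeval_X, map_X]; rfl

theorem xK_ind : AlgebraicIndependent ℚ_[p] (xK p) :=
  algebraicIndependent_iff.2 fun P h => by
    have h1 := coe_aeval P
    rw [h, ZeroMemClass.coe_zero] at h1
    by_contra h0
    exact M3B1.ip_ne (fun e => h0 (map_injective _ (algebraMap ℚ_[p] ℂ).injective
      (e.trans (map_zero _).symm))) h1.symm

theorem xK_dual (i j : Fin 3) :
    rst (invV_pd (F := ℚ_[p]) i) (xK p j) = if i = j then 1 else 0 :=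
  Subtype.ext ((M3B1.pd_X i j).trans (by split_ifs <;> rfl))

variable (p) in
/-- The polynomial as an element of the fixed field. -/
def fK (f : MvPolynomial (Fin 3) ℤ) : (AK p).fix := aeval (xK p) f

theorem coe_fK (f : MvPolynomial (Fin 3) ℤ) :
    (fK p f : KK 3) = ip 3 (map (Int.castRingHom ℂ) f) := by
  rw [fK, ← aeval_map_algebraMap ℚ_[p], coe_aeval, map_map]
  exact congrArg (fun φ => ip 3 (map φ f)) (RingHom.ext_int _ _)

theorem fx_int (f : MvPolynomial (Fin 3) ℤ) (σ : Gm ℚ_[p]) :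
    map (σ : ℂ →+* ℂ) (map (Int.castRingHom ℂ) f) = map (Int.castRingHom ℂ) f := by
  rw [map_map]
  exact congrArg (fun φ => map φ f) (RingHom.ext_int _ _)

variable [Algebra.IsAlgebraic ℚ_[p] ℂ]

theorem ip_adj {g : (AK p).fix} (h : (g : KK 3) ∈ (ip 3).range) :
    g ∈ Algebra.adjoin ℚ_[p] (range (xK p)) := by
  obtain ⟨P, hP⟩ := h
  have h1 : ∀ σ : Gm ℚ_[p], map (σ : ℂ →+* ℂ) P = P := fun σ =>
    IsFractionRing.injective (Po 3) (KK 3) ((gaK_ip σ P).symm.trans (by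
      rw [show ip 3 P = g from hP, g.2 σ]; exact hP.symm))
  obtain ⟨Q, rfl⟩ : P ∈ range (map (algebraMap ℚ_[p] ℂ)) := by
    refine mem_range_map_iff_coeffs_subset.2 fun c hc => ?_
    obtain ⟨m, -, rfl⟩ := mem_coeffs_iff.1 hc
    exact fix_iff.1 fun σ => (coeff_map (σ : ℂ →+* ℂ) P m).symm.trans (congrArg _ (h1 σ))
  rw [Algebra.adjoin_range_eq_range_aeval]
  exact ⟨Q, Subtype.ext ((coe_aeval Q).trans hP)⟩

theorem xK_frac (g : (AK p).fix) : ∃ s ∈ Algebra.adjoin ℚ_[p] (range (xK p)), s ≠ 0 ∧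
    s * g ∈ Algebra.adjoin ℚ_[p] (range (xK p)) := by
  obtain ⟨a, b, hb, e⟩ := IsFractionRing.div_surjective (A := Po 3) (g : KK 3)
  obtain ⟨a', h1, b', h2, h3, h4, h5, h6⟩ := (AK p).frac (B := (ip 3).range)
    (fun σ s hs => (SI.mem_ip (gaK_xx σ)).2 hs) (a := ip 3 a) (b := ip 3 b) ⟨a, rfl⟩ ⟨b, rfl⟩
    (M3B1.ip_ne (nonZeroDivisors.ne_zero hb)) (e ▸ g.2)
  refine ⟨⟨b', h4⟩, ip_adj h2, fun h => h5 (congrArg Subtype.val h), ip_adj ?_⟩
  rw [Subfield.coe_mul, ← e.symm.trans h6 |>.symm, mul_div_cancel₀ _ h5]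
  exact h1

namespace Fam

variable {M : Mod 3} {f : (AK p).fix} (𝓑 : Fam M f)

/-- The monomial data of the form `d x` and of the function `f`. -/
def md (b : 𝓑.ι) : MD Unit 3 where
  c := (𝓑.mj b).choose
  ν i := (𝓑.lab b i).elim 0 M.kk + 1
  m _ := (𝓑.mf b).choose
  A _ i := (𝓑.lab b i).elim 0 M.aa

theorem md_adp (b : 𝓑.ι) : (𝓑.c b).b.Adp 1 (xK p) (fun _ => f) (𝓑.md b) :=
  ⟨by simpa only [md, one_mul, add_sub_cancel_right] using (𝓑.mj b).choose_spec,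
    fun _ => (𝓑.mf b).choose_spec⟩

end Fam

variable {f : MvPolynomial (Fin 3) ℤ} {f₀ : Po 3} {M : Mod 3}

/-- Igusa's formula on a family of boxes. -/
theorem igu (hI : RIGU) (hC : SCOV0 p) (h0 : f ≠ 0) (hM : M.OK f₀) (hS : Stp p M)
    (𝓑 : Fam M (fK p f)) :
    (∃ A B : Polynomial ℚ, IsCoprime A B ∧ (B : PowerSeries ℚ) * H72.poincare f p = A) ∧
    ∀ {K : Type} [CommRing K] [Algebra ℂ K] (ξ : Kˣ) (O : Subalgebra ℂ K) (ε : O →ₐ[ℂ] ℂ)
      (hξ : (ξ : K) ∈ O), (∀ b, (𝓑.md b).ND p fun _ => ξ) →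
      ∑ b, (𝓑.md b).val p (fun _ => ξ) ∈ O → ∃ Q P : Polynomial ℂ, Q.eval (ε ⟨ξ, hξ⟩) ≠ 0 ∧
        (Q : PowerSeries ℂ) * (H72.poincare f p).map (algebraMap ℚ ℂ) = P :=
  have h := hC f₀ _ M 𝓑 hM hS
  hI (xK p) (fun i => rst (invV_pd i)) f (fun b => (𝓑.c b).b) 𝓑.md xK_ind xK_dual xK_frac h0
    h.dis h.itg h.cov 𝓑.md_adp

/-- There is no pole outside the candidates. -/
theorem igu_np (hI : RIGU) (hC : SCOV0 p) (h0 : f ≠ 0) (hM : M.OK f₀) (hS : Stp p M)
    (𝓑 : Fam M (fK p f)) {T : ℂ} (hT : T ≠ 0) (h : ∀ j, T ^ M.a j ≠ (p : ℂ) ^ (M.k j + 1)) :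
    ∃ Q P : Polynomial ℂ, Q.eval T ≠ 0 ∧
      (Q : PowerSeries ℂ) * (H72.poincare f p).map (algebraMap ℚ ℂ) = P := by
  have hp : (p : ℂ) ≠ 0 := Nat.cast_ne_zero.2 (Fact.out : p.Prime).ne_zero
  refine (igu hI hC h0 hM hS 𝓑).2 (Units.mk0 T hT) ⊤ (⊤ : Subalgebra ℂ ℂ).val trivial
    (fun b l => Ne.isUnit fun e => ?_) trivial
  rw [MD.den, sub_eq_zero, Fintype.prod_unique, Units.val_zpow_eq_zpow_val, Units.val_mk0,
    zpow_neg, Algebra.algebraMap_self_apply, eq_comm,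
    inv_mul_eq_one₀ (zpow_ne_zero _ hp)] at e
  simp only [Fam.md] at e
  cases hl : 𝓑.lab b l with
  | none =>
    rw [hl] at e
    exact (Fact.out : p.Prime).ne_one (by simpa using e)
  | some j =>
    rw [hl] at e
    exact h j (by simpa [Mod.kk, Mod.aa, zpow_add_one₀ hp, pow_succ] using e.symm)

end

end Pool.Agent.MP_5d9b3c_ag.P3D
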