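import Pool.Agent.MP_5d9b3c_ag.P3D.Kit

/-! The box sum has no pole. -/

namespace Pool.Agent.MP_5d9b3c_ag.P3D

open MP_ee8c61_ag M3 M3RESID M3BK P3 P3K P3T Finset

theorem cls {Y Γ : Type} [Fintype Y] {P : Y → Prop} [DecidablePred P] (Q : Γ → Y → Prop)
    [∀ G, DecidablePred (Q G)] {F : Y → ℂ} (h1 : ∀ y, P y ↔ ∃ G, Q G y)
    (h2 : ∀ G G' y, Q G y → Q G' y → G = G') (h : ∀ G, ∑ y with Q G y, F y = 0) :
    ∑ y with P y, F y = 0 := by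
  rw [sum_filter]
  refine sum_cls Q h2 (fun y hy => if_neg fun e => ((h1 y).1 e).elim hy) fun G => ?_
  rw [← h G, sum_subtype (p := Q G) _ (by simp)]
  exact sum_congr rfl fun y _ => if_pos ((h1 _).2 ⟨G, y.2⟩)

theorem sumQ {ι Γ : Type} {lab : ι → Fin 3 → Option Γ} {o : Γ} {P : ι × Fin 3 × Fin 2 → Prop}
    [Fintype {y : ι × Fin 3 × Fin 2 // lab y.1 y.2.1 = some o ∧ P y}]
    [Fintype {x : ι × Fin 3 // lab x.1 x.2 = some o}]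
    (P' : {x : ι × Fin 3 // lab x.1 x.2 = some o} × Fin 2 → Prop) [DecidablePred P']
    (h : ∀ z, P' z ↔ P (z.1.1.1, z.1.1.2, z.2)) (F : ι × Fin 3 × Fin 2 → ℂ) :
    ∑ y : {y : ι × Fin 3 × Fin 2 // lab y.1 y.2.1 = some o ∧ P y}, F y =
      ∑ z with P' z, F (z.1.1.1, z.1.1.2, z.2) :=
  sum_bij' (fun y _ => (⟨(y.1.1, y.1.2.1), y.2.1⟩, y.1.2.2))
    (fun z hz => ⟨(z.1.1.1, z.1.1.2, z.2), z.1.2, (h z).1 (mem_filter.1 hz).2⟩)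
    (fun y _ => mem_filter.2 ⟨mem_univ _, (h _).2 y.2.2⟩) (fun _ _ => mem_univ _)
    (fun _ _ => rfl) (fun _ _ => rfl) fun _ _ => rfl

variable {p : ℕ} [Fact p.Prime] [Algebra ℚ_[p] ℂ] [Algebra.IsAlgebraic ℚ_[p] ℂ]

theorem Ctx.rho_iff (X : Ctx p) (a : X.𝓑.ι) (i : Fin 3) :
    rho (X.d a) p (cT X.T) i = 1 ↔ ∃ o, X.𝓑.lab a i = some o ∧ X.Pol o := by
  have p0 : (p : ℂ) ≠ 0 := Nat.cast_ne_zero.2 (Fact.out : p.Prime).ne_zero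
  rw [rho, X.dν, Fin.prod_univ_two, X.dA, X.dA]
  cases X.𝓑.lab a i with
  | none => simpa using (Fact.out : p.Prime).one_lt.ne'
  | some j =>
    rw [zpow_neg, inv_mul_eq_one₀ (zpow_ne_zero _ p0), eq_comm]
    simp [Ctx.Pol]

theorem Ctx.kk_eq (X : Ctx p) {a : X.𝓑.ι} {i : Fin 3} {o : X.M.J} (h : X.𝓑.lab a i = some o) :
    kk (X.d a) k1 i = X.M.aa o := by simp [kk, X.dA, h]

theorem Ctx.aa_ne (X : Ctx p) (o : X.M.J) : X.M.aa o ≠ 0 := Nat.cast_ne_zero.2 (X.ok.pos o).ne'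

theorem ES.exG {X : Ctx p} {o : X.M.J} (S : ES X o) {y : X.𝓑.F1 o × Fin 2}
    (h : S.s.lb y ≠ none) : ∃ G, S.B.InvO G ∧ S.On G y :=
  X.𝓑.crv _ _ y.2 (fun e => Option.some_ne_none o (y.1.2.symm.trans e)) h _ _ _ _ _ (S.s.fc y.1)

variable (p)

theorem rBKP : OfBKP p := by
  intro hF hR hB hN hC hO hJ X hS
  classical
  have H : ∀ o : {o // X.Pol o ∧ Nonempty (X.𝓑.F1 o)}, ∃ S : ES X o, ∃ ψ R, S.Out ψ R :=
    fun ⟨o, h1, ⟨x⟩⟩ => by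
      have h2 := X.𝓑.inv _ _ _ x.2
      obtain ⟨e, v, h3⟩ := hS o h2 (hB.ex X o h1)
      choose g hg using fun x : X.𝓑.F1 o =>
        hF _ _ 2 _ _ _ (rc h2) (X.𝓑.c x.1.1) x.1.2 (X.𝓑.dat _ _ _ x.2)
      exact ⟨⟨h2, h1, e, v, h3, rfl, g, hg⟩, hO _ ⟨x⟩⟩
  choose S ψ R hR' using H
  let φ : (Σ o : {o // X.Pol o ∧ Nonempty (X.𝓑.F1 o)}, X.𝓑.F1 o × Fin 2) → X.𝓑.ι × Fin 3 × Fin 3 :=
    fun z => (z.2.1.1.1, z.2.1.1.2, z.2.1.1.2.succAbove z.2.2)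
  have hφ : Function.Injective φ := by
    rintro ⟨⟨o, ho⟩, ⟨⟨b, i⟩, h⟩, m⟩ ⟨⟨o', ho'⟩, ⟨⟨b', i'⟩, h'⟩, m'⟩ e
    obtain ⟨rfl, rfl, e'⟩ : b = b' ∧ i = i' ∧ i.succAbove m = i'.succAbove m' := by
      simpa only [φ, Prod.mk.injEq] using e
    obtain rfl : o = o' := Option.some.inj (h.symm.trans h')
    obtain rfl := Fin.succAbove_right_injective e'
    rfl
  obtain ⟨M, hM⟩ : ∃ M : X.𝓑.ι → Fin 3 → Fin 3 → ℂ, ∀ o y,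
      M y.1.1.1 y.1.1.2 (y.1.1.2.succAbove y.2) = J (face ((S o).d y.1) y.2) p (cT X.T) k1 /
        kk (X.d y.1.1.1) k1 (y.1.1.2.succAbove y.2) - R o y :=
    ⟨fun b i i' => Function.extend φ (fun z => J (face ((S z.1).d z.2.1) z.2.2) p (cT X.T) k1 /
      kk (X.d z.2.1.1.1) k1 (z.2.1.1.2.succAbove z.2.2) - R z.1 z.2) 0 (b, i, i'),
      fun o y => hφ.extend_apply _ _ ⟨o, y⟩⟩
  have hG : ∀ o y, (S o).Pl y → ∃ G, (S o).B.InvO G ∧ (S o).On G y := fun o y h =>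
    (S o).exG (((hB.pl _ y).1 h).elim fun o' h' => h'.1 ▸ Option.some_ne_none o')
  refine top X.d X.𝓑.lab (univ.filter fun o => X.Pol o ∧ Nonempty (X.𝓑.F1 o)) X.M.aa
    (fun o y => X.𝓑.lab y.1 y.2.1 = some o ∧ rho (X.d y.1) p (cT X.T) (nx y) = 1) M
    (fun b i => (X.rho_iff b i).trans (exists_congr fun o =>
      ⟨fun h => ⟨mem_filter.2 ⟨mem_univ _, h.2, ⟨⟨(b, i), h.1⟩⟩⟩, h.1⟩,
        fun h => ⟨h.2, (mem_filter.1 h.1).2.1⟩⟩))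
    (fun b i o _ h => ⟨X.kk_eq h, X.aa_ne o⟩) (fun b => ?_) (fun _ _ => Iff.rfl)
    (fun o ho g => ?_) (fun o ho => ?_) fun o ho => ?_
  · by_contra! h
    obtain ⟨o, h1, h2⟩ := (X.rho_iff b 0).1 (h 0)
    obtain ⟨G, h3, h4⟩ := hG ⟨o, h2, ⟨⟨(b, 0), h1⟩⟩⟩ (⟨(b, 0), h1⟩, 0) (h _)
    exact hN _ _ _ h3 _ _ _ h4 (hB.adp _ _) (h _) 0 (h _)
  all_goals obtain ⟨o, rfl⟩ : ∃ o' : {o // X.Pol o ∧ Nonempty (X.𝓑.F1 o)}, o'.1 = o :=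
    ⟨⟨o, (mem_filter.1 ho).2⟩, rfl⟩
  · rw [sumQ (S o).Pl (fun _ => Iff.rfl)
      fun y => v0 (ff X.d y) p (cT X.T) * g (kk (X.d y.1) k1 (nx y))]
    refine cls (fun (G : {G // (S o).B.InvO G}) y => (S o).Pl y ∧ (S o).On G y)
      (fun y => ⟨fun h => (hG o y h).elim fun G k => ⟨⟨G, k.1⟩, h, k.2⟩, fun h => h.elim fun _ k =>
        k.1⟩) (fun G G' y h h' => Subtype.ext (hR.uniq h.2 h'.2)) fun G => ?_
    refine (sum_congr rfl fun y _ => ?_).trans (hC (S o) G G.2 fun l => g (l.elim 0 X.M.aa))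
    simp [kk, X.dA, ES.d, Fam.Fc.lb]
  · obtain ⟨e, he⟩ := (hR' o).ex
    refine ⟨e, he.cast rfl rfl (congrArg _ ?_) rfl⟩
    rw [sumQ (S o).Pl (fun _ => Iff.rfl) fun y =>
      J (ff X.d y) p (cT X.T) k1 / kk (X.d y.1) k1 (nx y) - M y.1 y.2.1 (nx y)]
    exact sum_congr rfl fun y _ => by rw [hM o y]; exact (sub_sub_cancel _ _).symm
  · rw [sumQ (S o).Pl (fun _ => Iff.rfl) fun y =>
      J (ff X.d y) p (cT X.T) k1 / (X.M.aa o * kk (X.d y.1) k1 (nx y)) -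
        M y.1 y.2.1 (nx y) / X.M.aa o - M y.1 (nx y) y.2.1 / kk (X.d y.1) k1 (nx y)]
    refine cls (fun (G : {G // (S o).B.InvO G} × {o // X.Pol o ∧ Nonempty (X.𝓑.F1 o)}) y =>
      (S o).s.lb y = some G.2.1 ∧ (S o).On G.1 y) (fun y => ⟨fun h => ?_, fun h => h.elim
        fun G k => (hB.pl _ y).2 ⟨_, k.1, G.2.2.1⟩⟩) (fun G G' y h h' => Prod.ext
          (Subtype.ext (hR.uniq h.2 h'.2)) (Subtype.ext (Option.some.inj (h.1.symm.trans h'.1))))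
      fun G => hJ (S o) (S G.2) _ _ _ _ G.1 G.1.2 _ (hR' o) (hR' G.2) fun y y' h => ?_
    · obtain ⟨G, h1, h2⟩ := hG o y h
      obtain ⟨o', h3, h4⟩ := (hB.pl _ y).1 h
      exact ⟨(⟨G, h1⟩, ⟨o', h4, ⟨⟨(y.1.1.1, y.1.1.2.succAbove y.2), h3⟩⟩⟩), h3, h2⟩
    · have h1 := hM G.2 y'
      have h2 := y'.1.2
      rw [← h.i', h.i, h.b] at h1
      rw [h.i, h.b] at h2
      have h3 : (X.M.aa o : ℂ) ≠ 0 := Int.cast_ne_zero.2 (X.aa_ne _)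
      have h4 : (X.M.aa G.2 : ℂ) ≠ 0 := Int.cast_ne_zero.2 (X.aa_ne _)
      simp only [nx, hM o y, h1, X.kk_eq h2, X.kk_eq y.1.2, ff, ES.d]
      field_simp
      ring

end Pool.Agent.MP_5d9b3c_ag.P3D
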