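import Pool.Agent.MP_5d9b3c_ag.P3D.Rat

/-!
The residue of a datum does not depend on the chart.
-/

namespace Pool.Agent.MP_5d9b3c_ag.P3D

open MP_ee8c61_ag M3 M3RESID M3BK M3H47 P3 P3B P3K Set Finset

noncomputable section

variable {L k : Type} [Field L] [Algebra ℂ L] [Field k] [Algebra ℂ k] {n : ℕ}

theorem co_chain (C C' C'' : Co L n) : C.jac C'' = C.jac C' * C'.jac C'' := by
  rw [Co.jac, Co.jac, Co.jac, ← Matrix.det_mul]
  congr 1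
  ext l i
  rw [Matrix.mul_apply, Matrix.of_apply, C'.exp_apply]
  simp only [Matrix.of_apply, mul_comm]

theorem co_self (C : Co L n) : C.jac C = 1 :=
  mul_left_cancel₀ (C.jac_ne C) (by rw [← co_chain, mul_one])

variable {P : Pl L k} {C C₂ : Co L (n + 1)} {i i₂ : Fin (n + 1)} {C' C₂' : Co k n}

theorem π_mul0 {g h : L} (g0 : P.o.v g = 0) (h0 : P.o.v h = 0) : P.π (g * h) = P.π g * P.π h :=
  P.mul _ (Or.inr g0.ge) _ (Or.inr h0.ge)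

/-- Change of the uniformizer. -/
theorem π_unif {g η η' : L} (hg : g ≠ 0) (hη : P.o.v η = 1) (hη' : P.o.v η' = 1) :
    P.π (η / η') ≠ 0 ∧ P.π (g / η' ^ P.o.v g) = P.π (g / η ^ P.o.v g) * P.π (η / η') ^ P.o.v g := by
  obtain ⟨η0, -, h1⟩ := v_unit hg hη
  obtain ⟨η1, h2, h3⟩ := v_unit η0 hη'
  rw [hη, zpow_one] at h2 h3
  refine ⟨Pl.π_ne h2 h3, ?_⟩
  rw [← Pl.π_zpow h2 h3, ← π_mul0 h1 (by rw [v_zpow _ h2, h3, mul_zero]), div_zpow,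
    div_mul_div_cancel₀ (zpow_ne_zero _ η0)]

/-- Change of the chart. -/
theorem res_chg (hC : P.RsC C i C') (h : C.At P.o i) (hC₂ : P.RsC C₂ i₂ C₂') (h₂ : C₂.At P.o i₂)
    {j η : L} (hj : j ≠ 0) (hη : P.o.v η = 1) : P.o.v (j * C.jac C₂) = P.o.v j ∧
      P.π (j * C.jac C₂ * C₂.z i₂ / η ^ (P.o.v j + 1)) =
        (-1) ^ ((i : ℕ) + i₂) * (P.π (j * C.z i / η ^ (P.o.v j + 1)) * C'.jac C₂') := by
  obtain ⟨h1, h2⟩ := jac_res hC h hC₂ h₂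
  obtain ⟨-, -, h3⟩ := v_unit (mul_ne_zero hj (C.ne i)) hη
  obtain ⟨-, h4, h5⟩ := v_unit (C.ne i) h₂.vz
  rw [P.o.mul _ _ hj (C.ne i), h.vz] at h3
  rw [h.vz, zpow_one] at h4 h5
  refine ⟨by rw [P.o.mul _ _ hj (C.jac_ne C₂), h1, add_zero], ?_⟩
  have e : j * C.jac C₂ * C₂.z i₂ / η ^ (P.o.v j + 1) =
      j * C.z i / η ^ (P.o.v j + 1) * C.jac C₂ / (C.z i / C₂.z i₂) := by
    have := C.ne i
    have := C₂.ne i₂
    field_simp
  have := Pl.π_ne h4 h5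
  rw [e, Pl.π_div (F_mul0 (Or.inr h3.ge) (Or.inr h1.ge)) h4 h5, π_mul0 h3 h1, h2]
  field_simp

/-- The datum of a face in terms of the datum for the uniformizer `η`. -/
theorem res_face (hC : P.RsC C i C') (h : C.At P.o i) (hC₂ : P.RsC C₂ i₂ C₂') (h₂ : C₂.At P.o i₂)
    {j η : L} (hj : j ≠ 0) (hη : P.o.v η = 1) :
    P.π (j * C.jac C₂ / C₂.z i₂ ^ P.o.v j) = (-1) ^ ((i : ℕ) + i₂) *
      (P.π (j * C.z i / η ^ (P.o.v j + 1)) * C'.jac C₂') * P.π (η / C₂.z i₂) ^ (P.o.v j + 1) := by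
  obtain ⟨h1, h2⟩ := res_chg hC h hC₂ h₂ hj hη
  have h0 := mul_ne_zero hj (C.jac_ne C₂)
  have h3 := (π_unif (mul_ne_zero h0 (C₂.ne i₂)) hη h₂.vz).2
  rw [P.o.mul _ _ h0 (C₂.ne i₂), h1, h₂.vz, h2, zpow_add_one₀ (C₂.ne i₂),
    mul_div_mul_right _ _ (C₂.ne i₂)] at h3
  exact h3

variable {p : ℕ} [Fact p.Prime] [Algebra ℚ_[p] ℂ] {A : GA ℚ_[p] L}

/-- The Jacobian determinant of a box. -/
theorem CBox.coe_jac (c : CBox A n) {r : Fin n → A.fix} {C₁ : Co L n}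
    (h : ∀ l, (r l : L) = C₁.z l) : (c.b.jac r : L) = C₁.jac c.C := by
  rw [Box.jac, Co.jac, ← Matrix.det_transpose]
  refine (A.fix.subtype.map_det _).trans (congrArg _ ?_)
  ext l i
  simp [c.D, h]

end

end Pool.Agent.MP_5d9b3c_ag.P3D
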