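import Pool.Agent.MP_5d9b3c_ag.P3D.RRES
import Pool.Agent.MP_5d9b3c_ag.P3D.Rat2
import Pool.Agent.MP_5d9b3c_ag.P3K.Cmp
import Pool.Agent.MP_ee8c61_ag.M3BK.RSrf
import Pool.Agent.MP_ee8c61_ag.M3BK.RPt

/-!
The type of a polar curve.
-/

namespace Pool.Agent.MP_5d9b3c_ag.P3D

open MP_ee8c61_ag M3 M3RESID M3BK P3 P3K P3T P3B Set

noncomputable section

variable {p : ℕ} [Fact p.Prime] [Algebra ℚ_[p] ℂ] [Algebra.IsAlgebraic ℚ_[p] ℂ]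

namespace CurB

variable {k : Type} [Field k] [Algebra ℂ k] {E : GA ℚ_[p] k}

omit [Algebra.IsAlgebraic ℚ_[p] ℂ] in
theorem coe_zp (g : E.fix) (e : ℤ) : ((g ^ e : E.fix) : k) = (g : k) ^ e :=
  map_zpow₀ E.fix.subtype g e

/-- A density on the projective line is a monomial. -/
theorem good (q : CBox E 1) {δ : Dn E.fix 1} {T : ℂˣ} {la μ : ℚ} {N ν m : ℤ} {e : Dv k}
    {σ w : E.fix} {θ : VF k} {c s : ℚ_[p]} (hT : ‖(T : ℂ)‖ = (p : ℝ) ^ (la : ℝ))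
    (hl : la * N = ν) (h : P1 (σ : k) θ) (hd : δ.Of la e) (he : e.δ θ = algebraMap ℂ k μ)
    (μ0 : μ ≠ 0) (hj : δ.w q.b ≠ 0) (c0 : c ≠ 0) (w0 : w ≠ 0)
    (hu : (δ.u : k) = cF ℚ_[p] k c * (σ : k) ^ m * (w : k) ^ N) (hs : s = 0 ∨ (m = 0 ∧ μ = 1)) :
    Good p T N ν δ (σ - algebraMap ℚ_[p] _ s) := by
  have p0 := (Fact.out : p.Prime).ne_zero
  obtain ⟨a, γ, γ0, h1, h2⟩ := rat_p1 h σ.2 (q.z 0 ▸ (q.b.z 0).2) (coe_ne hj) (δ.w q.b).2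
    ((map_ne_zero (algebraMap ℚ_[p] ℂ)).2 c0) (coe_ne w0) w.2 hu (ν := ν) (la := la) (μ := μ)
    (by exact_mod_cast hl) (hd q ▸ he)
  replace h2 : a - la * m = μ := by exact_mod_cast h2
  obtain ⟨τ, τ', t, h3⟩ := tau_p1 E h σ.2 (E.alg_fix s) ⟨_, rfl⟩ (q := p) (Nat.cast_ne_zero.2 p0)
  have h4 : (σ - algebraMap ℚ_[p] _ s) ^ m = σ ^ m ∧
      (σ - algebraMap ℚ_[p] _ s) ^ (a - 1) = σ ^ (a - 1) := by
    rcases hs with rfl | ⟨rfl, rfl⟩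
    · simp
    · obtain rfl : a = 1 := by exact_mod_cast (by simpa using h2 : (a : ℚ) = 1)
      simp
  refine ⟨⟨τ', Subtype.ext ((t.coe _).trans (by simpa [coe_alg] using h3))⟩, c, γ, m, a, c0, γ0,
    fun h5 => μ0 ?_, w, w0, Subtype.ext ?_, 1, norm_one, fun b => ?_⟩
  · rw [norm_mul, norm_zpow, norm_zpow, hT, Complex.norm_natCast, ← Real.rpow_intCast,
      ← Real.rpow_intCast, ← Real.rpow_mul (p_pos (p := p)).le, ← Real.rpow_add p_pos,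
      ← Real.rpow_zero (p : ℝ),
      Real.rpow_right_inj (p_pos (p := p)) (H72.one_lt_p (p := p)).ne'] at h5
    have h7 : la * m + (-a : ℤ) = (0 : ℚ) := by exact_mod_cast h5
    push_cast at h7
    linear_combination -h2 - h7
  · rw [hu, h4.1, Algebra.smul_def]
    simp only [Subfield.coe_mul, CurB.coe_zp, coe_alg, cF_ap]
  · have h5 := q.coe_jac (r := fun _ => σ) (C₁ := co1 h) fun _ => rfl
    have h6 : δ.w q.b = w ^ ν * (γ • σ ^ (a - 1) * q.b.jac fun _ => σ) := Subtype.ext <| by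
      rw [Subfield.coe_mul, Subfield.coe_mul, h5, ← mul_one (δ.w q.b : k), ← co_self q.C,
        co_chain q.C (co1 h) q.C, ← mul_assoc, h1, Algebra.smul_def]
      simp only [Subfield.coe_mul, CurB.coe_zp, coe_alg]
      ring
    have h7 : b.jac (fun _ => σ - algebraMap ℚ_[p] _ s) = b.jac fun _ => σ := by simp [Box.jac]
    rw [one_smul, Dn.w, Dn.w, h4.2, h7, b.jac_chain q.b, b.jac_chain q.b fun _ => σ, mul_left_comm]
    rw [Dn.w] at h6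
    rw [h6]
    ring

end CurB

variable (p) in
theorem rCURb : OfCUR p := by
  intro O B H X o S x g G hG m q hq hP
  obtain ⟨h1, h2⟩ := B.cu S x
  obtain ⟨v', y, g', h⟩ := S.sta.star _ h1
  obtain ⟨C, hC⟩ := rSrf X.eo (rPt X.eo) X.f₀ X.la X.b X.β X.q X.M o _ (X.M.v o).pl S.e S.v X.hyp
    X.ok rfl (B.ex X o S.pol) S.sta.rd S.sta.rs
  obtain ⟨n, h3, -⟩ := (X.lam _ _).1 S.pol
  obtain ⟨n', h4, -⟩ := (X.lam _ _).1 hP
  rw [← h2] at h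
  obtain ⟨u0, w0⟩ := B.ne S x g.b
  have hv : Dvs G := ⟨_, _, hq.on.at⟩
  have hx : Exp S.e G 0 := O.exp X.nrm hq.on u0 w0 hP (B.of S x)
  have hD : X.N ∣ G.v (S.δ x).u := Dvd.intro_left n' h4.symm
  obtain ⟨σ, hσ, θ, μ, μ0, hT⟩ := typ_pos (A := rA hG) (P := G.pl) hC h S.sta.id X.hg.ev
    (coe_ne u0) (S.δ x).u.2 (Dvd.intro_left n h3.symm) (rc hG) hv hx
  obtain ⟨e, he⟩ := hT.ex
  have hd := O.res X.nrm hq u0 w0 hP (B.of S x) he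
  have hj : ((S.δ x).rs g (rc hG) m).w q.b ≠ 0 := by
    rw [Dn.w, Dn.rs, hq.zf, q.b.jac_self, mul_one]
    exact ini_ne (rc hG) hq.vz w0
  have hu : (((S.δ x).rs g (rc hG) m).u : G.kf) =
      G.pl.π ((S.δ x).u / (g.b.z m : S.k) ^ G.v (S.δ x).u) :=
    (coe_pf (rc hG) (Or.inr (v_ini hq.vz u0).ge)).trans (by
      rw [Subfield.coe_div, CurB.coe_zp]; rfl)
  obtain ⟨_, ⟨c, rfl⟩, w, wf, j, c0, w1, h5⟩ :=
    hT.ch_fix (rA hG) (rc hG) hσ (S.δ x).u.2 (g.b.z m).2 hq.vz hD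
  have g0 := CurB.good q (σ := ⟨σ, hσ⟩) (w := ⟨w, wf⟩) X.nrm (B.lam X) hT.p1 hd (hT.dl e he) hT.ne
    hj ((map_ne_zero _).1 c0) (fun e => w1 (congrArg Subtype.val e)) (hu.trans h5) (.inl rfl)
  rw [map_zero, sub_zero] at g0
  refine ⟨⟨σ, hσ⟩, g0, ⟨θ, μ, hT.eu⟩, ?_, fun ψ hψ t ht hm => ?_⟩
  · rintro _ ⟨l, rfl⟩
    by_cases k2 : (pf (rc S.inv) (xK p l) : S.k) ∈ G.pl.o.F 0
    swap
    · exact ⟨0, by simp only [pf.eq_1 (rc hG), dif_neg k2, map_zero]⟩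
    have k3 : v' (pf (rc S.inv) (xK p l)) = 0 := by
      by_cases k1 : (xK p l : KK 3) ∈ (X.M.v o).pl.o.F 0
      · exact h.base _ ⟨l, (coe_pf (rc S.inv) k1).symm⟩
      · simp only [pf, dif_neg k1, ZeroMemClass.coe_zero, map_zero]
    obtain ⟨r, hr⟩ := hT.cs _ k2 k3
    obtain ⟨r, rfl⟩ := (rA hG).cst_fix_iff.1 (hr ▸ pi_fix (rc hG) k2)
    exact ⟨r, Subtype.ext (hr.trans (coe_pf (rc hG) k2).symm)⟩
  · obtain ⟨C', a, m', k1, k2⟩ := H.gp S x t ht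
    obtain ⟨c', s, i, i', c1, s0, k3, k4⟩ := xc_fix (rA hG) hC.ne hC.prim k1 k2 hm hv hx hT μ0 hψ
      (rc hG) hσ ψ.2 (S.δ x).u.2 (S.δ x).u.2 one_ne_zero (by rw [one_zpow, mul_one]) hD
    have ψ0 : ψ ≠ 0 := fun e => hψ.1 (congrArg Subtype.val e)
    have k5 : S.th hG ψ x = c' • ((⟨σ, hσ⟩ : (rA hG).fix) ^ i *
        (⟨σ, hσ⟩ - algebraMap ℚ_[p] _ s) ^ i') := Subtype.ext <| by
      refine (coe_pf (rc hG) (Or.inr (le_of_eq ?_))).trans ?_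
      · rw [v_div _ (zpow_ne_zero _ ψ0) (zpow_ne_zero _ u0), v_zp, v_zp, mul_comm]
        exact (sub_self _).symm
      · rw [Subfield.coe_div, CurB.coe_zp, CurB.coe_zp, k3, Algebra.smul_def]
        simp only [Subfield.coe_mul, CurB.coe_zp, coe_alg, cF_ap, mul_assoc,
          Subfield.coe_sub]
    rcases k4 with rfl | ⟨k4, k6⟩
    · exact ⟨c', _, _, i, 0, c1, g0, g0, by simpa using k5⟩
    · obtain ⟨a', w', wf', a0, w2, k7⟩ := k6 _ (g.b.z m).2 hq.vz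
      exact ⟨c', _, _, i, i', c1, g0, CurB.good q (σ := ⟨σ, hσ⟩) (w := ⟨w', wf'⟩) (m := 0) X.nrm
        (B.lam X) hT.p1 hd (hT.dl e he) hT.ne hj a0 (fun e => w2 (congrArg Subtype.val e))
        (by rw [hu, k7, zpow_zero, mul_one]) (.inr ⟨rfl, k4⟩), k5⟩

end

end Pool.Agent.MP_5d9b3c_ag.P3D
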