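import Pool.Agent.MP_5d9b3c_ag.P3D.Tau
import Pool.Agent.MP_ee8c61_ag.M3BK.RPos
import Pool.Agent.MP_ee8c61_ag.M3BK.Kt

/-!
A fixed eigenfunction of the frame that is not a unit along given curves of exponent zero.
-/

namespace Pool.Agent.MP_5d9b3c_ag.P3D

open MP_ee8c61_ag M3 M3RESID M3BK M3H47 P3 P3B Set M3BK.Cr WithZero
open Pool.Agent.MP_cce4c9_lc
open H87 hiding Dv

noncomputable section

variable {F L : Type} [Field F] [Algebra F ℂ] [Algebra.IsAlgebraic F ℂ] [Field L] [Algebra ℂ L]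

/-- A fixed function that vanishes at finitely many given places. -/
theorem fix_zero (A : GA F L) {K : IntermediateField ℂ L} (hK : A.Stb K) {S : Set (Place ℂ K)}
    (hS : S.Finite) : ∃ h : K, (h : L) ∈ A.fix ∧ h ≠ 0 ∧ ∀ t ∈ S, h / un t ∈ Ot t := by
  have : CharZero L := charZero_of_injective_algebraMap (algebraMap ℂ L).injective
  have := hS.to_subtype
  let V : Submodule ℚ K :=
    { carrier := {f | (f : L) ∈ A.fix}
      add_mem' := fun ha hb => A.fix.add_mem ha hb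
      zero_mem' := zero_mem A.fix
      smul_mem' := fun q f hf => by
        rw [Rat.smul_def]
        exact A.fix.mul_mem (SubfieldClass.ratCast_mem _ q) hf }
  obtain ⟨x, hx⟩ := Submodule.exists_forall_notMem_of_forall_ne_top (fun t : S =>
    ((Ot t.1).toSubmodule.restrictScalars ℚ).comap V.subtype) fun t e => by
    obtain ⟨f, h1, h2⟩ := A.sa.desc_le (W := K.toSubalgebra.toSubmodule)
      (W' := (Ot t.1).toSubmodule.map K.val.toLinearMap) hK
      (fun f hf h => ⟨⟨f, hf⟩, Submodule.eq_top_iff'.1 e ⟨⟨f, hf⟩, h⟩, rfl⟩) (un t.1)⁻¹.2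
    obtain rfl : f = (un t.1)⁻¹ := Subtype.ext h2
    have h3 : t.1.val (un t.1)⁻¹ ≤ 1 := h1
    rw [map_inv₀, M3C.val_unif, ← exp_neg, ← exp_zero, exp_le_exp] at h3
    omega
  by_cases h0 : x.1 = 0
  · exact ⟨1, one_mem A.fix, one_ne_zero, fun t ht =>
      (hx ⟨t, ht⟩ (show x.1 ∈ Ot t from h0 ▸ zero_mem _)).elim⟩
  refine ⟨x.1⁻¹, inv_mem x.2, inv_ne_zero h0, fun t ht => ?_⟩
  have h1 : ¬t.val x.1 ≤ 1 := hx ⟨t, ht⟩
  rw [t.val_eq (t.val_ne h0), ← exp_zero, exp_le_exp] at h1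
  rw [mem_Ot, map_div₀, map_inv₀, M3C.val_unif, t.val_eq (t.val_ne h0), ← exp_neg, ← exp_sub,
    ← exp_zero, exp_le_exp]
  omega

variable {A : GA F L} {C : Co L 2} {d : Dv L} {v v' : VF L} {b : ℂ} {X : Set L} {y u : L} {N : ℕ}
  {g : ℚ}

/-- A fixed function on the base that vanishes on the special fibres. -/
theorem exists_base (hS : M3F.Srf C d v b) (h : A.StarP d v b X u N v' y g) :
    ∃ t ∈ A.fix, t ≠ 0 ∧ v' t = 0 ∧ ∀ G : DV L, Dvs G → Exp d G 0 → G.v y ≠ 0 ∨ 0 < G.v t := by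
  obtain ⟨s, X0, X1, q, H, R, R', W⟩ := exists_ru' hS h.g0 h.y0 h.ex h.eig h.gen
  obtain ⟨r, h1, h2, h3⟩ := fix_zero A (stb_cst h.inv) (R.ex0_fin q H)
  have r0 : (r : L) ≠ 0 := fun e => h2 (Subtype.ext e)
  refine ⟨r, h1, r0, r.2, fun G hG hd => ?_⟩
  obtain ⟨x, ⟨t, -, o, p⟩, hx⟩ := Fb_prop (y := y) R.ff (V := G.O) (cst_F G) finite_empty (by simp)
  have RR : Ru (cst v') (ww y o) s (o.elim (-X0) fun _ => X0) X1 := by
    rcases o with _ | c
    exacts [R', R]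
  have WW : Vol d (o.elim (-X0) fun _ => X0) X1 (o.elim (-g) fun _ => g) q H := by
    rcases o with _ | c
    exacts [W.neg, W]
  have rg := RR.rg p
  have ad := RR.adp p WW
  have hg : (g : ℂ) ≠ 0 := by exact_mod_cast h.g0
  have key : (un t : L) ∈ G.F 1 → ex0 R.dK q H t ≠ 1 → 0 < G.v r := fun e1 e2 => by
    have e3 := F_mul0 (hx _ (p.ab.le _ (h3 t e2))) e1
    rw [IntermediateField.coe_div,
      div_mul_cancel₀ _ (show (un t : L) ≠ 0 from (RR.co t (cc o)).ne 0)] at e3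
    exact e3.resolve_left r0
  have e0 : ex0 RR.dK q H t = ex0 R.dK q H t := rfl
  obtain ⟨π, hπ⟩ := nrm_of hG
  by_cases hm : Dm x G.O
  · by_cases e2 : ex0 R.dK q H t = 1
    swap
    · exact Or.inr (key ((CR.of rg hm).pos 0) e2)
    by_cases hc : cc o = 0
    · have e3 := ((CR.of rg hm).pos 1).resolve_left ((RR.co t (cc o)).ne 1)
      rw [RR.co_z1, hc, map_zero, sub_zero] at e3
      rcases o with _ | c
      · rw [ww, Option.elim_none, G.inv] at e3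
        exact Or.inl (by omega)
      · exact Or.inl (by rw [ww, Option.elim_some] at e3; omega)
    · rw [e0, e2, if_neg hc] at ad
      exact ((rPos L d _ x G 0 rg (fun i => by fin_cases i; exacts [ad 0, ad 1]) hm hG hd).1
        rfl).elim
  obtain ⟨-, -, ⟨i, hi⟩ | ⟨-, h4⟩⟩ := rCrv L _ x G rg ⟨⟨π, hπ⟩, hx, hm⟩
  swap
  · exact (one_ne_zero ((h4 d _ ad).uniq hd hπ)).elim
  have e1 := (hi.exp ad).uniq hd hπ
  fin_cases i
  · exact Or.inr (key (Or.inr hi.adp.vz.ge) fun e => one_ne_zero (e.symm.trans e1))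
  · exfalso
    simp only [Fin.mk_one, Matrix.cons_val_one, Matrix.cons_val_zero] at e1
    split_ifs at e1
    · rcases o with _ | c <;> simp [hg] at e1
    · exact one_ne_zero e1

omit [Algebra.IsAlgebraic F ℂ] in
theorem gd_star (h : A.StarP d v b X u N v' y g) (hv : d.δ v = algebraMap ℂ L b) {t : L}
    (t0 : t ≠ 0) (ht : v' t = 0) (k : ℕ) : Gd d v (y * t ^ k) := by
  have hg : (g : L) ≠ 0 := by
    rw [← map_ratCast (algebraMap ℂ L)]
    exact (map_ne_zero _).2 (by exact_mod_cast h.g0)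
  refine Gd.mul (Gd.congr (v := v') ⟨h.y0, algebraMap ℂ L (g : ℂ)⁻¹ • v, ?_⟩ h.ex)
    (Gd.pow (Gd.congr (v := v') ⟨t0, 0, by simp [ht]⟩ h.ex) k)
  have h1 := h.eig
  have h2 := h.y0
  rw [d.δ_cst, hv, map_inv₀, map_ratCast]
  field_simp
  linear_combination h1

omit [Algebra ℂ L] in
/-- The exponent is chosen after finitely many curves. -/
theorem exists_exp {t : L} (y0 : y ≠ 0) (t0 : t ≠ 0) {S : Set (DV L)} (hS : S.Finite) :
    ∃ k₀ : ℕ, ∀ k, k₀ ≤ k → ∀ G ∈ S, G.v y ≠ 0 ∨ G.v t ≠ 0 → G.v (y * t ^ k) ≠ 0 := by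
  obtain ⟨k₀, hk⟩ := (hS.image fun G => (G.v y).natAbs + 1).bddAbove
  refine ⟨k₀, fun k h1 G hG h2 => ?_⟩
  have h3 : (G.v y).natAbs + 1 ≤ k := (hk (mem_image_of_mem _ hG)).trans h1
  rw [G.mul _ _ y0 (pow_ne_zero _ t0), v_pow _ t0]
  rcases lt_trichotomy (G.v t) 0 with e | e | e
  · have : k * G.v t ≤ k * (-1) := mul_le_mul_of_nonneg_left (by omega) (by omega)
    omega
  · rw [e, mul_zero, add_zero]
    exact h2.resolve_right (by omega)
  · have : (k : ℤ) ≤ k * G.v t := le_mul_of_one_le_right (by omega) e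
    omega

/-- The function `ψ = y * t ^ k`. -/
theorem exists_psi (hS : M3F.Srf C d v b) (h : A.StarP d v b X u N v' y g) :
    ∃ t ∈ A.fix, t ≠ 0 ∧ v' t = 0 ∧ (∀ k : ℕ, Gd d v (y * t ^ k)) ∧ ∀ S : Set (DV L), S.Finite →
      ∃ k₀ : ℕ, ∀ k, k₀ ≤ k → ∀ G ∈ S, Dvs G → Exp d G 0 → G.v (y * t ^ k) ≠ 0 := by
  obtain ⟨t, h1, h2, h3, h4⟩ := exists_base hS h
  refine ⟨t, h1, h2, h3, gd_star h hS.prim h2 h3, fun S hf => ?_⟩
  obtain ⟨k₀, hk⟩ := exists_exp h.y0 h2 hf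
  exact ⟨k₀, fun k e G hG h5 h6 => hk k e G hG ((h4 G h5 h6).imp_right ne_of_gt)⟩

end

end Pool.Agent.MP_5d9b3c_ag.P3D
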