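import Pool.Agent.MP_5d9b3c_ag.P3D.Jet

/-!
The ring of Laurent series without pole and its augmentation.
-/

namespace Pool.Agent.MP_5d9b3c_ag.P3D

open PowerSeries P3K

noncomputable section

/-- The series without pole. -/
def OO : Subalgebra ℂ LK := (IsScalarTower.toAlgHom ℂ ℂ⟦X⟧ LK).range

theorem mem_OO {r : LK} : r ∈ OO ↔ Reg r := exists_congr fun _ => eq_comm

/-- The value at `x = 0`. -/
def eps : OO →ₐ[ℂ] ℂ :=
  AlgHom.comp { constantCoeff (R := ℂ) with commutes' := fun c => constantCoeff_C c }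
    (AlgEquiv.ofInjective (IsScalarTower.toAlgHom ℂ ℂ⟦X⟧ LK) inj).symm.toAlgHom

theorem Ex.eps {r : LK} {a b : ℂ} (h : Ex 0 r a b) (hr : r ∈ OO) : eps ⟨r, hr⟩ = a := by
  obtain ⟨s, h1, rfl, -⟩ := h
  rw [zpow_zero, one_mul] at h1
  subst h1
  exact (congrArg constantCoeff ((AlgEquiv.ofInjective (IsScalarTower.toAlgHom ℂ ℂ⟦X⟧ LK)
    inj).symm_apply_apply s)).trans (coeff_zero_eq_constantCoeff_apply s).symm

variable {I : Type} (c : I → ℂˣ) (k : I → ℤ) (i : I)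

theorem ex_chi : Ex 0 (chi c k i : LKˣ) (c i) (c i * k i) :=
  ((ex_U (k i)).smul (c i)).cast rfl rfl (mul_one _) rfl

theorem chi_mem : ((chi c k i : LKˣ) : LK) ∈ OO := mem_OO.2 (ex_chi c k i).reg

theorem eps_chi : eps ⟨_, chi_mem c k i⟩ = c i := (ex_chi c k i).eps _

end

end Pool.Agent.MP_5d9b3c_ag.P3D
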