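import Pool.Agent.MP_5d9b3c_ag.P3D.RRES
import Pool.Agent.MP_5d9b3c_ag.P3D.Rat2

/-! The divergence of a density. -/

namespace Pool.Agent.MP_5d9b3c_ag.P3D

open MP_ee8c61_ag M3 M3RESID M3BK P3 P3K P3T Set
open Pool.Agent.MP_96693b_ag

variable {p : ℕ} [Fact p.Prime] [Algebra ℚ_[p] ℂ] {L : Type} [Field L] [Algebra ℂ L] {n : ℕ}
  {A : GA ℚ_[p] L}

theorem sh_dv (C : Co L n) (t : Fin n → ℂ) : (sh C t).dv = C.dv :=
  Dv.ext' fun X => by simp [Co.dv_δ, sh]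

theorem pol_cx {T : ℂˣ} {la : ℚ} (h : ‖(T : ℂ)‖ = (p : ℝ) ^ (la : ℝ)) {δ : Dn A.fix n}
    {c : CBox A n} {o : DV L} (hp : δ.Pol T c o) :
    (la : ℂ) * o.v δ.u = o.v (δ.w c.b : A.fix) + 1 := by
  exact_mod_cast pol_ex h hp

open Classical in
/-- A monomial of the box is a monomial at every point. -/
theorem CBox.mon_at (c : CBox A n) {g : A.fix} {m : ℤ} {a : Fin n → ℤ} (hg : c.b.Mono g m a)
    {t : Fin n → ℚ_[p]} (ht : t ∈ Bl p n) : ∃ U ∈ (c.Q t).O, U⁻¹ ∈ (c.Q t).O ∧ U ≠ 0 ∧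
      (g : L) = U * (sh c.C (up t)).mon fun l => if t l = 0 then a l else 0 := by
  let U : A.fix := g / (∏ l, c.b.z l ^ a l) * ∏ l, c.b.z l ^ if t l = 0 then 0 else a l
  have h1 : ∀ l, (c.b.Φ t).ev (c.b.z l ^ if t l = 0 then 0 else a l) ≠ 0 := fun l => by
    split_ifs with e
    · rw [zpow_zero, Pt.ev_one]
      exact one_ne_zero
    · have := (c.b.sec t ht l).trans_ne e
      rw [Pt.ev_zpow this]
      exact zpow_ne_zero _ this
  have h2 : (c.b.Φ t).ev U ≠ 0 := by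
    rw [Pt.ev_mul _ _ (hg t ht).1 _ (prod_mem fun l _ => Pt.mem_of_ne (h1 l)),
      Pt.ev_prod _ _ fun l _ => Pt.mem_of_ne (h1 l)]
    exact mul_ne_zero (Box.Un.ne hg ht) (Finset.prod_ne_zero_iff.2 fun l _ => h1 l)
  refine ⟨U, (c.O t ht _).1 (Pt.mem_of_ne h2), (c.O t ht U⁻¹).1 (Pt.inv_mem' h2),
    coe_ne (Pt.ne_zero h2), ?_⟩
  have h3 : ∀ e : Fin n → ℤ, ((∏ l, c.b.z l ^ e l : A.fix) : L) = c.C.mon e := fun e => by
    simp only [Co.mon, ← c.z]
    push_cast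
    rfl
  have h4 : (sh c.C (up t)).mon (fun l => if t l = 0 then a l else 0) =
      c.C.mon fun l => if t l = 0 then a l else 0 := Finset.prod_congr rfl fun l _ => by
    by_cases e : t l = 0
    · rw [sh_z _ e]
    · simp [e]
  have h5 : a = (fun l => if t l = 0 then 0 else a l) + fun l => if t l = 0 then a l else 0 :=
    funext fun l => by by_cases e : t l = 0 <;> simp [e]
  rw [h4, Subfield.coe_mul, Subfield.coe_div, h3, h3, mul_assoc, ← Co.mon_add, ← h5,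
    div_mul_cancel₀ _ (c.C.mon_ne a)]

variable (p) in
theorem rOF [Algebra.IsAlgebraic ℚ_[p] ℂ] : SOF p where
  top f₀ f la he c := by
    have h : (((dn3 f).w c.b : (AK p).fix) : KK 3) = 1 * (M3.co 3).jac c.C := by
      rw [← c.coe_jac (r := xK p) fun _ => rfl]
      rfl
    rw [h, ← dn_chg _ _ one_ne_zero, dn_one, dvf, ← he]
    rfl
  res {L k _ _ _ _ n A B P h c i f δ T la d e} hT hf hu hw hp hd he f' := by
    have h1 := hf.on.at
    rw [dn_eq (e := e) hf.rc h1 (coe_ne hw) (coe_ne hu) h1.vz (pol_cx hT hp) (hd c ▸ he),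
      zpow_add_one₀ (c.C.ne i), mul_div_mul_right _ _ (c.C.ne i)]
    have h2 : ∀ g : A.fix, g ≠ 0 → (ini h (c.b.z i) g : k) = P.π (g / c.C.z i ^ P.o.v g) :=
      fun g hg => by
        rw [ini, coe_pf h (Or.inr (v_ini hf.vz hg).ge), ← c.z]
        push_cast
        rfl
    rw [← h2 _ hw, ← h2 _ hu, dn_chg _ f'.C (coe_ne (ini_ne h hf.vz hw)), ← f'.coe_jac f.z, ← hf.zf]
    rfl
  exp {L _ _ n A c o i δ T la e} hT h hu hw hp he := by
    have := (((h 0 zero_Bl rfl).exp (Co.ad_dv _ _)).tw (coe_ne hw) 1).tw (coe_ne hu) (-(la : ℂ))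
    rw [sh_dv, neg_mul, pol_cx hT hp, Pi.one_apply, one_mul, add_comm 1, add_neg_cancel] at this
    exact he c ▸ this
  ad {L _ _ n A c δ θ d la e} ha he t ht := by
    obtain ⟨U, a1, a2, a3, a4⟩ := c.mon_at ha.frm ht
    obtain ⟨U', b1, b2, b3, b4⟩ := c.mon_at (ha.fn 0) ht
    have := (((sh c.C (up t)).ad_dv _).tw (c.rg t ht).st a1 a2 a3 a4 1).tw (c.rg t ht).st
      b1 b2 b3 b4 (-(la : ℂ))
    rw [sh_dv] at this
    rw [he c]
    refine (congrArg (Co.Ad _ _ _) (funext fun l => ?_)).mp this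
    by_cases e : t l = 0 <;> simp [e, sub_eq_add_neg]

end Pool.Agent.MP_5d9b3c_ag.P3D
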