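import Pool.Agent.MP_5d9b3c_ag.P3D.Spec
import Pool.Agent.MP_5d9b3c_ag.P3X.CovS
import Pool.Agent.MP_ee8c61_ag.M3BK.RPt
import Pool.Agent.MP_ee8c61_ag.M3BK.RSurf
import Pool.Agent.MP_ee8c61_ag.M3BK.RAd

/-! The points of a face are good. -/

namespace Pool.Agent.MP_5d9b3c_ag.P3D

open MP_ee8c61_ag M3 M3RESID M3BK P3 P3K P3T Set
open Pool.Agent.MP_96693b_ag.RS (Loc)
open Pool.Agent.MP_96693b_ag

namespace RGP

variable {L k : Type} [Field L] [Algebra ℂ L] [Field k] [Algebra ℂ k] {n : ℕ}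

theorem ev_ratio {Q : Loc L} {a b : L} (ha : a ≠ 0) (hb : b ≠ 0) (h : a / b ∈ Q.O)
    (h' : b / a ∈ Q.O) : Q.ev (a / b) ≠ 0 := by
  have := Q.ev_mul _ h _ h'
  rw [div_mul_div_cancel₀ hb, div_self ha, RS.Loc.ev_one] at this
  exact left_ne_zero_of_mul_eq_one this.symm

theorem ev_pow {Q : Loc L} {a : L} (h : Q.ev a ≠ 0) (m : ℕ) : Q.ev (a ^ m) ≠ 0 := by
  induction m with
  | zero => simp [RS.Loc.ev_one]
  | succ m ih =>
    rw [pow_succ, Q.ev_mul _ (RS.Loc.mem_of_ev ih) _ (RS.Loc.mem_of_ev h)]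
    exact mul_ne_zero ih h

/-- The initial form of a monomial function is monomial. -/
theorem mn {P : Pl L k} {Q : Loc L} {x : Loc k} (hx : Pr P Q x) {C : Co L (n + 1)}
    {i : Fin (n + 1)} {C' : Co k n} (hC : P.RsC C i C') (hd : C.Dat Q.O P.o i)
    {z f : L} (h1 : P.o.v z = 1) (h2 : z ∈ Q.O) (h3 : C.z i / z ∈ Q.O)
    {c : Fin (n + 1) → ℤ} {a : ℕ} (hc : c i = a) (hf : Q.ev (f / C.mon c) ≠ 0) :
    x.ev (P.π (f / z ^ a) / C'.mon fun l => c (i.succAbove l)) ≠ 0 := by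
  have z0 : z ≠ 0 := fun e => by simp [e, P.o.zero] at h1
  have u1 := ev_pow (ev_ratio (C.ne i) z0 h3 (hd.div z h2 (Or.inr h1.ge))) a
  have e1 : c = Function.update c i 0 + Pi.single i (a : ℤ) := funext fun l => by
    by_cases h : l = i
    · simp [h, hc]
    · simp [h]
  have e2 : C.mon c = C.mon (Function.update c i 0) * C.z i ^ a := by
    conv_lhs => rw [e1, C.mon_add, C.mon_single, zpow_natCast]
  have e3 := hC.mon hd.adp (c := Function.update c i 0) (Function.update_self ..)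
  simp only [Function.update_of_ne (i.succAbove_ne _)] at e3
  have m0 := C.mon_ne (Function.update c i 0)
  have m1 : C.mon (Function.update c i 0) ∈ P.o.F 0 := by_contra fun h => by
    refine h (P.o.O.toSubring.prod_mem fun l _ => Or.inr ?_)
    rw [v_zpow _ (C.ne l)]
    by_cases h : l = i
    · simp [h]
    · rw [hd.adp.vz' h, mul_zero]
  have e4 : f / z ^ a = f / C.mon c * (C.z i / z) ^ a * C.mon (Function.update c i 0) := by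
    have := C.ne i
    rw [e2, div_pow]
    field_simp
  have g1 := mul_mem (RS.Loc.mem_of_ev hf) (RS.Loc.mem_of_ev u1)
  rw [e4, P.mul _ (hx.1 _ g1) _ m1, e3, mul_div_cancel_right₀ _ (C'.mon_ne _), hx.ev g1,
    Q.ev_mul _ (RS.Loc.mem_of_ev hf) _ (RS.Loc.mem_of_ev u1)]
  exact mul_ne_zero hf u1

end RGP

variable (p : ℕ) [Fact p.Prime] [Algebra ℚ_[p] ℂ] [Algebra.IsAlgebraic ℚ_[p] ℂ]

theorem rGP (hB : SBAS p) {X : Ctx p} {o : X.M.J} (S : ES X o) (x : X.𝓑.F1 o) :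
    ∀ t ∈ Bl p 2, ∃ (C : Co S.k 2) (a : Fin 2 → ℂ) (m : Fin 2 → ℤ),
      GP S.e (S.δ x).u C ((S.s.g x).Q t) a m ∧
        ∃ u ∈ S.e.Ex, ∃ c, S.v - u ∈ C.F ((S.s.g x).Q t).O c := by
  intro t ht
  obtain ⟨C, lab, hP⟩ := rPt X.eo X.f₀ X.M X.hyp.ne X.ok
  obtain ⟨T, rs, hT⟩ := rSurf X.eo X.con X.f₀ X.M C lab o _ (X.M.v o).pl X.ok hP rfl
  obtain ⟨h1, h2⟩ := rAd _ _ _ _ _ _ _ _ _ _ _ T rs S.e S.v X.hyp X.ok hP hT (hB.ex X o S.pol)
    S.sta.rd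
  have ht' := ins_Bl x.1.2 ht
  have hQ := X.𝓑.mem_pts x.1.1 ht'
  have h0 : (x.1.2.insertNth 0 t : Fin 3 → ℚ_[p]) x.1.2 = 0 := by simp
  have hO := (X.𝓑.on x.1.1 _ ht' o).2 ⟨x.1.2, x.2, h0⟩
  have hr := (S.s.fc x).pr ht
  have hd := (S.s.fc x).on _ ht' h0
  have hz := ((X.𝓑.c x.1.1).rg _ ht').st.z x.1.2
  have hv := hd.div
  rw [sh_z _ h0] at hz hv
  have e := hr.uniq ⟨hr.1, hT.O _ hQ hO⟩
  have hx : (S.s.g x).Q t ∈ T.X := e ▸ hT.X ▸ mem_image_of_mem rs ⟨hQ, hO⟩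
  obtain ⟨i, hi⟩ := ((hP _ hQ).on o).1 hO
  have h3 := (hP _ hQ).dat i o hi
  have h4 := (hP _ hQ).rg.st.z i
  have h5 := RGP.mn hr (hT.crd _ hQ i hi).1 h3 (hB.cu S x).1 hz
    (hv _ h4 (Or.inr h3.adp.vz.ge)) (a := X.M.a o) (by rw [hi]; rfl) (hP _ hQ).fm
  rw [← (hB.cu S x).2, ← e] at h5
  exact ⟨T.C _, _, _, ⟨T.rg _ hx, h1 _ hx, h5⟩, h2 S.sta.rs _ hx⟩

theorem rPts : OfPTS p := fun hB => ⟨fun {X o} S x x' t ht t' ht' V h1 h2 => by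
  obtain rfl := S.s.sepV (X.eo.bas 3 _ _ X.ok) ht ht' h1 h2
  refine ⟨rfl, funext fun i => by_contra fun hn => ?_⟩
  have a1 := (S.s.g x).rg t ht
  have a2 := (S.s.g x).rg t' ht'
  refine h1.2 _ (a1.st.z i) (a1.ev i) (RSurf.un_of_ev h2 ?_)
  have e : (sh (S.s.g x).C (up t)).z i =
      (sh (S.s.g x).C (up t')).z i + algebraMap ℂ _ (up t' i - up t i) := by simp [sh]
  rw [e, Loc.ev_add _ _ (a2.st.z i) _ (Subalgebra.algebraMap_mem _ _), a2.ev, Loc.ev_alg, zero_add]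
  exact sub_ne_zero.2 fun h => hn ((algebraMap ℚ_[p] ℂ).injective h).symm, rGP p hB⟩

end Pool.Agent.MP_5d9b3c_ag.P3D
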