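import Pool.Agent.MP_5d9b3c_ag.P3D.Res
import Pool.Agent.MP_5d9b3c_ag.P3K.Mono
import Pool.Agent.MP_5d9b3c_ag.P3K.Spec

/-!
The regularised integrals over a rational curve vanish to second order.
-/

namespace Pool.Agent.MP_5d9b3c_ag.P3D

open P3K Finset MeasureTheory

variable {p : ℕ} [Fact p.Prime] {L : Type} [Field L] [Algebra ℚ_[p] L] {ι ι' : Type}

theorem jac_one (b : Box p L 1) (r : Fin 1 → L) : b.jac r = b.D 0 (r 0) := by
  rw [Box.jac, Matrix.det_unique]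
  rfl

/-- The order of the derivative. -/
theorem jac_ord {b : Box p L 1} {s : L} {μ γ : ℤ} {A A' : Fin 1 → ℤ} (h : b.Mono s μ A)
    (h' : b.Mono (b.jac fun _ => s) γ A') : (A 0 = 0 → 0 ≤ A' 0) ∧ (A 0 ≠ 0 → A' 0 = A 0 - 1) := by
  refine ⟨fun e => h'.nonneg (fun t ht => b.jac_mem ht fun _ =>
    h.reg (fun l => by rw [Subsingleton.elim l 0, e]) t ht) 0, fun e => ?_⟩
  have h1 := ((b.mono_z 0).mul h').div h
  have h2 : b.Un (s / b.z 0 ^ A 0) μ := by simpa only [Box.Mono, Fin.prod_univ_one] using h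
  have h3 : b.z 0 * (b.jac fun _ => s) / s = algebraMap ℚ_[p] L (A 0) +
      b.z 0 * (b.D 0 (s / b.z 0 ^ A 0) / (s / b.z 0 ^ A 0)) := by
    have := h.ne
    have := b.z_ne 0
    have := zpow_ne_zero (A 0) (b.z_ne 0)
    rw [jac_one, Derivation.leibniz_div, Derivation.leibniz_zpow, b.dual, if_pos rfl, map_intCast,
      zpow_sub_one₀ (b.z_ne 0)]
    simp only [smul_eq_mul, zsmul_eq_mul]
    field_simp
    ring
  have h4 : ∀ t ∈ Bl p 1, b.D 0 (s / b.z 0 ^ A 0) / (s / b.z 0 ^ A 0) ∈ (b.Φ t).O := fun t ht =>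
    Pt.div_mem (b.Dm t ht 0 _ (h2 t ht).1) (h2.ne ht)
  rw [h3] at h1
  have h5 := h1.nonneg (fun t ht => add_mem (Subalgebra.algebraMap_mem _ _)
    (mul_mem (b.zm t ht 0) (h4 t ht))) 0
  by_contra h6
  obtain ⟨k, hk⟩ := Int.eq_ofNat_of_zero_le h5
  have h8 : (b.Φ 0).ev (algebraMap ℚ_[p] L (A 0) +
      b.z 0 * (b.D 0 (s / b.z 0 ^ A 0) / (s / b.z 0 ^ A 0))) = A 0 := by
    rw [Pt.ev_add _ _ (Subalgebra.algebraMap_mem _ _) _ (mul_mem (b.zm 0 zero_bl 0) (h4 0 zero_bl)),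
      Pt.ev_alg, Pt.ev_mul _ _ (b.zm 0 zero_bl 0) _ (h4 0 zero_bl), b.sec 0 zero_bl, Pi.zero_apply,
      zero_mul, add_zero]
  have h9 := (h1 0 zero_bl).1
  rw [Fin.prod_univ_one, hk, zpow_natCast] at h9
  rw [← div_mul_cancel₀ (_ + _) (pow_ne_zero k (b.z_ne 0)), Pt.ev_mul _ _ h9 _
    (pow_mem (b.zm 0 zero_bl 0) k), Pt.ev_pow _ (b.zm 0 zero_bl 0), b.sec 0 zero_bl, Pi.zero_apply,
    zero_pow (by simp at hk; omega), mul_zero] at h8
  exact e (Int.cast_eq_zero.1 h8.symm)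

/-- The data of the form `d s / s` and of the function `s`. -/
def sd (μ γ : ℤ) (A A' : Fin 1 → ℤ) : MD Unit 1 :=
  ⟨γ - μ, fun l => A' l - A l + 1, fun _ => μ, fun _ => A⟩

theorem p_ne : (p : ℂ) ≠ 0 := Nat.cast_ne_zero.2 (Fact.out : p.Prime).ne_zero

theorem norm_zpow_ne {x : ℂ} (h : ‖x‖ ≠ 1) {e : ℤ} (he : e ≠ 0) : x ^ e ≠ 1 := fun h1 =>
  h (((zpow_eq_one_iff_of_ne_zero₀ he).1 (by rw [← norm_zpow, h1, norm_one])).resolve_right
    fun h2 => by linarith [norm_nonneg x, h2.1])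

theorem base (hE : REIG) [Fintype ι] {b : ι → Box p L 1} {X₀ : Set L} (h1 : Dis b)
    (h2 : Itg b X₀) (h3 : Cov b X₀) (hX : X₀ ⊆ Set.range (algebraMap ℚ_[p] L)) {s : L}
    (he : ∃ e : L ≃ₐ[ℚ_[p]] L, e s = p * s) {ξ : ℂˣ} (hξ : ‖(ξ : ℂ)‖ ≠ 1) {μ γ : ι → ℤ}
    {A A' : ι → Fin 1 → ℤ} (h : ∀ i, (b i).Mono s (μ i) (A i))
    (h' : ∀ i, (b i).Mono ((b i).jac fun _ => s) (γ i) (A' i)) :
    (∀ i l, rho (sd (μ i) (γ i) (A i) (A' i)) p (fun _ => ξ) l ≠ 1) ∧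
    ∑ i, v0 (sd (μ i) (γ i) (A i) (A' i)) p (fun _ => ξ) = 0 ∧
    ∑ i, J (sd (μ i) (γ i) (A i) (A' i)) p (fun _ => ξ) (fun _ => 1) = 0 := by
  obtain ⟨e, he⟩ := he
  have k1 : ∀ i l, rho (sd (μ i) (γ i) (A i) (A' i)) p (fun _ => ξ) l ≠ 1 := fun i l => by
    obtain ⟨k1, k2⟩ := jac_ord (h i) (h' i)
    rw [Subsingleton.elim l 0]
    simp only [rho, sd, univ_unique, prod_singleton, Units.val_zpow_eq_zpow_val]
    by_cases e : A i 0 = 0
    · rw [e, zpow_zero, mul_one]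
      refine norm_zpow_ne ?_ (by have := k1 e; omega)
      rw [Complex.norm_natCast]
      exact H72.one_lt_p.ne'
    · rw [k2 e, show -(A i 0 - 1 - A i 0 + 1) = 0 by ring, zpow_zero, one_mul]
      exact norm_zpow_ne hξ e
  refine ⟨k1, ?_⟩
  have k2 := hE b X₀ e s⁻¹ (fun _ => s) (fun _ : Unit => s) (chi (fun _ => ξ) fun _ => 1)
    (fun i => sd (μ i) (γ i) (A i) (A' i)) (fun _ => p) (fun _ => 1) 1 0 h1 h2 h3
    (fun i => ⟨⟨((h i).inv.mul (h' i)).congr (by simp only [sd]; ring)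
      (funext fun l => by simp only [sd, Pi.add_apply, Pi.neg_apply]; ring), fun _ => h i⟩,
      ⟨fun _ => (le_total 0 (A i 0)).imp (fun k l => Subsingleton.elim 0 l ▸ k)
        fun k l => Subsingleton.elim 0 l ▸ k, fun l k => by
          have k3 : A i l = 0 := k ()
          rw [Subsingleton.elim l 0] at k3 ⊢
          have := (jac_ord (h i) (h' i)).1 k3
          simp only [sd]
          omega⟩, nd_chi fun l => .inl (k1 i l)⟩)
    (fun c hc => (hX hc).elim fun a ha => ha ▸ e.commutes a)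
    (fun _ => ⟨by rw [he, Algebra.smul_def, map_natCast], by simp⟩)
    (fun b' => by
      have : CharZero L := charZero_of_injective_algebraMap (algebraMap ℚ_[p] L).injective
      have : (p : L) ≠ 0 := Nat.cast_ne_zero.2 (Fact.out : p.Prime).ne_zero
      rw [jac_one, jac_one, map_inv₀, he, Derivation.leibniz, Derivation.map_natCast, one_smul,
        smul_zero, add_zero, smul_eq_mul]
      field_simp) (by simp)
  rw [chi_prod, neg_zero, zpow_zero, map_one, one_mul] at k2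
  have k3 := (mul_eq_zero.1 k2).resolve_left fun h0 => hξ (by
    have := ((ex_den _ _).uniq (h0 ▸ Ex.zero _)).1
    rw [sub_eq_zero] at this
    simpa using congrArg norm this.symm)
  exact (Ex.sum univ fun i _ => ex_val _ (k1 i)).uniq (k3 ▸ Ex.zero 0)

theorem num {T P : ℂ} (hT : T ≠ 0) (hP : P ≠ 0) {N ν m n : ℤ} (h : T ^ N * P ^ (-ν) = 1)
    (x x' y w : ℤ) : P ^ (-(x + n * y + ν * w)) * T ^ (x' + m * y + N * w) =
      P ^ (-x) * T ^ x' * (T ^ m * P ^ (-n)) ^ y := by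
  have := congrArg (· ^ w) h
  simp only [mul_zpow, one_zpow, ← zpow_mul] at this ⊢
  rw [neg_add, neg_add, zpow_add₀ hP, zpow_add₀ hP, zpow_add₀ hT, zpow_add₀ hT, ← neg_mul,
    ← neg_mul]
  linear_combination P ^ (-x) * P ^ (-n * y) * T ^ x' * T ^ (m * y) * this

section Rfn

variable {n : ℕ} {b : ι → Box p L n} {b' : ι' → Box p L n} {π : ι' → ι} {X₀ : Set L}

theorem rfn_dis (h : Rfn b b' π) (h1 : Dis b) : Dis b' := fun i j t ht s hs e => by
  obtain ⟨t', k1, k2⟩ := h.sub i t ht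
  obtain ⟨s', k3, k4⟩ := h.sub j s hs
  exact h.dis i j (h1 _ _ t' k1 s' k3 (k2.trans (e.trans k4.symm))) t ht s hs e

theorem rfn_itg (h : Rfn b b' π) (h1 : Itg b X₀) : Itg b' X₀ := fun i t ht => by
  obtain ⟨t', k1, k2⟩ := h.sub i t ht
  exact k2 ▸ h1 _ t' k1

theorem rfn_cov (h : Rfn b b' π) (h1 : Cov b X₀) : Cov b' X₀ :=
  h1.imp fun _ k => ⟨k.1, fun x k1 k2 => by
    obtain ⟨i, t, ht, e⟩ := k.2 x k1 k2
    obtain ⟨j, -, s, hs, e'⟩ := h.cov i t ht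
    exact ⟨j, s, hs, e' ▸ e⟩⟩

theorem rfn_over (h : Rfn b b' π) (j : ι') : (b' j).Over (b (π j)) := fun t ht =>
  (h.sub j t ht).imp fun _ k => ⟨k.1, k.2.le⟩

theorem rfn_eqv (h : Rfn b b' π) (i : ι) :
    Eqv (fun _ : Unit => b i) fun j : {j // π j = i} => b' j :=
  ⟨fun _ => (ae_restrict_mem Metric.isClosed_closedBall.measurableSet).mono fun t ht => by
    obtain ⟨j, e, k⟩ := h.cov i t ht
    exact ⟨⟨j, e⟩, k⟩,
  fun ⟨j, e⟩ => (ae_restrict_mem Metric.isClosed_closedBall.measurableSet).mono fun t ht =>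
    ⟨(), e ▸ h.sub j t ht⟩⟩

/-- One of the small balls has the centre zero. -/
theorem rfn_zero (hH : RHER) (h : Rfn b b' π) {c : ι' → Fin n → ℚ_[p]} {e : ι' → ℕ}
    (h1 : ∀ j, (b (π j)).IsSub (c j) (e j) (b' j) ∧ Nm (c j) (e j)) (i : ι) :
    ∃ j, π j = i ∧ ∀ l, c j l = 0 := by
  obtain ⟨j, rfl, t, ht, k⟩ := h.cov i 0 zero_bl
  refine ⟨j, rfl, fun l => ((h1 j).2 l).resolve_right (not_lt.2 ?_)⟩
  rw [(h1 j).1.Φ t ht] at k
  have := congrFun ((b _).inj (hH.mem _ (h1 j).1.mem ht) zero_bl k) l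
  rw [Pi.add_apply, Pi.zero_apply, add_eq_zero_iff_eq_neg] at this
  rw [this, norm_neg, Pi.smul_apply, smul_eq_mul, norm_mul, Padic.norm_p_pow]
  exact mul_le_of_le_one_right (zpow_pos p_pos _).le (mem_bl.1 ht l)

end Rfn

/-- The data with the coordinate as an additional function. -/
def ext (d : MD (Fin 2) 1) : MD (Fin 3) 1 :=
  ⟨d.c, d.ν, ![d.m 0, d.m 1, 0], ![d.A 0, d.A 1, Pi.single 0 1]⟩

/-- The curve.  The density is `T ^ ord u * |j d r|`, the weight is `ord θ`. -/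
theorem curve (hR : RRF1) (hH : RHER) (hE : REIG) [Fintype ι] {b : ι → Box p L 1} {X₀ : Set L}
    (h1 : Dis b) (h2 : Itg b X₀) (h3 : Cov b X₀) (hX : X₀ ⊆ Set.range (algebraMap ℚ_[p] L))
    {s : L} {s₁ : ℚ_[p]} {T : ℂˣ} {N ν m n a a₁ μ₀ γ₀ θ₀ : ℤ} {j u θ g : ι → L}
    {r : ι → Fin 1 → L} {d : ι → MD (Fin 2) 1}
    (hd : ∀ i, (b i).Adp (j i) (r i) ![u i, θ i] (d i)) (hg : ∀ i, g i ≠ 0)
    (hu : ∀ i, (b i).Un (u i / (s ^ m * g i ^ N)) μ₀)
    (hj : ∀ i, (b i).Un (j i * (b i).jac (r i) /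
      (s ^ (n - 1) * g i ^ ν * (b i).jac fun _ => s)) γ₀)
    (hθ : ∀ i, (b i).Un (θ i / (s ^ a * (s - algebraMap ℚ_[p] L s₁) ^ a₁)) θ₀)
    (hT : (T : ℂ) ^ N * (p : ℂ) ^ (-ν) = 1) (hξ : ‖(T : ℂ) ^ m * (p : ℂ) ^ (-n)‖ ≠ 1)
    (he : ∃ e : L ≃ₐ[ℚ_[p]] L, e s = p * s)
    (ha : a₁ = 0 ∨ ((T : ℂ) ^ m * (p : ℂ) ^ (-n) = (p : ℂ)⁻¹ ∧ ∃ e : L ≃ₐ[ℚ_[p]] L,
      e (s - algebraMap ℚ_[p] L s₁) = p * (s - algebraMap ℚ_[p] L s₁))) :
    (∀ i l, rho (d i) p ![T, 1] l ≠ 1) ∧ ∑ i, v0 (d i) p ![T, 1] = 0 ∧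
      ∑ i, J (d i) p ![T, 1] ![0, 1] = 0 := by
  classical
  set t := s - algebraMap ℚ_[p] L s₁ with ht
  have jt : ∀ b : Box p L 1, (b.jac fun _ => t) = b.jac fun _ => s := fun b => by
    rw [jac_one, jac_one, ht, map_sub, Derivation.map_algebraMap, sub_zero]
  have j0 : ∀ i, ((b i).jac fun _ => s) ≠ 0 := fun i e => (hj i).ne_zero (by simp [e])
  obtain ⟨ι', _, π, b', c, e, k1, k2⟩ := hR b (fun i => {s, t, g i}) fun i => by
    have k1 : s ≠ 0 := fun e => j0 i (by rw [jac_one, e, map_zero])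
    have k2 : t ≠ 0 := fun e => j0 i (by rw [← jt, jac_one, e, map_zero])
    simp [k1.symm, k2.symm, (hg i).symm]
  have k3 : ∀ i, (b i).Adp (j i) (r i) ![u i, θ i, (b i).z 0] (ext (d i)) := fun i =>
    ⟨(hd i).frm, fun l => by
      fin_cases l
      exacts [(hd i).fn 0, (hd i).fn 1, (b i).mono_z 0]⟩
  choose d' k4 k5 using fun x => hH.adp (k2 x).1 (k2 x).2.1 (k3 (π x))
  choose μs As ms using fun x => (k2 x).2.2 s (by simp)
  choose μt At mt using fun x => (k2 x).2.2 t (by simp)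
  choose μg Ag mg using fun x => (k2 x).2.2 (g (π x)) (by simp)
  have e0 := fun x => (((hu _).over (rfn_over k1 x)).mono.mul
    (((ms x).zpow m).mul ((mg x).zpow N)))
  have e1 := fun x => (((hθ _).over (rfn_over k1 x)).mono.mul
    (((ms x).zpow a).mul ((mt x).zpow a₁)))
  replace e0 := fun x => ((k4 x).fn 0).uniq (by
    have := e0 x
    rwa [div_mul_cancel₀ _ (((ms x).zpow m).mul ((mg x).zpow N)).ne] at this)
  replace e1 := fun x => ((k4 x).fn 1).uniq (by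
    have := e1 x
    rwa [div_mul_cancel₀ _ (((ms x).zpow a).mul ((mt x).zpow a₁)).ne] at this)
  have mj : ∀ x, (b' x).Mono ((b' x).jac fun _ => s)
      ((d' x).c - (γ₀ + ((n - 1) * μs x + ν * μg x)))
      ((fun l => (d' x).ν l - 1) - (0 + ((n - 1) • As x + ν • Ag x))) := fun x => by
    have k6 := ((ms x).zpow (n - 1)).mul ((mg x).zpow ν)
    have := (k4 x).frm.div (((hj _).over (rfn_over k1 x)).mono.mul k6)
    have k7 := (k4 x).frm.ne
    have k8 := left_ne_zero_of_mul k6.ne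
    have k8' := right_ne_zero_of_mul k6.ne
    have k9 := j0 (π x)
    rw [(b' x).jac_chain (b (π x))] at this k7 ⊢
    have := left_ne_zero_of_mul k7
    have := right_ne_zero_of_mul (right_ne_zero_of_mul k7)
    refine (congrArg ((b' x).Mono · _ _) ?_).mp ‹_›
    field_simp
  set ξ : ℂˣ := T ^ m * Units.mk0 (p : ℂ) p_ne ^ (-n) with hξ'
  have hξ0 : (ξ : ℂ) = (T : ℂ) ^ m * (p : ℂ) ^ (-n) := by simp [hξ']
  obtain ⟨b1, b2, b3⟩ := base hE (rfn_dis k1 h1) (rfn_itg k1 h2) (rfn_cov k1 h3) hX he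
    (hξ0 ▸ hξ) ms mj
  set ds := fun x => sd (μs x) ((d' x).c - (γ₀ + ((n - 1) * μs x + ν * μg x))) (As x)
    ((fun l => (d' x).ν l - 1) - (0 + ((n - 1) • As x + ν • Ag x))) with hds
  have c1 : ∀ x, cz (d' x) p ![T, 1, 1] =
      (p : ℂ) ^ (-γ₀) * (T : ℂ) ^ μ₀ * cz (ds x) p fun _ => ξ := fun x => by
    have := num T.ne_zero p_ne hT (m := m) (n := n) (γ₀ + (ds x).c) μ₀ (μs x) (μg x)
    rw [show γ₀ + (ds x).c + n * μs x + ν * μg x = (d' x).c by simp only [hds, sd]; ring,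
      add_assoc, ← (e0 x).1, neg_add, zpow_add₀ p_ne, ← hξ0] at this
    simp only [cz, Fin.prod_univ_three, univ_unique, prod_singleton]
    simp only [Matrix.cons_val, one_zpow, mul_one, Units.val_zpow_eq_zpow_val, this]
    change _ = _ * (_ * (ξ : ℂ) ^ μs x)
    ring
  have c2 : ∀ x l, rho (d' x) p ![T, 1, 1] l = rho (ds x) p (fun _ => ξ) l := fun x l => by
    have := num T.ne_zero p_ne hT (m := m) (n := n) ((ds x).ν l) 0 (As x l) (Ag x l)
    rw [show (ds x).ν l + n * As x l + ν * Ag x l = (d' x).ν l by simp [hds, sd]; ring,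
      show 0 + m * As x l + N * Ag x l = (d' x).A 0 l by simp [(e0 x).2], zpow_zero, mul_one,
      ← hξ0] at this
    simp only [rho, Fin.prod_univ_three, univ_unique, prod_singleton]
    simp only [Matrix.cons_val, one_zpow, mul_one, Units.val_zpow_eq_zpow_val, this]
    rfl
  have c3 : ∀ x, v0 (d' x) p ![T, 1, 1] =
      (p : ℂ) ^ (-γ₀) * (T : ℂ) ^ μ₀ * v0 (ds x) p fun _ => ξ := fun x => by
    simp only [v0, c1, c2, mul_assoc]
  have c4 : ∑ x, J (d' x) p ![T, 1, 1] ![0, 1, 0] = 0 := by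
    have : ∃ F : ι' → ℂ, ∑ x, F x = 0 ∧ ∀ x, a₁ * F x = a₁ * (v0 (ds x) p (fun _ => ξ) *
        (μt x + At x 0 * rho (ds x) p (fun _ => ξ) 0 / (1 - rho (ds x) p (fun _ => ξ) 0))) := by
      rcases ha with rfl | ⟨h4, h5⟩
      · exact ⟨0, by simp, by simp⟩
      refine ⟨_, (base hE (rfn_dis k1 h1) (rfn_itg k1 h2) (rfn_cov k1 h3) hX h5 (hξ0 ▸ hξ) mt
        fun x => (jt _).symm ▸ mj x).2.2, fun x => congrArg _ ?_⟩
      have k6 : ∀ y w w' : ℤ, (p : ℂ) ^ (-(y - w)) * (ξ : ℂ) ^ w =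
          (p : ℂ) ^ (-(y - w')) * (ξ : ℂ) ^ w' := fun y w w' => by
        rw [hξ0, h4, inv_zpow', inv_zpow', ← zpow_add₀ p_ne, ← zpow_add₀ p_ne]
        exact congrArg _ (by ring)
      have k7 : ∀ l, rho (sd (μt x) ((d' x).c - (γ₀ + ((n - 1) * μs x + ν * μg x))) (At x)
          ((fun l => (d' x).ν l - 1) - (0 + ((n - 1) • As x + ν • Ag x)))) p (fun _ => ξ) l =
          rho (ds x) p (fun _ => ξ) l := fun l => by
        simp only [rho, hds, sd, univ_unique, prod_singleton, Units.val_zpow_eq_zpow_val,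
          ← add_sub_right_comm]
        exact k6 ..
      rw [J, v0_congr (d' := ds x) (c' := fun _ => ξ) ?_ k7, Fin.sum_univ_one, k7]
      · simp [mm, kk, sd]
      · simp only [cz, hds, sd, univ_unique, prod_singleton, Units.val_zpow_eq_zpow_val]
        exact k6 ..
    obtain ⟨F, k6, k7⟩ := this
    have : ∀ x, J (d' x) p ![T, 1, 1] ![0, 1, 0] = (p : ℂ) ^ (-γ₀) * (T : ℂ) ^ μ₀ *
        (θ₀ * v0 (ds x) p (fun _ => ξ) + a * J (ds x) p (fun _ => ξ) (fun _ => 1) + a₁ * F x) :=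
      fun x => by
        rw [k7, J, J, c3, Fin.sum_univ_one, Fin.sum_univ_one, c2,
          show mm (d' x) ![0, 1, 0] = θ₀ + (a * μs x + a₁ * μt x) by
            simp [mm, Fin.sum_univ_three, (e1 x).1],
          show kk (d' x) ![0, 1, 0] 0 = a * As x 0 + a₁ * At x 0 by
            simp [kk, Fin.sum_univ_three, (e1 x).2],
          show mm (ds x) (fun _ => 1) = μs x by simp [mm, hds, sd],
          show kk (ds x) (fun _ => 1) 0 = As x 0 by simp [kk, hds, sd]]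
        push_cast
        ring
    simp only [this, ← mul_sum, sum_add_distrib, k6]
    rw [b2, b3]
    simp
  have x1 : ∀ i, cz (d i) p ![T, 1] = cz (ext (d i)) p ![T, 1, 1] := fun i => by
    simp [cz, ext, Fin.prod_univ_three]
  have x2 : ∀ i l, rho (d i) p ![T, 1] l = rho (ext (d i)) p ![T, 1, 1] l := fun i l => by
    simp [rho, ext, Fin.prod_univ_three]
  have r1 : ∀ i l, rho (d i) p ![T, 1] l ≠ 1 := fun i l => by
    obtain ⟨x, rfl, h4⟩ := rfn_zero hH k1 (fun x => ⟨(k2 x).1, (k2 x).2.1⟩) i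
    have := b1 x l
    rw [← c2, rho, (k5 x).ν0 l (h4 l)] at this
    simp only [(k5 x).A0 _ l (h4 l)] at this
    exact x2 _ _ ▸ this
  have r2 : ∑ i, (d i).val p (chi ![T, 1] ![0, 1]) =
      ∑ x, (d' x).val p (chi ![T, 1, 1] ![0, 1, 0]) := by
    rw [← Fintype.sum_fiberwise π]
    refine sum_congr rfl fun i _ => ?_
    have t1 : (ext (d i)).Tame := ⟨fun x => (le_total 0 ((ext (d i)).A x 0)).imp
      (fun k l => Subsingleton.elim 0 l ▸ k) fun k l => Subsingleton.elim 0 l ▸ k, fun l k => by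
        have := k 2
        rw [Subsingleton.elim l 0] at this
        simp [ext] at this⟩
    have t2 : (ext (d i)).ND p (chi ![T, 1, 1] ![0, 1, 0]) :=
      nd_chi fun l => .inl (x2 i l ▸ r1 i l)
    rw [val_congr (d' := ext (d i)) (k' := ![0, 1, 0]) (x1 i) (x2 i)
      (by simp [mm, ext, Fin.sum_univ_three]) fun l => by simp [kk, ext, Fin.sum_univ_three]]
    refine (Fintype.sum_unique fun _ : Unit => (ext (d i)).val p _).symm.trans
      (pv (fun _ _ _ _ _ _ _ => rfl) (fun x y t ht s hs e => Subtype.ext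
        (k1.dis _ _ (x.2.trans y.2.symm) t ht s hs e)) (rfn_eqv k1 i)
        (fun _ => ⟨k3 i, t1, t2⟩) fun x => ?_)
    obtain ⟨x, rfl⟩ := x
    exact ⟨k4 x, hH.tame (k5 x) t1, hH.nd (k5 x) t2⟩
  have := (Ex.sum univ fun i _ => ex_val _ (r1 i)).uniq
    (r2 ▸ Ex.sum univ fun x _ => ex_val _ fun l => c2 x l ▸ b1 x l)
  refine ⟨r1, this.1.trans ?_, this.2.trans c4⟩
  simp only [c3, ← mul_sum]
  rw [b2, mul_zero]

end Pool.Agent.MP_5d9b3c_ag.P3D
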