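import Pool.Agent.MP_5d9b3c_ag.P3D.Cv1

/-!
The first derivative of the box sums on a curve.
-/

namespace Pool.Agent.MP_5d9b3c_ag.P3D.CJ

open P3K Finset

noncomputable section

variable {p : ℕ} [Fact p.Prime] {L k : Type} [Field L] [Algebra ℚ_[p] L] [Field k]
  [Algebra ℚ_[p] k] {ι : Type}

theorem pc_ne : (p : ℂ) ≠ 0 := Nat.cast_ne_zero.2 (Fact.out : p.Prime).ne_zero

variable (p) in
/-- The weight `p ^ (-a) * T ^ m`. -/
def wt (T : ℂˣ) (a m : ℤ) : ℂ := (p : ℂ) ^ (-a) * (T ^ m : ℂˣ)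

theorem wt_add (T : ℂˣ) (a m a' m' : ℤ) : wt p T (a + a') (m + m') = wt p T a m * wt p T a' m' := by
  rw [wt, neg_add, zpow_add₀ pc_ne, zpow_add, Units.val_mul, mul_mul_mul_comm]
  rfl

omit [Fact p.Prime] in
theorem wt_mul (T : ℂˣ) (e a m : ℤ) : wt p T (e * a) (e * m) = wt p T a m ^ e := by
  rw [wt, wt, mul_zpow, ← zpow_mul, ← Units.val_zpow_eq_zpow_val, ← zpow_mul, neg_mul, mul_comm e,
    mul_comm e]

omit [Fact p.Prime] in
theorem wt_zero (T : ℂˣ) : wt p T 0 0 = 1 := by simp [wt]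

/-- `g` is monomial on `b`. -/
abbrev Mo (b : Box p L 1) (g : L) : Prop := ∃ m A, b.Mono g m A

variable (p) in
/-- The density `|q| T ^ ord g` is trivial. -/
def Nul (T : ℂˣ) (q g : L) : Prop := q ≠ 0 ∧ g ≠ 0 ∧ ∃ Y : Finset L, 0 ∉ Y ∧ ∀ b : Box p L 1,
  (∀ y ∈ Y, Mo b y) → ∀ c A m B, b.Mono q c A → b.Mono g m B →
    wt p T c m = 1 ∧ wt p T (A 0) (B 0) = 1

variable {T : ℂˣ} {q g q' g' w : L}

theorem Nul.mul (h : Nul p T q g) (h' : Nul p T q' g') : Nul p T (q * q') (g * g') := by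
  classical
  obtain ⟨h1, h2, Y, h3, h4⟩ := h
  obtain ⟨h5, h6, Y', h7, h8⟩ := h'
  refine ⟨mul_ne_zero h1 h5, mul_ne_zero h2 h6, insert q (insert g (Y ∪ Y')),
    by simp [h1.symm, h2.symm, h3, h7], fun b hb c A m B k1 k2 => ?_⟩
  obtain ⟨c1, A1, k3⟩ := hb q (by simp)
  obtain ⟨m1, B1, k4⟩ := hb g (by simp)
  have k5 := k1.div k3
  have k6 := k2.div k4
  rw [mul_div_cancel_left₀ _ h1] at k5
  rw [mul_div_cancel_left₀ _ h2] at k6
  have e1 := h4 b (fun y hy => hb y (by simp [hy])) _ _ _ _ k3 k4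
  have e2 := h8 b (fun y hy => hb y (by simp [hy])) _ _ _ _ k5 k6
  have e3 := wt_add (p := p) T c1 m1 (c - c1) (m - m1)
  have e4 := wt_add (p := p) T (A1 0) (B1 0) (A 0 - A1 0) (B 0 - B1 0)
  rw [add_sub_cancel, add_sub_cancel, e1.1, e2.1, one_mul] at e3
  rw [add_sub_cancel, add_sub_cancel, e1.2, one_mul] at e4
  exact ⟨e3, e4.trans e2.2⟩

theorem Nul.zpow (h : Nul p T q g) (e : ℤ) : Nul p T (q ^ e) (g ^ e) := by
  classical
  obtain ⟨h1, h2, Y, h3, h4⟩ := h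
  refine ⟨zpow_ne_zero _ h1, zpow_ne_zero _ h2, insert q (insert g Y),
    by simp [h1.symm, h2.symm, h3], fun b hb c A m B k1 k2 => ?_⟩
  obtain ⟨c1, A1, k3⟩ := hb q (by simp)
  obtain ⟨m1, B1, k4⟩ := hb g (by simp)
  obtain ⟨rfl, rfl⟩ := k1.uniq (k3.zpow e)
  obtain ⟨rfl, rfl⟩ := k2.uniq (k4.zpow e)
  have e1 := h4 b (fun y hy => hb y (by simp [hy])) _ _ _ _ k3 k4
  simp only [Pi.smul_apply, smul_eq_mul, wt_mul, e1, one_zpow, and_self]

theorem Nul.inv (h : Nul p T q g) : Nul p T q⁻¹ g⁻¹ := by simpa using h.zpow (-1)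

theorem Nul.div (h : Nul p T q g) (h' : Nul p T q' g') : Nul p T (q / q') (g / g') := by
  simpa only [div_eq_mul_inv] using h.mul h'.inv

theorem Nul.cast (h : Nul p T q g) (e : q = q') (e' : g = g') : Nul p T q' g' := e ▸ e' ▸ h

/-- A change of the equation of a polar divisor. -/
theorem nul_tw (hw : w ≠ 0) {ν N : ℤ} (h : wt p T ν N = 1) : Nul p T (w ^ ν) (w ^ N) := by
  refine ⟨zpow_ne_zero _ hw, zpow_ne_zero _ hw, {w}, by simp [hw.symm],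
    fun b hb c A m B k1 k2 => ?_⟩
  obtain ⟨c1, A1, k3⟩ := hb w (by simp)
  obtain ⟨rfl, rfl⟩ := k1.uniq (k3.zpow ν)
  obtain ⟨rfl, rfl⟩ := k2.uniq (k3.zpow N)
  simp only [Pi.smul_apply, smul_eq_mul, mul_comm ν, mul_comm N, wt_mul, h, one_zpow, and_self]

theorem nul_cst {a c : ℚ_[p]} (ha : a ≠ 0) (hc : c ≠ 0) (h : wt p T a.valuation c.valuation = 1) :
    Nul p T (algebraMap ℚ_[p] L a) (algebraMap ℚ_[p] L c) := by
  refine ⟨(map_ne_zero _).2 ha, (map_ne_zero _).2 hc, ∅, by simp, fun b _ c A m B k1 k2 => ?_⟩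
  obtain ⟨rfl, rfl⟩ := k1.uniq (b.mono_cst ha)
  obtain ⟨rfl, rfl⟩ := k2.uniq (b.mono_cst hc)
  exact ⟨h, wt_zero T⟩

theorem nul_one : Nul p T (1 : L) 1 := by
  simpa using nul_tw (p := p) (T := T) (one_ne_zero : (1 : L) ≠ 0) (wt_zero T)

theorem Nul.neg (h : Nul p T q g) : Nul p T (-q) g := by
  obtain ⟨h1, h2, Y, h3, h4⟩ := h
  exact ⟨neg_ne_zero.2 h1, h2, Y, h3, fun b hb c A m B k1 k2 =>
    h4 b hb c A m B (neg_neg q ▸ k1.neg) k2⟩

theorem Nul.neg' (h : Nul p T q g) : Nul p T q (-g) := by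
  obtain ⟨h1, h2, Y, h3, h4⟩ := h
  exact ⟨h1, neg_ne_zero.2 h2, Y, h3, fun b hb c A m B k1 k2 =>
    h4 b hb c A m B k1 (neg_neg g ▸ k2.neg)⟩

theorem nul_sgn (e e' : ℕ) : Nul p T ((-1 : L) ^ e) ((-1) ^ e') := by
  rcases neg_one_pow_eq_or L e with h | h <;> rcases neg_one_pow_eq_or L e' with h' | h' <;>
    rw [h, h']
  exacts [nul_one, nul_one.neg', nul_one.neg, nul_one.neg.neg']

theorem Nul.prod {W : Type} (S : Finset W) {q g : W → L} (h : ∀ x ∈ S, Nul p T (q x) (g x)) :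
    Nul p T (∏ x ∈ S, q x) (∏ x ∈ S, g x) := by
  classical
  induction S using Finset.induction_on with
  | empty => simpa using nul_one
  | insert i S hi ih =>
    simp only [prod_insert hi]
    exact (h i (mem_insert_self _ _)).mul (ih fun j hj => h j (mem_insert_of_mem hj))

variable (p) in
/-- The densities `|j d r| T ^ ord u` and `|j' d r'| T ^ ord u'` agree. -/
def Sim (T : ℂˣ) (j : L) (r : Fin 1 → L) (u j' : L) (r' : Fin 1 → L) (u' : L) : Prop :=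
  ∃ q, (∀ b : Box p L 1, j' * b.jac r' = q * (j * b.jac r)) ∧ u ≠ 0 ∧ Nul p T q (u' / u)

variable {j j' j'' u u' u'' θ θ' : L} {r r' r'' : Fin 1 → L} {b : Box p L 1} {A B A' B' : ℂ}

/-- One box is enough. -/
theorem sim_of (b₀ : Box p L 1) (h : j' * b₀.jac r' = q * (j * b₀.jac r)) (hu : u ≠ 0)
    (h' : Nul p T q (u' / u)) : Sim p T j r u j' r' u' :=
  ⟨q, fun b => by
    rw [b.jac_chain b₀ r', b.jac_chain b₀ r, mul_left_comm, h]
    ring, hu, h'⟩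

theorem Sim.refl (hu : u ≠ 0) : Sim p T j r u j r u :=
  ⟨1, fun _ => (one_mul _).symm, hu, nul_one.cast rfl (div_self hu).symm⟩

theorem Sim.ne (h : Sim p T j r u j' r' u') : u' ≠ 0 := fun e =>
  h.elim fun _ k => k.2.2.2.1 (by rw [e, zero_div])

theorem Sim.symm (h : Sim p T j r u j' r' u') : Sim p T j' r' u' j r u := by
  obtain ⟨q, h1, h2, h3⟩ := id h
  exact ⟨q⁻¹, fun b => by rw [h1, inv_mul_cancel_left₀ h3.1], h.ne, h3.inv.cast rfl (inv_div _ _)⟩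

theorem Sim.trans (h : Sim p T j r u j' r' u') (h' : Sim p T j' r' u' j'' r'' u'') :
    Sim p T j r u j'' r'' u'' := by
  obtain ⟨q, h1, h2, h3⟩ := h
  obtain ⟨q', h4, h5, h6⟩ := h'
  exact ⟨q' * q, fun b => by rw [h4, h1, mul_assoc], h2,
    (h6.mul h3).cast rfl (div_mul_div_cancel₀ h5)⟩

omit [Fact p.Prime] in
theorem cz_unit {n : ℕ} (d : MD Unit n) : cz d p (fun _ => T) = wt p T d.c (d.m ()) := by
  simp [cz, wt]

omit [Fact p.Prime] in
theorem rho_unit {n : ℕ} (d : MD Unit n) (l : Fin n) :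
    rho d p (fun _ => T) l = wt p T (d.ν l) (d.A () l) := by
  simp [rho, wt]

/-- Similar densities have the same normal form on small boxes. -/
theorem Sim.adp (h : Sim p T j r u j' r' u') : ∃ Y : Finset L, 0 ∉ Y ∧ ∀ b : Box p L 1,
    (∀ y ∈ Y, Mo b y) → ∀ d, b.Adp j r (fun _ => u) d → ∃ d', b.Adp j' r' (fun _ => u') d' ∧
      cz d' p (fun _ : Unit => T) = cz d p (fun _ : Unit => T) ∧
      ∀ l, rho d' p (fun _ => T) l = rho d p (fun _ => T) l := by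
  classical
  obtain ⟨q, h1, h2, h3, h4, Y, h5, h6⟩ := h
  refine ⟨insert q (insert (u' / u) Y), by simp only [mem_insert, h3.symm, h4.symm, h5, or_self,
    not_false_iff], fun b hb d hd => ?_⟩
  obtain ⟨c1, A1, k3⟩ := hb q (by simp)
  obtain ⟨m1, B1, k4⟩ := hb (u' / u) (by simp)
  obtain ⟨e1, e2⟩ := h6 b (fun y hy => hb y (by simp [hy])) _ _ _ _ k3 k4
  have k5 := k3.mul hd.frm
  have k6 := k4.mul (hd.fn ())
  rw [← h1] at k5
  rw [div_mul_cancel₀ _ h2] at k6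
  refine ⟨⟨_, A1 + d.ν, fun _ => _, fun _ => _⟩, ⟨k5.congr rfl (funext fun l => ?_), fun _ => k6⟩,
    ?_, fun l => ?_⟩
  · simp only [Pi.add_apply]
    ring
  · rw [cz_unit, cz_unit, wt_add, e1, one_mul]
  · rw [Fin.fin_one_eq_zero l, rho_unit, rho_unit]
    exact (wt_add ..).trans (by rw [e2, one_mul])

/-- The derivative for a weight with the data `μ`, `α`. -/
def Jn {I : Type} [Fintype I] (d : MD I 1) (p : ℕ) (c : I → ℂˣ) (μ : ℤ) (α : Fin 1 → ℤ) : ℂ :=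
  v0 d p c * (μ + α 0 * rho d p c 0 / (1 - rho d p c 0))

omit [Fact p.Prime] in
theorem J_eq {I : Type} [Fintype I] (d : MD I 1) (c : I → ℂˣ) (k : I → ℤ) :
    J d p c k = Jn d p c (mm d k) (kk d k) := by
  rw [J, Jn, Fin.sum_univ_one]

omit [Fact p.Prime] in
theorem Jn_congr {I I' : Type} [Fintype I] [Fintype I'] {d : MD I 1} {d' : MD I' 1} {c : I → ℂˣ}
    {c' : I' → ℂˣ} (h1 : cz d p c = cz d' p c') (h2 : ∀ l, rho d p c l = rho d' p c' l) (μ : ℤ)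
    (α : Fin 1 → ℤ) : Jn d p c μ α = Jn d' p c' μ α := by
  rw [Jn, Jn, v0_congr h1 h2, h2]

omit [Fact p.Prime] in
theorem Jn_add {I : Type} [Fintype I] (d : MD I 1) (c : I → ℂˣ) (μ μ' : ℤ) (α α' : Fin 1 → ℤ) :
    Jn d p c (μ + μ') (α + α') = Jn d p c μ α + Jn d p c μ' α' := by
  simp only [Jn, Pi.add_apply, Int.cast_add]
  ring

omit [Fact p.Prime] in
theorem Jn_smul {I : Type} [Fintype I] (d : MD I 1) (c : I → ℂˣ) (e μ : ℤ) (α : Fin 1 → ℤ) :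
    Jn d p c (e * μ) (e • α) = e * Jn d p c μ α := by
  simp only [Jn, Pi.smul_apply, smul_eq_mul, Int.cast_mul]
  ring

/-- The box is adapted and not polar, and `θ` is monomial. -/
structure Pc (T : ℂˣ) (b : Box p L 1) (j : L) (r : Fin 1 → L) (u θ : L) (d : MD Unit 1) (μ : ℤ)
    (α : Fin 1 → ℤ) : Prop where
  adp : b.Adp j r (fun _ => u) d
  np : rho d p (fun _ => T) 0 ≠ 1
  mo : b.Mono θ μ α

/-- The character of the density and of the weight. -/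
abbrev ch2 (T : ℂˣ) : Unit ⊕ Unit → LKˣ := chi (Sum.elim (fun _ => T) 1) (Sum.elim 0 1)

variable {d : MD Unit 1} {μ : ℤ} {α : Fin 1 → ℤ}

omit [Fact p.Prime] in
theorem cz_ext : cz (xt d (fun _ : Unit => μ) fun _ => α) p (Sum.elim (fun _ => T) 1) =
    cz d p fun _ => T := by simp [cz, xt]

omit [Fact p.Prime] in
theorem rho_ext (l : Fin 1) : rho (xt d (fun _ : Unit => μ) fun _ => α) p
    (Sum.elim (fun _ => T) 1) l = rho d p (fun _ => T) l := by simp [rho, xt]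

theorem Pc.ex (h : Pc T b j r u θ d μ α) : Ex 0 ((xt d (fun _ => μ) fun _ => α).val p (ch2 T))
    (v0 d p fun _ => T) (Jn d p (fun _ => T) μ α) :=
  (ex_val _ fun l => by rw [rho_ext, Fin.fin_one_eq_zero l]; exact h.np).cast rfl rfl
    (v0_congr cz_ext rho_ext) (by
      rw [J_eq, Jn_congr cz_ext rho_ext]
      congr 1
      · simp [mm, xt]
      · funext l
        simp [kk, xt])

theorem Pc.ok (h : Pc T b j r u θ d μ α) :
    b.Adp j r (Sum.elim (fun _ => u) fun _ : Unit => θ) (xt d (fun _ => μ) fun _ => α) ∧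
      (xt d (fun _ => μ) fun _ => α).ND p (ch2 T) :=
  ⟨adp_ext h.adp fun _ => h.mo,
    nd_chi fun l => .inl (by rw [rho_ext, Fin.fin_one_eq_zero l]; exact h.np)⟩

omit [Fact p.Prime] in
theorem nd_iff {I : Type} [Fintype I] {d : MD I 1} {c : I → ℂˣ} : d.ND p c ↔ rho d p c 0 ≠ 1 := by
  rw [MD.ND, Fin.forall_fin_one, isUnit_iff_ne_zero, ne_comm (b := 1), ← sub_ne_zero (a := 1)]
  rfl

theorem np_cut {I : Type} [Fintype I] {d d' : MD I 1} {c : I → ℂˣ} {t : Fin 1 → ℚ_[p]}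
    (h : d.Cut t d') (h' : rho d p c 0 ≠ 1) : rho d' p c 0 ≠ 1 := nd_iff.1 (h.nd (nd_iff.2 h'))

/-- `A` is the integral of the density over `b`, and `B` is the integral of `ord θ`. -/
def HasJ (T : ℂˣ) (b : Box p L 1) (j : L) (r : Fin 1 → L) (u θ : L) (A B : ℂ) : Prop :=
  ∃ (ι : Type) (_ : Fintype ι) (b' : ι → Box p L 1) (d : ι → MD Unit 1) (μ : ι → ℤ)
    (α : ι → Fin 1 → ℤ), Eqv (fun _ : Unit => b) b' ∧ Dis b' ∧
    (∀ x, Pc T (b' x) j r u θ (d x) (μ x) (α x)) ∧ ∑ x, v0 (d x) p (fun _ => T) = A ∧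
    ∑ x, Jn (d x) p (fun _ => T) (μ x) (α x) = B

theorem HasJ.cast (h : HasJ T b j r u θ A B) (e : θ = θ') (e1 : A = A') (e2 : B = B') :
    HasJ T b j r u θ' A' B' := e ▸ e1 ▸ e2 ▸ h

theorem Pc.hasJ (h : Pc T b j r u θ d μ α) :
    HasJ T b j r u θ (v0 d p fun _ => T) (Jn d p (fun _ => T) μ α) :=
  ⟨Unit, inferInstance, _, fun _ => d, fun _ => μ, fun _ => α, Eqv.refl _, sep_one.dis,
    fun _ => h, by simp, by simp⟩

theorem sums (hR : RRF1) {ι' : Type} [Fintype ι] [Fintype ι'] {b : ι → Box p L 1}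
    {b' : ι' → Box p L 1} {d : ι → MD Unit 1} {μ : ι → ℤ} {α : ι → Fin 1 → ℤ}
    {d' : ι' → MD Unit 1} {μ' : ι' → ℤ} {α' : ι' → Fin 1 → ℤ} (he : Eqv b b') (hd : Dis b)
    (hd' : Dis b') (h : ∀ x, Pc T (b x) j r u θ (d x) (μ x) (α x))
    (h' : ∀ x, Pc T (b' x) j r u θ (d' x) (μ' x) (α' x)) :
    ∑ x, v0 (d x) p (fun _ => T) = ∑ x, v0 (d' x) p (fun _ => T) ∧
    ∑ x, Jn (d x) p (fun _ => T) (μ x) (α x) = ∑ x, Jn (d' x) p (fun _ => T) (μ' x) (α' x) :=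
  (Ex.sum univ fun x _ => (h x).ex).uniq ((Ex.sum univ fun x _ => (h' x).ex).cast rfl
    (pv1 hR he hd hd' (fun x => (h x).ok) fun x => (h' x).ok).symm rfl rfl)

theorem HasJ.uniq (hR : RRF1) (h : HasJ T b j r u θ A B) (h' : HasJ T b j r u θ A' B') :
    A = A' ∧ B = B' := by
  obtain ⟨_, _, _, _, _, _, h1, h2, h3, rfl, rfl⟩ := h
  obtain ⟨_, _, _, _, _, _, h4, h5, h6, rfl, rfl⟩ := h'
  exact sums hR (h1.symm.trans h4) h2 h5 h3 h6

/-- A refinement that is adapted to similar densities. -/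
theorem core (hR : RRF1) [Fintype ι] (b : ι → Box p L 1) {j j' u u' θ : ι → L}
    {r r' : ι → Fin 1 → L} {d : ι → MD Unit 1} {μ : ι → ℤ} {α : ι → Fin 1 → ℤ}
    (h : ∀ x, Pc T (b x) (j x) (r x) (u x) (θ x) (d x) (μ x) (α x))
    (hS : ∀ x, Sim p T (j x) (r x) (u x) (j' x) (r' x) (u' x)) (Y : Finset L) (h0 : 0 ∉ Y) :
    ∃ (ι' : Type) (_ : Fintype ι') (π : ι' → ι) (b' : ι' → Box p L 1) (d' : ι' → MD Unit 1)
      (μ' : ι' → ℤ) (α' : ι' → Fin 1 → ℤ), Rfn b b' π ∧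
      (∀ x, Pc T (b' x) (j' (π x)) (r' (π x)) (u' (π x)) (θ (π x)) (d' x) (μ' x) (α' x) ∧
        ∀ y ∈ Y, Mo (b' x) y) ∧
      ∑ x, v0 (d x) p (fun _ => T) = ∑ x, v0 (d' x) p (fun _ => T) ∧
      ∑ x, Jn (d x) p (fun _ => T) (μ x) (α x) = ∑ x, Jn (d' x) p (fun _ => T) (μ' x) (α' x) := by
  classical
  choose Z h1 h2 using fun x => (hS x).adp
  obtain ⟨ι', _, π, b', e, h3, h4, h5⟩ := refine1 hR b (fun x => (h x).ok) (fun x => Y ∪ Z x)
    fun x => by simp [h0, h1]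
  have h6 : ∀ x, Pc T (b' x) (j (π x)) (r (π x)) (u (π x)) (θ (π x))
      ⟨(e x).c, (e x).ν, fun _ => (e x).m (.inl ()), fun _ => (e x).A (.inl ())⟩
      ((e x).m (.inr ())) ((e x).A (.inr ())) := fun x => by
    obtain ⟨c, _, -, -, k1, k2, -⟩ := h4 x
    exact ⟨⟨k2.frm, fun _ => k2.fn (.inl ())⟩, np_cut (d := d (π x)) (t := c)
      ⟨k1.ν0, k1.ν1, fun _ => k1.A0 (.inl ()), fun _ => k1.A1 (.inl ())⟩ (h _).np, k2.fn (.inr ())⟩
  have h7 : ∀ x, ∀ y ∈ Y ∪ Z (π x), Mo (b' x) y := fun x => by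
    obtain ⟨_, _, -, -, -, -, k⟩ := h4 x
    exact k
  choose d' h8 h9 h10 using fun x => h2 (π x) (b' x) (fun y hy => h7 x y (by simp [hy])) _
    (h6 x).adp
  refine ⟨ι', inferInstance, π, b', d', _, _, h3, fun x => ⟨⟨h8 x, h10 x 0 ▸ (h6 x).np, (h6 x).mo⟩,
    fun y hy => h7 x y (by simp [hy])⟩, ?_⟩
  simp only [fun x => v0_congr (h9 x) (h10 x), fun x => Jn_congr (h9 x) (h10 x)]
  refine (Ex.sum univ fun x _ => (h x).ex).uniq ((Ex.sum univ fun x _ => (h6 x).ex).cast rfl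
    (h5.trans (sum_congr rfl fun x _ => ?_)).symm rfl rfl)
  congr 1
  cases e x
  simp only [xt, MD.mk.injEq, true_and]
  constructor <;> funext i <;> cases i <;> rfl

/-- An equivalent family with similar densities computes the integrals. -/
theorem hasJ_of (hR : RRF1) [Fintype ι] {b' : ι → Box p L 1} {j' u' : ι → L}
    {r' : ι → Fin 1 → L} {d : ι → MD Unit 1} {μ : ι → ℤ} {α : ι → Fin 1 → ℤ}
    (he : Eqv (fun _ : Unit => b) b') (hd : Dis b')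
    (h : ∀ x, Pc T (b' x) (j' x) (r' x) (u' x) θ (d x) (μ x) (α x))
    (hS : ∀ x, Sim p T (j' x) (r' x) (u' x) j r u) :
    HasJ T b j r u θ (∑ x, v0 (d x) p fun _ => T) (∑ x, Jn (d x) p (fun _ => T) (μ x) (α x)) := by
  obtain ⟨_, _, π, c, e, μ', α', h1, h2, h3, h4⟩ := core hR b' h hS ∅ (by simp)
  exact ⟨_, _, c, e, μ', α', he.trans h1.eqv, h1.dis' hd, fun x => (h2 x).1, h3.symm, h4.symm⟩

theorem HasJ.sim (hR : RRF1) (h : HasJ T b j r u θ A B) (hS : Sim p T j r u j' r' u') :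
    HasJ T b j' r' u' θ A B := by
  obtain ⟨_, _, _, _, _, _, h1, h2, h3, rfl, rfl⟩ := h
  exact hasJ_of hR h1 h2 h3 fun _ => hS

theorem sb_ne {ι' : Type} {n : ℕ} {b : ι → Box p L n} {b' : ι' → Box p L n} (h : Sb b b') (i : ι) :
    Nonempty ι' := by
  have := MeasureTheory.ae_restrict_neBot.2
    (Metric.measure_closedBall_pos (H48G.mN p n) (0 : Fin n → ℚ_[p]) one_pos).ne'
  obtain ⟨_, x, -⟩ := (h i).exists
  exact ⟨x⟩

theorem HasJ.ne (h : HasJ T b j r u θ A B) : u ≠ 0 ∧ θ ≠ 0 := by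
  obtain ⟨_, _, _, _, _, _, h1, -, h3, -⟩ := h
  exact (sb_ne h1.1 ()).elim fun x => ⟨((h3 x).adp.fn ()).ne, (h3 x).mo.ne⟩

/-- A family on which a second function is monomial. -/
theorem HasJ.two (hR : RRF1) (h : HasJ T b j r u θ A B) (h0 : θ' ≠ 0) :
    ∃ (ι : Type) (_ : Fintype ι) (b' : ι → Box p L 1) (d : ι → MD Unit 1) (μ μ' : ι → ℤ)
      (α α' : ι → Fin 1 → ℤ), Eqv (fun _ : Unit => b) b' ∧ Dis b' ∧
      (∀ x, Pc T (b' x) j r u θ (d x) (μ x) (α x) ∧ (b' x).Mono θ' (μ' x) (α' x)) ∧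
      ∑ x, v0 (d x) p (fun _ => T) = A ∧ ∑ x, Jn (d x) p (fun _ => T) (μ x) (α x) = B := by
  obtain ⟨_, _, b', _, _, _, h1, h2, h3, rfl, rfl⟩ := id h
  obtain ⟨_, _, π, c, e, μ', α', h4, h5, h6, h7⟩ := core hR b' h3 (fun _ => .refl h.ne.1) {θ'}
    (by simp [h0.symm])
  choose μ'' α'' h8 using fun x => (h5 x).2 θ' (by simp)
  exact ⟨_, _, c, e, μ', μ'', α', α'', h1.trans h4.eqv, h4.dis' h2, fun x => ⟨(h5 x).1, h8 x⟩,
    h6.symm, h7.symm⟩

/-- Existence for another weight. -/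
theorem HasJ.other (hR : RRF1) (h : HasJ T b j r u θ A B) (h0 : θ' ≠ 0) :
    ∃ B', HasJ T b j r u θ' A B' := by
  obtain ⟨_, _, b', d, _, μ, _, α, h1, h2, h3, h4, -⟩ := h.two hR h0
  exact ⟨_, _, _, b', d, μ, α, h1, h2, fun x => ⟨(h3 x).1.adp, (h3 x).1.np, (h3 x).2⟩, h4, rfl⟩

theorem hasJ_ex (hR : RRF1) (ha : b.Adp j r (fun _ => u) d) (hn : rho d p (fun _ => T) 0 ≠ 1)
    (h0 : θ ≠ 0) : ∃ B, HasJ T b j r u θ (v0 d p fun _ => T) B :=
  (Pc.hasJ ⟨ha, hn, b.mono_one⟩).other hR h0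

theorem HasJ.fst (hR : RRF1) (h : HasJ T b j r u θ A B) (h' : HasJ T b j r u θ' A' B') : A = A' :=
  (h.other hR h'.ne.2).elim fun _ k => (k.uniq hR h').1

theorem HasJ.mul (hR : RRF1) (h : HasJ T b j r u θ A B) (h' : HasJ T b j r u θ' A' B') :
    HasJ T b j r u (θ * θ') A (B + B') := by
  obtain ⟨_, _, b', d, μ, μ', α, α', h1, h2, h3, rfl, rfl⟩ := h.two hR h'.ne.2
  rw [(h'.uniq hR ⟨_, inferInstance, b', d, μ', α', h1, h2,
    fun x => ⟨(h3 x).1.adp, (h3 x).1.np, (h3 x).2⟩, rfl, rfl⟩).2]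
  exact ⟨_, _, b', d, μ + μ', α + α', h1, h2,
    fun x => ⟨(h3 x).1.adp, (h3 x).1.np, (h3 x).1.mo.mul (h3 x).2⟩, rfl, by
      simp only [Pi.add_apply, Jn_add, sum_add_distrib]⟩

theorem HasJ.zpow (h : HasJ T b j r u θ A B) (e : ℤ) : HasJ T b j r u (θ ^ e) A (e * B) := by
  obtain ⟨_, _, b', d, μ, α, h1, h2, h3, rfl, rfl⟩ := h
  exact ⟨_, _, b', d, fun x => e * μ x, fun x => e • α x, h1, h2,
    fun x => ⟨(h3 x).adp, (h3 x).np, (h3 x).mo.zpow e⟩, rfl, by simp only [Jn_smul, mul_sum]⟩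

theorem HasJ.inv (h : HasJ T b j r u θ A B) : HasJ T b j r u θ⁻¹ A (-B) := by
  simpa using h.zpow (-1)

theorem HasJ.div (hR : RRF1) (h : HasJ T b j r u θ A B) (h' : HasJ T b j r u θ' A' B') :
    HasJ T b j r u (θ / θ') A (B - B') := by
  simpa only [div_eq_mul_inv, sub_eq_add_neg] using h.mul hR h'.inv

theorem HasJ.neg (h : HasJ T b j r u θ A B) : HasJ T b j r u (-θ) A B := by
  obtain ⟨_, _, b', d, μ, α, h1, h2, h3, h4⟩ := h
  exact ⟨_, _, b', d, μ, α, h1, h2, fun x => ⟨(h3 x).adp, (h3 x).np, (h3 x).mo.neg⟩, h4⟩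

theorem sb_map {ι' : Type} {n : ℕ} {e : L ≃ₐ[ℚ_[p]] k} {b : ι → Box p L n} {b' : ι' → Box p L n}
    {c : ι → Box p k n} {c' : ι' → Box p k n} (h : ∀ i, (b i).IsMap e (c i))
    (h' : ∀ i, (b' i).IsMap e (c' i)) (H : Sb b b') : Sb c c' := fun i => by
  filter_upwards [H i, MeasureTheory.ae_restrict_mem Metric.isClosed_closedBall.measurableSet]
    with t ⟨x, s, hs, e⟩ ht
  exact ⟨x, s, hs, by rw [(h' x).Φ s hs, (h i).Φ t ht, e]⟩

/-- Transport along an isomorphism. -/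
theorem HasJ.map {e : L ≃ₐ[ℚ_[p]] k} {c : Box p k 1} (hc : b.IsMap e c) (h : HasJ T b j r u θ A B) :
    HasJ T c (e j) (fun l => e (r l)) (e u) (e θ) A B := by
  obtain ⟨_, _, b', d, μ, α, h1, h2, h3, h4⟩ := h
  choose c' h5 using fun x => rTRP.ex (b' x) e
  exact ⟨_, _, c', d, μ, α, ⟨sb_map (fun _ => hc) h5 h1.1, sb_map h5 (fun _ => hc) h1.2⟩,
    (TRP.fam h5).1 h2, fun x => ⟨TRP.adp (h5 x) (h3 x).adp, (h3 x).np,
      (TRP.mono (h5 x) _ _ _).2 (h3 x).mo⟩, h4⟩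

omit [Fact p.Prime] in
theorem cz_red {I : Type} [Fintype I] {n : ℕ} (d : MD I n) (a : I → ℤ) :
    cz (⟨d.c, d.ν, fun _ => mm d a, fun _ => kk d a⟩ : MD Unit n) p (fun _ => T) =
      cz d p fun i => T ^ a i := by
  simp only [cz, mm, ← zpow_mul, Fintype.prod_unique]
  exact congrArg (fun x : ℂˣ => _ * (x : ℂ))
    (map_prod (zpowersHom _ T) (fun i => Multiplicative.ofAdd (a i * d.m i)) _)

omit [Fact p.Prime] in
theorem rho_red {I : Type} [Fintype I] {n : ℕ} (d : MD I n) (a : I → ℤ) (l : Fin n) :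
    rho (⟨d.c, d.ν, fun _ => mm d a, fun _ => kk d a⟩ : MD Unit n) p (fun _ => T) l =
      rho d p (fun i => T ^ a i) l := by
  simp only [rho, kk, ← zpow_mul, Fintype.prod_unique]
  exact congrArg (fun x : ℂˣ => _ * (x : ℂ))
    (map_prod (zpowersHom _ T) (fun i => Multiplicative.ofAdd (a i * d.A i l)) _)

/-- Products of the functions of an adapted box. -/
theorem mono_prod {I : Type} [Fintype I] {n : ℕ} {b : Box p L n} {r : Fin n → L} {h : I → L}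
    {d : MD I n} (ha : b.Adp j r h d) (a : I → ℤ) : b.Mono (∏ i, h i ^ a i) (mm d a) (kk d a) :=
  (Box.Mono.prod univ fun i _ => (ha.fn i).zpow (a i)).congr rfl
    (funext fun l => by simp [kk, Finset.sum_apply])

theorem adp_red {I : Type} [Fintype I] {n : ℕ} {b : Box p L n} {r : Fin n → L} {h : I → L}
    {d : MD I n} (ha : b.Adp j r h d) (a : I → ℤ) :
    b.Adp j r (fun _ : Unit => ∏ i, h i ^ a i) ⟨d.c, d.ν, fun _ => mm d a, fun _ => kk d a⟩ :=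
  ⟨ha.frm, fun _ => mono_prod ha a⟩

/-- The same for data with several functions. -/
theorem hasJ_of' (hR : RRF1) [Fintype ι] {I : Type} [Fintype I] {b' : ι → Box p L 1} {j' : ι → L}
    {r' : ι → Fin 1 → L} {h : ι → I → L} {d : ι → MD I 1} {μ : ι → ℤ} {α : ι → Fin 1 → ℤ}
    (a : I → ℤ) (he : Eqv (fun _ : Unit => b) b') (hd : Dis b')
    (h1 : ∀ x, (b' x).Adp (j' x) (r' x) (h x) (d x))
    (h2 : ∀ x, rho (d x) p (fun i => T ^ a i) 0 ≠ 1) (h3 : ∀ x, (b' x).Mono θ (μ x) (α x))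
    (hS : ∀ x, Sim p T (j' x) (r' x) (∏ i, h x i ^ a i) j r u) :
    HasJ T b j r u θ (∑ x, v0 (d x) p fun i => T ^ a i)
      (∑ x, Jn (d x) p (fun i => T ^ a i) (μ x) (α x)) :=
  (hasJ_of hR he hd (fun x => ⟨adp_red (h1 x) a, rho_red (d x) a 0 ▸ h2 x, h3 x⟩) hS).cast rfl
    (sum_congr rfl fun x _ => v0_congr (cz_red _ a) (rho_red _ a))
    (sum_congr rfl fun x _ => Jn_congr (cz_red _ a) (rho_red _ a) _ _)

section Zero

variable [Fintype ι] {b : ι → Box p L 1} {X : Set L} {e : L ≃ₐ[ℚ_[p]] L} {s a c : L} {γ : ℚ_[p]}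
  {m n k : ℤ}

theorem eig_pow (hs : e s = p * s) (ha : e a = a) (m : ℤ) :
    e (a * s ^ m) = (p : ℚ_[p]) ^ m • (a * s ^ m) := by
  rw [map_mul, map_zpow₀, hs, ha, mul_zpow, Algebra.smul_def, map_zpow₀, map_natCast, mul_left_comm]

theorem eig1 (hd : Dis b) (hi : Itg b X) (hc : Cov b X) (hX : ∀ c ∈ X, e c = c) (hs : e s = p * s)
    (ha : e a = a) (hc' : e c = c) (hT : wt p T n m ≠ 1) {d : ι → MD Unit 1} {μ : ι → ℤ}
    {α : ι → Fin 1 → ℤ} (h : ∀ x, Pc T (b x) (algebraMap ℚ_[p] L γ * s ^ (n - 1)) (fun _ => s)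
      (a * s ^ m) (c * s ^ k) (d x) (μ x) (α x) ∧ Mo (b x) s) :
    ∑ x, v0 (d x) p (fun _ => T) = 0 ∧ ∑ x, Jn (d x) p (fun _ => T) (μ x) (α x) = 0 := by
  obtain ⟨d', h1, h2⟩ := fit_ext (b := b) (g := fun _ : Unit => s) fun x =>
    ⟨(h x).1.ok.1, (h x).1.ok.2, fun _ => (h x).2, fun hu => by
      obtain ⟨_, hu⟩ := hu ()
      have := (h x).1.adp.frm.nonneg (fun t ht => mul_mem (mul_mem (Subalgebra.algebraMap_mem _ _)
        ((hu.zpow _).reg t ht)) ((b x).jac_mem ht fun _ => hu.reg t ht)) 0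
      show 0 < (d x).ν 0
      omega⟩
  have hp : ∀ z : ℤ, ‖(p : ℚ_[p]) ^ z‖ = (p : ℝ) ^ (-z) := Padic.norm_p_zpow
  have h3 := rEIG rCOV b X e _ _ _ _ d'
    (fun i => (p : ℚ_[p]) ^ Sum.elim (Sum.elim (fun _ => m) fun _ => k) (fun _ => (1 : ℤ)) i)
    (Sum.elim (Sum.elim (fun _ => m) fun _ => k) fun _ => 1) ((p : ℚ_[p]) ^ n) n hd hi hc h1 hX
    (fun i => ⟨?_, hp _⟩) (fun b' => ?_) (hp n)
  · have h4 : (xt ⟨0, fun _ => n, 0, fun _ _ => m⟩ (fun _ : Unit => 0) fun _ _ => k).ND p (ch2 T) :=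
      nd_chi fun l => .inl (by rw [rho_ext, rho_unit]; exact hT)
    have h5 := h4 0
    rw [← den_ext _ (fun _ : Unit => 0) fun _ _ => 1] at h5
    have h6 := (mul_eq_zero.1 h3).resolve_left fun h0 => h5.ne_zero (by
      rw [← h0, MD.den]
      congr 3)
    simp only [h2] at h6
    exact (Ex.sum univ fun x _ => (h x).1.ex).uniq (h6 ▸ Ex.zero 0)
  · rcases i with (_ | _) | _
    exacts [eig_pow hs ha m, eig_pow hs hc' k, by simpa using eig_pow hs (map_one e) 1]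
  · have h4 : (fun _ : Fin 1 => e s) = fun _ => (p : ℚ_[p]) • s := funext fun _ => by
      rw [hs, Algebra.smul_def, map_natCast]
    rw [h4, b'.jac_smul (fun _ => (p : ℚ_[p])), eig_pow hs (e.commutes γ), smul_mul_smul_comm,
      Fin.prod_univ_one, zpow_sub_one₀ H72.pp_ne, inv_mul_cancel_right₀ H72.pp_ne]

/-- The integrals over a complete family vanish. -/
theorem curve_zero (hR : RRF1) (hd : Dis b) (hi : Itg b X) (hc : Cov b X) (hX : ∀ c ∈ X, e c = c)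
    (hs : e s = p * s) (s0 : s ≠ 0) (ha : e a = a) (hc' : e c = c) (hT : wt p T n m ≠ 1)
    {j u : ι → L} {r : ι → Fin 1 → L} {d : ι → MD Unit 1} {A B : ι → ℂ}
    (h1 : ∀ i, (b i).Adp (j i) (r i) (fun _ => u i) (d i) ∧ rho (d i) p (fun _ => T) 0 ≠ 1)
    (hS : ∀ i, Sim p T (j i) (r i) (u i) (algebraMap ℚ_[p] L γ * s ^ (n - 1)) (fun _ => s)
      (a * s ^ m))
    (hJ : ∀ i, HasJ T (b i) (j i) (r i) (u i) (c * s ^ k) (A i) (B i)) :
    ∑ i, A i = 0 ∧ ∑ i, B i = 0 := by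
  classical
  rcases isEmpty_or_nonempty ι with _ | ⟨⟨i₀⟩⟩
  · simp
  obtain ⟨_, _, π, b', d', _, _, h2, h3, -⟩ := core (θ := fun _ => 1) hR b
    (fun i => ⟨(h1 i).1, (h1 i).2, (b i).mono_one⟩) hS {s, c * s ^ k}
    (by simp only [mem_insert, mem_singleton, s0.symm, (hJ i₀).ne.2.symm, or_self, not_false_iff])
  choose μ α h4 using fun x => (h3 x).2 (c * s ^ k) (by simp)
  have h5 := fun x => Pc.mk (h3 x).1.adp (h3 x).1.np (h4 x)
  have h6 := fun i => ((hJ i).sim hR (hS i)).uniq hR ⟨_, inferInstance, _, fun x => d' x.1,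
    fun x => μ x.1, fun x => α x.1, (h2.fib i).eqv, (h2.fib i).dis' sep_one.dis, fun x => h5 x.1,
    rfl, rfl⟩
  simp only [fun i => (h6 i).1, fun i => (h6 i).2]
  rw [Fintype.sum_fiberwise π fun x => v0 (d' x) p fun _ => T,
    Fintype.sum_fiberwise π fun x => Jn (d' x) p (fun _ => T) (μ x) (α x)]
  exact eig1 (h2.dis' hd) (h2.itg hi) (h2.cov' hc) hX hs ha hc' hT fun x =>
    ⟨h5 x, (h3 x).2 s (by simp)⟩

end Zero

end

end Pool.Agent.MP_5d9b3c_ag.P3D.CJ
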