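import Pool.Agent.MP_5d9b3c_ag.P3D.Kit
import Pool.Agent.MP_5d9b3c_ag.P3D.CvJ
import Pool.Agent.MP_5d9b3c_ag.P3D.Curve

/-!
The integrals over the boxes of a curve.
-/

namespace Pool.Agent.MP_5d9b3c_ag.P3D

open P3K Finset CJ

namespace RJV

variable {p : ℕ} [Fact p.Prime] {L k : Type} [Field L] [Algebra ℚ_[p] L] [Field k]
  [Algebra ℚ_[p] k] {T : ℂˣ} {N ν : ℤ} {c : Box p L 1} {δ δ' δ₀ : Dn L 1} {θ θ' s : L}
  {A J A' J' : ℂ} {d : MD (Fin 2) 1} {ι : Type}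

/-- The data of the density. -/
def dU (d : MD (Fin 2) 1) : MD Unit 1 := ⟨d.c, d.ν, fun _ => d.m 0, fun _ => d.A 0⟩

/-- The data of the density and of the weight. -/
def dT (d : MD Unit 1) (μ : ℤ) (α : Fin 1 → ℤ) : MD (Fin 2) 1 :=
  ⟨d.c, d.ν, ![d.m (), μ], ![d.A (), α]⟩

omit [Fact p.Prime] in
theorem cz_dU (d : MD (Fin 2) 1) : cz (dU d) p (fun _ => T) = cz d p (cT T) := by
  simp [cz, dU]

omit [Fact p.Prime] in
theorem rho_dU (d : MD (Fin 2) 1) (l : Fin 1) :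
    rho (dU d) p (fun _ => T) l = rho d p (cT T) l := by
  simp [rho, dU]

omit [Fact p.Prime] in
theorem v0_dU (d : MD (Fin 2) 1) : v0 (dU d) p (fun _ => T) = v0 d p (cT T) :=
  v0_congr (cz_dU d) (rho_dU d)

omit [Fact p.Prime] in
theorem J_dU (d : MD (Fin 2) 1) : Jn (dU d) p (fun _ => T) (d.m 0) (d.A 0) = P3D.J d p (cT T) k0 ∧
    Jn (dU d) p (fun _ => T) (d.m 1) (d.A 1) = P3D.J d p (cT T) k1 := by
  simp only [J_eq, Jn_congr (cz_dU (p := p) (T := T) d) (rho_dU d)]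
  constructor <;> congr 1 <;> try funext l
  all_goals simp [mm, kk]

theorem pc_of (h : δ.Adp c θ d) (h' : ∀ l, rho d p (cT T) l ≠ 1) :
    Pc T c δ.j δ.r δ.u θ (dU d) (d.m 1) (d.A 1) :=
  ⟨⟨h.frm, fun _ => h.fn 0⟩, rho_dU d 0 ▸ h' 0, h.fn 1⟩

theorem of_pc {d : MD Unit 1} {μ : ℤ} {α : Fin 1 → ℤ} (h : Pc T c δ.j δ.r δ.u θ d μ α) :
    δ.Adp c θ (dT d μ α) ∧ ∀ l, rho (dT d μ α) p (cT T) l ≠ 1 :=
  ⟨⟨h.adp.frm, fun i => by
    fin_cases i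
    exacts [h.adp.fn (), h.mo]⟩, fun l => by
      rw [← rho_dU, Fin.fin_one_eq_zero l]
      exact h.np⟩

/-- The form with data for the density only. -/
theorem jv_iff : JV T c δ θ A J ↔ ∃ (ι : Type) (_ : Fintype ι) (b : ι → Box p L 1)
    (d : ι → MD Unit 1) (μ : ι → ℤ) (α : ι → Fin 1 → ℤ), Rfn (fun _ : Unit => c) b (fun _ => ()) ∧
    (∀ x, Pc T (b x) δ.j δ.r δ.u θ (d x) (μ x) (α x)) ∧ ∑ x, v0 (d x) p (fun _ => T) = A ∧
    ∑ x, Jn (d x) p (fun _ => T) (μ x) (α x) = J := by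
  constructor
  · rintro ⟨ι, _, b, d, h1, h2, rfl, rfl⟩
    exact ⟨ι, _, b, _, _, _, h1, fun x => pc_of (h2 x).1 (h2 x).2,
      sum_congr rfl fun x _ => v0_dU _, sum_congr rfl fun x _ => (J_dU _).2⟩
  · rintro ⟨ι, _, b, d, μ, α, h1, h2, rfl, rfl⟩
    exact ⟨ι, _, b, _, h1, fun x => of_pc (h2 x), sum_congr rfl fun x _ => v0_dU (dT _ _ _),
      sum_congr rfl fun x _ => (J_dU (dT _ _ _)).2⟩

theorem hasJ (h : JV T c δ θ A J) : HasJ T c δ.j δ.r δ.u θ A J := by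
  obtain ⟨_, _, b, d, μ, α, h1, h2⟩ := jv_iff.1 h
  exact ⟨_, _, b, d, μ, α, h1.eqv, h1.dis' sep_one.dis, h2⟩

theorem ex (h : JV T c δ θ A J) (h0 : θ' ≠ 0) : ∃ J', JV T c δ θ' A J' := by
  obtain ⟨_, _, b, d, μ, α, h1, h2, rfl, -⟩ := jv_iff.1 (id h)
  obtain ⟨_, _, π, b', d', _, _, h3, h4, h5, -⟩ := core rf1 b h2
    (fun _ => .refl (hasJ h).ne.1) {θ'} (by simp [h0.symm])
  choose μ' α' h6 using fun x => (h4 x).2 θ' (by simp)
  exact ⟨_, jv_iff.2 ⟨_, _, b', d', μ', α', h1.trans h3,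
    fun x => ⟨(h4 x).1.adp, (h4 x).1.np, h6 x⟩, h5.symm, rfl⟩⟩

theorem jv_of (h : JV T c δ θ A J) (h' : HasJ T c δ.j δ.r δ.u θ' A' J') : JV T c δ θ' A' J' := by
  obtain ⟨_, h1⟩ := ex h h'.ne.2
  obtain ⟨rfl, rfl⟩ := (hasJ h1).uniq rf1 h'
  exact h1

theorem jv_one (h : δ.Adp c θ d) (h' : ∀ l, rho d p (cT T) l ≠ 1) :
    JV T c δ θ (v0 d p (cT T)) (P3D.J d p (cT T) k1) :=
  ⟨Unit, inferInstance, fun _ => c, fun _ => d, ⟨fun _ t ht => ⟨t, ht, rfl⟩,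
    fun _ t ht => ⟨(), rfl, t, ht, rfl⟩, fun _ _ _ _ _ _ _ _ => rfl⟩, fun _ => ⟨h, h'⟩, by simp,
    by simp⟩

theorem wt_lam (hl : Lam p T N ν) : wt p T ν N = 1 := by
  rw [wt, Units.val_zpow_eq_zpow_val, hl.one, zpow_neg, inv_mul_cancel₀ (zpow_ne_zero _ pc_ne)]

theorem sim (hl : Lam p T N ν) (h : δ.LE p N ν δ') (hu : δ'.u ≠ 0) :
    Sim p T δ'.j δ'.r δ'.u δ.j δ.r δ.u := by
  obtain ⟨ε, h0, h1, a, h2, h3⟩ := h
  have a0 : a ≠ 0 := fun e => by simp [e] at h2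
  have h4 : a.valuation = 0 := by
    rw [Padic.norm_eq_zpow_neg_valuation a0] at h2
    exact neg_eq_zero.1 (zpow_right_injective₀ p_pos H72.one_lt_p.ne' (h2.trans (zpow_zero _).symm))
  have h5 : δ.u ≠ 0 := left_ne_zero_of_mul (h1 ▸ hu)
  refine Sim.symm ⟨algebraMap ℚ_[p] L a * ε ^ ν, fun b => ?_, h5,
    ((nul_cst a0 one_ne_zero (by rw [h4, Padic.valuation_one, wt_zero])).mul
      (nul_tw h0 (wt_lam hl))).cast rfl ?_⟩
  · rw [mul_assoc, ← Algebra.smul_def]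
    exact h3 b
  · rw [h1, map_one, one_mul, mul_div_cancel_left₀ _ h5]

/-- The small boxes of a family of boxes. -/
theorem glue [Fintype ι] {c : ι → Box p L 1} {δ : ι → Dn L 1} {θ : ι → L} {A J : ι → ℂ}
    (h : ∀ i, JV T (c i) (δ i) (θ i) (A i) (J i)) :
    ∃ (ι' : Type) (_ : Fintype ι') (π : ι' → ι) (b : ι' → Box p L 1) (d : ι' → MD Unit 1)
      (μ : ι' → ℤ) (α : ι' → Fin 1 → ℤ), Rfn c b π ∧
      (∀ x, Pc T (b x) (δ (π x)).j (δ (π x)).r (δ (π x)).u (θ (π x)) (d x) (μ x) (α x)) ∧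
      ∑ x, v0 (d x) p (fun _ => T) = ∑ i, A i ∧
      ∑ x, Jn (d x) p (fun _ => T) (μ x) (α x) = ∑ i, J i := by
  choose κ _ b d μ α h1 h2 h3 h4 using fun i => jv_iff.1 (h i)
  exact ⟨Σ i, κ i, inferInstance, Sigma.fst, fun x => b x.1 x.2, fun x => d x.1 x.2,
    fun x => μ x.1 x.2, fun x => α x.1 x.2, Rfn.sigma h1, fun x => h2 x.1 x.2,
    by simp only [Fintype.sum_sigma, h3], by simp only [Fintype.sum_sigma, h4]⟩

theorem good_zero [Fintype ι] {b : ι → Box p L 1} {X : Set L} {δ : ι → Dn L 1}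
    {d : ι → MD Unit 1} {A B : ι → ℂ} {a : ℚ_[p]} {j : ℤ} (hl : Lam p T N ν) (hd : Dis b)
    (hi : Itg b X) (hc : Cov b X) (hX : X ⊆ Set.range (algebraMap ℚ_[p] L))
    (hg : Good p T N ν δ₀ s) (he : ∀ i, δ₀.LE p N ν (δ i))
    (h1 : ∀ i, (b i).Adp (δ i).j (δ i).r (fun _ => (δ i).u) (d i) ∧
      rho (d i) p (fun _ => T) 0 ≠ 1)
    (hJ : s ≠ 0 → ∀ i, HasJ T (b i) (δ i).j (δ i).r (δ i).u (algebraMap ℚ_[p] L a * s ^ j) (A i)
      (B i)) : ∑ i, A i = 0 ∧ ∑ i, B i = 0 := by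
  rcases isEmpty_or_nonempty ι with _ | ⟨⟨i₀⟩⟩
  · simp
  obtain ⟨e, h2⟩ := hg.tau
  obtain ⟨a₁, a₂, m, n, -, -, h3, h4⟩ := hg.le
  have h5 := fun i => sim hl (h4.trans (he i)) ((h1 i).1.fn ()).ne
  simp only [Algebra.smul_def] at h5
  have s0 : s ≠ 0 := fun h => by
    obtain ⟨q, k1, -⟩ := (h5 i₀).symm
    refine (h1 i₀).1.frm.ne ?_
    rw [k1, jac_one, h, map_zero, mul_zero, mul_zero]
  refine curve_zero rf1 hd hi hc (fun c hc => ?_) h2 s0 (e.commutes _) (e.commutes _)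
    (fun h => h3 ?_) h1 h5 (hJ s0)
  · obtain ⟨a, rfl⟩ := hX hc
    exact e.commutes a
  · rw [mul_comm, ← Units.val_zpow_eq_zpow_val, ← wt, h, norm_one]

theorem np (hl : Lam p T N ν) (hg : Good p T N ν δ₀ s) (he : δ₀.LE p N ν δ) (h : δ.Adp c θ d)
    (l : Fin 1) : rho d p (cT T) l ≠ 1 := by
  classical
  obtain ⟨a₁, a₂, m, n, a1, a2, h3, h4⟩ := hg.le
  have h5 := sim hl (h4.trans he) (h.fn 0).ne
  simp only [Algebra.smul_def] at h5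
  have s0 : s ≠ 0 := fun e => by
    obtain ⟨q, k1, -⟩ := h5.symm
    refine h.frm.ne ?_
    rw [k1, jac_one, e, map_zero, mul_zero, mul_zero]
  obtain ⟨Y, h6, h7⟩ := h5.adp
  obtain ⟨_, _, π, b, t, e, k1, k2⟩ := rf1 (fun _ : Unit => c) (fun _ => insert s Y)
    fun _ => by simp [s0.symm, h6]
  obtain ⟨x, -, k3⟩ := rfn_zero rHer k1 (fun x => ⟨(k2 x).1, (k2 x).2.1⟩) ()
  obtain ⟨d', k4, k5⟩ := (k2 x).1.adp (k2 x).2.1 (d := dU d) ⟨h.frm, fun _ => h.fn 0⟩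
  obtain ⟨d'', k6, -, k7⟩ := h7 (b x) (fun y hy => (k2 x).2.2 y (by simp [hy])) d' k4
  obtain ⟨μ, α, k8⟩ := (k2 x).2.2 s (by simp)
  have k9 := k6.frm.div (((b x).mono_cst a2).mul (k8.zpow (n - 1)))
  rw [mul_div_cancel_left₀ _ (mul_ne_zero ((map_ne_zero _).2 a2) (zpow_ne_zero _ s0))] at k9
  have k10 := jac_ord k8 k9
  have k11 := congrFun ((k6.fn ()).uniq (((b x).mono_cst a1).mul (k8.zpow m))).2 0
  simp only [Pi.sub_apply, Pi.add_apply, Pi.zero_apply, Pi.smul_apply, smul_eq_mul,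
    zero_add] at k10 k11
  rw [Fin.fin_one_eq_zero l, ← rho_dU, rho_unit, ← k5.ν0 0 (k3 0), ← k5.A0 () 0 (k3 0), ← rho_unit,
    ← k7, rho_unit, k11]
  by_cases e0 : α 0 = 0
  · have := k10.1 e0
    rw [e0, mul_zero, sub_zero] at this
    rw [e0, mul_zero, wt, zpow_zero, Units.val_one, mul_one]
    exact norm_zpow_ne (by rw [Complex.norm_natCast]; exact H72.one_lt_p.ne') (by omega)
  · have := k10.2 e0
    rw [show d''.ν 0 = α 0 * n by linear_combination this, mul_comm m, wt_mul]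
    exact norm_zpow_ne (by rwa [wt, mul_comm, Units.val_zpow_eq_zpow_val]) e0

end RJV

open RJV

theorem rJV (p : ℕ) [Fact p.Prime] : SJV p where
  self a b h h' := jv_of (jv_one h h') ((Pc.hasJ ⟨(pc_of h h').adp, (pc_of h h').np,
    ((h.fn 0).zpow a).mul ((h.fn 1).zpow b)⟩).cast rfl (v0_dU _) (by
      rw [Jn_add, Jn_smul, Jn_smul, (J_dU _).1, (J_dU _).2]))
  ex := ex
  mul a b h h' := jv_of h (((hasJ h).zpow a).mul rf1 ((hasJ h').zpow b))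
  fib hl he hd hδ h₀ h := by
    obtain ⟨_, _, π, b, d, μ, α, h1, h2, h3, h4⟩ := glue h
    rw [← h3, ← h4]
    exact (hasJ h₀).uniq rf1 (hasJ_of rf1 (he.trans h1.eqv) (h1.dis' hd) h2
      fun x => sim hl (hδ _) ((h2 x).adp.fn ()).ne)
  map {_ _ _ _ _ _ _ _ _ e _ _ _ _} hc h := by
    obtain ⟨_, _, b, d, h1, h2, h3⟩ := h
    choose b' h5 using fun x => rTRP.ex (b x) e
    refine ⟨_, _, b', d, ⟨fun x t ht => ?_, fun _ t ht => ?_, fun x y _ => (TRP.fam h5).1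
      (h1.dis' sep_one.dis) x y⟩, fun x => ⟨⟨(TRP.adp (h5 x) (h2 x).1).frm, fun i => ?_⟩, (h2 x).2⟩,
      h3⟩
    · obtain ⟨s, hs, k⟩ := h1.sub x t ht
      exact ⟨s, hs, by rw [hc.Φ s hs, (h5 x).Φ t ht, k]⟩
    · obtain ⟨x, -, s, hs, k⟩ := h1.cov () t ht
      exact ⟨x, rfl, s, hs, by rw [hc.Φ t ht, (h5 x).Φ s hs, k]⟩
    · have := (TRP.adp (h5 x) (h2 x).1).fn i
      fin_cases i <;> exact this
  same hc h := by
    obtain ⟨_, _, b, d, h1, h2⟩ := h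
    refine ⟨_, _, b, d, ⟨fun x t ht => ?_, fun _ t ht => ?_, h1.dis⟩, h2⟩
    · obtain ⟨s, hs, k⟩ := h1.sub x t ht
      exact ⟨s, hs, (hc s hs).symm.trans k⟩
    · obtain ⟨x, -, s, hs, k⟩ := h1.cov () t ht
      exact ⟨x, rfl, s, hs, k.trans (hc t ht)⟩

theorem rCV (p : ℕ) [Fact p.Prime] : SCV p where
  np := np
  cur hl hF hX hg he h := by
    obtain ⟨_, _, π, b, d, μ, α, h1, h2, h3, h4⟩ := glue h
    have Z := fun {s a j A B} hg hJ => good_zero (s := s) (a := a) (j := j) (A := A) (B := B) hl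
      (h1.dis' hF.dis) (h1.itg hF.itg) (h1.cov' hF.cov) hX hg (fun x => he (π x))
      (fun x => ⟨(h2 x).adp, (h2 x).np⟩) hJ
    rw [← h3, ← h4]
    refine ⟨(Z (a := 1) (j := 0) hg fun _ x => (Pc.hasJ ⟨(h2 x).adp, (h2 x).np,
      (b x).mono_one⟩).cast (by simp) rfl rfl).1, ?_⟩
    rintro _ ⟨a, s, s', j, j', -, g1, g2, rfl⟩ hθ
    have k0 := fun x => (h2 x).hasJ.cast (hθ _) rfl rfl
    simp only [Algebra.smul_def, ← mul_assoc] at k0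
    choose B₁ k1 using fun x => (k0 x).other rf1 (left_ne_zero_of_mul (k0 x).ne.2)
    choose B₂ k2 using fun x => (k0 x).other rf1 (right_ne_zero_of_mul (k0 x).ne.2)
    rw [← sum_congr rfl fun x _ => (((k1 x).mul rf1 (k2 x)).uniq rf1 (k0 x)).2, sum_add_distrib,
      (Z g1 fun _ => k1).2, (Z (a := 1) (j := j') g2 fun _ x => (k2 x).cast (by simp) rfl rfl).2, add_zero]

end Pool.Agent.MP_5d9b3c_ag.P3D
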