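import Pool.Agent.MP_5d9b3c_ag.P3D.Curve
import Pool.Agent.MP_5d9b3c_ag.P3K.Asm

/-!
The regularised integrals over a ruled surface.
-/

namespace Pool.Agent.MP_5d9b3c_ag.P3D

open P3K Finset

variable {p : ℕ} [Fact p.Prime] {L : Type} [Field L] [Algebra ℚ_[p] L] {ι ι' : Type} {n : ℕ}

/-- For one weight tameness gives the denominators. -/
theorem nd_tame {d : MD Unit n} (h : d.Tame) (T : ℂˣ) :
    d.ND p (chi (fun _ => T) fun _ => 1) := nd_chi fun l => by
  by_cases e : d.A () l = 0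
  · refine .inl ?_
    simp only [rho, univ_unique, prod_singleton, PUnit.default_eq_unit, e, zpow_zero,
      Units.val_one, mul_one]
    refine norm_zpow_ne ?_ (by have := h.pos l fun _ => e; omega)
    rw [Complex.norm_natCast]
    exact H72.one_lt_p.ne'
  · exact .inr (by simpa [kk] using e)

/-- The sum over a family equals the sum over a dominating family. -/
theorem surf_pv [Fintype ι] [Fintype ι'] {b : ι → Box p L n} {b' : ι' → Box p L n} {π : ι' → ι}
    (h1 : Dis b) (h2 : Dis b') (hs : Sb b b') (ho : ∀ β, (b' β).Over (b (π β))) {j u : ι → L}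
    {r : ι → Fin n → L} {d : ι → MD Unit n} {d' : ι' → MD Unit n}
    (hd : ∀ i, (b i).Adp (j i) (r i) (fun _ => u i) (d i))
    (hd' : ∀ β, (b' β).Adp (j (π β)) (r (π β)) (fun _ => u (π β)) (d' β))
    (hj : ∀ i, (b i).Reg (j i)) (hu : ∀ i, (b i).Reg (u i)) (hr : ∀ i l, (b i).Reg (r i l))
    (T : ℂˣ) : (∀ β, (d' β).Tame) ∧ ∑ i, (d i).val p (chi (fun _ => T) fun _ => 1) =
      ∑ β, (d' β).val p (chi (fun _ => T) fun _ => 1) := by
  classical
  have t1 : ∀ i, (d i).Tame := fun i =>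
    (hd i).tame (fun _ => .inl (hu i)) (.inl (hj i)) fun l => .inl (hr i l)
  have t2 : ∀ β, (d' β).Tame := fun β => (hd' β).tame (fun _ => .inl ((hu _).over (ho β)))
    (.inl ((hj _).over (ho β))) fun l => .inl ((hr _ l).over (ho β))
  refine ⟨t2, ?_⟩
  rw [← Fintype.sum_fiberwise π]
  refine sum_congr rfl fun i _ => ?_
  have := pv (d := fun _ : Unit => d i) (d' := fun β : {β // π β = i} => d' β) (j := j i)
    (r := r i) (h := fun _ => u i) (χ := chi (fun _ => T) fun _ => 1)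
    (fun _ _ _ _ _ _ _ => rfl) (h2.comp Subtype.val_injective) (rFIB b b' π hs h1 ho i)
    (fun _ => ⟨hd i, t1 i, nd_tame (t1 i) T⟩)
    fun β => ⟨by obtain ⟨β, rfl⟩ := β; exact hd' β, t2 β, nd_tame (t2 β) T⟩
  simpa using this

/-- The regularised integral with the weight `ord (y * t ^ k)` vanishes. -/
theorem surf_zero [Fintype ι] {b : ι → Box p L 2} {X₀ : Set L} (h1 : Dis b) (h2 : Itg b X₀)
    (h3 : Cov b X₀) {e : L ≃ₐ[ℚ_[p]] L} (hX : ∀ c ∈ X₀, e c = c) {y s t c γ : L}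
    (ey : e y = p * y) (es : e s = s) (et : e t = t) (ec : e c = c) (eγ : e γ = γ) {T : ℂˣ}
    {N ν m a : ℤ} {k : ℕ} {j u g : ι → L} {r : ι → Fin 2 → L} {d : ι → MD (Fin 2) 2}
    (hd : ∀ i, (b i).Adp (j i) (r i) ![u i, y * t ^ k] (d i))
    (hu : ∀ i, (b i).Un (u i / (c * y ^ m * g i ^ N)) 0)
    (hj : ∀ i, (b i).Un (j i * (b i).jac (r i) /
      (γ * y ^ (a - 1) * g i ^ ν * (b i).jac ![y, s])) 0)
    (hg : ∀ i, ∃ m A, (b i).Mono (g i) m A)
    (hm : ∀ i, ∀ x ∈ ({y, s, t, c, γ} : Set L),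
      (∃ m A, (b i).Mono x m A) ∧ ((b i).Reg x ∨ (b i).Reg x⁻¹))
    (hT : (T : ℂ) ^ N * (p : ℂ) ^ (-ν) = 1) (hn : ∀ i, (d i).ND p (chi ![T, 1] ![0, 1])) :
    ∑ i, (d i).val p (chi ![T, 1] ![0, 1]) = 0 := by
  have : CharZero L := charZero_of_injective_algebraMap (algebraMap ℚ_[p] L).injective
  have p0 : (p : L) ≠ 0 := Nat.cast_ne_zero.2 (Fact.out : p.Prime).ne_zero
  have hh : ∀ i (l : Fin 5), _ := fun i l => hm i (![y, s, t, c, γ] l) (by fin_cases l <;> simp)
  choose μ A hA using fun i l => (hh i l).1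
  choose μg Ag mg using hg
  have my : ∀ i, (b i).Mono y _ _ := fun i => hA i 0
  have mt : ∀ i, (b i).Mono t _ _ := fun i => hA i 2
  have mc : ∀ i, (b i).Mono c _ _ := fun i => hA i 3
  have mγ : ∀ i, (b i).Mono γ _ _ := fun i => hA i 4
  have e0 := fun i => (hu i).mono.mul (((mc i).mul ((my i).zpow m)).mul ((mg i).zpow N))
  replace e0 := fun i => ((hd i).fn 0).uniq (by
    have := e0 i
    rwa [div_mul_cancel₀ _ (((mc i).mul ((my i).zpow m)).mul ((mg i).zpow N)).ne] at this)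
  have e1 := fun i => ((hd i).fn 1).uniq ((my i).mul ((mt i).pow k))
  have mj : ∀ i, (b i).Mono (γ * y ^ (a - 1) * (b i).jac ![y, s]) ((d i).c - ν * μg i)
      ((fun l => (d i).ν l - 1) - ν • Ag i) := fun i => by
    have k1 := ((hd i).frm.div (hj i).mono).div ((mg i).zpow ν)
    have k2 := (hd i).frm.ne
    have k3 := ((mg i).zpow ν).ne
    rw [div_div_cancel₀ k2, sub_zero, sub_zero, mul_right_comm, mul_div_cancel_right₀ _ k3] at k1
    exact k1
  let D : ι → MD (Fin 5) 2 := fun i =>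
    ⟨(d i).c - ν * μg i, fun l => (d i).ν l - ν * Ag i l, μ i, A i⟩
  have fr : ∀ i, (b i).Mono (γ * y ^ (a - 1) * (b i).jac ![y, s]) (D i).c
      fun l => (D i).ν l - 1 := fun i => (mj i).congr rfl (funext fun l => by simp [D]; ring)
  have key : ∀ x x' y w : ℤ, (p : ℂ) ^ (-(x - ν * w)) * (((T : ℂ) ^ m) ^ y * (T : ℂ) ^ x') =
      (p : ℂ) ^ (-x) * (T : ℂ) ^ (x' + m * y + N * w) := fun x x' y w => by
    have := num T.ne_zero p_ne hT (m := m) (n := 0) (x - ν * w) x' y w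
    rw [show x - ν * w + 0 * y + ν * w = x by ring, neg_zero, zpow_zero, mul_one] at this
    rw [this]
    ring
  have c1 : ∀ i, cz (D i) p ![T ^ m, 1, 1, T, 1] = cz (d i) p ![T, 1] := fun i => by
    simp only [cz, Fin.prod_univ_five, Fin.prod_univ_two, (e0 i).1]
    simpa [D] using key _ _ _ _
  have c2 : ∀ i l, rho (D i) p ![T ^ m, 1, 1, T, 1] l = rho (d i) p ![T, 1] l := fun i l => by
    simp only [rho, Fin.prod_univ_five, Fin.prod_univ_two, (e0 i).2]
    simpa [D] using key _ _ _ _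
  have c3 : ∀ i, mm (D i) ![1, 0, k, 0, 0] = mm (d i) ![0, 1] := fun i => by
    simp [mm, Fin.sum_univ_five, (e1 i).1, D]
  have c4 : ∀ i l, kk (D i) ![1, 0, k, 0, 0] l = kk (d i) ![0, 1] l := fun i l => by
    simp [kk, Fin.sum_univ_five, (e1 i).2, D]
  have k2 := eig b X₀ e (γ * y ^ (a - 1)) ![y, s] ![y, s, t, c, γ]
    (chi ![T ^ m, 1, 1, T, 1] ![1, 0, k, 0, 0]) D ![p, 1, 1, 1, 1] ![1, 0, 0, 0, 0] (p ^ a) a
    h1 h2 h3 (fun i => ⟨⟨fr i, hA i⟩, ⟨fun l => (hA i l).sgn (hh i l).2, fun l hl =>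
      Box.nu_pos (fr i) ⟨_, _, (mγ i).mul ((my i).zpow _), by
        have k3 : A i 0 l = 0 := hl 0
        have k4 : A i 4 l = 0 := hl 4
        simp [k3, k4]⟩ fun x => by
        fin_cases x
        exacts [⟨_, _, hA i 0, (hl 0).ge⟩, ⟨_, _, hA i 1, (hl 1).ge⟩]⟩,
      fun l => by rw [den_chi, c2, c4, ← den_chi]; exact hn i l⟩) hX
    (fun l => by fin_cases l <;> simp [ey, es, et, ec, eγ, Algebra.smul_def])
    (fun b' => by
      simp only [Box.jac, Matrix.det_fin_two, Matrix.of_apply, Matrix.cons_val_zero,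
        Matrix.cons_val_one, map_mul, map_zpow₀, ey, es, eγ, Derivation.leibniz,
        Derivation.map_natCast, smul_eq_mul, Algebra.smul_def, map_natCast, mul_zpow,
        zpow_sub_one₀ p0]
      field_simp
      ring) (by simp)
  rw [chi_prod] at k2
  have k3 := (mul_eq_zero.1 k2).resolve_left fun h0 => by
    rw [← mul_assoc, ← map_mul] at h0
    have := ((ex_den _ _).uniq (h0 ▸ Ex.zero _)).2
    refine mul_ne_zero (mul_ne_zero (zpow_ne_zero _ p_ne) (Units.ne_zero _)) ?_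
      (neg_eq_zero.1 this)
    simp [Fin.sum_univ_five]
  exact (sum_congr rfl fun i _ => (val_congr (c1 i) (c2 i) (c3 i) (c4 i)).symm).trans k3

end Pool.Agent.MP_5d9b3c_ag.P3D
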