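import Pool.Agent.MP_5d9b3c_ag.P3D.Kit
import Pool.Agent.MP_5d9b3c_ag.P3D.Surf

/-! A face is compared with the faces over it. -/

namespace Pool.Agent.MP_5d9b3c_ag.P3D

open P3K Finset

theorem rPV2 (p : ℕ) [Fact p.Prime] : SPV2 p := by
  intro L _ _ n T ι _ b₀ b δ θ d₀ d h0 hu hw ho he hd h
  let D : MD (Fin 2) n → MD Unit n := fun e => ⟨e.c, e.ν, fun _ => e.m 0, fun _ => e.A 0⟩
  have k : ∀ (c : Box p L n) θ e, δ.Adp c θ e → c.Over b₀ →
      c.Adp (δ.w b₀) b₀.z (fun _ => δ.u) (D e) ∧ (D e).Tame := fun c θ e a o => by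
    have : c.Adp (δ.w b₀) b₀.z (fun _ => δ.u) (D e) := ⟨by
      rw [Dn.w, mul_assoc, mul_comm (b₀.jac _), ← c.jac_chain]
      exact a.frm, fun _ => a.fn 0⟩
    exact ⟨this, this.tame (fun _ => .inl (hu.over o)) (.inl (hw.over o))
      fun l => .inl (Box.Reg.over (fun t ht => b₀.zm t ht l) o)⟩
  have k0' := k _ _ _ h0 fun t ht => ⟨t, ht, le_rfl⟩
  have k1' := fun i => k _ _ _ (h i) (ho i)
  have c1 : ∀ e, cz (D e) p (fun _ => T) = cz e p (cT T) := fun e => by simp [cz, D]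
  have c2 : ∀ e l, rho (D e) p (fun _ => T) l = rho e p (cT T) l := fun e l => by simp [rho, D]
  have u := (h0.fn 0).uniq (h0.fn 1)
  have := pv (d := fun _ : Unit => D d₀) (d' := fun i => D (d i))
    (χ := chi (fun _ => T) fun _ => 1) (fun _ _ _ _ _ _ _ => rfl) hd he
    (fun _ => ⟨k0'.1, k0'.2, nd_tame k0'.2 T⟩) fun i => ⟨(k1' i).1, (k1' i).2, nd_tame (k1' i).2 T⟩
  refine ⟨(val_congr (c1 _) (c2 _) (by simp [mm, D, u.1]) fun l => by simp [kk, D, u.2]).symm.trans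
    (((Fintype.sum_unique _).symm.trans this).trans (sum_congr rfl fun i _ => val_congr (c1 _)
      (c2 _) (by simp [mm, D]) fun l => by simp [kk, D])), fun i l e q => ?_⟩
  have z : (d i).A 0 l = 0 := by simpa [kk] using q
  have := (k1' i).2.pos l fun _ => z
  refine norm_zpow_ne (x := (p : ℂ)) (e := -(d i).ν l) ?_ (by change 0 < (d i).ν l at this; omega)
    (by simpa [rho, z] using e)
  rw [Complex.norm_natCast]
  exact H72.one_lt_p.ne'

end Pool.Agent.MP_5d9b3c_ag.P3D
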