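import Pool.Agent.MP_5d9b3c_ag.P3D.Kit
import Pool.Agent.MP_5d9b3c_ag.P3X.Face
import Pool.Agent.MP_ee8c61_ag.M3BK.RSurfA

/-! Residues of densities. -/

namespace Pool.Agent.MP_5d9b3c_ag.P3D

open MP_ee8c61_ag M3 M3RESID M3BK P3 P3K P3T Set

variable {p : ℕ} [Fact p.Prime] [Algebra ℚ_[p] ℂ] {L k : Type} [Field L] [Algebra ℂ L] [Field k]
  [Algebra ℂ k] {n : ℕ} {A : GA ℚ_[p] L} {B : GA ℚ_[p] k} {P : Pl L k}

theorem coe_ne {g : A.fix} (h : g ≠ 0) : (g : L) ≠ 0 := fun e => h (Subtype.ext e)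

theorem v_mul (o : DV L) {g g' : A.fix} (h : g ≠ 0) (h' : g' ≠ 0) :
    o.v (g * g' : A.fix) = o.v g + o.v g' := o.mul _ _ (coe_ne h) (coe_ne h')

theorem v_zp (o : DV L) (g : A.fix) (e : ℤ) : o.v (g ^ e : A.fix) = e * o.v g := by
  rw [← o.zpow]
  exact congrArg _ (map_zpow₀ A.fix.subtype g e)

theorem v_div (o : DV L) {g g' : A.fix} (h : g ≠ 0) (h' : g' ≠ 0) :
    o.v (g / g' : A.fix) = o.v g - o.v g' := by
  rw [div_eq_mul_inv, v_mul o h (inv_ne_zero h'), Subfield.coe_inv, o.inv, sub_eq_add_neg]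

theorem v_smul (o : DV L) {a : ℚ_[p]} (ha : a ≠ 0) {g : A.fix} (h : g ≠ 0) :
    o.v (a • g : A.fix) = o.v g := by
  rw [Algebra.smul_def, v_mul o ((map_ne_zero _).2 ha) h, coe_alg, v_cst, zero_add]

theorem CBox.On.ord {c : CBox A n} {o : DV L} {i : Fin n} {g : A.fix} {m : ℤ} {a : Fin n → ℤ}
    (h : c.On o i) (hg : c.b.Mono g m a) : o.v g = a i := by
  have h1 := (o.un_O.1 (RSurf.un_of_ev (W := o.O) (h 0 zero_Bl rfl).le
    (g := (g / ∏ l, c.b.z l ^ a l : A.fix)) (by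
      rw [← c.ev 0 zero_Bl, map_ne_zero]
      exact Box.Un.ne hg zero_Bl))).2
  have h2 : ((∏ l, c.b.z l ^ a l : A.fix) : L) = c.C.mon a := by
    simp only [Co.mon, ← c.z]
    push_cast
    rfl
  rw [v_div o hg.ne (c.b.mono_mon a).ne, h2, h.at.v_mon] at h1
  omega

variable (h : A.Cpt B P) {z z' g g' : A.fix}

theorem pf_ne (h0 : g ≠ 0) (hv : P.o.v g = 0) : pf h g ≠ 0 := fun e =>
  Pl.π_ne (coe_ne h0) hv ((coe_pf h (Or.inr hv.ge)).symm.trans (congrArg Subtype.val e))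

theorem ne_of_v (hz : P.o.v z = 1) : z ≠ 0 := fun e => by
  rw [e, ZeroMemClass.coe_zero, P.o.zero] at hz
  exact zero_ne_one hz

theorem v_ini (hz : P.o.v z = 1) (h0 : g ≠ 0) : P.o.v (g / z ^ P.o.v g : A.fix) = 0 := by
  rw [v_div _ h0 (zpow_ne_zero _ (ne_of_v hz)), v_zp, hz, mul_one, sub_self]

theorem ini_ne (hz : P.o.v z = 1) (h0 : g ≠ 0) : ini h z g ≠ 0 :=
  pf_ne h (div_ne_zero h0 (zpow_ne_zero _ (ne_of_v hz))) (v_ini hz h0)

theorem ini_unit (hv : P.o.v g = 0) : ini h z g = pf h g := by rw [ini, hv, zpow_zero, div_one]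

variable [Algebra.IsAlgebraic ℚ_[p] ℂ]

theorem ini_mul (hz : P.o.v z = 1) (h0 : g ≠ 0) (h0' : g' ≠ 0) :
    ini h z (g * g') = ini h z g * ini h z g' := by
  rw [ini, v_mul _ h0 h0', zpow_add₀ (ne_of_v hz), mul_div_mul_comm]
  exact (plc h).mul _ (Or.inr (v_ini hz h0).ge) _ (Or.inr (v_ini hz h0').ge)

theorem ini_zpow (hz : P.o.v z = 1) (h0 : g ≠ 0) (e : ℤ) : ini h z (g ^ e) = ini h z g ^ e := by
  rw [ini, v_zp, mul_comm, zpow_mul, ← div_zpow]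
  exact ((plc h).π_zpow (Or.inr (v_ini hz h0).ge) (ini_ne h hz h0) e).2

theorem ini_smul (hz : P.o.v z = 1) {a : ℚ_[p]} (ha : a ≠ 0) (h0 : g ≠ 0) :
    ini h z (a • g) = a • ini h z g := by
  rw [ini, v_smul _ ha h0, smul_div_assoc]
  exact (plc h).π_smul a (Or.inr (v_ini hz h0).ge)

theorem ini_self (hz : P.o.v z = 1) : ini h z z = 1 := by
  rw [ini, hz, zpow_one, div_self (ne_of_v hz)]
  exact (plc h).π_one

/-- The change of the uniformiser. -/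
theorem ini_chg (hz : P.o.v z = 1) (hz' : P.o.v z' = 1) (h0 : g ≠ 0) :
    ini h z' g = ini h z g * ini h z' z ^ P.o.v g := by
  have h1 := zpow_ne_zero (P.o.v g) (ne_of_v hz)
  rw [← ini_zpow h hz' (ne_of_v hz), ini.eq_1 h z, ← ini_unit h (z := z') (v_ini hz h0),
    ← ini_mul h hz' (div_ne_zero h0 h1) h1, div_mul_cancel₀ _ h1]

theorem ini_ini (hz : P.o.v z = 1) (hz' : P.o.v z' = 1) : ini h z z' * ini h z' z = 1 := by
  rw [← ini_self h hz', ini_chg h hz hz' (ne_of_v hz'), hz', zpow_one]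

variable {h} {c c' : CBox A (n + 1)} {i i' : Fin (n + 1)} {f f' : CBox B n}

theorem CFace.vz (hf : CFace c h i f) : P.o.v (c.b.z i) = 1 := c.z i ▸ hf.on.at.vz

theorem CFace.mono (hf : CFace c h i f) {m : ℤ} {a : Fin (n + 1) → ℤ} (hg : c.b.Mono g m a) :
    f.b.Mono (ini h (c.b.z i) g) m fun l => a (i.succAbove l) := by
  rw [ini, hf.on.ord hg]
  exact (hf.fc.mono hg).2

theorem CFace.zf (hf : CFace c h i f) : (fun l => pf h (c.b.z (i.succAbove l))) = f.b.z :=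
  funext fun l => (hf.fc.z l).symm

/-- The residue of the Jacobian determinant of two adapted boxes. -/
theorem CFace.jac (hf : CFace c h i f) (hf' : CFace c' h i' f') :
    c.b.jac c'.b.z ≠ 0 ∧ P.o.v (c.b.jac c'.b.z : A.fix) = 0 ∧ pf h (c.b.jac c'.b.z) =
      (-1) ^ ((i : ℕ) + i') * ini h (c.b.z i) (c'.b.z i') * f.b.jac f'.b.z := by
  obtain ⟨h1, h2⟩ := hf.fc.jac c'.b.z i' hf'.fc.on.zm hf'.fc.on.at0.z0
  have h3 : pf h (c.b.jac c'.b.z) =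
      (-1) ^ ((i : ℕ) + i') * ini h (c.b.z i) (c'.b.z i') * f.b.jac f'.b.z := by
    rw [ini, hf'.vz, zpow_one, ← hf'.zf]
    exact h2
  have h4 : pf h (c.b.jac c'.b.z) ≠ 0 := h3 ▸ mul_ne_zero (mul_ne_zero (by simp)
    (ini_ne h hf.vz (c'.b.z_ne i'))) (left_ne_zero_of_mul_eq_one
      ((f.b.jac_chain f'.b f.b.z).symm.trans f.b.jac_self))
  have h5 := not_or.1 fun e : ((c.b.jac c'.b.z : A.fix) : L) ∈ P.o.F 1 =>
    h4 (Subtype.ext ((coe_pf h h1).trans (P.π_F1 e)))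
  have h6 := Or.resolve_left h1 h5.1
  exact ⟨fun e => h5.1 (congrArg Subtype.val e), by omega, h3⟩

variable (p)

theorem rRES : SRES p where
  ord h hg := h.ord hg
  pol {L _ _ n A c o i T δ θ d} h ha := by
    have h0 : o.v δ.u = d.A 0 i := h.ord (ha.fn 0)
    have h1 : o.v θ = d.A 1 i := h.ord (ha.fn 1)
    have h2 : o.v (δ.w c.b : A.fix) = d.ν i - 1 := h.ord ha.frm
    have p0 : (p : ℂ) ≠ 0 := Nat.cast_ne_zero.2 (Fact.out : p.Prime).ne_zero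
    refine ⟨?_, by simp [kk, h0], by simp [kk, h1]⟩
    rw [Dn.Pol, h0, h2, sub_add_cancel, rho, zpow_neg, inv_mul_eq_one₀ (zpow_ne_zero _ p0), eq_comm]
    simp
  adp {L k _ _ _ _ n A B P h c i f δ θ d} hf ha := by
    refine ⟨?_, Fin.forall_fin_two.2 ⟨hf.mono (ha.fn 0), hf.mono (ha.fn 1)⟩⟩
    rw [Dn.rs, hf.zf, f.b.jac_self, mul_one]
    exact hf.mono ha.frm
  ini {L k _ _ _ _ A B P} h {z g g'} hz h0 h0' := ⟨ini_ne h hz h0, by
    have a := zpow_ne_zero (P.o.v g') h0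
    have a' := zpow_ne_zero (-P.o.v g) h0'
    rw [← ini_zpow h hz h0, ← ini_zpow h hz h0', ← ini_mul h hz a' a, ini_unit h (by
      rw [v_mul _ a' a, v_zp, v_zp]
      ring), zpow_neg, div_eq_inv_mul]⟩
  uniq h h' := RFl.dat_uniq (CBox.rg _ 0 zero_Bl) (h 0 zero_Bl rfl) (h' 0 zero_Bl rfl)

theorem rRSD : SRSD p := by
  rintro L k _ _ _ _ n A B P h c c' i i' f f' δ δ' T N ν hl hf hf' ⟨ε, e0, eu, a, a1, ew⟩ u0 w0 hp
  obtain ⟨j0, j1, j2⟩ := hf.jac hf'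
  have a0 : a ≠ 0 := fun e => by simp [e] at a1
  have p0 : (p : ℂ) ≠ 0 := Nat.cast_ne_zero.2 (Fact.out : p.Prime).ne_zero
  have e1 : δ.w c.b = c.b.jac c'.b.z * δ.w c'.b := by
    rw [Dn.w, Dn.w, c.b.jac_chain c'.b, mul_left_comm]
  have w1 : δ.w c'.b ≠ 0 := right_ne_zero_of_mul (e1 ▸ w0)
  have e2 : P.o.v (δ.w c'.b : A.fix) = P.o.v (δ.w c.b : A.fix) := by
    rw [e1, v_mul _ j0 w1, j1, zero_add]
  have z0 := fun m : ℤ => zpow_ne_zero m e0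
  obtain ⟨α, k1, k2⟩ := (hl _ _).1 hp
  refine ⟨(hl _ _).2 ⟨α + P.o.v ε, ?_, ?_⟩, ini h (c'.b.z i') (c.b.z i) ^ α * ini h (c'.b.z i') ε,
    mul_ne_zero (zpow_ne_zero _ (ini_ne h hf'.vz (c.b.z_ne i))) (ini_ne h hf'.vz e0), ?_,
    (-1) ^ ((i : ℕ) + i') * a, by simp [a1], fun b => ?_⟩
  · rw [eu, v_mul _ u0 (z0 _), v_zp, k1]
    ring
  · rw [ew, v_smul _ a0 (mul_ne_zero (z0 _) w1), v_mul _ (z0 _) w1, v_zp, e2, add_assoc, k2]
    ring
  · show ini h _ δ'.u = ini h _ δ.u * _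
    rw [eu, ini_mul h hf'.vz u0 (z0 _), ini_zpow h hf'.vz e0, ini_chg h hf.vz hf'.vz u0, k1,
      mul_zpow, zpow_mul, mul_assoc]
  · show ini h _ (δ'.w c'.b) * b.jac (fun l => pf h (c'.b.z (i'.succAbove l))) =
      _ • (_ * (ini h _ (δ.w c.b) * b.jac fun l => pf h (c.b.z (i.succAbove l))))
    have h1 := ini_ini h hf.vz hf'.vz
    have h2 : ini h (c'.b.z i') (c.b.z i) ^ (α * ν) =
        ini h (c'.b.z i') (c.b.z i) ^ P.o.v (δ.w c'.b : A.fix) * ini h (c'.b.z i') (c.b.z i) := by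
      rw [e2, ← k2, zpow_add_one₀ (right_ne_zero_of_mul_eq_one h1)]
    have h3 : ((-1) ^ ((i : ℕ) + i') : B.fix) * (-1) ^ ((i : ℕ) + i') = 1 := by
      rw [← mul_pow, neg_mul_neg, one_mul, one_pow]
    rw [ew, ini_smul h hf'.vz a0 (mul_ne_zero (z0 _) w1), ini_mul h hf'.vz (z0 _) w1,
      ini_zpow h hf'.vz e0, ini_chg h hf.vz hf'.vz w1, hf.zf, hf'.zf, e1, ini_mul h hf.vz j0 w1,
      ini_unit h j1, j2, b.jac_chain f.b f'.b.z, mul_zpow, ← zpow_mul, h2, Algebra.smul_def,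
      Algebra.smul_def, map_mul, map_pow, map_neg, map_one]
    linear_combination (-(algebraMap ℚ_[p] B.fix a * ini h (c'.b.z i') ε ^ ν *
      ini h (c.b.z i) (δ.w c'.b) * ini h (c'.b.z i') (c.b.z i) ^ P.o.v (δ.w c'.b : A.fix) *
      b.jac f.b.z * f.b.jac f'.b.z)) * (h3 * (ini h (c.b.z i) (c'.b.z i') *
        ini h (c'.b.z i') (c.b.z i)) + h1)

end Pool.Agent.MP_5d9b3c_ag.P3D
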