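import Pool.Agent.MP_5d9b3c_ag.P3D.Kit
import Pool.Agent.MP_5d9b3c_ag.P3D.Curve

/-! The integral of an eigenfunction over a surface vanishes. -/

namespace Pool.Agent.MP_5d9b3c_ag.P3D

open P3K Finset

open MvPolynomial in
/-- A vector outside of finitely many hyperplanes. -/
theorem exists_off {κ σ : Type} [Fintype κ] [Fintype σ] (v : κ → σ → ℤ) :
    ∃ k : σ → ℤ, ∀ i, ∑ x, k x * v i x = 0 → v i = 0 := by
  classical
  by_contra! h
  have e : ∀ i k, eval k (∑ x, X x * C (v i x) : MvPolynomial σ ℤ) = ∑ x, k x * v i x :=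
    fun i k => by simp
  refine (prod_ne_zero_iff (s := univ.filter fun i => v i ≠ 0)
    (f := fun i => (∑ x, X x * C (v i x) : MvPolynomial σ ℤ))).2
    (fun i hi q => (mem_filter.1 hi).2 (funext fun x => ?_)) (MvPolynomial.funext fun k => ?_)
  · have := e i (Pi.single x 1)
    rw [q] at this
    simpa [Pi.single_apply] using this.symm
  · obtain ⟨i, a, b⟩ := h k
    rw [map_prod, map_zero]
    exact prod_eq_zero (mem_filter.2 ⟨mem_univ i, b⟩) ((e i k).trans a)

theorem rSF0 (p : ℕ) [Fact p.Prime] : SSF0 p := by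
  intro L _ _ T N ν ι _ b X a m τ δ ε hl hb hX hτ m0 ha hw hε hW
  choose μ A hA using fun i l => (ha i l).1
  choose με Aε hε using hε
  choose c B hW using hW
  obtain ⟨k, hk⟩ := exists_off fun o : Option (ι × Fin 2) => o.elim m fun y x => A y.1 x y.2
  let D : ι → MD (Fin 4) 2 := fun i => ⟨c i - ν * με i, fun l => B i l + 1 - ν * Aε i l, μ i, A i⟩
  let d : ι → MD (Fin 2) 2 := fun i => ⟨c i, fun l => B i l + 1,
    ![μ i 2 + N * με i, ∑ x, k x * μ i x], ![A i 2 + N • Aε i, ∑ x, k x • A i x]⟩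
  have hD : ∀ i, (b i).Adp (a 3) ![a 0, a 1] a (D i) := fun i => by
    obtain ⟨α, a1, a2⟩ := (hw i).w
    have a0 : α ≠ 0 := fun e => by simp [e] at a1
    have u : (b i).Un (algebraMap ℚ_[p] L α) 0 := fun t _ =>
      ⟨Subalgebra.algebraMap_mem _ _, by simp [Pt.ev_alg, a1]⟩
    have := ((hW i).div u.mono).div ((hε i).zpow ν)
    rw [a2, Algebra.smul_def, mul_div_cancel_left₀ _ u.ne_zero,
      mul_div_cancel_left₀ _ (zpow_ne_zero _ (hw i).ne)] at this
    exact ⟨this.congr (by simp [D]) (funext fun l => by simp [D]; ring), hA i⟩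
  have hT : ∀ i, (D i).Tame := fun i => (hD i).tame (fun l => (ha i l).2) (.inr ⟨3, rfl⟩)
    fun x => .inr (by fin_cases x; exacts [⟨0, rfl⟩, ⟨1, rfl⟩])
  have key : ∀ x y w : ℤ, (p : ℂ) ^ (-(x - ν * w)) * (T : ℂ) ^ y =
      (p : ℂ) ^ (-x) * (T : ℂ) ^ (y + N * w) := fun x y w => by
    rw [zpow_add₀ T.ne_zero, zpow_mul, hl.one, ← zpow_mul, neg_sub, sub_eq_neg_add,
      zpow_add₀ p_ne]
    ring
  have c1 : ∀ i, cz (D i) p ![1, 1, T, 1] = cz (d i) p (cT T) := fun i => by
    simpa [cz, Fin.prod_univ_four, D, d] using key (c i) (μ i 2) (με i)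
  have c2 : ∀ i l, rho (D i) p ![1, 1, T, 1] l = rho (d i) p (cT T) l := fun i l => by
    simpa [rho, Fin.prod_univ_four, D, d] using key (B i l + 1) (A i 2 l) (Aε i l)
  have c3 : ∀ i, mm (D i) k = mm (d i) k1 := fun i => by simp [mm, D, d]
  have c4 : ∀ i l, kk (D i) k l = kk (d i) k1 l := fun i l => by simp [kk, D, d, Finset.sum_apply]
  have nz : ∀ i l, rho (D i) p ![1, 1, T, 1] l = 1 → kk (D i) k l ≠ 0 := fun i l h q => by
    have z : ∀ x, (D i).A x l = 0 := congrFun (hk (some (i, l)) q)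
    simp only [rho, z, zpow_zero, prod_const_one, Units.val_one, mul_one] at h
    refine norm_zpow_ne ?_ (by have := (hT i).pos l z; omega) h
    rw [Complex.norm_natCast]
    exact H72.one_lt_p.ne'
  refine ⟨k, d, fun i => ⟨⟨(hW i).congr rfl (funext fun l => by simp [d]), fun x => ?_⟩,
    fun l h => c4 i l ▸ nz i l (c2 i l ▸ h)⟩, ?_⟩
  · fin_cases x
    · exact (hw i).u ▸ (hA i 2).mul ((hε i).zpow N)
    · exact Box.Mono.prod univ fun x _ => (hA i x).zpow (k x)
  have k2 := eig b X τ (a 3) ![a 0, a 1] a (chi ![1, 1, T, 1] k) D (fun x => p ^ m x) m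
    (p ^ (m 3 + m 0 + m 1)) (m 3 + m 0 + m 1) hb.dis hb.itg hb.cov
    (fun i => ⟨hD i, hT i, nd_chi fun l => (em _).symm.imp_right (nz i l)⟩) hX
    (fun l => ⟨by rw [hτ, Algebra.smul_def, map_zpow₀, map_natCast], by simp⟩)
    (fun b' => by
      have e : ∀ l x, b'.D l (τ (a x)) = p ^ m x * b'.D l (a x) := fun l x => by
        rw [hτ, ← map_natCast (algebraMap ℚ_[p] L), ← map_zpow₀, ← Algebra.smul_def,
          Derivation.map_smul, Algebra.smul_def]
      simp only [Box.jac, Matrix.det_fin_two, Matrix.of_apply, Matrix.cons_val_zero,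
        Matrix.cons_val_one, e, hτ 3, Algebra.smul_def, map_zpow₀, map_natCast, map_mul,
        zpow_add₀ (H72.pp_ne (p := p))]
      ring) (by simp)
  rw [chi_prod] at k2
  have k3 := (mul_eq_zero.1 k2).resolve_left fun h0 => by
    rw [← mul_assoc, ← map_mul] at h0
    have := ((ex_den _ _).uniq (h0 ▸ Ex.zero _)).2
    refine mul_ne_zero (mul_ne_zero (zpow_ne_zero _ p_ne) (Units.ne_zero _)) (fun q => ?_)
      (neg_eq_zero.1 this)
    exact one_ne_zero (m0.symm.trans (congrFun (hk none (Int.cast_eq_zero.1 q)) 0))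
  exact (sum_congr rfl fun i _ => (val_congr (c1 i) (c2 i) (c3 i) (c4 i)).symm).trans k3

end Pool.Agent.MP_5d9b3c_ag.P3D
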