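import Pool.Agent.MP_5d9b3c_ag.P3D.Tau
import Pool.Agent.MP_ee8c61_ag.M3RESID.Cht

/-!
Explicit twisted volume forms, their residues and their shape in a frame.
-/

namespace Pool.Agent.MP_5d9b3c_ag.P3D

open MP_ee8c61_ag M3 M3RESID M3BK M3H47 P3 P3B Set Finset

noncomputable section

variable {L k : Type} [Field L] [Algebra ℂ L] [Field k] [Algebra ℂ k] {n : ℕ}

/-- The volume form `j * u ^ (-la) * ∏ d z i`. -/
def dn (C : Co L n) (j u : L) (la : ℂ) : Dv L := (C.dv.tw j 1).tw u (-la)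

theorem dn_δ (C : Co L n) (j u : L) (la : ℂ) (X : VF L) :
    (dn C j u la).δ X = C.dv.δ X + X j / j - algebraMap ℂ L la * (X u / u) := by
  rw [dn, Dv.tw_δ, Dv.tw_δ, map_one, map_neg]
  ring

theorem dlog_mul (X : VF L) {a b : L} (ha : a ≠ 0) (hb : b ≠ 0) :
    X (a * b) / (a * b) = X a / a + X b / b := by
  rw [Derivation.leibniz, smul_eq_mul, smul_eq_mul]
  field_simp
  ring

theorem dlog_zpow (X : VF L) {a : L} (ha : a ≠ 0) (m : ℤ) :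
    X (a ^ m) / a ^ m = m * (X a / a) := by
  have := zpow_ne_zero m ha
  rw [Dv.zpow_der X a ha]
  field_simp

theorem dn_one (C : Co L n) (u : L) (la : ℂ) : dn C 1 u la = C.dv.tw u (-la) :=
  Dv.ext' fun X => by simp [dn, Dv.tw_δ]

/-- Change of coordinates. -/
theorem dn_chg (C C' : Co L n) {j : L} (hj : j ≠ 0) (u : L) (la : ℂ) :
    dn C j u la = dn C' (j * C.jac C') u la := Dv.ext' fun X => by
  rw [dn_δ, dn_δ, C.dv_jac C', Dv.tw_δ, dlog_mul X hj (C.jac_ne C'), map_one]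
  ring

/-- Change of the datum. -/
theorem dn_mod (C : Co L n) {j u w : L} (hj : j ≠ 0) (hu : u ≠ 0) (hw : w ≠ 0) {la : ℂ}
    {N ν : ℤ} (h : la * N = ν) : dn C (j * w ^ ν) (u * w ^ N) la = dn C j u la :=
  Dv.ext' fun X => by
    have e : algebraMap ℂ L la * N = ν := by simpa using congrArg (algebraMap ℂ L) h
    rw [dn_δ, dn_δ, dlog_mul X hj (zpow_ne_zero _ hw), dlog_mul X hu (zpow_ne_zero _ hw),
      dlog_zpow X hw, dlog_zpow X hw, ← e]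
    ring

variable {P : Pl L k} {C C₂ : Co L (n + 1)} {i i₂ : Fin (n + 1)} {C' C₂' : Co k n}

omit [Algebra ℂ L] in
theorem v_unit {o : DV L} {g z : L} (hg : g ≠ 0) (hz : o.v z = 1) :
    z ≠ 0 ∧ g / z ^ o.v g ≠ 0 ∧ o.v (g / z ^ o.v g) = 0 := by
  have z0 : z ≠ 0 := fun e => by simp [e, o.zero] at hz
  refine ⟨z0, div_ne_zero hg (zpow_ne_zero _ z0), ?_⟩
  rw [div_eq_mul_inv, ← zpow_neg, o.mul _ _ hg (zpow_ne_zero _ z0), v_zpow _ z0, hz]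
  ring

/-- The residue of an explicit volume form. -/
theorem dn_res (hC : P.RsC C i C') (h : C.At P.o i) {j u η : L} (hj : j ≠ 0) (hu : u ≠ 0)
    (hη : P.o.v η = 1) {la : ℂ} (he : la * P.o.v u = P.o.v j + 1) :
    P.RsD (dn C j u la)
      (dn C' (P.π (j * C.z i / η ^ (P.o.v j + 1))) (P.π (u / η ^ P.o.v u)) la) := by
  have h0 := mul_ne_zero hj (C.ne i)
  have h1 : P.o.v (j * C.z i) = P.o.v j + 1 := by rw [P.o.mul _ _ hj (C.ne i), h.vz]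
  obtain ⟨η0, h2, h3⟩ := v_unit h0 hη
  obtain ⟨-, h4, h5⟩ := v_unit hu hη
  rw [h1] at h2 h3
  have r1 : ∀ v ∈ LV P.o 0, (C.dv.tw (C.z i) (-1)).δ v ∈ P.o.F 0 := (h.exp_dv.tw (C.ne i) _).reg
  have r2 : ∀ v ∈ LV P.o 0, ((C.dv.tw (C.z i) (-1)).tw (j * C.z i / η ^ (P.o.v j + 1)) 1).δ v ∈
    P.o.F 0 := ((h.exp_dv.tw (C.ne i) _).tw h2 _).reg
  have key := ((hC.dv h).tw r1 h2 h3 1).tw r2 h4 h5 (-la)
  have e : algebraMap ℂ L la * P.o.v u = P.o.v j + 1 := by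
    simpa using congrArg (algebraMap ℂ L) he
  refine (Dv.ext' fun X => ?_ : dn C j u la = _) ▸ key
  rw [dn_δ, Dv.tw_δ, Dv.tw_δ, Dv.tw_δ, div_eq_mul_inv u, div_eq_mul_inv (j * _), ← zpow_neg,
    ← zpow_neg, dlog_mul X h0 (zpow_ne_zero _ η0), dlog_mul X hu (zpow_ne_zero _ η0),
    dlog_mul X hj (C.ne i), dlog_zpow X η0, dlog_zpow X η0]
  simp only [map_neg, map_one, Int.cast_neg, Int.cast_add, Int.cast_one]
  linear_combination -(X η / η) * e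

theorem dn_eq (hC : P.RsC C i C') (h : C.At P.o i) {j u η : L} (hj : j ≠ 0) (hu : u ≠ 0)
    (hη : P.o.v η = 1) {la : ℂ} (he : la * P.o.v u = P.o.v j + 1) {e : Dv k}
    (hd : P.RsD (dn C j u la) e) :
    e = dn C' (P.π (j * C.z i / η ^ (P.o.v j + 1))) (P.π (u / η ^ P.o.v u)) la :=
  hd.uniq (dn_res hC h hj hu hη he) (hC.lift h)

/-- The residue map as a ring homomorphism. -/
def πh (P : Pl L k) : oA P.o →+* k where
  toFun g := P.π g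
  map_one' := P.π_one
  map_mul' g h := P.mul _ g.2 _ h.2
  map_zero' := P.π_zero
  map_add' g h := P.add _ g.2 _ h.2

theorem π_det {m : ℕ} (M : Matrix (Fin m) (Fin m) L) (h : ∀ a b, M a b ∈ P.o.F 0) :
    M.det ∈ P.o.F 0 ∧ P.π M.det = (M.map P.π).det := by
  let M' : Matrix (Fin m) (Fin m) (oA P.o) := fun a b => ⟨M a b, h a b⟩
  have e : M.det = (M'.det : L) := ((oA P.o).val.toRingHom.map_det M').symm
  exact ⟨e ▸ M'.det.2, e ▸ (πh P).map_det M'⟩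

/-- The Jacobian determinant restricts. -/
theorem jac_res (hC : P.RsC C i C') (h : C.At P.o i) (hC₂ : P.RsC C₂ i₂ C₂')
    (h₂ : C₂.At P.o i₂) : P.o.v (C.jac C₂) = 0 ∧ P.π (C.jac C₂) =
      (-1) ^ ((i : ℕ) + i₂) * P.π (C.z i / C₂.z i₂) * C'.jac C₂' := by
  have hD : ∀ l m, (Matrix.of fun l m => C₂.D m (C.z l)) l m ∈ P.o.F 0 :=
    fun l m => h₂.D _ _ (h.z_F _)
  obtain ⟨h1, h2⟩ := π_det _ hD
  obtain ⟨-, h3, h4⟩ := v_unit (C.ne i) h₂.vz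
  rw [h.vz, zpow_one] at h3 h4
  have h5 : C.z i / C₂.z i₂ ∈ P.o.F 0 := Or.inr h4.ge
  have h6 : ∀ m, P.π (C₂.D m (C.z i)) = if m = i₂ then P.π (C.z i / C₂.z i₂) else 0 := fun m => by
    have e : C₂.D m (C.z i) - (if m = i₂ then C.z i / C₂.z i₂ else 0) =
        C₂.z i₂ * C₂.D m (C.z i / C₂.z i₂) := by
      conv_lhs => rw [← mul_div_cancel₀ (C.z i) (C₂.ne i₂), Derivation.leibniz, C₂.dual]
      rw [mul_div_cancel_left₀ _ (C₂.ne i₂)]
      split_ifs <;> simp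
    rw [Pl.π_congr (by split_ifs; exacts [h5, zero_mem _])
      (e ▸ F_mul0' (Or.inr h₂.vz.ge) (h₂.D _ _ h5))]
    split_ifs
    exacts [rfl, P.π_zero]
  have h7 : P.π (C.jac C₂) = (-1) ^ ((i : ℕ) + i₂) * P.π (C.z i / C₂.z i₂) * C'.jac C₂' := by
    rw [Co.jac, h2, Matrix.det_succ_row _ i, sum_eq_single i₂ (fun m _ hm => by simp [h6, hm])
      (by simp)]
    simp only [Matrix.map_apply, Matrix.of_apply, h6, if_true]
    congr 2
    ext l m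
    simp only [Matrix.submatrix_apply, Matrix.map_apply, Matrix.of_apply]
    rw [(hC₂.D h₂ m).2 _ (h.z_F _), hC l]
  refine ⟨?_, h7⟩
  have h8 : C.jac C₂ ∉ P.o.F 1 := fun e => by
    rw [P.π_F1 e] at h7
    exact mul_ne_zero (mul_ne_zero (by simp) (Pl.π_ne h3 h4)) (C'.jac_ne C₂') h7.symm
  have h9 := not_or.1 h8
  have h10 := h1.resolve_left h9.1
  rw [Co.jac] at h9 ⊢
  omega

/-- The shape of the volume form in a frame. -/
theorem dn_eig {K : IntermediateField ℂ L} {C : Co L (n + 1)} {θ : VF L} {j u c w : L} {la μ : ℂ}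
    {N ν m : ℤ} (hK : Rl K (C.z 0)) (hθ : ∀ c ∈ K, θ c = 0) (h0 : θ (C.z 0) = C.z 0)
    (h1 : ∀ l : Fin n, C.z l.succ ∈ K) (hj : j ≠ 0) (hc : c ∈ K) (c0 : c ≠ 0) (hw : w ≠ 0)
    (hu : u = c * C.z 0 ^ m * w ^ N) (hl : la * N = ν)
    (hd : (dn C j u la).δ θ = algebraMap ℂ L μ) :
    ∃ (a : ℤ) (γ : L), γ ∈ K ∧ γ ≠ 0 ∧ j = γ * C.z 0 ^ (a - 1) * w ^ ν ∧ a - la * m = μ := by
  have y0 := C.ne 0
  have h2 := zpow_ne_zero ν hw
  have h3 := div_ne_zero hj h2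
  have h4 : C.dv.δ θ = 1 := by
    rw [Co.dv_δ, Fin.sum_univ_succ, h0, C.dual, if_pos rfl,
      sum_eq_zero fun l _ => by rw [hθ _ (h1 l), map_zero], add_zero]
  rw [← div_mul_cancel₀ j h2, hu, dn_mod C h3 (mul_ne_zero c0 (zpow_ne_zero _ y0)) hw hl, dn_δ,
    h4, dlog_mul θ c0 (zpow_ne_zero _ y0), dlog_zpow θ y0, hθ c hc, h0, div_self y0] at hd
  obtain ⟨a, ha, h5⟩ := rl_eig hK hθ h0 h3 (a := μ - 1 + la * m) (by
    rw [← div_eq_iff h3, map_add, map_sub, map_mul, map_one, map_intCast]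
    linear_combination hd)
  refine ⟨a + 1, _, h5, div_ne_zero h3 (zpow_ne_zero _ y0), ?_, ?_⟩
  · rw [add_sub_cancel_right, div_mul_cancel₀ _ (zpow_ne_zero _ y0), div_mul_cancel₀ _ h2]
  · push_cast
    linear_combination -ha

variable {F : Type} [Field F] [Algebra F ℂ] {A : GA F L}

theorem jac_fix {C C' : Co L n} (h : ∀ l, C.z l ∈ A.fix) (h' : ∀ l, C'.z l ∈ A.fix) :
    C.jac C' ∈ A.fix := by
  rw [Co.jac, Matrix.det_apply']
  exact sum_mem fun σ _ => mul_mem (intCast_mem _ _)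
    (prod_mem fun l _ => (GA.invV_D h' l).fix (h _))

variable [Algebra.IsAlgebraic F ℂ] {d : Dv L} {v v' : VF L} {b : ℂ} {X : Set L} {y u : L} {N : ℕ}
  {g : ℚ}

/-- Fixed coordinates of the frame. -/
theorem co_star (h : A.StarP d v b X u N v' y g) (hb : b ≠ 0) (C : Co L 2) :
    ∃ C₁ : Co L 2, C₁.z 0 = y ∧ (∀ l, C₁.z l ∈ A.fix) ∧ v' (C₁.z 1) = 0 := by
  obtain ⟨t₀, X0, X1, R⟩ := (rl_star h hb).2.exists_ada C
  obtain ⟨t, h1, h2, h3⟩ := A.sa.exists_fx (W := (cst v').toSubalgebra.toSubmodule)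
    (W' := LinearMap.ker X1.toLinearMap) (x := t₀) (stb_cst h.inv) R.t0 (by simp [R.t1])
  replace h3 : X1 t ≠ 0 := h3
  refine ⟨⟨![y, t], ![y⁻¹ • X0, (X1 t)⁻¹ • X1], fun l => ?_, fun l m => ?_, fun Z hZ => ?_⟩, rfl,
    fun l => ?_, h1⟩
  · fin_cases l
    exacts [h.y0, fun e => h3 (by rw [show t = 0 from e, map_zero])]
  · fin_cases l <;> fin_cases m <;> simp [R.y0, R.y1, R.k0 t h1, h.y0, h3]
  · have e := R.exp h.y0 Z
    have e1 : Z t = 0 := hZ 1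
    rw [show Z y = 0 from hZ 0, zero_div, zero_smul, zero_add] at e
    rw [e, Derivation.smul_apply, smul_eq_mul, mul_eq_zero, or_iff_left h3] at e1
    rw [e, e1, zero_smul]
  · fin_cases l
    exacts [h.fix, h2]

omit [Algebra.IsAlgebraic F ℂ] in
/-- The shape of the volume form of a surface in the coordinates of the frame. -/
theorem dn_star (h : A.StarP d v b X u N v' y g) (hb : b ≠ 0) (hv : d.δ v = algebraMap ℂ L b)
    {C₁ : Co L 2} (h0 : C₁.z 0 = y) (h1 : v' (C₁.z 1) = 0) {j c w : L} {la : ℂ} {D ν m : ℤ}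
    (hd : d = dn C₁ j u la) (hj : j ≠ 0) (hc : v' c = 0) (c0 : c ≠ 0) (hw : w ≠ 0)
    (hu : u = c * y ^ m * w ^ D) (hl : la * D = ν) :
    ∃ (a : ℤ) (γ : L), v' γ = 0 ∧ γ ≠ 0 ∧ j = γ * y ^ (a - 1) * w ^ ν ∧ a - la * m = g := by
  subst h0
  have b0 : algebraMap ℂ L b ≠ 0 := (map_ne_zero _).2 hb
  have h2 := d.δ_Ex h.ex
  rw [map_sub, hv, sub_eq_zero] at h2
  refine dn_eig (K := cst v') (θ := algebraMap ℂ L (g / b) • v') (rl_star h hb).2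
    (fun c hc => by simp [mem_cst.1 hc]) ?_ (fun l => by fin_cases l; exact h1) hj hc c0 hw hu hl ?_
  · rw [Derivation.smul_apply, smul_eq_mul, map_div₀, map_ratCast, div_mul_eq_mul_div, h.eig,
      mul_div_cancel_left₀ _ b0]
  · rw [← hd, d.δ_cst, ← h2, ← map_mul, div_mul_cancel₀ _ hb]

/-- The datum of a surface in the frame, over `F`. -/
theorem rat_star (h : A.StarP d v b X u N v' y g) (hb : b ≠ 0) (hv : d.δ v = algebraMap ℂ L b)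
    {C : Co L 2} (hC : ∀ l, C.z l ∈ A.fix) {j : L} {la : ℂ} {D ν : ℤ} (hd : d = dn C j u la)
    (hj : j ≠ 0) (hu : u ≠ 0) (jf : j ∈ A.fix) (uf : u ∈ A.fix) (hD : D ∣ N) (hl : la * D = ν) :
    ∃ (C₁ : Co L 2) (c γ w : L) (m a : ℤ), C₁.z 0 = y ∧ (∀ l, C₁.z l ∈ A.fix) ∧
      v' (C₁.z 1) = 0 ∧ c ∈ A.fix ∧ γ ∈ A.fix ∧ w ∈ A.fix ∧ v' c = 0 ∧ v' γ = 0 ∧ c ≠ 0 ∧ γ ≠ 0 ∧
      w ≠ 0 ∧ u = c * y ^ m * w ^ D ∧ j * C.jac C₁ = γ * y ^ (a - 1) * w ^ ν ∧ a - la * m = g := by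
  obtain ⟨C₁, h0, h1, h2⟩ := co_star h hb C
  obtain ⟨c, cf, w, wf, m, hc, c0, w0, e⟩ := pw_star h hb hu uf hD
  obtain ⟨a, γ, h3, h4, h5, h6⟩ := dn_star h hb hv h0 h2 (hd.trans (dn_chg C C₁ hj u la))
    (mul_ne_zero hj (C.jac_ne C₁)) hc c0 w0 e hl
  refine ⟨C₁, c, γ, w, m, a, h0, h1, h2, cf, ?_, wf, hc, h3, c0, h4, w0, e, h5, h6⟩
  have := div_mem (div_mem (mul_mem jf (jac_fix hC h1)) (zpow_mem wf ν)) (zpow_mem h.fix (a - 1))
  rwa [h5, mul_div_cancel_right₀ _ (zpow_ne_zero _ w0),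
    mul_div_cancel_right₀ _ (zpow_ne_zero _ h.y0)] at this

/-- The coordinate of the projective line. -/
def co1 {σ : k} {θ : VF k} (h : P1 σ θ) : Co k 1 where
  z _ := σ
  D _ := σ⁻¹ • θ
  ne _ := p1_ne h
  dual l m := by simp [h.eul, p1_ne h, Subsingleton.elim l m]
  span Z hZ := Derivation.ext ((p1_rl h).der_zero Z (fun c hc => by
    obtain ⟨r, rfl⟩ := IntermediateField.mem_bot.1 hc
    exact Z.map_algebraMap r) (hZ 0))

/-- The shape of the volume form of the projective line. -/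
theorem dn_p1 {σ : k} {θ : VF k} (h : P1 σ θ) {j u w : k} {la μ c : ℂ} {D ν m : ℤ} (hj : j ≠ 0)
    (c0 : c ≠ 0) (hw : w ≠ 0) (hu : u = algebraMap ℂ k c * σ ^ m * w ^ D) (hl : la * D = ν)
    (hd : (dn (co1 h) j u la).δ θ = algebraMap ℂ k μ) : ∃ (a : ℤ) (γ : ℂ), γ ≠ 0 ∧
      j = algebraMap ℂ k γ * σ ^ (a - 1) * w ^ ν ∧ a - la * m = μ := by
  obtain ⟨a, γ, h1, h2, h3, h4⟩ := dn_eig (K := ⊥) (C := co1 h) (p1_rl h) (fun c hc => by
    obtain ⟨r, rfl⟩ := IntermediateField.mem_bot.1 hc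
    exact θ.map_algebraMap r) h.eul (fun l => l.elim0) hj (IntermediateField.algebraMap_mem _ c)
    ((map_ne_zero _).2 c0) hw hu hl hd
  obtain ⟨r, rfl⟩ := IntermediateField.mem_bot.1 h1
  exact ⟨a, r, (map_ne_zero _).1 h2, h3, h4⟩

/-- The datum of the projective line, over `F`. -/
theorem rat_p1 {B : GA F k} {σ : k} {θ : VF k} (h : P1 σ θ) (hσ : σ ∈ B.fix) {C : Co k 1}
    (hC : C.z 0 ∈ B.fix) {j u w : k} {la μ c : ℂ} {D ν m : ℤ} (hj : j ≠ 0) (jf : j ∈ B.fix)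
    (c0 : c ≠ 0) (hw : w ≠ 0) (wf : w ∈ B.fix) (hu : u = algebraMap ℂ k c * σ ^ m * w ^ D)
    (hl : la * D = ν) (hd : (dn C j u la).δ θ = algebraMap ℂ k μ) : ∃ (a : ℤ) (γ : F), γ ≠ 0 ∧
      j * C.jac (co1 h) = algebraMap ℂ k (algebraMap F ℂ γ) * σ ^ (a - 1) * w ^ ν ∧
      a - la * m = μ := by
  obtain ⟨a, γ, h1, h2, h3⟩ := dn_p1 h (mul_ne_zero hj (C.jac_ne _)) c0 hw hu hl
    (dn_chg C (co1 h) hj u la ▸ hd)
  have := div_mem (div_mem (mul_mem jf (jac_fix (C := C) (C' := co1 h)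
    (fun l => Subsingleton.elim 0 l ▸ hC) fun _ => hσ)) (zpow_mem wf ν)) (zpow_mem hσ (a - 1))
  rw [h2, mul_div_cancel_right₀ _ (zpow_ne_zero _ hw),
    mul_div_cancel_right₀ _ (zpow_ne_zero _ (p1_ne h))] at this
  obtain ⟨r, rfl⟩ := B.cst_fix_iff.1 this
  exact ⟨a, r, fun e => h1 (by rw [e, map_zero]), h2, h3⟩

end

end Pool.Agent.MP_5d9b3c_ag.P3D
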