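import Pool.Agent.MP_5d9b3c_ag.P3D.Jet
import Pool.Agent.MP_5d9b3c_ag.P3K.Frm

/-!
The algebra of the residue computation.
-/

namespace Pool.Agent.MP_5d9b3c_ag.P3D

open PowerSeries P3K Finset Function

/-- Grouping the terms of a sum. -/
theorem sum_fib {X Γ M : Type} [Fintype X] [AddCommMonoid M] (T : Finset Γ) (Q : Γ → X → Prop)
    [∀ o, Fintype {x // Q o x}] (P : X → Prop) [DecidablePred P]
    (h1 : ∀ x, P x ↔ ∃ o ∈ T, Q o x) (h2 : ∀ o o' x, Q o x → Q o' x → o = o') (F : X → M) :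
    ∑ o ∈ T, ∑ x : {x // Q o x}, F x = ∑ x, if P x then F x else 0 := by
  classical
  have : ∀ o, ∑ x : {x // Q o x}, F x = ∑ x, if Q o x then F x else 0 := fun o => by
    rw [← sum_filter, sum_subtype (p := Q o) _ (by simp)]
  simp only [this]
  rw [sum_comm]
  refine sum_congr rfl fun x _ => ?_
  by_cases h : P x
  · obtain ⟨o, h3, h4⟩ := (h1 x).1 h
    rw [if_pos h, sum_eq_single_of_mem o h3 fun o' _ e => if_neg fun h5 => e (h2 _ _ _ h5 h4),
      if_pos h4]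
  · rw [if_neg h, sum_eq_zero fun o ho => if_neg fun h5 => h ((h1 x).2 ⟨o, ho, h5⟩)]

/-- A sum vanishes when it vanishes on every class. -/
theorem sum_cls {X Γ M : Type} [Fintype X] [AddCommMonoid M] (Q : Γ → X → Prop)
    [∀ o, Fintype {x // Q o x}] (h2 : ∀ o o' x, Q o x → Q o' x → o = o') {F : X → M}
    (h0 : ∀ x, (∀ o, ¬Q o x) → F x = 0) (h : ∀ o, ∑ x : {x // Q o x}, F x = 0) :
    ∑ x, F x = 0 := by
  classical
  have hf : {o | ∃ x, Q o x}.Finite := (Set.finite_iUnion fun x : X =>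
    Set.Subsingleton.finite (s := {o | Q o x}) fun o h o' h' => h2 o o' x h h').subset
      fun o ⟨x, hx⟩ => Set.mem_iUnion.2 ⟨x, hx⟩
  rw [← sum_eq_zero (s := hf.toFinset) fun o _ => h o, sum_fib _ Q (fun x => ∃ o, Q o x)
    (fun x => exists_congr fun o => (and_iff_right_of_imp fun h => hf.mem_toFinset.2 ⟨x, h⟩).symm)
    h2]
  refine sum_congr rfl fun x _ => ?_
  split_ifs with e
  exacts [rfl, h0 x (not_exists.1 e)]

theorem Ex.sum_inj {X B : Type} [Fintype X] [Fintype B] {β : X → B} (hβ : Injective β) {k : ℤ}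
    {r : B → LK} {a b : X → ℂ} (h : ∀ x, Ex k (r (β x)) (a x) (b x))
    (h0 : ∀ y, y ∉ Set.range β → Ex k (r y) 0 0) : Ex k (∑ y, r y) (∑ x, a x) (∑ x, b x) := by
  have e : ∀ a : X → ℂ, ∑ y, extend β a 0 y = ∑ x, a x := fun a =>
    (Fintype.sum_of_injective β hβ _ _ (fun y hy => extend_apply' a (0 : B → ℂ) y hy)
      fun x => (hβ.extend_apply _ _ _).symm).symm
  refine (Ex.sum univ fun y _ => ?_).cast rfl rfl (e a) (e b)
  by_cases hy : y ∈ Set.range β
  · obtain ⟨x, rfl⟩ := hy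
    rw [hβ.extend_apply, hβ.extend_apply]
    exact h x
  · rw [extend_apply' _ _ _ hy, extend_apply' _ _ _ hy]
    exact h0 y hy

variable {I I' : Type} [Fintype I] [Fintype I'] {n p : ℕ} {c : I → ℂˣ} {c' : I' → ℂˣ}
  {k : I → ℤ} {k' : I' → ℤ}

theorem v0_congr {d : MD I n} {d' : MD I' n} (h1 : cz d p c = cz d' p c')
    (h2 : ∀ l, rho d p c l = rho d' p c' l) : v0 d p c = v0 d' p c' := by
  simp only [v0, h1, h2]

theorem J_congr {d : MD I n} {d' : MD I' n} (h1 : cz d p c = cz d' p c')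
    (h2 : ∀ l, rho d p c l = rho d' p c' l) (h3 : mm d k = mm d' k')
    (h4 : ∀ l, kk d k l = kk d' k' l) : J d p c k = J d' p c' k' := by
  simp only [J, v0, h1, h2, h3, h4]

/-- A box with one polar coordinate. -/
theorem ex_one {d : MD I (n + 1)} {i : Fin (n + 1)} (h1 : rho d p c i = 1) (h2 : kk d k i ≠ 0)
    (h3 : ∀ l, rho d p c (i.succAbove l) ≠ 1) :
    Ex 1 (d.val p (chi c k)) (-(kap p / kk d k i) * v0 (face d i) p c)
      (-(kap p / kk d k i) * J (face d i) p c k + kap p / 2 * v0 (face d i) p c) :=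
  ((ex_pole _ h2).mul (ex_val (d := face d i) k h3)).cast rfl (val_polar k h1).symm rfl rfl

/-- Constant terms.  `X` is the set of polar faces. -/
theorem ct {B X : Type} [Fintype B] [Fintype X] (d : B → MD I (n + 1)) (d' : B → MD I' (n + 1))
    (β : X → B) (l : X → Fin (n + 1)) (hβ : Injective β)
    (hc : ∀ b, cz (d b) p c = cz (d' b) p c') (hρ : ∀ b i, rho (d b) p c i = rho (d' b) p c' i)
    (hp : ∀ b i, rho (d b) p c i = 1 ↔ ∃ x, β x = b ∧ l x = i)
    (hk : ∀ x, kk (d (β x)) k (l x) ≠ 0 ∧ kk (d' (β x)) k' (l x) ≠ 0)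
    (hA : ∑ x, v0 (face (d (β x)) (l x)) p c *
      ((kk (d (β x)) k (l x) : ℂ)⁻¹ - (kk (d' (β x)) k' (l x) : ℂ)⁻¹) = 0)
    (hψ : ∑ b, (d' b).val p (chi c' k') = 0) :
    ∃ e, Ex 0 (∑ b, (d b).val p (chi c k))
      (-kap p * ∑ x, (J (face (d (β x)) (l x)) p c k / kk (d (β x)) k (l x) -
        J (face (d' (β x)) (l x)) p c' k' / kk (d' (β x)) k' (l x))) e := by
  refine Ex.down (k := 0) ((Ex.sum_inj (k := 1) hβ
    (r := fun b => (d b).val p (chi c k) - (d' b).val p (chi c' k'))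
    (a := fun x => -kap p * (v0 (face (d (β x)) (l x)) p c *
      ((kk (d (β x)) k (l x) : ℂ)⁻¹ - (kk (d' (β x)) k' (l x) : ℂ)⁻¹)))
    (fun x => ?_) fun b hb => ?_).cast rfl (by rw [sum_sub_distrib, hψ, sub_zero])
      (by rw [← mul_sum, hA, mul_zero]) (mul_sum ..).symm)
  · have h1 := (hp _ _).2 ⟨x, rfl, rfl⟩
    have h3 : ∀ m, rho (d (β x)) p c ((l x).succAbove m) ≠ 1 := fun m h => by
      obtain ⟨y, e1, e2⟩ := (hp _ _).1 h
      rw [hβ e1] at e2
      exact Fin.succAbove_ne _ _ e2.symm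
    have h4 : v0 (face (d' (β x)) (l x)) p c' = v0 (face (d (β x)) (l x)) p c :=
      v0_congr (hc _).symm fun _ => (hρ _ _).symm
    exact ((ex_one h1 (hk x).1 h3).sub (ex_one (hρ _ _ ▸ h1) (hk x).2 fun m => hρ _ _ ▸ h3 m)).cast
      rfl rfl (by rw [h4]; ring) (by rw [h4]; ring)
  · have h3 : ∀ m, rho (d b) p c m ≠ 1 := fun m h => by
      obtain ⟨y, e1, -⟩ := (hp _ _).1 h
      exact hb ⟨y, e1⟩
    exact ((ex_val k h3).sub (ex_val k' fun m => hρ _ _ ▸ h3 m)).up.cast rfl rfl rfl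
      (sub_eq_zero.2 (v0_congr (hc _) (hρ _)))

theorem swap3 (G : Fin 3 → Fin 3 → ℂ) :
    ∑ i, ∑ m : Fin 2, G i (i.succAbove m) = ∑ i : Fin 3, ∑ m : Fin 2, G (i.succAbove m) i := by
  simp only [Fin.sum_univ_three, Fin.sum_univ_two]
  change G 0 1 + G 0 2 + (G 1 0 + G 1 2) + (G 2 0 + G 2 1) =
    G 1 0 + G 2 0 + (G 0 1 + G 2 1) + (G 0 2 + G 1 2)
  ring

theorem split3 (P : Fin 3 → Prop) [DecidablePred P] (h : ∃ i, ¬P i) (v : LK) :
    v = (∑ i, if P i then v else 0) - algebraMap ℂ LK 2⁻¹ *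
      (∑ i, ∑ m : Fin 2, if P i ∧ P (i.succAbove m) then v else 0) +
      if ∀ i, ¬P i then v else 0 := by
  have h2 : (2 : LK) ≠ 0 := by
    rw [← map_ofNat (algebraMap ℂ LK)]
    exact (map_ne_zero _).2 two_ne_zero
  have h' : ¬(P 0 ∧ P 1 ∧ P 2) := fun e => by
    obtain ⟨i, hi⟩ := h
    fin_cases i
    exacts [hi e.1, hi e.2.1, hi e.2.2]
  rw [map_inv₀, map_ofNat]
  simp only [Fin.sum_univ_three, Fin.sum_univ_two, Fin.forall_fin_succ, IsEmpty.forall_iff,
    and_true]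
  change v = _ - _ * ((ite (P 0 ∧ P 1) v 0 + ite (P 0 ∧ P 2) v 0) + (ite (P 1 ∧ P 0) v 0 +
    ite (P 1 ∧ P 2) v 0) + (ite (P 2 ∧ P 0) v 0 + ite (P 2 ∧ P 1) v 0)) +
    ite (¬P 0 ∧ ¬P 1 ∧ ¬P 2) v 0
  by_cases h0 : P 0 <;> by_cases h1 : P 1 <;> by_cases h3 : P 2 <;>
    simp only [h0, h1, h3, and_self, and_true, and_false, not_true, not_false_iff,
      if_true, if_false] at h' ⊢ <;> field_simp <;> ring

/-- The second index of a double face. -/
abbrev nx {ι : Type} (y : ι × Fin 3 × Fin 2) : Fin 3 := y.2.1.succAbove y.2.2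

/-- The double face. -/
abbrev ff {ι : Type} (d : ι → MD I 3) (y : ι × Fin 3 × Fin 2) : MD I 1 :=
  face (face (d y.1) y.2.1) y.2.2

/-- No pole.  `T` is the set of polar divisors, `Q o` the set of polar double faces on `o`. -/
theorem top {ι Γ : Type} [Fintype ι] (d : ι → MD I 3) (lab : ι → Fin 3 → Option Γ)
    (T : Finset Γ) (N : Γ → ℤ) (Q : Γ → ι × Fin 3 × Fin 2 → Prop) (M : ι → Fin 3 → Fin 3 → ℂ)
    [∀ o, Fintype {x : ι × Fin 3 // lab x.1 x.2 = some o}] [∀ o, Fintype {y // Q o y}]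
    (hP : ∀ b i, rho (d b) p c i = 1 ↔ ∃ o ∈ T, lab b i = some o)
    (hN : ∀ b i, ∀ o ∈ T, lab b i = some o → kk (d b) k i = N o ∧ N o ≠ 0)
    (h3 : ∀ b, ∃ i, rho (d b) p c i ≠ 1)
    (hQ : ∀ o y, Q o y ↔ lab y.1 y.2.1 = some o ∧ rho (d y.1) p c (nx y) = 1)
    (hA : ∀ o ∈ T, ∀ g : ℤ → ℂ,
      ∑ y : {y // Q o y}, v0 (ff d y) p c * g (kk (d y.1.1) k (nx y.1)) = 0)
    (hR : ∀ o ∈ T, ∃ e, Ex 0 (∑ x : {x : ι × Fin 3 // lab x.1 x.2 = some o},
      (face (d x.1.1) x.1.2).val p (chi c k)) (-kap p * ∑ y : {y // Q o y},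
        (J (ff d y) p c k / kk (d y.1.1) k (nx y.1) - M y.1.1 y.1.2.1 (nx y.1))) e)
    (hJ : ∀ o ∈ T, ∑ y : {y // Q o y}, (J (ff d y) p c k / (N o * kk (d y.1.1) k (nx y.1)) -
      M y.1.1 y.1.2.1 (nx y.1) / N o - M y.1.1 (nx y.1) y.1.2.1 / kk (d y.1.1) k (nx y.1)) = 0) :
    Reg (∑ b, (d b).val p (chi c k)) := by
  classical
  have f1 := fun F : ι × Fin 3 → LK => sum_fib T
    (fun o (x : ι × Fin 3) => lab x.1 x.2 = some o)
    (fun x => rho (d x.1) p c x.2 = 1) (fun x => hP _ _)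
    (fun _ _ _ h h' => Option.some.inj (h.symm.trans h')) F
  have f2 := fun (A : Type) [AddCommMonoid A] (F : ι × Fin 3 × Fin 2 → A) => sum_fib T Q
    (fun y => rho (d y.1) p c y.2.1 = 1 ∧ rho (d y.1) p c (nx y) = 1)
    (fun y => by simp only [hQ, hP y.1 y.2.1, ← and_assoc, exists_and_right])
    (fun _ _ _ h h' => Option.some.inj (((hQ _ _).1 h).1.symm.trans ((hQ _ _).1 h').1)) F
  have hq : ∀ o ∈ T, ∀ y, Q o y → rho (d y.1) p c y.2.1 = 1 ∧ kk (d y.1) k y.2.1 = N o ∧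
      N o ≠ 0 ∧ kk (d y.1) k (nx y) ≠ 0 := fun o ho y hy => by
    obtain ⟨h1, h2⟩ := (hQ _ _).1 hy
    obtain ⟨o', h4, h5⟩ := (hP _ _).1 h2
    exact ⟨(hP _ _).2 ⟨o, ho, h1⟩, (hN _ _ o ho h1).1, (hN _ _ o ho h1).2,
      (hN _ _ o' h4 h5).1 ▸ (hN _ _ o' h4 h5).2⟩
  have sw : ∑ o ∈ T, ∑ y : {y // Q o y}, M y.1.1 (nx y.1) y.1.2.1 / kk (d y.1.1) k (nx y.1) =
      ∑ o ∈ T, ∑ y : {y // Q o y}, M y.1.1 y.1.2.1 (nx y.1) / N o := by
    rw [f2 ℂ fun y => M y.1 (nx y) y.2.1 / kk (d y.1) k (nx y), ← sum_congr rfl fun o ho =>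
      sum_congr rfl fun (y : {y // Q o y}) _ => congrArg (fun e : ℤ => M y.1.1 y.1.2.1 (nx y.1) / e)
        (hq o ho y.1 y.2).2.1, f2 ℂ fun y => M y.1 y.2.1 (nx y) / kk (d y.1) k y.2.1]
    simp only [Fintype.sum_prod_type]
    refine sum_congr rfl fun b _ => (swap3 fun i j =>
      if rho (d b) p c i = 1 ∧ rho (d b) p c j = 1 then M b j i / kk (d b) k j else 0).trans ?_
    simp only [and_comm]
  have E1 : Ex 2 (∑ o ∈ T, ∑ x : {x : ι × Fin 3 // lab x.1 x.2 = some o},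
      (d x.1.1).val p (chi c k)) (∑ o ∈ T, 0) (∑ o ∈ T, kap p ^ 2 * ∑ y : {y // Q o y},
        (J (ff d y) p c k / (N o * kk (d y.1.1) k (nx y.1)) - M y.1.1 y.1.2.1 (nx y.1) / N o)) := by
    refine Ex.sum T fun o ho => ?_
    by_cases h0 : N o = 0
    · have : IsEmpty {y // Q o y} := ⟨fun y => (hq o ho y.1 y.2).2.2.1 h0⟩
      have : IsEmpty {x : ι × Fin 3 // lab x.1 x.2 = some o} := ⟨fun x => (hN _ _ o ho x.2).2 h0⟩
      simpa using Ex.zero 2
    obtain ⟨e, he⟩ := hR o ho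
    refine ((ex_pole (kap p) h0).mul he).up.cast rfl ?_ rfl ?_
    · rw [mul_sum]
      exact sum_congr rfl fun x _ => by
        rw [val_polar k ((hP _ _).2 ⟨o, ho, x.2⟩), (hN _ _ o ho x.2).1]
    · simp only [mul_sum]
      exact sum_congr rfl fun y _ => by ring
  have E2 : Ex 2 (∑ o ∈ T, ∑ y : {y // Q o y}, (d y.1.1).val p (chi c k)) (∑ o ∈ T, 0)
      (∑ o ∈ T, kap p ^ 2 * ∑ y : {y // Q o y},
        J (ff d y) p c k / (N o * kk (d y.1.1) k (nx y.1))) := by
    refine Ex.sum T fun o ho => (Ex.sum univ fun y _ => ?_).cast rfl rfl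
      (hA o ho fun e => kap p ^ 2 / (N o * e)) (by
        rw [← add_zero (_ * _), ← hA o ho fun e => -(kap p ^ 2 / 2) * ((N o : ℂ)⁻¹ + (e : ℂ)⁻¹),
          mul_sum, ← sum_add_distrib])
    obtain ⟨h1, h2, h4, h5⟩ := hq o ho y.1 y.2
    have h6 := ((hQ _ _).1 y.2).2
    refine ((ex_pole (kap p) h4).mul (ex_one (d := face (d y.1.1) y.1.2.1) (i := y.1.2.2) (k := k)
      h6 h5 fun l h7 => ?_)).cast rfl (by rw [val_polar k h1, h2]) ?_ ?_
    · obtain ⟨i, hi⟩ := h3 y.1.1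
      have : ∀ (i j : Fin 3) (m : Fin 2) (l : Fin 1),
          i = j ∨ i = j.succAbove m ∨ i = j.succAbove (m.succAbove l) := by decide
      rcases this i y.1.2.1 y.1.2.2 l with e | e | e <;> rw [e] at hi
      exacts [hi h1, hi h6, hi h7]
    all_goals
      simp only [show kk (face (d y.1.1) y.1.2.1) k y.1.2.2 = kk (d y.1.1) k (nx y.1) from rfl]
      ring
  have E3 : Ex 2 (∑ b, if ∀ i, ¬rho (d b) p c i = 1 then (d b).val p (chi c k) else 0)
      (∑ b : ι, 0) (∑ b : ι, 0) := Ex.sum univ fun b _ => by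
    split_ifs with h
    exacts [(ex_val k h).up2, Ex.zero 2]
  refine Ex.reg2 (((E1.sub (E2.smul 2⁻¹)).add E3).cast rfl ?_ (by simp) ?_)
  · rw [f1 fun x => (d x.1).val p (chi c k), f2 LK fun y => (d y.1).val p (chi c k)]
    simp only [Fintype.sum_prod_type]
    rw [mul_sum, ← sum_sub_distrib, ← sum_add_distrib]
    exact sum_congr rfl fun b _ => (split3 _ (h3 b) _).symm
  · have := sum_eq_zero hJ
    simp only [sum_sub_distrib, ← mul_sum, sum_const_zero] at this ⊢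
    linear_combination kap p ^ 2 / 2 * this + kap p ^ 2 / 2 * sw

section Ser

variable [Unique I]

omit [Fintype I] in
theorem exists_pol (D : AddMonoidAlgebra ℂ (I → ℤ)) : ∃ (N : ℕ) (E : Polynomial ℂ),
    Polynomial.aeval (AddMonoidAlgebra.single (fun _ => 1) 1 : AddMonoidAlgebra ℂ (I → ℤ)) E =
      AddMonoidAlgebra.single (fun _ => 1) 1 ^ N * D := by
  induction D using AddMonoidAlgebra.induction_linear with
  | zero => exact ⟨0, 0, by simp⟩
  | add D D' h h' =>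
    obtain ⟨N, E, h⟩ := h
    obtain ⟨N', E', h'⟩ := h'
    refine ⟨N + N', Polynomial.X ^ N' * E + Polynomial.X ^ N * E', ?_⟩
    simp only [map_add, map_mul, map_pow, Polynomial.aeval_X, h, h']
    ring
  | single e a =>
    refine ⟨(-e default).toNat, Polynomial.monomial (e default).toNat a, ?_⟩
    rw [Polynomial.aeval_monomial, AddMonoidAlgebra.coe_algebraMap]
    simp only [AddMonoidAlgebra.single_pow, comp_apply, AddMonoidAlgebra.single_mul_single,
      one_pow, mul_one, one_mul, zero_add]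
    refine congrArg₂ _ (funext fun i => ?_) rfl
    rw [Unique.eq_default i]
    rw [Pi.add_apply, Pi.smul_apply, Pi.smul_apply, nsmul_one, nsmul_one]
    omega

omit [Fintype I] in
theorem op_pol {a : (I → ℤ) → ℂ} (h0 : ∀ e, e default < 0 → a e = 0) (E : Polynomial ℂ) :
    (mk fun m => op (Polynomial.aeval (AddMonoidAlgebra.single (fun _ => 1) 1 :
      AddMonoidAlgebra ℂ (I → ℤ)) E) a fun _ => m) = (E : ℂ⟦X⟧) * mk fun m => a fun _ => m := by
  ext m
  induction E using Polynomial.induction_on' with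
  | add P P' h h' =>
    rw [coeff_mk] at h h' ⊢
    rw [map_add, map_add, LinearMap.add_apply, Pi.add_apply, h, h', Polynomial.coe_add, add_mul,
      map_add]
  | monomial e b =>
    rw [Polynomial.aeval_monomial, AddMonoidAlgebra.coe_algebraMap, coeff_mk,
      ← Polynomial.C_mul_X_pow_eq_monomial, Polynomial.coe_mul, Polynomial.coe_C,
      Polynomial.coe_pow, Polynomial.coe_X, mul_assoc, coeff_C_mul, coeff_X_pow_mul']
    simp only [AddMonoidAlgebra.single_pow, comp_apply, AddMonoidAlgebra.single_mul_single,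
      one_pow, mul_one, zero_add, op_single]
    refine congrArg₂ _ rfl ?_
    split_ifs with h
    · rw [coeff_mk]
      refine congrArg a (funext fun i => ?_)
      rw [Pi.sub_apply, Pi.smul_apply, nsmul_one]
      omega
    · refine h0 _ ?_
      rw [Pi.sub_apply, Pi.smul_apply, nsmul_one]
      omega

theorem cancel_root {T : ℂ} {w s A : ℂ⟦X⟧} (h1 : constantCoeff w = T) (h2 : w ≠ C T) (N : ℕ) :
    ∀ D P : Polynomial ℂ, D.natDegree = N → D ≠ 0 → (D : ℂ⟦X⟧) * A = P →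
      s * Polynomial.aeval w D = Polynomial.aeval w P →
      ∃ D P : Polynomial ℂ, D.eval T ≠ 0 ∧ (D : ℂ⟦X⟧) * A = P := by
  have ev : ∀ P : Polynomial ℂ, constantCoeff (Polynomial.aeval w P) = P.eval T := fun P => by
    induction P using Polynomial.induction_on' with
    | add P P' h h' => simp [h, h']
    | monomial e b => simp [Polynomial.aeval_monomial, h1]
  induction N using Nat.strong_induction_on with
  | _ N ih =>
    intro D P e h0 h3 h4
    by_cases h : D.eval T = 0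
    · have h5 := congrArg constantCoeff h4
      rw [map_mul, ev, ev, h, mul_zero] at h5
      obtain ⟨D', rfl⟩ := Polynomial.dvd_iff_isRoot.2 h
      obtain ⟨P', rfl⟩ := Polynomial.dvd_iff_isRoot.2 h5.symm
      have h6 := right_ne_zero_of_mul h0
      refine ih _ ?_ D' P' rfl h6 ?_ ?_
      · rw [← e, Polynomial.natDegree_mul (Polynomial.X_sub_C_ne_zero _) h6,
          Polynomial.natDegree_X_sub_C]
        omega
      · rw [Polynomial.coe_mul, Polynomial.coe_mul, mul_assoc] at h3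
        exact mul_left_cancel₀ (fun h7 => Polynomial.X_sub_C_ne_zero T
          (Polynomial.coe_injective ℂ (h7.trans Polynomial.coe_zero.symm))) h3
      · rw [map_mul, map_mul, mul_left_comm, map_sub, Polynomial.aeval_X, Polynomial.aeval_C] at h4
        exact mul_left_cancel₀ (sub_ne_zero.2 h2) h4
    · exact ⟨D, P, h, h3⟩

/-- A regular value means that the series has no pole at `T`. -/
theorem reg_ser (T : ℂˣ) {a : (I → ℤ) → ℂ} (h0 : ∀ e, e default < 0 → a e = 0) {r : LK}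
    (h : Rv (chr (chi (fun _ => T) fun _ => 1)) a r) (hr : Reg r) :
    ∃ D P : Polynomial ℂ, D.eval (T : ℂ) ≠ 0 ∧ (D : ℂ⟦X⟧) * (mk fun m => a fun _ => m) = P := by
  obtain ⟨D, P, h1, h2, h3⟩ := h
  obtain ⟨s, rfl⟩ := hr
  obtain ⟨N, E, hE⟩ := exists_pol D
  obtain ⟨N', E', hE'⟩ := exists_pol P
  set t : AddMonoidAlgebra ℂ (I → ℤ) := AddMonoidAlgebra.single (fun _ => 1) 1 with ht
  set χ := chr (chi (fun _ : I => T) fun _ => 1) with hχ
  have e1 : Polynomial.aeval t (Polynomial.X ^ N' * E) = t ^ (N + N') * D := by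
    rw [map_mul, map_pow, Polynomial.aeval_X, hE]
    ring
  have e2 : Polynomial.aeval t (Polynomial.X ^ N * E') = t ^ (N + N') * P := by
    rw [map_mul, map_pow, Polynomial.aeval_X, hE']
    ring
  have e3 : evc χ t = algebraMap ℂ⟦X⟧ LK (C (T : ℂ) * rescale ((1 : ℤ) : ℂ) (exp ℂ)) := by
    rw [ht, evc_single, map_one, one_mul, map_mul, ← U_zpow, ← alg_C]
    simp [hχ, chr, chi]
  have e4 : ∀ F : Polynomial ℂ, evc χ (Polynomial.aeval t F) = algebraMap ℂ⟦X⟧ LK
      (Polynomial.aeval (C (T : ℂ) * rescale ((1 : ℤ) : ℂ) (exp ℂ)) F) := fun F => by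
    rw [← Polynomial.aeval_algHom_apply, e3, Polynomial.aeval_algebraMap_apply]
  have e5 : evc χ t ≠ 0 := by
    rw [ht, evc_single, map_one, one_mul]
    exact Units.ne_zero _
  refine cancel_root (w := C (T : ℂ) * rescale ((1 : ℤ) : ℂ) (exp ℂ)) (s := s) (by simp)
    (fun h => T.ne_zero (by simpa [coeff_C] using congrArg (coeff 1) h)) _
    (Polynomial.X ^ N' * E) (Polynomial.X ^ N * E') rfl (fun h => ?_) ?_ (inj ?_)
  · have := congrArg (evc χ) e1
    rw [h, map_zero, map_zero, map_mul, map_pow] at this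
    exact mul_ne_zero (pow_ne_zero _ e5) h2.ne_zero this.symm
  · have h4 := op_pol (a := (1 : AddMonoidAlgebra ℂ (I → ℤ)).coeff) (fun e he => by
      rw [AddMonoidAlgebra.one_def, AddMonoidAlgebra.coeff_single]
      exact Finsupp.single_eq_of_ne fun h => by simp [h] at he) (Polynomial.X ^ N * E')
    rw [op_coe, mul_one] at h4
    rw [← op_pol h0, e1, map_mul, Module.End.mul_apply, h1, op_coe, ← e2, h4]
    refine (congrArg _ (PowerSeries.ext fun m => ?_)).trans (mul_one _)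
    rw [coeff_mk, AddMonoidAlgebra.one_def, AddMonoidAlgebra.coeff_single, coeff_one,
      Finsupp.single_apply]
    exact if_congr (by simp [funext_iff, eq_comm]) rfl rfl
  · rw [map_mul, ← e4, ← e4, e1, e2, map_mul, map_mul, ← h3]
    ring

end Ser

end Pool.Agent.MP_5d9b3c_ag.P3D
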