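import Pool.Agent.MP_5d9b3c_ag.P3D.Flag
import Pool.Agent.MP_5d9b3c_ag.P3X.Face
import Pool.Agent.MP_5d9b3c_ag.P3B.XSpec

/-! The double faces of a box, seen from both divisors. -/

namespace Pool.Agent.MP_5d9b3c_ag.P3D

open MP_ee8c61_ag M3 M3RESID M3BK P3 P3K P3T P3B Set

variable {p : ℕ} [Fact p.Prime] [Algebra ℚ_[p] ℂ] [Algebra.IsAlgebraic ℚ_[p] ℂ] {L k k' : Type}
  [Field L] [Algebra ℂ L] [Field k] [Algebra ℂ k] [Field k'] [Algebra ℂ k'] {A : GA ℚ_[p] L}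
  {B : GA ℚ_[p] k} {B' : GA ℚ_[p] k'} {P : Pl L k} {P' : Pl L k'} {h : A.Cpt B P}
  {h' : A.Cpt B' P'} {c : CBox A 3} {i i' : Fin 3} {m m' : Fin 2} {g : CBox B 2} {g' : CBox B' 2}
  {G : DV k} {G' : DV k'}

theorem tw_of (hf : CFace c h i g) (hG : g.On G m) {t : Fin 2 → ℚ_[p]} (ht : t ∈ Bl p 2)
    (h0 : t m = 0) : Tw (sh c.C (up (i.insertNth 0 t))) (c.Q (i.insertNth 0 t)) i (i.succAbove m) P
      (sh g.C (up t)) (g.Q t) m G :=
  ⟨c.rg _ (ins_Bl i ht), FLG.dat hf ht, FLG.rsC hf ht, hf.O t ht, hf.ev t ht, g.rg t ht, rfl,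
    hG t ht h0⟩

/-- The same at a point of the box with two vanishing coordinates. -/
theorem tw_at (hf : CFace c h i g) (hG : g.On G m) (e : i' = i.succAbove m) {t : Fin 3 → ℚ_[p]}
    (ht : t ∈ Bl p 3) (h0 : t i = 0) (h0' : t i' = 0) :
    Tw (sh c.C (up t)) (c.Q t) i i' P (sh g.C (up (i.removeNth t))) (g.Q (i.removeNth t)) m G := by
  obtain ⟨s, hs, rfl⟩ := FLG.exists_ins ht h0
  rw [Fin.removeNth_insertNth, e]
  exact tw_of hf hG hs (by simpa [e] using h0')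

theorem sw_third (e : i' = i.succAbove m) (e' : i = i'.succAbove m') (l : Fin 1) :
    i.succAbove (m.succAbove l) = i'.succAbove (m'.succAbove l) := by
  revert i i' m m' l
  decide

theorem sw_ins {α : Type} (e : i' = i.succAbove m) (e' : i = i'.succAbove m') (a : α)
    (t : Fin 1 → α) : (i.insertNth a (m.insertNth a t) : Fin 3 → α) =
      i'.insertNth a (m'.insertNth a t) :=
  funext ((Fin.forall_iff_succAbove i).2 ⟨by
      conv_rhs => rw [e']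
      simp, (Fin.forall_iff_succAbove m).2 ⟨by
      conv_rhs => rw [← e]
      simp, fun l => by
      conv_rhs => rw [sw_third e e']
      simp⟩⟩)

variable {κ : Type} [Field κ] [Algebra ℂ κ]

/-- The residue of a function on a double face. -/
theorem coe_pf2 {E : GA ℚ_[p] κ} {R : Pl k κ} {h2 : B.Cpt E R} {q : CBox E 1} (hf : CFace c h i g)
    (hq : CFace g h2 m q) {t : Fin 1 → ℚ_[p]} (ht : t ∈ Bl p 1) {a : A.fix}
    (ha : a ∈ (c.b.Φ (i.insertNth 0 (m.insertNth 0 t))).O) :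
    (pf h2 (pf h a) : κ) = R.π (P.π a) := by
  have h1 := (hf.fc.on.at (ins_Bl m ht)).le ha
  exact (coe_pf h2 ((hq.fc.on.at ht).le ((hf.fc.O _ (ins_Bl m ht) _).2 ⟨a, ha, rfl⟩))).trans
    (congrArg _ (coe_pf h h1))

theorem mem_face2 {E : GA ℚ_[p] κ} {R : Pl k κ} {h2 : B.Cpt E R} {q : CBox E 1}
    (hf : CFace c h i g) (hq : CFace g h2 m q) {t : Fin 1 → ℚ_[p]} (ht : t ∈ Bl p 1) {y : E.fix} :
    y ∈ (q.b.Φ t).O ↔
      ∃ a ∈ (c.b.Φ (i.insertNth 0 (m.insertNth 0 t))).O, pf h2 (pf h a) = y := by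
  rw [hq.fc.O t ht]
  constructor
  · rintro ⟨u, hu, rfl⟩
    obtain ⟨a, ha, rfl⟩ := (hf.fc.O _ (ins_Bl m ht) u).1 hu
    exact ⟨a, ha, rfl⟩
  · rintro ⟨a, ha, rfl⟩
    exact ⟨_, (hf.fc.O _ (ins_Bl m ht) _).2 ⟨a, ha, rfl⟩, rfl⟩

variable {E : GA ℚ_[p] G.kf} {E' : GA ℚ_[p] G'.kf} {h2 : B.Cpt E G.pl} {h2' : B'.Cpt E' G'.pl}
  {q : CBox E 1} {q' : CBox E' 1} {ι : G'.kf ≃ₐ[ℂ] G.kf} {ι' : E'.fix ≃ₐ[ℚ_[p]] E.fix}

theorem isMap_of (hf : CFace c h i g) (hf' : CFace c h' i' g') (hq : CFace g h2 m q)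
    (hq' : CFace g' h2' m' q') (e : i' = i.succAbove m) (e' : i = i'.succAbove m')
    (hι : ∀ y, (ι' y : G.kf) = ι y)
    (hI : ∀ t ∈ Bl p 3, t i = 0 → t i' = 0 → Io (c.Q t) P G P' G' ι) :
    q'.b.IsMap ι' q.b ∧ ∀ a ∈ (c.b.Φ 0).O, ι' (pf h2' (pf h' a)) = pf h2 (pf h a) := by
  have key : ∀ t ∈ Bl p 1, ∀ a ∈ (c.b.Φ (i.insertNth 0 (m.insertNth 0 t))).O,
      ι' (pf h2' (pf h' a)) = pf h2 (pf h a) := fun t ht a ha => Subtype.ext (by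
    have h1 := ins_Bl i (ins_Bl m ht)
    rw [hι, coe_pf2 hf hq ht ha, coe_pf2 hf' hq' ht (sw_ins e e' 0 t ▸ ha)]
    exact hI _ h1 (by simp) (by simp [e]) _ (le_LA ((c.O _ h1 a).1 ha)))
  have e0 : (i.insertNth 0 (m.insertNth 0 0) : Fin 3 → ℚ_[p]) = 0 := by simp
  have k0 : ∀ a ∈ (c.b.Φ 0).O, ι' (pf h2' (pf h' a)) = pf h2 (pf h a) := e0 ▸ key 0 zero_Bl
  refine ⟨⟨fun l => ?_, fun t ht => Pt.ext' (SetLike.ext fun y => ?_)⟩, k0⟩
  · rw [hq.fc.z, hq'.fc.z, hf.fc.z, hf'.fc.z, sw_third e e']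
    exact (k0 _ (c.b.zm 0 zero_Bl _)).symm
  · refine (mem_face2 hf hq ht).trans (Iff.trans ?_ (mem_face2 hf' hq' ht).symm)
    rw [← sw_ins e e']
    exact exists_congr fun a => and_congr_right fun ha => by
      rw [← key t ht a ha]
      exact ι'.toEquiv.apply_eq_iff_eq_symm_apply

end Pool.Agent.MP_5d9b3c_ag.P3D
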