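import Pool.Agent.MP_5d9b3c_ag.P3D.RRES
import Pool.Agent.MP_5d9b3c_ag.P3D.Tw
import Pool.Agent.MP_5d9b3c_ag.P3K.Cmp
import Pool.Agent.MP_ee8c61_ag.M3BK.RPt

/-!
The cross function of a double curve.
-/

namespace Pool.Agent.MP_5d9b3c_ag.P3D

open MP_ee8c61_ag M3 M3RESID M3BK P3 P3K P3T P3B Set RPt
open Pool.Agent.MP_96693b_ag.RS (Loc LocOf)

noncomputable section

namespace CrsB

section Gen

theorem dat_chg {L : Type} [Field L] [Algebra ℂ L] {n : ℕ} {Q : Loc L} {C C' : Co L n}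
    (h : Rg C' Q) {o : DV L} {i j : Fin n} (hd : C.Dat Q.O o i)
    (hu : Q.ev (C'.z j / C.z i) ≠ 0) : C'.Dat Q.O o j := by
  have h1 := (o.un_O.1 (RSurf.un_of_ev (W := o.O) hd.le hu)).2
  rw [o.div (C'.ne j) (C.ne i), hd.adp.vz] at h1
  refine Co.dat_of h.st (by omega) h.fr hd.le fun g hg g1 => ?_
  have := mul_mem (hd.div g hg g1) (Loc.mem_of_ev (u_inv hu))
  rwa [inv_div, div_mul_div_cancel₀ (C.ne i)] at this

theorem alg {κ : Type} [Field κ] {U : κ} (hU : U ≠ 0) (a a' : κ) (n n' N N' : ℤ) :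
    (U ^ (-n) * a ^ N') ^ n' * (U ^ (-n') * a' ^ N) ^ n * U ^ (n * n') =
      a ^ (N' * n') * a' ^ (N * n) * U ^ (-(n * n')) := by
  have := zpow_ne_zero (n * n') hU
  simp only [mul_zpow, ← zpow_mul, neg_mul, mul_comm n' n]
  rw [zpow_neg]
  field_simp

variable {K k k' : Type} [Field K] [Algebra ℂ K] [Field k] [Algebra ℂ k] [Field k'] [Algebra ℂ k']
  {C C' : Co K 3} {Q : Loc K} {i i' j j' : Fin 3} {P : Pl K k} {C2 : Co k 2} {x : Loc k}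
  {m : Fin 2} {G : DV k}

theorem tw_chg (T : Tw C Q i i' P C2 x m G) {o : DV K} (h : Rg C' Q) (hd : C'.Dat Q.O P.o j)
    (h1 : C.Dat Q.O o i') (h2 : C'.Dat Q.O o j') (hj : j' ≠ j) :
    ∃ C2' m', Tw C' Q j j' P C2' x m' G := by
  obtain ⟨C2', x', a1, a2, a3⟩ := RFl.res h hd
  obtain rfl : x' = x := Loc.ext' (SetLike.ext fun y => (a2.2 y).trans (T.ro y).symm)
  obtain ⟨m', rfl⟩ := Fin.exists_succAbove_eq hj
  refine ⟨C2', m', h, hd, a1, T.ro, T.ev, a3, rfl, dat_chg a3 T.dat2 ?_⟩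
  have u1 := h1.div _ (h.st.z _) (Or.inr h2.adp.vz.ge)
  rw [a1 m', T.z2, ← Pl.π_div (hd.le _ (h.st.z _)) (C.ne _) (T.dat.adp.vz' T.ne), T.ev _ u1]
  exact u_of u1 (by rw [inv_div]; exact h2.div _ (T.rg.st.z _) (Or.inr h1.adp.vz.ge))
    (div_ne_zero (C'.ne _) (C.ne _))

theorem g_eq {M : Mod 3} (hB : M3E.Bas1 M) {C C₀ : Co (KK 3) 3} {Q Q₀ : Loc (KK 3)}
    {P : Pl (KK 3) k} {P' : Pl (KK 3) k'} {C2₀ : Co k 2} {x₀ : Loc k} {C2' C2₀' : Co k' 2}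
    {x' x₀' : Loc k'} {m₀ m' m₀' : Fin 2} {G' G₀' : DV k'} (hQ : Q ∈ M.pts) (hQ₀ : Q₀ ∈ M.pts)
    (T : Tw C Q i i' P C2 x m G) (T' : Tw C Q i' i P' C2' x' m' G')
    (T₀ : Tw C₀ Q₀ j j' P C2₀ x₀ m₀ G) (T₀' : Tw C₀ Q₀ j' j P' C2₀' x₀' m₀' G₀') : G' = G₀' := by
  have e := (T.la2 T').symm.trans ((la_eq hB hQ hQ₀ T.le T₀.le).trans (T₀.la2 T₀'))
  refine M3B1.dv_uniq (SetLike.ext fun y => ⟨fun hy => ?_, fun hy => ?_⟩) T'.dat2.adp.vz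
    T₀'.dat2.adp.vz
  · obtain ⟨g, hg, rfl⟩ := T'.lift_fn hy
    exact (T₀'.leA (e ▸ hg)).2
  · obtain ⟨g, hg, rfl⟩ := T₀'.lift_fn hy
    exact (T'.leA (e ▸ hg)).2

theorem ex_iso {F : Type} [Field F] [Algebra F ℂ] {E : GA F k} {E' : GA F k'} (ι : k' ≃ₐ[ℂ] k)
    (h : ∀ τ y, ι (E'.ρ τ y) = E.ρ τ (ι y)) :
    ∃ ι' : E'.fix ≃ₐ[F] E.fix, ∀ y, (ι' y : k) = ι y :=
  ⟨{ toFun := fun g => ⟨ι g, fun σ => by rw [← h, g.2 σ]⟩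
     invFun := fun g => ⟨ι.symm g, fun σ => ι.injective (by
       rw [h, ι.apply_symm_apply, g.2 σ])⟩
     left_inv := fun g => Subtype.ext (ι.symm_apply_apply g)
     right_inv := fun g => Subtype.ext (ι.apply_symm_apply g)
     map_mul' := fun g g' => Subtype.ext (map_mul ι (g : k') g')
     map_add' := fun g g' => Subtype.ext (map_add ι (g : k') g')
     commutes' := fun a => Subtype.ext (ι.commutes _) }, fun _ => rfl⟩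

end Gen

variable {p : ℕ} [Fact p.Prime] [Algebra ℚ_[p] ℂ] {L k k' : Type}
  [Field L] [Algebra ℂ L] [Field k] [Algebra ℂ k] [Field k'] [Algebra ℂ k'] {A : GA ℚ_[p] L}
  {B : GA ℚ_[p] k} {B' : GA ℚ_[p] k'} {P : Pl L k} {P' : Pl L k'} {h : A.Cpt B P}
  {h' : A.Cpt B' P'} {c : CBox A 3} {i i' : Fin 3} {m m' : Fin 2} {g : CBox B 2} {g' : CBox B' 2}
  {G : DV k} {G' : DV k'} {E : GA ℚ_[p] G.kf} {E' : GA ℚ_[p] G'.kf} {a : A.fix} {μ : ℤ}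
  {α : Fin 3 → ℤ}

theorem coe_zp (g : A.fix) (e : ℤ) : ((g ^ e : A.fix) : L) = (g : L) ^ e :=
  map_zpow₀ A.fix.subtype g e

theorem coe_ini (h : A.Cpt B P) {z : A.fix} (hz : P.o.v z = 1) (h0 : a ≠ 0) :
    (ini h z a : k) = P.π (a / (z : L) ^ P.o.v a) :=
  (coe_pf h (Or.inr (v_ini hz h0).ge)).trans (by rw [Subfield.coe_div, coe_zp])

variable [Algebra.IsAlgebraic ℚ_[p] ℂ]

theorem tw0 (hf : CFace c h i g) (hG : g.On G m) (e : i' = i.succAbove m) :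
    Tw c.C (c.Q 0) i i' P g.C (g.Q 0) m G := by
  have := tw_at hf hG e zero_Bl rfl rfl
  rwa [show i.removeNth (0 : Fin 3 → ℚ_[p]) = 0 from rfl, sh_zero, sh_zero] at this

theorem ini2 (hf : CFace c h i g) (hG : g.On G m) (h2 : B.Cpt E G.pl) (e : i' = i.succAbove m)
    (ha : c.b.Mono a μ α) : G.v (ini h (c.b.z i) a) = α i' ∧
      (ini h2 (g.b.z m) (ini h (c.b.z i) a) : G.kf) =
        G.pl.π (P.π (a / (c.C.z i ^ α i * c.C.z i' ^ α i'))) := by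
  have h1 : G.v (ini h (c.b.z i) a) = α i' := e ▸ hG.ord (hf.mono ha)
  have h3 := (tw0 hf hG e).pi_z (Or.inr (v_ini hf.vz ha.ne).ge) (-α i')
  refine ⟨h1, (coe_ini h2 (g.z m ▸ hG.at.vz) (ini_ne h hf.vz ha.ne)).trans (congrArg _ ?_)⟩
  rw [Subfield.coe_div, coe_zp, hf.on.ord ha, c.z, zpow_neg, zpow_neg, ← div_eq_inv_mul,
    ← div_eq_inv_mul, div_div] at h3
  rw [h3, show G.pl.o = G from rfl, h1, coe_ini h hf.vz ha.ne, hf.on.ord ha, c.z, g.z]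

variable {ι : G'.kf ≃ₐ[ℂ] G.kf} {ι' : E'.fix ≃ₐ[ℚ_[p]] E.fix}

theorem ini_sw (hf : CFace c h i g) (hf' : CFace c h' i' g') (hG : g.On G m) (hG' : g'.On G' m')
    (h2 : B.Cpt E G.pl) (h2' : B'.Cpt E' G'.pl) (e : i' = i.succAbove m) (e' : i = i'.succAbove m')
    (hι : ∀ y, (ι' y : G.kf) = ι y) (hI : Io (c.Q 0) P G P' G' ι) (ha : c.b.Mono a μ α)
    (h0 : ∀ l, 0 ≤ α l) :
    ι' (ini h2' (g'.b.z m') (ini h' (c.b.z i') a)) = ini h2 (g.b.z m) (ini h (c.b.z i) a) := by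
  refine Subtype.ext ?_
  rw [hι, (ini2 hf hG h2 e ha).2, (ini2 hf' hG' h2' e' ha).2, mul_comm]
  refine hI _ (le_LA ?_)
  obtain ⟨l, a1, a2⟩ := ex_third i i'
  have T := tw0 hf hG e
  have h1 : (a : L) / c.C.mon α ∈ (c.Q 0).O := by
    refine mem_of_eq ((c.O 0 zero_Bl _).1 (ha 0 zero_Bl).1) ?_
    change _ = A.fix.subtype (a / ∏ l, c.b.z l ^ α l)
    rw [map_div₀, map_prod]
    exact congrArg _ (Finset.prod_congr rfl fun l _ => by rw [map_zpow₀, ← c.z]; rfl)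
  have h3 := mul_mem h1 (pow_mem (T.rg.st.z l) (α l).toNat)
  rwa [← zpow_natCast, Int.toNat_of_nonneg (h0 l), T.mon a1 a2, ← div_div,
    div_mul_cancel₀ _ (zpow_ne_zero _ (c.C.ne l))] at h3

theorem z_sw (hf : CFace c h i g) (hf' : CFace c h' i' g') (hG : g.On G m) (hG' : g'.On G' m')
    (h2 : B.Cpt E G.pl) (h2' : B'.Cpt E' G'.pl) (e : i' = i.succAbove m) (e' : i = i'.succAbove m')
    (hι : ∀ y, (ι' y : G.kf) = ι y) (hI : Io (c.Q 0) P G P' G' ι) (l : Fin 1) :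
    ι' (pf h2' (g'.b.z (m'.succAbove l))) = pf h2 (g.b.z (m.succAbove l)) := by
  refine Subtype.ext ?_
  rw [hι, coe_pf h2 (g.z _ ▸ hG.at.z_F _), coe_pf h2' (g'.z _ ▸ hG'.at.z_F _), g.z, g'.z, hf.rc,
    hf'.rc, ← sw_third e e']
  exact hI _ (le_LA ((tw0 hf hG e).rg.st.z _))

end CrsB

open CrsB

variable (p : ℕ) [Fact p.Prime] [Algebra ℚ_[p] ℂ] [Algebra.IsAlgebraic ℚ_[p] ℂ]

theorem rCRSb : OfCRS p := by
  intro R B X o o' S S' G hG ψ ψ' σ θ μ y₀ y₀' g1 g1' hE s₀ on₀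
  have hB := (X.eo.bas 3 X.f₀ X.M X.ok).toBas1
  have pts : ∀ b, ∀ t ∈ Bl p 3, (X.𝓑.c b).Q t ∈ X.M.pts := fun b t ht =>
    (X.𝓑.pt b).imp fun _ h => h t ht
  have exG : ∀ (y : X.𝓑.F1 o × Fin 2) (y' : X.𝓑.F1 o' × Fin 2), Sw y y' →
      ∃ G', S'.B.InvO G' ∧ S'.On G' y' := fun y y' s => X.𝓑.crv _ _ y'.2 (by simp [y'.1.2])
    (by rw [← s.i', s.b, y.1.2]; simp) _ _ _ _ _ (S'.s.fc y'.1)
  obtain ⟨G', hG', on₀'⟩ := exG _ _ s₀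
  have T := tw0 (S.s.fc y₀.1) on₀ s₀.i
  have T' := tw0 (s₀.b ▸ S'.s.fc y₀'.1 :
    CFace (X.𝓑.c y₀.1.1.1) (rc S'.inv) y₀'.1.1.2 (S'.s.g y₀'.1)) on₀' s₀.i'
  obtain ⟨⟨ι, hι⟩, -⟩ := rIso _ _ _ _ _ _ _ _ _ _ _ _ _ _ _ _ _ T T'
  obtain ⟨a, ha⟩ := pts y₀.1.1.1 0 zero_Bl
  have hp := pt3 X.ok (X.eo.nb 3 _ _ X.ok) ha
  obtain ⟨j, hj⟩ := (hp.on o).1 T.dat.le
  obtain ⟨j', hj'⟩ := (hp.on o').1 T'.dat.le
  have hne : j' ≠ j := fun e => T.ne (X.𝓑.inj _ _ _ o' (s₀.b ▸ y₀'.1.2)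
    (y₀.1.2.trans (hj.symm.trans (e ▸ hj'))))
  obtain ⟨C20, m₀, T0⟩ := tw_chg T hp.rg (hp.dat j o hj) T'.dat (hp.dat j' o' hj') hne
  obtain ⟨C20', m₀', T0'⟩ := tw_chg T' hp.rg (hp.dat j' o' hj') T.dat (hp.dat j o hj) hne.symm
  obtain ⟨c, n, c0, H⟩ := rCrp X.eo X.f₀ X.la X.b X.β X.q X.M o o' _ _ _ _ S.e S.v S'.e S'.v ψ ψ'
    G G' σ θ μ ι _ _ _ _ _ _ _ _ _ _ _ X.hyp X.ok (B.ex X o S.pol) (B.ex X o' S'.pol) S.sta.rd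
    S.sta.rs S'.sta.rd S'.sta.rs g1 g1' hE ⟨a, ha⟩ hp hj hj' T0 T0' hι
  obtain ⟨ι', hι'⟩ := ex_iso ι (hι.eqv S.B T T' (rc S.inv) (rc hG) (rc S'.inv) (rc hG')
    fun τ g hg => (((X.𝓑.c _).fx 0 zero_Bl).mem τ).2 hg)
  have ψ0 : ψ ≠ 0 := fun e => g1.1 (congrArg Subtype.val e)
  have ψ0' : ψ' ≠ 0 := fun e => g1'.1 (congrArg Subtype.val e)
  have key : ∀ y y', Sw y y' → S.On G y → S'.On G' y' ∧ (S'.δ2 hG' y').map ι' = S.δ2 hG y ∧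
      (S.th hG ψ y.1 ^ G'.v ψ' * ι' (S'.th hG' ψ' y'.1) ^ G.v ψ *
        (S.δ2 hG y).u ^ (G.v ψ * G'.v ψ') : (rA hG).fix) = algebraMap ℂ G.kf c * (σ : G.kf) ^ n ∧
      ∀ q q', CFace (S.s.g y.1) (rc hG) y.2 q → CFace (S'.s.g y'.1) (rc hG') y'.2 q' →
        q'.b.IsMap ι' q.b := by
    intro y y' s on
    obtain ⟨G'', -, on'⟩ := exG _ _ s
    obtain ⟨⟨⟨b, i⟩, hb⟩, m⟩ := y
    obtain ⟨⟨⟨b', i'⟩, hb'⟩, m'⟩ := y'
    obtain ⟨rfl, e, e'⟩ := s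
    have hf := S.s.fc ⟨(b', i), hb⟩
    have hf' := S'.s.fc ⟨(b', i'), hb'⟩
    have U := tw0 hf on e
    obtain rfl := g_eq hB (pts b' 0 zero_Bl) ⟨a, ha⟩ U (tw0 hf' on' e') T T'
    have U' := tw0 hf' on' e'
    obtain ⟨hI, -, H1⟩ := H _ (pts b' 0 zero_Bl) _ _ _ _ _ _ _ _ _ U U'
    obtain ⟨α, a1⟩ := X.𝓑.mf b'
    obtain ⟨α', a2⟩ := X.𝓑.mj b'
    have nn : ∀ (w : X.M.J → ℕ) l, 0 ≤ (X.𝓑.lab b' l).elim (0 : ℤ) fun j => w j := fun w l => by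
      rcases X.𝓑.lab b' l with _ | j
      exacts [le_rfl, Int.natCast_nonneg _]
    have k1 := ini_sw hf hf' on on' (rc hG) (rc hG') e e' hι' hI a1 (nn X.M.a)
    refine ⟨on', ?_, ?_, fun q q' hq hq' => (isMap_of hf hf' hq hq' e e' hι' fun t ht t1 t2 =>
      (H _ (pts b' t ht) _ _ _ _ _ _ _ _ _ (tw_at hf on e ht t1 t2)
        (tw_at hf' on' e' ht t2 t1)).1).1⟩
    · have k2 := ini_sw hf hf' on on' (rc hG) (rc hG') e e' hι' hI a2 (nn X.M.k)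
      simp only [ES.δ2, ES.δ, Dn.rs, Dn.map, Dn.w, dn3, hf.zf, hf'.zf, Box.jac_self, mul_one,
        one_mul, Dn.mk.injEq]
      exact ⟨k1, k2, funext (z_sw hf hf' on on' (rc hG) (rc hG') e e' hι' hI)⟩
    · have z1 : G.pl.o.v ((S.s.g _).b.z m) = 1 := (S.s.g _).z m ▸ U.dat2.adp.vz
      have z2 : G''.pl.o.v ((S'.s.g _).b.z m') = 1 := (S'.s.g _).z m' ▸ U'.dat2.adp.vz
      obtain ⟨v1, w1⟩ := ini2 hf on (rc hG) e a1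
      have v2 := (ini2 hf' on' (rc hG') e' a1).1
      have t1 := (R.ini (rc hG) z1 ψ0 (ini_ne (rc S.inv) hf.vz a1.ne)).2
      have t2 := (R.ini (rc hG') z2 ψ0' (ini_ne (rc S'.inv) hf'.vz a1.ne)).2
      have u0 := coe_ne (ini_ne (rc hG) z1 (ini_ne (rc S.inv) hf.vz a1.ne))
      simp only [hb, hb', Option.elim_some] at v1 v2 w1
      rw [← H1, ← X.fe, ← w1, ← (S.s.g _).z, ← (S'.s.g _).z]
      refine Eq.trans (congrArg Subtype.val (congrArg₂ (fun s t => s ^ _ * ι' t ^ _ * _) t1 t2)) ?_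
      rw [map_mul, map_zpow₀, map_zpow₀, k1]
      simp only [Subfield.coe_mul, coe_zp, hι', coe_ini (rc hG) z1 ψ0, coe_ini (rc hG') z2 ψ0']
      rw [← v1, ← v2]
      exact alg u0 _ _ _ _ _ _
  obtain ⟨c, rfl⟩ := mon_desc (rA hG) σ.2 (p1_ne hE.p1)
    ((key _ _ s₀ on₀).2.2.1 ▸ Subtype.property _)
  refine ⟨G', hG', ι', c, n, fun e => c0 (by rw [e, map_zero]), fun y y' s on => ?_⟩
  obtain ⟨k1, k2, k3, k4⟩ := key y y' s on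
  exact ⟨k1, k2, Subtype.ext (k3.trans (by rw [Algebra.smul_def, Subfield.coe_mul, coe_zp]; rfl)),
    k4⟩

end

end Pool.Agent.MP_5d9b3c_ag.P3D
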