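import Pool.Agent.MP_5d9b3c_ag.P3D.SpecX
import Pool.Agent.MP_5d9b3c_ag.P3K.Mono
import Pool.Agent.MP_ee8c61_ag.M3BK.RSurf
import Pool.Agent.MP_ee8c61_ag.M3BK.RFl
import Pool.Agent.MP_ee8c61_ag.M3BK.RCrv

/-!
The strict transform of a double curve is met by a box.
-/

namespace Pool.Agent.MP_5d9b3c_ag.P3D

open MP_ee8c61_ag M3 M3RESID M3BK P3 P3K P3T Set
open Pool.Agent.MP_96693b_ag.RS (Loc)
open Pool.Agent.MP_96693b_ag

noncomputable section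

namespace FLG

section Gen

variable {L k : Type} [Field L] [Algebra ℂ L] [Field k] [Algebra ℂ k] {V : ValuationSubring L}
  {x : Loc L} {g : L}

/-- The residue field is the field of constants. -/
def RC (V : ValuationSubring L) : Prop := ∀ g ∈ V, ∃ c : ℂ, ¬Un V (g - algebraMap ℂ L c)

theorem ev_sub (hg : g ∈ x.O) (c : ℂ) : x.ev (g - algebraMap ℂ L c) = x.ev g - c := by
  rw [sub_eq_add_neg, ← map_neg, x.ev_add _ hg _ (x.O.algebraMap_mem _), x.ev_alg, sub_eq_add_neg]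

theorem RC.dm (h : RC V) (hx : Le x V) : Dm x V := ⟨hx, fun g hg h0 hu => by
  obtain ⟨c, hc⟩ := h g (hx g hg)
  by_cases c0 : c = 0
  · exact hc (by simpa [c0] using hu)
  · exact hc (RSurf.un_of_ev hx (by rw [ev_sub hg, h0]; simpa using c0))⟩

theorem RC.lift {P : Pl L k} {V : ValuationSubring k} (h : RC V) : RC (RSurf.lift P V) :=
  fun g hg => by
    obtain ⟨c, hc⟩ := h _ hg.2
    refine ⟨c, fun e => hc ?_⟩
    have := (RSurf.un_lift.1 e).2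
    rwa [Pl.π_sub hg.1 (P.cst c).1, P.π_cst] at this

theorem ev_eq {x' : Loc L} (h : Dm x V) (h' : Le x' V) (hg : g ∈ x.O) (hg' : g ∈ x'.O) :
    x'.ev g = x.ev g := by
  by_contra e
  refine h.2 _ (sub_mem hg (x.O.algebraMap_mem (x.ev g))) (by rw [ev_sub hg, sub_self])
    (RSurf.un_of_ev h' ?_)
  rw [ev_sub hg']
  exact sub_ne_zero.2 e

theorem mem_of_lc {A : Subalgebra ℂ L} (h : Dm x V) (hA : A ≤ x.O) (hg : Lc A V g) : g ∈ x.O := by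
  obtain ⟨s, s1, s2, s3⟩ := hg
  have := mul_mem (x.inv_mem s (hA s1) fun e => h.2 s (hA s1) e s2) (hA s3)
  rwa [inv_mul_cancel_left₀ s2.1] at this

theorem le_of {A : Subalgebra ℂ L} {x' : Loc L} (hx : RS.LocOf A x) (h : Le x V) (h' : Dm x' V)
    (hA : A ≤ x'.O) : x.O ≤ x'.O := fun g hg => by
  obtain ⟨a, ha, q, hq, h0, e⟩ := hx.frac g hg
  exact mem_of_lc h' hA ⟨q, hq, RSurf.un_of_ev h h0, by rw [mul_comm, e]; exact ha⟩

variable {F : Type} [Field F] [Algebra F ℂ] {A : GA F L} {B : GA F k}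

theorem stb_lift {P : Pl L k} (h : A.Cpt B P) {V : ValuationSubring k} (hV : B.Stb V) :
    A.Stb (RSurf.lift P V) := fun σ g hg =>
  ⟨(h.1.mem σ).2 hg.1, h.2 σ g hg.1 ▸ hV σ _ hg.2⟩

theorem le_loc (hV : A.Stb V) (h : Le x V) (σ : Gm F) : Le ((A.si σ).loc x) V := fun g hg => by
  have := hV σ _ (h _ hg)
  rwa [← GA.si_e, SI.e_symm_e] at this

/-- The valuation of an invariant flag. -/
theorem exists_fl {C : Co L 2} {G : DV L} {m : Fin 2} (hr : Rg C x) (hG : C.Dat x.O G m)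
    (hx : A.FixL x) (hi : A.InvO G) :
    ∃ V : ValuationSubring L, RC V ∧ Le x V ∧ A.Stb V ∧ V ≤ G.O := by
  obtain ⟨-, -, h3, h4⟩ := rFl L C x m hr
  obtain ⟨U, hU⟩ := (h3 G hG).2.2.1
  obtain ⟨-, h5, h6, -⟩ := h4 G U hU
  have hl : Le x (RSurf.lift G.pl U.O) := fun g hg => ⟨hG.le g hg, hU.le g hg⟩
  refine ⟨_, fun y hy => ?_, hl, fun σ y hy => ?_, RSurf.lift_le⟩
  · obtain ⟨g, hg, e⟩ := h6 _ hy.2
    refine ⟨x.ev g, fun hu => ?_⟩
    have h7 := (RSurf.un_lift.1 hu).2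
    rw [Pl.π_sub hy.1 (G.pl.cst _).1, ← e, ← Pl.π_sub (hG.le g hg) (G.pl.cst _).1] at h7
    have h8 := (h5 _ (sub_mem hg (x.O.algebraMap_mem (x.ev g)))).2 (by rw [ev_sub hg, sub_self])
    have h9 := U.un_O.1 h7
    have := h8.resolve_left h9.1
    omega
  · obtain ⟨g, hg, e⟩ := h6 _ hy.2
    have h7 : y - g ∈ G.F 1 := Pl.π_eq (P := G.pl) (hG.le g hg) hy.1 e.symm
    have h8 := (hi.mem σ).2 h7
    have h9 : A.ρ σ (y - g) ∈ RSurf.lift G.pl U.O :=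
      ⟨G.F_anti zero_le_one h8, by rw [G.pl.π_F1 h8]; exact zero_mem _⟩
    have := add_mem h9 (hl _ ((hx.mem σ).2 hg))
    rwa [← map_add, sub_add_cancel] at this

end Gen

section Mdl

variable {N : ℕ} {f : Po N} {M W : Mod N} {Q Q' : Loc (KK N)} {V : Vl N}

/-- The centre on a dominating model dominates the centre. -/
theorem dom_le (B : M3E.Bas f M) (D : Dom W M) {a : M.ι} (hQ : RS.LocOf (M.S.A a) Q)
    (hQ' : Q' ∈ W.pts) (h : Le Q V) (h' : Dm Q' V) : Q.O ≤ Q'.O := by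
  obtain ⟨b, hb⟩ := hQ'
  obtain ⟨a', ha'⟩ := D.loc b V fun g hg => h'.1 g (hb.le hg)
  have h1 : M.S.A a' ≤ Q'.O := fun g hg => mem_of_lc h' hb.le (ha' g hg)
  exact le_of hQ h h' fun g hg => mem_of_lc h' h1
    (B.lc a a' V (fun g hg => h g (hQ.le hg)) (fun g hg => h'.1 g (h1 hg)) g hg)

/-- The equation of a divisor divides the functions that vanish on it. -/
theorem div_η (h : M.OK f) (B : M3E.Bas f M) {a : M.ι} (hQ : RS.LocOf (M.S.A a) Q) {j : M.J}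
    (hj : M.On Q j) {g : KK N} (hg : g ∈ Q.O) (h1 : g ∈ (M.v j).F 1) : g / M.η a j ∈ Q.O := by
  have hb : M.In a (M.v j).O := fun g hg => hj g (hQ.le hg)
  obtain ⟨-, h2, -⟩ := B.in_v a _ j hb ((B.thru_v j j).2 rfl)
  obtain ⟨r, hr, q, hq, h0, e⟩ := hQ.frac g hg
  have h3 := (h.dv a j h2).2.2 r hr (e ▸ F_mul0' h1 (hb q hq))
  have := mul_mem (hQ.le h3) (Q.inv_mem q (hQ.le hq) h0)
  rwa [← e, mul_right_comm g, mul_inv_cancel_right₀ (RS.Loc.ne_zero_of_ev h0),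
    ← div_eq_mul_inv] at this

theorem η_F1 (B : M3E.Bas f M) {a : M.ι} {j : M.J} (hb : M.In a (M.v j).O) :
    M.η a j ∈ (M.v j).F 1 := RSurf.F1_of (hb _ (B.η_mem a j))
  ((B.thru_iff a _ j hb).1 ((B.thru_v j j).2 rfl))

/-- A second divisor through the centre. -/
theorem second (B : M3E.Bas f M) (B' : M3E.Bas f W) (D : Dom W M) {a : M.ι} {b : W.ι}
    {o o' : M.J} (ho : o' ≠ o) (ha : M.In a V) (hb : W.In b V) (hV : V ≤ (M.v o).O)
    (hn : ¬Un V (M.η a o')) : ∃ j, j ≠ D.e o ∧ ¬Un V (W.η b j) := by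
  by_contra hc
  push Not at hc
  have ha' : M.In a (M.v o).O := fun g hg => hV (ha g hg)
  have hb' : W.In b (W.v (D.e o)).O := fun g hg => by rw [D.v]; exact hV (hb g hg)
  have h1 : Un (M.v o).O (M.η a o') := by
    by_contra e
    exact ho ((B.thru_v o o').1 ((B.thru_iff a _ o' ha').2 e))
  have h2 := D.mon a b V ha hb o'
  have h3 : Un (M.v o).O (W.mon b fun i => D.m i o') := by
    have := h1.div (h2.mono hV)
    rwa [div_div_cancel₀ h1.1] at this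
  have h4 := B'.v_mon b (D.e o) (fun i => D.m i o') hb'
  rw [D.v, ((M.v o).un_O.1 h3).2] at h4
  have h5 : Un V (W.mon b fun i => D.m i o') := B'.un_of b V _ hb fun j hj => by
    by_cases e : j = D.e o
    · rw [e, h4]
    · exact absurd (hc j e) ((B'.thru_iff b V j hb).1 hj)
  have := h2.mul h5
  rw [div_mul_cancel₀ _ h5.1] at this
  exact hn this

end Mdl

section Face

variable {L k : Type} [Field L] [Algebra ℂ L] [Field k] [Algebra ℂ k] {n : ℕ} {p : ℕ}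
  [Fact p.Prime] [Algebra ℚ_[p] ℂ] [Algebra.IsAlgebraic ℚ_[p] ℂ] {A : GA ℚ_[p] L}
  {B : GA ℚ_[p] k} {P : Pl L k} {h : A.Cpt B P} {c : CBox A (n + 1)} {i : Fin (n + 1)}
  {g : CBox B n} {t : Fin n → ℚ_[p]}

theorem dat (hf : CFace c h i g) (ht : t ∈ Bl p n) :
    (sh c.C (up (i.insertNth 0 t))).Dat (c.Q (i.insertNth 0 t)).O P.o i :=
  hf.on _ (Box.ins_bl i ht) (by simp)

theorem pr (hf : CFace c h i g) (ht : t ∈ Bl p n) : Pr P (c.Q (i.insertNth 0 t)) (g.Q t) :=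
  ⟨(dat hf ht).le, hf.O t ht⟩

theorem rsC (hf : CFace c h i g) (ht : t ∈ Bl p n) :
    P.RsC (sh c.C (up (i.insertNth 0 t))) i (sh g.C (up t)) := fun l => by
  have h1 := (dat hf ht).le _ ((c.rg _ (Box.ins_bl i ht)).st.z (i.succAbove l))
  have h2 := add_mem h1 (P.cst (up (i.insertNth 0 t) (i.succAbove l))).1
  simp only [sh, sub_add_cancel] at h2
  simp only [sh]
  rw [Pl.π_sub h2 (P.cst _).1, P.π_cst, hf.rc l]
  simp [up]

omit [Algebra ℚ_[p] ℂ] [Algebra.IsAlgebraic ℚ_[p] ℂ] in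
theorem exists_ins {s : Fin (n + 1) → ℚ_[p]} (hs : s ∈ Bl p (n + 1)) (h0 : s i = 0) :
    ∃ t ∈ Bl p n, s = i.insertNth 0 t :=
  ⟨i.removeNth s, mem_bl.2 fun l => mem_bl.1 hs _, by rw [← h0, Fin.insertNth_self_removeNth]⟩

end Face

end FLG

open FLG in
theorem rFlag (E : M3E.EOut) (p : ℕ) [Fact p.Prime] [Algebra ℚ_[p] ℂ]
    [Algebra.IsAlgebraic ℚ_[p] ℂ] : SFLAG p := by
  rintro f₀ f M W D 𝓑 𝓦 o k _ _ B P h s s' G hM hW hS hG ⟨⟨⟨⟨⟨b, i⟩, hi⟩, m⟩, hm, hon⟩⟩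
  have BM := E.bas 3 f₀ M hM
  have BW := E.bas 3 f₀ W hW
  have z2 : (0 : Fin 2 → ℚ_[p]) ∈ Bl p 2 := zero_bl
  have hf := s.fc ⟨(b, i), hi⟩
  set g := s.g ⟨(b, i), hi⟩
  have hd := hon 0 z2 rfl
  have hr := g.rg 0 z2
  have ht₀ := Box.ins_bl i z2
  set t₀ : Fin 3 → ℚ_[p] := i.insertNth 0 0 with e₀
  have hp : Pr P ((𝓑.c b).Q t₀) (g.Q 0) := pr hf z2
  obtain ⟨V, hV1, hV2, hV3, hV4⟩ := exists_fl hr hd (g.fx 0 z2) hG
  have hc : ∀ c : ℂ, algebraMap ℂ k c ∈ V := fun c => hV2 _ ((g.Q 0).O.algebraMap_mem c)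
  obtain ⟨a, ha⟩ := 𝓑.pt b
  have ha := ha t₀ ht₀
  have hx : ∀ l, M3.xx 3 l ∈ ((𝓑.c b).Q t₀).O := fun l => ha.le (hM.pol a _)
  obtain ⟨Q', hQ', ho', hl⟩ := RSurf.exists_pt hW BW s'.po V hc (by
    rintro _ ⟨l, rfl⟩
    exact hV2 _ (hp.mem (hx l)))
  have hdm := hV1.lift.dm hl
  have hl₀ := RSurf.le_lift hp hV2
  have hle := dom_le BM D ha hQ' hl₀ hdm
  have hfx : (AK p).FixL Q' := fun σ =>
    (RSurf.sep BW hQ' (hS σ Q' hQ') hdm (le_loc (stb_lift h hV3) hl σ)).symm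
  obtain ⟨β, t', ht', rfl⟩ := 𝓦.all Q' hQ' hfx fun l =>
    ⟨_, (𝓑.itg b t₀ ht₀ _ ⟨l, rfl⟩).2,
      (RS.Loc.ev_eq_of_le hle (hx l)).trans ((𝓑.c b).ev t₀ ht₀ (xK p l)).symm⟩
  obtain ⟨i', hi', h0⟩ := (𝓦.on β t' ht' _).1 ho'
  obtain ⟨t, ht, rfl⟩ := exists_ins ht' h0
  have hf' := s'.fc ⟨(β, i'), hi'⟩
  set g' := s'.g ⟨(β, i'), hi'⟩ with eg
  have hp' : Pr P ((𝓦.c β).Q (i'.insertNth 0 t)) (g'.Q t) := pr hf' ht
  have hr' := g'.rg t ht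
  have hxV : Le (g'.Q t) V := fun y hy => by
    obtain ⟨u, hu, rfl⟩ := (hp'.2 y).1 hy
    exact (hl u hu).2
  have hxG : Le (g'.Q t) G.O := fun y hy => hV4 (hxV y hy)
  have hxx : (g.Q 0).O ≤ (g'.Q t).O := fun y hy => by
    obtain ⟨u, hu, rfl⟩ := (hp.2 y).1 hy
    exact hp'.mem (hle hu)
  have hthr : Thr (g'.Q t) G := ⟨⟨_, hd.adp.vz⟩, hxG, fun e =>
    ((rFl k _ _ m hr).2.2.1 G hd).1.2.2 ⟨hd.le, fun y hy h0 =>
      e.2 y (hxx hy) ((RS.Loc.ev_eq_of_le hxx hy).trans h0)⟩⟩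
  obtain ⟨o', ho⟩ := Option.ne_none_iff_exists'.1 hm
  replace ho : 𝓑.lab b (i.succAbove m) = some o' := ho
  have hne : o' ≠ o := fun e => i.succAbove_ne m (𝓑.inj b _ _ o (e ▸ ho) hi)
  have hd' := 𝓑.dat b _ o' ho t₀ ht₀ (by simp [e₀])
  have hl₁ := RSurf.le_lift hp (V := G.O) hd.le
  have hl₂ := RSurf.le_lift hp' hxG
  obtain ⟨b', hb'⟩ := hQ'
  have hz := ((𝓑.c b).rg t₀ ht₀).st.z (i.succAbove m)
  have hn : ¬Un (RSurf.lift P G.O) (M.η a o') := by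
    have h1 := hd'.div _ (ha.le (BM.η_mem a o')) (η_F1 BM fun u hu => hd'.le u (ha.le hu))
    rw [← div_mul_cancel₀ (M.η a o') ((sh (𝓑.c b).C (up t₀)).ne (i.succAbove m))]
    refine not_un_mul (hl₁ _ h1) (hl₁ _ hz) fun e => ?_
    have := (G.un_O.1 (RSurf.un_lift.1 e).2).2
    rw [← rsC hf z2 m, hd.adp.vz] at this
    exact one_ne_zero this
  obtain ⟨j, hj, hu⟩ := second BM BW D hne (fun u hu => hl₁ u (ha.le hu))
    (fun u hu => hl₂ u (hb'.le hu)) (s.po ▸ RSurf.lift_le) hn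
  have hon' := (RSurf.on_iff hW BW hb' j).2 (by_contra fun e => hu (RSurf.un_of_ev hl₂ e))
  obtain ⟨i'', hi'', h0'⟩ := (𝓦.on β _ ht' j).1 hon'
  obtain ⟨m', rfl⟩ := Fin.exists_succAbove_eq (x := i'') (y := i') fun e =>
    hj (Option.some.inj ((e ▸ hi'').symm.trans hi'))
  have hd'' := 𝓦.dat β _ j hi'' _ ht' h0'
  have hz' := ((𝓦.c β).rg _ ht').st.z (i'.succAbove m')
  have hv : G.v ((sh g'.C (up t)).z m') ≠ 0 := fun e => by
    have h1 := div_η hW BW hb' hon' hz' (Or.inr hd''.adp.vz.ge)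
    have h2 := not_un_mul (hl₂ _ h1) (hl₂ _ (hb'.le (BW.η_mem b' j))) hu
    rw [div_mul_cancel₀ _ (W.η_ne b' j)] at h2
    exact h2 (RSurf.un_lift.2 ⟨hp'.1 _ hz', by
      rw [← rsC hf' ht m']
      exact G.un_O.2 ⟨Co.ne _ _, e⟩⟩)
  obtain ⟨m'', hG'⟩ := (rCrv k _ _ G hr' hthr).2.2.resolve_right fun e => hv (e.1 m')
  obtain rfl : m' = m'' := by
    by_contra e
    exact hv (by rw [hG'.adp.v, if_neg e])
  have hne' : 𝓦.lab β (i'.succAbove m') ≠ none := by rw [hi'']; simp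
  obtain ⟨G', -, hG''⟩ := 𝓦.crv β i' m' (by rw [hi']; simp) hne' k B P h g' hf'
  obtain rfl : G' = G := RFl.dat_uniq hr' (hG'' t ht (by simpa using h0')) hG'
  exact ⟨⟨(⟨(β, i'), hi'⟩, m'), hne', hG''⟩⟩

end

end Pool.Agent.MP_5d9b3c_ag.P3D
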