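import Pool.Agent.MP_5d9b3c_ag.P3D.Kit

/-! The mass of a polar double curve vanishes. -/

namespace Pool.Agent.MP_5d9b3c_ag.P3D

open MP_ee8c61_ag M3 M3RESID M3BK P3 P3K P3T Finset

variable (p : ℕ) [Fact p.Prime] [Algebra ℚ_[p] ℂ] [Algebra.IsAlgebraic ℚ_[p] ℂ]

theorem rCLA : OfCLA p := by
  intro hF h2 hJ hV hR hD hB hC X o S G hG g
  classical
  rw [← sum_fiberwise_of_maps_to (g := S.s.lb) fun y hy => mem_image_of_mem _ hy]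
  refine sum_eq_zero fun l hl => ?_
  obtain ⟨y₁, h1, rfl⟩ := mem_image.1 hl
  obtain ⟨h3, h4⟩ := (mem_filter.1 h1).2
  obtain ⟨o', h5, h6⟩ := (hB.pl S _).1 h3
  let ι := {y // S.s.lb y = some o' ∧ S.On G y}
  rw [sum_congr rfl fun y hy => congrArg (fun a => _ * g a) (mem_filter.1 hy).2, ← sum_mul,
    sum_subtype (p := fun y => S.s.lb y = some o' ∧ S.On G y) _ fun y => by
      simp only [mem_filter, mem_univ, true_and, h5]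
      exact ⟨fun h => ⟨h.2, h.1.2⟩, fun h => ⟨⟨(hB.pl S _).2 ⟨o', h.1, h6⟩, h.2⟩, h.1⟩⟩]
  refine mul_eq_zero_of_left ?_ _
  let y₀ : ι := ⟨y₁, h5, h4⟩
  choose c hc using fun x : S.s.F2 G => hF _ _ 1 _ _ _ (rc hG) _ _ x.2.2
  let φ : ι → S.s.F2 G := fun y => ⟨y, fun e => Option.some_ne_none o' (y.2.1.symm.trans e), y.2.2⟩
  obtain ⟨e1, e2, e3⟩ := h2 _ _ _ _ o _ _ _ _ _ S.s _ G.pl (rc hG) c X.ok X.stp hc
  have hf : Full (fun y => (c (φ y)).b) (x2 (rc S.inv) (rc hG)) :=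
    ⟨e1.dis.comp (π := φ) fun y y' e => Subtype.ext (congrArg (·.1) e :), fun y => e2 _,
      cov_of (fun x : {x : S.s.F2 G // S.s.lb x.1 = S.s.lb (φ y₀).1} =>
        (⟨x.1.1, x.2.trans y₀.2.1, x.1.2.2⟩ : ι)) (e3 (φ y₀))⟩
  have p0 := (hR.pol (T := X.T) h4 (hB.adp S _)).1.2 h3
  obtain ⟨σ, g1, -, g3, -⟩ := hC S _ _ hG _ _ (hc (φ y₀)) p0
  have le := fun y : ι => (hD X.lam (hc (φ y₀)) (hc (φ y)) (hB.le S _ y.1.1)
    (hB.ne S _ (S.s.g y₁.1).b).1 (hB.ne S _ _).2 p0).2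
  have ad := fun y : ι => hR.adp (hc (φ y)) (hB.adp S _)
  exact (hV.cur X.lam hf g3 g1 le fun y =>
    hJ.self 0 0 (ad y) (hV.np X.lam g1 (le y) (ad y))).1

end Pool.Agent.MP_5d9b3c_ag.P3D
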