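import Pool.Agent.MP_5d9b3c_ag.P3D.Kit
import Pool.Agent.MP_ee8c61_ag.M3BK.RCrv
import Pool.Agent.MP_ee8c61_ag.M3BK.RFl

/-! A polar curve is exceptional or a double curve. -/

namespace Pool.Agent.MP_5d9b3c_ag.P3D

open MP_ee8c61_ag M3 M3RESID M3BK P3 P3K P3T Set

theorem rDIC (p : ℕ) [Fact p.Prime] [Algebra ℚ_[p] ℂ] [Algebra.IsAlgebraic ℚ_[p] ℂ] :
    OfDIC p := by
  intro hD _ hO hB hP X o S U G hE
  have low : ∀ z, U.On G z → Nrm G ∧ ∃ s ∈ Bl p 2, Le ((S.s.g (U.π z.1)).Q s) G.O := fun z hz => by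
    have h1 := hz 0 zero_Bl rfl
    obtain ⟨s, hs, h2⟩ := U.ov z.1 0 zero_Bl
    exact ⟨⟨_, h1.adp.vz⟩, s, hs, fun g hg => h1.le g (hD _ 2 _ _ _ s hs 0 zero_Bl h2 hg)⟩
  by_cases h : ∃ x, ∃ t ∈ Bl p 2, Dm ((S.s.g x).Q t) G.O
  · obtain ⟨x, t, ht, h⟩ := h
    have key : ∀ z, U.On G z → U.π z.1 = x := fun z hz =>
      let ⟨s, hs, h1⟩ := (low z hz).2
      (hP.sep S _ _ t ht s hs _ h h1).1.symm
    refine Or.inl ⟨fun y _ hy => ?_, fun z z' hz hz' =>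
      ⟨(key z hz).trans (key z' hz').symm, t, ht, key z hz ▸ h⟩⟩
    have h1 := hy 0 zero_Bl rfl
    obtain ⟨rfl, rfl⟩ := hP.sep S _ _ t ht 0 zero_Bl _ h h1.le
    exact (((rFl _ _ _ y.2 ((S.s.g y.1).rg 0 ht)).2.2.1 G h1).1).2.2 h
  refine Or.inr fun z hz => ?_
  obtain ⟨h1, s, hs, h2⟩ := low z hz
  generalize U.π z.1 = x at h2
  have hr := (S.s.g x).rg s hs
  have ha := hO.ad (hB.adp S x) (hB.of S x) s hs
  obtain ⟨π, hπ⟩ := id h1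
  rcases (rCrv _ _ _ G hr ⟨h1, h2, fun e => h ⟨x, s, hs, e⟩⟩).2.2 with ⟨m, hm⟩ | ⟨-, h3⟩
  swap
  · exact absurd (hE.uniq (h3 _ _ ha) hπ) zero_ne_one
  have h4 := hE.uniq (hm.exp ha) hπ
  have h5 : s m = 0 := by_contra fun e => zero_ne_one (h4.trans (if_neg e))
  have h6 : S.s.lb (x, m) ≠ none := fun e => by
    have e' : X.𝓑.lab x.1.1 (x.1.2.succAbove m) = none := e
    simp [h5, ES.d, face, X.dν, X.dA, e'] at h4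
  obtain ⟨G', -, h7⟩ := X.𝓑.crv x.1.1 x.1.2 m (by simp [x.2]) h6 _ _ _ _ _ (S.s.fc x)
  exact ⟨m, h6, (rFl _ _ _ m hr).2.1 G' G (h7 s hs h5) hm ▸ h7⟩

end Pool.Agent.MP_5d9b3c_ag.P3D
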