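import Pool.Agent.MP_5d9b3c_ag.P3D.Kit
import Pool.Agent.MP_5d9b3c_ag.P3X.Face

/-!
The sums over the faces on a double curve.
-/

namespace Pool.Agent.MP_5d9b3c_ag.P3D

open MP_ee8c61_ag M3 M3RESID M3BK P3 P3K P3T Set

variable {p : ℕ} [Fact p.Prime] [Algebra ℚ_[p] ℂ] [Algebra.IsAlgebraic ℚ_[p] ℂ]

namespace GFL

/-- The double faces on a curve form a complete family. -/
theorem full (H : SCOV2 p) {f₀ : Po 3} {f : (AK p).fix} {M : Mod 3} {𝓑 : Fam M f} {o : M.J}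
    {k κ : Type} [Field k] [Algebra ℂ k] [Field κ] [Algebra ℂ κ] {B : GA ℚ_[p] k}
    {P : Pl (KK 3) k} {h : (AK p).Cpt B P} (s : 𝓑.Fc o h) {E : GA ℚ_[p] κ} {R : Pl k κ}
    {h2 : B.Cpt E R} {c : s.F2 R.o → CBox E 1} (hM : M.OK f₀) (hS : Stp p M)
    (hc : ∀ x, CFace (s.g x.1.1) h2 x.1.2 (c x)) (x₀ : s.F2 R.o) :
    Full (fun x => (c x).b) (x2 h h2) :=
  have k := H f₀ f M 𝓑 o k κ B P h s E R h2 c hM hS hc
  ⟨k.1.dis, k.2.1, cov_of (b := fun x => (c x).b) Subtype.val (k.2.2 x₀)⟩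

variable {X : Ctx p} {o : X.M.J} {S : ES X o} {G : DV S.k} {hG : S.B.InvO G}
  {x x' : X.𝓑.F1 o} {g g' : CBox S.B 2} {m m' : Fin 2} {q q' : CBox (rA hG) 1}

/-- All boxes on a polar curve are polar, with equivalent residues. -/
theorem pol_tr (hD : SRSD p) (hB : SBAS p) (h : CFace g (rc hG) m q) (h' : CFace g' (rc hG) m' q')
    (hp : (S.δ x).Pol X.T g G) : (S.δ x').Pol X.T g' G ∧
      ((S.δ x).rs g (rc hG) m).LE p X.N X.ν ((S.δ x').rs g' (rc hG) m') :=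
  hD X.lam h h' (hB.le S x x') (hB.ne S x g.b).1 (hB.ne S x g.b).2 hp

/-- The cross function and the initial forms. -/
theorem th_eq (hR : SRES p) (hB : SBAS p) (hG : S.B.InvO G) (h : g.On G m) {ψ : S.B.fix}
    (h0 : ψ ≠ 0) (x : X.𝓑.F1 o) : S.th hG ψ x ≠ 0 ∧ S.th hG ψ x =
      ((S.δ x).rs g (rc hG) m).u ^ (-G.v ψ) * ini (rc hG) (g.b.z m) ψ ^ G.v (S.δ x).u := by
  have hz : G.v (g.b.z m) = 1 := by rw [g.z, h.at.v, if_pos rfl]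
  have hu := (hB.ne S x g.b).1
  have e := hR.ini (rc hG) hz h0 hu
  exact ⟨e.2.trans_ne (mul_ne_zero (zpow_ne_zero _ (hR.ini (rc hG) hz hu hu).1)
    (zpow_ne_zero _ e.1)), e.2⟩

/-- The integrals over a polar double face. -/
theorem jv_face (hJ : SJV p) (hV : SCV p) (hR : SRES p) (hC : SCUR p) {θ : S.B.fix}
    {d : MD (Fin 2) 2} (h : CFace g (rc hG) m q) (ha : (S.δ x).Adp g.b θ d)
    (hp : (S.δ x).Pol X.T g G) (a b : ℤ) : JV X.T q.b ((S.δ x).rs g (rc hG) m)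
      (((S.δ x).rs g (rc hG) m).u ^ a * ini (rc hG) (g.b.z m) θ ^ b) (v0 (face d m) p (cT X.T))
      (a * J (face d m) p (cT X.T) k0 + b * J (face d m) p (cT X.T) k1) := by
  obtain ⟨σ, hσ, -⟩ := hC S x g hG m q h hp
  exact hJ.self a b (hR.adp h ha) (hV.np X.lam hσ (.refl _) (hR.adp h ha))

theorem pl_iff (hR : SRES p) (hB : SBAS p) {y : X.𝓑.F1 o × Fin 2} (h : S.On G y) :
    ((S.δ y.1).Pol X.T (S.s.g y.1) G ↔ S.Pl y) ∧
      G.v (S.δ y.1).u = (S.s.lb y).elim 0 X.M.aa := by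
  have e := hR.pol (T := X.T) h (hB.adp S y.1)
  refine ⟨e.1, e.2.1.symm.trans ?_⟩
  simp only [kk, Fin.sum_univ_two, Matrix.cons_val_zero, Matrix.cons_val_one, one_mul, zero_mul,
    add_zero]
  exact X.dA _ _ _

variable (U : S.Ups) {z : U.𝓦.F1 (U.D.e o) × Fin 2}

theorem pl_up (hR : SRES p) (h : U.On G z) :
    (S.δ (U.π z.1)).Pol X.T (U.s.g z.1) G ↔ U.Pl z := (hR.pol (T := X.T) h (U.adp z.1)).1

/-- The terms of a polar double face upstairs. -/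
theorem jv (hJ : SJV p) (hV : SCV p) (hR : SRES p) (hB : SBAS p) (hC : SCUR p)
    (h : CFace (U.s.g z.1) (rc hG) z.2 q) (hz : U.Pl z) (e : U.π z.1 = x) : G.v U.ψ ≠ 0 ∧
      U.pt z = v0 (face (U.d z.1) z.2) p (cT X.T) *
        ((G.v (S.δ x).u : ℂ)⁻¹ - (G.v U.ψ : ℂ)⁻¹) ∧
      JV X.T q.b ((S.δ x).rs (U.s.g z.1) (rc hG) z.2) (S.th hG U.ψ x)
        (v0 (face (U.d z.1) z.2) p (cT X.T)) (-(G.v (S.δ x).u * G.v U.ψ * U.ct z)) := by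
  subst e
  have hO : U.On G z := h.on
  obtain ⟨-, e1, e2⟩ := hR.pol (T := X.T) hO (U.adp z.1)
  obtain ⟨n1, n2, -⟩ := U.nz z.1 z.2 hz
  have k := jv_face hJ hV hR hC h (U.adp z.1) ((pl_up U hR hO).2 hz) (-G.v U.ψ)
    (G.v (S.δ (U.π z.1)).u)
  rw [← (th_eq hR hB hG hO (fun e => U.gd.1 (congrArg _ e)) _).2] at k
  refine ⟨e2 ▸ n2, by rw [ES.Ups.pt, e1, e2], ?_⟩
  rw [e1] at n1
  rw [e2] at n2
  have n3 := (Int.cast_ne_zero (α := ℂ)).2 n1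
  have n4 := (Int.cast_ne_zero (α := ℂ)).2 n2
  refine (congrArg _ ?_).mp k
  rw [ES.Ups.ct, e1, e2, Int.cast_neg]
  field_simp
  ring

open Classical in
/-- The polar double faces on a polar curve are all the double faces on it. -/
theorem sum_eq (hF : SFACE p) (hR : SRES p) (hD : SRSD p) (hB : SBAS p) (hG : S.B.InvO G)
    (h0 : ∃ z, U.Pl z ∧ U.On G z) : (∀ z, U.On G z → U.Pl z) ∧
    ∀ F : U.𝓦.F1 (U.D.e o) × Fin 2 → ℂ,
      ∑ z with U.Pl z ∧ U.On G z, F z = ∑ z : U.s.F2 G, F z := by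
  obtain ⟨z₀, h1, h2⟩ := h0
  obtain ⟨q₀, h3⟩ := hF _ _ _ _ _ _ (rc hG) _ _ h2
  have k : ∀ z, U.On G z → U.Pl z := fun z hz => (hF _ _ _ _ _ _ (rc hG) _ _ hz).elim fun _ h =>
    (pl_up U hR hz).1 (pol_tr hD hB h3 h ((pl_up U hR h2).2 h1)).1
  exact ⟨k, fun F => Finset.sum_subtype _ (fun z => by
    rw [Finset.mem_filter_univ]
    exact and_congr_left fun hz => iff_of_true (k z hz) (U.nz _ _ (k z hz)).2.2) F⟩

end GFL

open GFL in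
theorem rGFL (p : ℕ) [Fact p.Prime] [Algebra ℚ_[p] ℂ] [Algebra.IsAlgebraic ℚ_[p] ℂ] : OfGFL p := by
  classical
  intro hF h2 hJ hV hR hD hB hC hA X o S U G hG h0 H
  obtain ⟨k1, k2⟩ := sum_eq U hF hR hD hB hG h0
  obtain ⟨z₀, h3, h4⟩ := h0
  choose m hm using fun z : U.s.F2 G => H z z.2.2
  choose c hc using fun z : U.s.F2 G => hF _ _ _ _ _ _ (rc hG) _ _ z.2.2
  choose c₀ hc₀ using fun y : S.s.F2 G => hF _ _ _ _ _ _ (rc hG) _ _ y.2.2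
  let z₁ : U.s.F2 G := ⟨z₀, (U.nz _ _ h3).2.2, h4⟩
  let π : U.s.F2 G → S.s.F2 G := fun z => ⟨(U.π z.1.1, m z), hm z⟩
  have f1 := full h2 U.s (h2 := rc hG) U.ok U.stp hc z₁
  have f0 := full h2 S.s (h2 := rc hG) X.ok X.stp hc₀ (π z₁)
  have pl : ∀ y : S.s.F2 G, (S.δ y.1.1).Pol X.T (S.s.g y.1.1) G := fun y =>
    (pol_tr hD hB (hc z₁) (hc₀ y) ((pl_up U hR h4).2 h3)).1
  have iff : ∀ y, S.Pl y ∧ S.On G y ↔ S.s.lb y ≠ none ∧ (S.s.g y.1).On G y.2 := fun y =>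
    and_congr_left fun hy => ⟨fun h => ((hB.pl S y).1 h).elim fun _ e => e.1 ▸ nofun,
      fun h => (pl_iff hR hB hy).1.1 (pl ⟨y, h, hy⟩)⟩
  have k3 : ∀ F : X.𝓑.F1 o × Fin 2 → ℂ,
      ∑ y with S.Pl y ∧ S.On G y, F y = ∑ y : S.s.F2 G, F y := fun F =>
    Finset.sum_subtype _ (fun y => by rw [Finset.mem_filter_univ, iff]) F
  have up := fun (y : S.s.F2 G) (z : {z // π z = y}) =>
    jv (x := y.1.1) U hJ hV hR hB hC (hc z.1) (k1 _ z.1.2.2) (congrArg (·.1.1) z.2)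
  have key : ∀ y : S.s.F2 G, v0 (face (S.d y.1.1) y.1.2) p (cT X.T) =
      ∑ z : {z // π z = y}, v0 (face (U.d z.1.1.1) z.1.1.2) p (cT X.T) ∧
      JV X.T (c₀ y).b (S.δ2 hG y) (S.th hG U.ψ y.1.1) (v0 (face (S.d y.1.1) y.1.2) p (cT X.T))
        (-(G.v (S.δ y.1.1).u * G.v U.ψ * ∑ z : {z // π z = y}, U.ct z)) := fun y => by
    obtain ⟨J₀, h5⟩ := hJ.ex (jv_face hJ hV hR hC (hc₀ y) (hB.adp S _) (pl y) 0 0)
      (th_eq hR hB hG y.2.2 (fun e => U.gd.1 (congrArg _ e)) y.1.1).1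
    obtain ⟨e1, e2⟩ := hJ.fib X.lam (rFIB _ _ π (f0.eqv f1).1 f0.dis
      (fun z => (hc z).fc.over (hc₀ (π z)).fc (U.ov _)) y) (f1.dis.comp Subtype.val_injective)
      (fun z => (pol_tr hD hB (hc₀ y) (hc z.1) (pl y)).2) h5 fun z => (up y z).2.2
    refine ⟨e1, ?_⟩
    rwa [Finset.mul_sum, ← Finset.sum_neg_distrib, ← e2]
  refine ⟨?_, fun y => if h : S.s.lb y ≠ none ∧ (S.s.g y.1).On G y.2 then
    ∑ z : {z // π z = ⟨y, h⟩}, U.ct z else 0, ?_, fun y hy q hq => ?_⟩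
  · rw [k2, ← Fintype.sum_fiberwise π, ← hA S G hG fun l =>
      ((l.elim 0 X.M.aa : ℤ) : ℂ)⁻¹ - (G.v U.ψ : ℂ)⁻¹, k3]
    refine Finset.sum_congr rfl fun y _ => ?_
    rw [(key y).1, Finset.sum_mul, ← (pl_iff hR hB y.2.2).2]
    exact Finset.sum_congr rfl fun z _ => (up y z).2.1
  · rw [k2, k3, ← Fintype.sum_fiberwise π]
    exact Finset.sum_congr rfl fun y _ => by rw [dif_pos y.2]
  · have h := (iff y).1 ⟨hy, hq.on⟩
    simp only [dif_pos h]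
    exact ⟨(up _ ⟨z₁, rfl⟩).1, _, hJ.same (face_same (hc₀ ⟨y, h⟩).fc hq.fc) (key ⟨y, h⟩).2⟩

end Pool.Agent.MP_5d9b3c_ag.P3D
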