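import Pool.Agent.MP_5d9b3c_ag.P3D.Kit
import Pool.Agent.MP_5d9b3c_ag.P3D.Eps
import Pool.Agent.MP_5d9b3c_ag.P3.Top

/-! From the regularity of the box sum to the Poincare series. -/

namespace Pool.Agent.MP_5d9b3c_ag.P3D

open MP_ee8c61_ag M3 M3RESID M3BK P3 P3K P3T Set MvPolynomial

variable (p : ℕ) [Fact p.Prime] [Algebra ℚ_[p] ℂ] [Algebra.IsAlgebraic ℚ_[p] ℂ]

theorem sbk_of (E : M3E.EOut) (hO : SCON) (hC : SCOV0 p) (h : SBKP p) : SBK p := by
  intro f la b β Q M T H G hM ⟨hS, 𝓑, hU⟩ hF hT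
  have p0 : (p : ℂ) ≠ 0 := Nat.cast_ne_zero.2 (Fact.out : p.Prime).ne_zero
  have T0 : T ≠ 0 := norm_pos_iff.1 (hT ▸ Real.rpow_pos_of_pos p_pos _)
  have f0 : f ≠ 0 := fun e => H.ne (by rw [e, map_zero])
  obtain ⟨N, ν, hL⟩ := exists_lam p (Units.mk0 T T0)
  let d : 𝓑.ι → MD (Fin 2) 3 := fun a =>
    ⟨(𝓑.md a).c, (𝓑.md a).ν, fun _ => (𝓑.md a).m (), fun _ => (𝓑.md a).A ()⟩
  have h1 := h ⟨_, la, b, β, Q, M, fK p f, .mk0 T T0, N, ν, 𝓑, d, E, hO, H, G, hM, hS, coe_fK f,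
    hU, hL, hT, fun a => ⟨(𝓑.md_adp a).frm, fun l => by
      fin_cases l <;> exact (𝓑.md_adp a).fn ()⟩,
    fun a i => by simp only [d, Fam.md]; cases 𝓑.lab a i <;> simp, fun _ _ _ => rfl⟩
    fun o hO' ho => by
      obtain ⟨e, v, h1, h2, h3, -, h4⟩ := hF o ho hO'
      exact ⟨e, v, h1, h2, h3, h4⟩
  have h2 : ∀ a, (𝓑.md a).val p (chi (fun _ => Units.mk0 T T0) fun _ => 1) =
      (d a).val p (chi (cT (.mk0 T T0)) k1) := fun a =>
    val_congr (by simp [cz, d]) (fun l => by simp [rho, d]) (by simp [mm, d])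
      fun l => by simp [kk, d]
  obtain ⟨D, P, h3, h4⟩ := (igu P3K.igu hC f0 hM hS 𝓑).2
    (chi (fun _ : Unit => Units.mk0 T T0) (fun _ => 1) ()) OO eps (chi_mem _ _ _)
    (fun a => nd_chi (c := fun _ => Units.mk0 T T0) (k := fun _ => 1) fun l => by
      refine or_iff_not_imp_right.2 fun e e' => ?_
      simp only [kk, rho, Fam.md, Fintype.sum_unique, Fintype.prod_unique, one_mul, not_not]
        at e e'
      cases hl : 𝓑.lab a l with
      | none =>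
        rw [hl] at e'
        exact (Fact.out : p.Prime).one_lt.ne' (by simpa using e')
      | some j =>
        rw [hl] at e
        exact (hM.pos j).ne' (by simpa [Mod.aa] using e))
    (mem_OO.2 ((Finset.sum_congr rfl fun a _ => h2 a).symm ▸ h1))
  exact ⟨D, P, by rwa [eps_chi] at h3, h4⟩

end Pool.Agent.MP_5d9b3c_ag.P3D
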