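import Pool.Agent.MP_5d9b3c_ag.P3D.Asm0
import Pool.Agent.MP_5d9b3c_ag.P3D.RCurB
import Pool.Agent.MP_5d9b3c_ag.P3D.RCrsB

/-! The cancellation of the pole. -/

namespace Pool.Agent.MP_5d9b3c_ag.P3D

open MP_ee8c61_ag

variable (p : ℕ) [Fact p.Prime] [Algebra ℚ_[p] ℂ] [Algebra.IsAlgebraic ℚ_[p] ℂ]

theorem sBK (E : M3E.EOut) (hO : M3.SCON) : P3.SBK p :=
  sbk_rows p E hO (rCURb p) (rCRSb p)

end Pool.Agent.MP_5d9b3c_ag.P3D
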