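import Pool.Agent.MP_5d9b3c_ag.P3K.Defs
import Pool.Agent.MP_5d9b3c_ag.P3G.Kit
import Pool.Agent.MP_5d9b3c_ag.P3T.KK
import Pool.Agent.MP_ee8c61_ag.M3BK.XDefs

/-!
Boxes of fixed points: the `p`-adic box on the fixed field together with the complex points.
-/

namespace Pool.Agent.MP_5d9b3c_ag.P3D

open MP_ee8c61_ag M3 M3RESID M3BK P3 P3K P3T Set
open Pool.Agent.MP_96693b_ag.RS (Loc)

noncomputable section

variable {L k : Type} [Field L] [Algebra ℂ L] [Field k] [Algebra ℂ k] {n : ℕ}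

/-- The shifted coordinates. -/
def sh (C : Co L n) (t : Fin n → ℂ) : Co L n where
  z i := C.z i - algebraMap ℂ L (t i)
  D := C.D
  ne i h := by
    have := congrArg (C.D i) h
    rw [map_sub, Derivation.map_algebraMap, C.dual, if_pos rfl, map_zero, sub_zero] at this
    exact one_ne_zero this
  dual i j := by rw [map_sub, Derivation.map_algebraMap, sub_zero, C.dual]
  span v h := C.span v fun i => by simpa using h i

instance algFix {F : Type} [Field F] [Algebra F ℂ] (A : GA F L) : Algebra F A.fix :=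
  (((algebraMap ℂ L).comp (algebraMap F ℂ)).codRestrict A.fix A.alg_fix).toAlgebra

theorem coe_alg {F : Type} [Field F] [Algebra F ℂ] (A : GA F L) (a : F) :
    ((algebraMap F A.fix a : A.fix) : L) = algebraMap ℂ L (algebraMap F ℂ a) := rfl

variable {p : ℕ} [Fact p.Prime] [Algebra ℚ_[p] ℂ]

/-- A `p`-adic vector as a complex vector. -/
def up (t : Fin n → ℚ_[p]) : Fin n → ℂ := fun i => algebraMap ℚ_[p] ℂ (t i)

/-- A box of fixed points. -/
structure CBox (A : GA ℚ_[p] L) (n : ℕ) where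
  b : Box p A.fix n
  C : Co L n
  Q : (Fin n → ℚ_[p]) → Loc L
  z : ∀ i, (b.z i : L) = C.z i
  D : ∀ i g, (b.D i g : L) = C.D i g
  fx : ∀ t ∈ Bl p n, A.FixL (Q t)
  O : ∀ t ∈ Bl p n, ∀ g : A.fix, g ∈ (b.Φ t).O ↔ (g : L) ∈ (Q t).O
  ev : ∀ t ∈ Bl p n, ∀ g : A.fix, algebraMap ℚ_[p] ℂ ((b.Φ t).ev g) = (Q t).ev g
  rg : ∀ t ∈ Bl p n, Rg (sh C (up t)) (Q t)

variable {A : GA ℚ_[p] L} {B : GA ℚ_[p] k} {P : Pl L k}

theorem pi_fix (h : A.Cpt B P) {g : A.fix} (h0 : (g : L) ∈ P.o.F 0) : P.π g ∈ B.fix :=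
  fun σ => by rw [h.2 σ _ h0, g.2 σ]

open Classical in
/-- The residue map on the fixed field. -/
def pf (h : A.Cpt B P) (g : A.fix) : B.fix :=
  if h0 : (g : L) ∈ P.o.F 0 then ⟨P.π g, pi_fix h h0⟩ else 0

theorem coe_pf (h : A.Cpt B P) {g : A.fix} (h0 : (g : L) ∈ P.o.F 0) : (pf h g : k) = P.π g := by
  rw [pf, dif_pos h0]

/-- The place on the fixed field. -/
def plc [Algebra.IsAlgebraic ℚ_[p] ℂ] (h : A.Cpt B P) : Plc p A.fix B.fix where
  O := { carrier := {g | (g : L) ∈ P.o.F 0}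
         mul_mem' := fun ha hb => P.o.O.mul_mem _ _ ha hb
         add_mem' := fun ha hb => (P.o.F 0).add_mem ha hb
         algebraMap_mem' := fun a => (P.cst _).1 }
  π := pf h
  add g hg g' hg' := Subtype.ext <| by
    rw [Subfield.coe_add, coe_pf h hg, coe_pf h hg', coe_pf h (g := g + g')
      ((P.o.F 0).add_mem hg hg'), Subfield.coe_add, P.add _ hg _ hg']
  mul g hg g' hg' := Subtype.ext <| by
    rw [Subfield.coe_mul, coe_pf h hg, coe_pf h hg', coe_pf h (g := g * g')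
      (P.o.O.mul_mem _ _ hg hg'), Subfield.coe_mul, P.mul _ hg _ hg']
  cst c := Subtype.ext <| (coe_pf h (P.cst _).1).trans (P.cst _).2
  inv_mem g hg h0 := by
    have h1 : (g : L) ∉ P.o.F 1 := fun e =>
      h0 (Subtype.ext ((coe_pf h hg).trans ((P.ker _ hg).2 e)))
    have h2 := P.o.inv g
    have h3 := not_or.1 h1
    exact Or.inr (by rw [Subfield.coe_inv]; omega)
  surj y := by
    obtain ⟨g, hg, e⟩ := P.surj y
    obtain ⟨g', h1, -, h2, h3⟩ := h.lift hg (e ▸ y.2)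
    exact ⟨⟨g', h1⟩, h2, Subtype.ext ((coe_pf h (g := ⟨g', h1⟩) h2).trans (h3.trans e))⟩

variable [Algebra.IsAlgebraic ℚ_[p] ℂ]

/-- The valuation `o` is the divisor `z i = 0` of the box. -/
def CBox.On (c : CBox A n) (o : DV L) (i : Fin n) : Prop :=
  ∀ t ∈ Bl p n, t i = 0 → (sh c.C (up t)).Dat (c.Q t).O o i

/-- `f` is the face `z i = 0` of `c`. -/
structure CFace (c : CBox A (n + 1)) (h : A.Cpt B P) (i : Fin (n + 1)) (f : CBox B n) : Prop where
  on : c.On P.o i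
  fc : c.b.IsFace (plc h) i f.b
  rc : P.RsC c.C i f.C
  O : ∀ t ∈ Bl p n, P.RsO (c.Q (i.insertNth 0 t)).O (f.Q t).O
  ev : ∀ t ∈ Bl p n, ∀ g ∈ (c.Q (i.insertNth 0 t)).O,
    (f.Q t).ev (P.π g) = (c.Q (i.insertNth 0 t)).ev g

variable (p) in
/-- The action on the rational functions. -/
abbrev AK : GA ℚ_[p] (KK 3) := gaK ℚ_[p] 3

variable (p) in
/-- The coordinate functions in the fixed field. -/
def xK (l : Fin 3) : (AK p).fix := ⟨M3.xx 3 l, xx_fix l⟩

/-- A finite family of boxes that covers the integral fixed points of the model `M` of `f`. -/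
structure Fam (M : Mod 3) (f : (AK p).fix) where
  ι : Type
  fι : Fintype ι
  c : ι → CBox (AK p) 3
  lab : ι → Fin 3 → Option M.J
  inj : ∀ b i i' j, lab b i = some j → lab b i' = some j → i = i'
  pt : ∀ b, ∃ a, ∀ t ∈ Bl p 3, MP_96693b_ag.RS.LocOf (M.S.A a) ((c b).Q t)
  inv : ∀ b i j, lab b i = some j → (AK p).InvO (M.v j)
  dat : ∀ b i j, lab b i = some j → (c b).On (M.v j) i
  on : ∀ b, ∀ t ∈ Bl p 3, ∀ j, M.On ((c b).Q t) j ↔ ∃ i, lab b i = some j ∧ t i = 0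
  mf : ∀ b, ∃ α, (c b).b.Mono f α fun i => (lab b i).elim 0 M.aa
  mj : ∀ b, ∃ α, (c b).b.Mono ((c b).b.jac (xK p)) α fun i => (lab b i).elim 0 M.kk
  dis : Dis fun b => (c b).b
  itg : Itg (fun b => (c b).b) (range (xK p))
  all : ∀ Q ∈ M.pts, (AK p).FixL Q →
    (∀ l, ∃ a : ℚ_[p], ‖a‖ ≤ 1 ∧ Q.ev (M3.xx 3 l) = algebraMap ℚ_[p] ℂ a) →
    ∃ b, ∃ t ∈ Bl p 3, (c b).Q t = Q
  crv : ∀ b i (m : Fin 2), lab b i ≠ none → lab b (i.succAbove m) ≠ none →
    ∀ (k : Type) [Field k] [Algebra ℂ k] (B : GA ℚ_[p] k) (P : Pl (KK 3) k)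
      (h : (AK p).Cpt B P) (g : CBox B 2), CFace (c b) h i g → ∃ G, B.InvO G ∧ g.On G m

attribute [instance] Fam.fι

end

end Pool.Agent.MP_5d9b3c_ag.P3D
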