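import Pool.Agent.MP_5d9b3c_ag.P3D.Tw
import Pool.Agent.MP_5d9b3c_ag.P3D.RRES
import Pool.Agent.MP_5d9b3c_ag.P3B.XCr2

/-! The density and the cross function on a double face, seen from both divisors. -/

namespace Pool.Agent.MP_5d9b3c_ag.P3D

open MP_ee8c61_ag M3 M3RESID M3BK P3 P3K P3T P3B Set

namespace CrsK

section G

variable {K k k' : Type} [Field K] [Algebra ℂ K] [Field k] [Algebra ℂ k] [Field k'] [Algebra ℂ k']
  {C C₀ : Co K 3} {Q Q₀ : MP_96693b_ag.RS.Loc K} {i i' i₀ i₀' : Fin 3} {P : Pl K k} {C2 C20 : Co k 2}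
  {x x₀ : MP_96693b_ag.RS.Loc k} {m m₀ : Fin 2} {G G₀ : DV k}

/-- The curve is determined by its local ring. -/
theorem dv_of_la (T : Tw C Q i i' P C2 x m G) (T₀ : Tw C₀ Q₀ i₀ i₀' P C20 x₀ m₀ G₀)
    (e : LA Q.O (lift P G) = LA Q₀.O (lift P G₀)) : G = G₀ :=
  M3B1.dv_eq T.dat2.adp.vz T₀.dat2.adp.vz (SetLike.ext fun y => ⟨fun hy => by
    obtain ⟨g, h1, rfl⟩ := T.lift_fn hy
    exact (T₀.leA (e ▸ h1)).2, fun hy => by
    obtain ⟨g, h1, rfl⟩ := T₀.lift_fn hy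
    exact (T.leA (e ▸ h1)).2⟩)

/-- The restriction of an equivariant isomorphism to the fixed fields. -/
theorem exists_res2 {F : Type} [Field F] [Algebra F ℂ] {E : GA F k} {E' : GA F k'}
    {ι : k' ≃ₐ[ℂ] k} (h : ∀ σ g, ι (E'.ρ σ g) = E.ρ σ (ι g)) :
    ∃ ι' : E'.fix ≃ₐ[F] E.fix, ∀ y, (ι' y : k) = ι y :=
  ⟨{ toFun := fun g => ⟨ι g, fun σ => by rw [← h, g.2 σ]⟩
     invFun := fun g => ⟨ι.symm g, fun σ => ι.injective (by
       rw [h, ι.apply_symm_apply, g.2 σ])⟩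
     left_inv := fun g => Subtype.ext (ι.symm_apply_apply g)
     right_inv := fun g => Subtype.ext (ι.apply_symm_apply g)
     map_mul' := fun g g' => Subtype.ext (map_mul ι (g : k') g')
     map_add' := fun g g' => Subtype.ext (map_add ι (g : k') g')
     commutes' := fun a => Subtype.ext (ι.commutes _) }, fun _ => rfl⟩

end G

variable {p : ℕ} [Fact p.Prime] [Algebra ℚ_[p] ℂ] [Algebra.IsAlgebraic ℚ_[p] ℂ] {L k k' : Type}
  [Field L] [Algebra ℂ L] [Field k] [Algebra ℂ k] [Field k'] [Algebra ℂ k'] {A : GA ℚ_[p] L}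
  {B : GA ℚ_[p] k} {B' : GA ℚ_[p] k'} {P : Pl L k} {P' : Pl L k'} {h : A.Cpt B P}
  {h' : A.Cpt B' P'} {c : CBox A 3} {i i' : Fin 3} {m m' : Fin 2} {g : CBox B 2} {g' : CBox B' 2}
  {G : DV k} {G' : DV k'} {E : GA ℚ_[p] G.kf} {E' : GA ℚ_[p] G'.kf} {h2 : B.Cpt E G.pl}
  {h2' : B'.Cpt E' G'.pl} {q : CBox E 1} {q' : CBox E' 1} {ι : G'.kf ≃ₐ[ℂ] G.kf}
  {ι' : E'.fix ≃ₐ[ℚ_[p]] E.fix} {F : A.fix} {μ : ℤ} {a : Fin 3 → ℤ}

theorem mono2 (hF : c.b.Mono F μ a) (i i' : Fin 3) :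
    c.b.Mono (F / (c.b.z i ^ a i * c.b.z i' ^ a i')) μ
      (a - (a i • Pi.single i 1 + a i' • Pi.single i' 1)) :=
  (hF.div (((c.b.mono_z i).zpow _).mul ((c.b.mono_z i').zpow _))).congr (by simp) rfl

theorem reg2 (hF : c.b.Mono F μ a) (ha : ∀ l, 0 ≤ a l) (hn : i' ≠ i) :
    F / (c.b.z i ^ a i * c.b.z i' ^ a i') ∈ (c.b.Φ 0).O :=
  (mono2 hF i i').reg (fun l => by
    by_cases h1 : l = i
    · simp [h1, hn.symm]
    · by_cases h2 : l = i'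
      · simp [h2, hn]
      · simpa [h1, h2] using ha l) 0 zero_Bl

/-- The initial form on a double face. -/
theorem ini2 (hf : CFace c h i g) (hq : CFace g h2 m q) (e : i' = i.succAbove m)
    (hF : c.b.Mono F μ a) : ini h2 (g.b.z m) (ini h (c.b.z i) F) =
      pf h2 (pf h (F / (c.b.z i ^ a i * c.b.z i' ^ a i'))) := by
  have hn : i' ≠ i := e ▸ i.succAbove_ne m
  have h1 : P.o.v (F / (c.b.z i ^ a i * c.b.z i' ^ a i') : A.fix) = 0 :=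
    (hf.on.ord (mono2 hF i i')).trans (by simp [hn.symm])
  have h3 : P.o.v (c.b.z i') = 0 := (hf.on.ord (c.b.mono_z i')).trans (by simp [hn.symm])
  have h4 : G.pl.o.v (ini h (c.b.z i) F) = a i' := e ▸ hq.on.ord (hf.mono hF)
  have z := zpow_ne_zero (a i) (c.b.z_ne i)
  have z' := zpow_ne_zero (a i') (c.b.z_ne i')
  have h5 : ini h (c.b.z i) (c.b.z i') = g.b.z m := by
    rw [ini_unit h h3, e]
    exact (hf.fc.z m).symm
  rw [ini.eq_1 h2, h4, ← ini_unit h (z := c.b.z i) h1]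
  refine congrArg _ ((div_eq_iff (zpow_ne_zero _ (g.b.z_ne m))).2 ?_)
  conv_lhs => rw [← div_mul_cancel₀ F (mul_ne_zero z z')]
  rw [ini_mul h hf.vz (mono2 hF i i').ne (mul_ne_zero z z'), ini_mul h hf.vz z z',
    ini_zpow h hf.vz (c.b.z_ne i), ini_zpow h hf.vz (c.b.z_ne i'), ini_self h hf.vz, h5, one_zpow,
    one_mul]

theorem ini2_map (hf : CFace c h i g) (hf' : CFace c h' i' g') (hq : CFace g h2 m q)
    (hq' : CFace g' h2' m' q') (e : i' = i.succAbove m) (e' : i = i'.succAbove m')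
    (k0 : ∀ a ∈ (c.b.Φ 0).O, ι' (pf h2' (pf h' a)) = pf h2 (pf h a)) (hF : c.b.Mono F μ a)
    (ha : ∀ l, 0 ≤ a l) : ι' (ini h2' (g'.b.z m') (ini h' (c.b.z i') F)) =
      ini h2 (g.b.z m) (ini h (c.b.z i) F) := by
  rw [ini2 hf hq e hF, ini2 hf' hq' e' hF, mul_comm]
  exact k0 _ (reg2 hF ha (e ▸ i.succAbove_ne m))

theorem rs_w (hf : CFace c h i g) (δ : Dn A.fix 3) :
    (δ.rs c h i).w g.b = ini h (c.b.z i) (δ.w c.b) := by
  rw [Dn.w, Dn.rs, hf.zf, g.b.jac_self, mul_one]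

/-- The density on a double face is symmetric. -/
theorem rs_map (hf : CFace c h i g) (hf' : CFace c h' i' g') (hq : CFace g h2 m q)
    (hq' : CFace g' h2' m' q') (e : i' = i.succAbove m) (e' : i = i'.succAbove m')
    (k0 : ∀ a ∈ (c.b.Φ 0).O, ι' (pf h2' (pf h' a)) = pf h2 (pf h a)) {δ : Dn A.fix 3} {μ' : ℤ}
    {a' : Fin 3 → ℤ} (hu : c.b.Mono δ.u μ a) (hw : c.b.Mono (δ.w c.b) μ' a') (ha : ∀ l, 0 ≤ a l)
    (ha' : ∀ l, 0 ≤ a' l) :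
    ((δ.rs c h' i').rs g' h2' m').map ι' = (δ.rs c h i).rs g h2 m := by
  have h1 := ini2_map hf hf' hq hq' e e' k0 hu ha
  have h3 := ini2_map hf hf' hq hq' e e' k0 hw ha'
  rw [← rs_w hf, ← rs_w hf'] at h3
  have h4 : (fun l : Fin 1 => ι' (pf h2' (g'.b.z (m'.succAbove l)))) =
      fun l => pf h2 (g.b.z (m.succAbove l)) := funext fun l => by
    rw [hf.fc.z, hf'.fc.z, sw_third e e']
    exact k0 _ (c.b.zm 0 zero_Bl _)
  exact congr (congr (congrArg Dn.mk h1) h3) h4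

omit [Algebra.IsAlgebraic ℚ_[p] ℂ] in
theorem coe_zp (x : A.fix) (n : ℤ) : ((x ^ n : A.fix) : L) = (x : L) ^ n :=
  map_zpow₀ A.fix.subtype x n

theorem coe_ini (hq : CFace g h2 m q) {ψ : B.fix} (h0 : ψ ≠ 0) :
    (ini h2 (g.b.z m) ψ : G.kf) = G.pl.π (ψ / g.C.z m ^ G.v ψ) := by
  rw [ini, coe_pf h2 (Or.inr (v_ini hq.vz h0).ge), Subfield.coe_div, coe_zp, g.z]
  rfl

/-- The cross function of a double face. -/
theorem th_eq (hf : CFace c h i g) (hf' : CFace c h' i' g') (hq : CFace g h2 m q)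
    (hq' : CFace g' h2' m' q') (e : i' = i.succAbove m) (e' : i = i'.succAbove m')
    (hι : ∀ y, (ι' y : G.kf) = ι y)
    (k0 : ∀ a ∈ (c.b.Φ 0).O, ι' (pf h2' (pf h' a)) = pf h2 (pf h a)) (hF : c.b.Mono F μ a)
    (ha : ∀ l, 0 ≤ a l) {ψ u : B.fix} {ψ' u' : B'.fix} (h0 : ψ ≠ 0) (h0' : ψ' ≠ 0)
    (hu : u = ini h (c.b.z i) F) (hu' : u' = ini h' (c.b.z i') F) :
    ((pf h2 (ψ ^ G.v u / u ^ G.v ψ) ^ G'.v ψ' * ι' (pf h2' (ψ' ^ G'.v u' / u' ^ G'.v ψ')) ^ G.v ψ *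
      ini h2 (g.b.z m) u ^ (G.v ψ * G'.v ψ') : E.fix) : G.kf) =
    G.pl.π (ψ / g.C.z m ^ G.v ψ) ^ (a i' * G'.v ψ') *
      ι (G'.pl.π (ψ' / g'.C.z m' ^ G'.v ψ')) ^ (a i * G.v ψ) *
      G.pl.π (P.π (F / (c.C.z i ^ a i * c.C.z i' ^ a i'))) ^ (-(G.v ψ * G'.v ψ')) := by
  have u0 : u ≠ 0 := hu ▸ ini_ne h hf.vz hF.ne
  have u0' : u' ≠ 0 := hu' ▸ ini_ne h' hf'.vz hF.ne
  have v1 : G.v u = a i' := by
    rw [hu, e]
    exact hq.on.ord (hf.mono hF)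
  have v2 : G'.v u' = a i := by
    rw [hu', e']
    exact hq'.on.ord (hf'.mono hF)
  have e1 : pf h2 (ψ ^ G.v u / u ^ G.v ψ) = _ := ((rRES p).ini h2 hq.vz h0 u0).2
  have e2 : pf h2' (ψ' ^ G'.v u' / u' ^ G'.v ψ') = _ := ((rRES p).ini h2' hq'.vz h0' u0').2
  have e3 : ι' (ini h2' (g'.b.z m') u') = ini h2 (g.b.z m) u :=
    hu ▸ hu' ▸ ini2_map hf hf' hq hq' e e' k0 hF ha
  have e0 : (i.insertNth 0 (m.insertNth 0 0) : Fin 3 → ℚ_[p]) = 0 := by simp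
  have e4 : (ini h2 (g.b.z m) u : G.kf) =
      G.pl.π (P.π (F / (c.C.z i ^ a i * c.C.z i' ^ a i'))) := by
    rw [hu, ini2 hf hq e hF, coe_pf2 hf hq zero_Bl
      (e0.symm ▸ reg2 hF ha (e ▸ i.succAbove_ne m)), Subfield.coe_div, Subfield.coe_mul, coe_zp,
      coe_zp, c.z, c.z]
  have U0 := ini_ne h2 hq.vz u0
  rw [← e4, ← coe_ini hq h0, ← coe_ini hq' h0', ← hι, ← coe_zp, ← coe_zp, ← coe_zp,
    ← Subfield.coe_mul, ← Subfield.coe_mul, e1, e2, map_mul, map_zpow₀, map_zpow₀, e3]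
  refine congrArg _ ?_
  change (_ ^ (-G.v ψ) * _ ^ G.v u) ^ _ * (_ ^ (-G'.v ψ') * _ ^ G'.v u') ^ _ * _ = _
  rw [v1, v2]
  generalize ini h2 (g.b.z m) u = U at U0 ⊢
  rw [mul_zpow, mul_zpow, ← zpow_mul, ← zpow_mul, ← zpow_mul, ← zpow_mul, neg_mul, neg_mul,
    mul_comm (G'.v ψ') (G.v ψ), zpow_neg]
  have := zpow_ne_zero (G.v ψ * G'.v ψ') U0
  field_simp

end CrsK

end Pool.Agent.MP_5d9b3c_ag.P3D
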