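import Pool.Agent.MP_5d9b3c_ag.P3K.Gen
import Pool.Agent.MP_5d9b3c_ag.P3K.Sub
import Pool.Agent.MP_5d9b3c_ag.P3K.Trp
import Pool.Agent.MP_5d9b3c_ag.P3D.Res

/-!
Box sums on curves: no tameness is needed.
-/

namespace Pool.Agent.MP_5d9b3c_ag.P3D.CJ

open P3K Finset

noncomputable section

variable {p : ℕ} [Fact p.Prime] {L : Type} [Field L] [Algebra ℚ_[p] L] {n : ℕ}
  {I Y K ι ι' : Type} [Fintype I] [Fintype Y] [CommRing K] [Algebra ℂ K]

/-- Further functions. -/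
def xt (d : MD I n) (μ : Y → ℤ) (B : Y → Fin n → ℤ) : MD (I ⊕ Y) n :=
  ⟨d.c, d.ν, Sum.elim d.m μ, Sum.elim d.A B⟩

omit [Fact p.Prime] in
theorem den_ext (d : MD I n) (μ : Y → ℤ) (B : Y → Fin n → ℤ) (χ : I → Kˣ) (l : Fin n) :
    (xt d μ B).den p (Sum.elim χ 1) l = d.den p χ l := by
  simp [MD.den, xt, Fintype.prod_sum_type]

omit [Fact p.Prime] in
theorem val_ext (d : MD I n) (μ : Y → ℤ) (B : Y → Fin n → ℤ) (χ : I → Kˣ) :
    (xt d μ B).val p (Sum.elim χ 1) = d.val p χ := by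
  simp only [MD.val, den_ext]
  simp [xt, Fintype.prod_sum_type]

omit [Fintype I] [Fintype Y] in
theorem adp_ext {b : Box p L n} {j : L} {r : Fin n → L} {h : I → L} {d : MD I n} {g : Y → L}
    {μ : Y → ℤ} {B : Y → Fin n → ℤ} (ha : b.Adp j r h d) (hg : ∀ y, b.Mono (g y) (μ y) (B y)) :
    b.Adp j r (Sum.elim h g) (xt d μ B) :=
  ⟨ha.frm, fun i => by
    cases i
    exacts [ha.fn _, hg _]⟩

/-- The box is adapted, and the functions `g` make it tame. -/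
structure Ft (b : Box p L 1) (j : L) (r : Fin 1 → L) (h : I → L) (χ : I → Kˣ) (g : Y → L)
    (d : MD I 1) : Prop where
  adp : b.Adp j r h d
  nd : d.ND p χ
  mo : ∀ y, ∃ m A, b.Mono (g y) m A
  tm : (∀ y, ∃ m, b.Un (g y) m) → 0 < d.ν 0

variable {j : L} {r : Fin 1 → L} {h : I → L} {χ : I → Kˣ} {g : Y → L}

theorem fit_ext {b : ι → Box p L 1} {d : ι → MD I 1} (H : ∀ i, Ft (b i) j r h χ g (d i)) :
    ∃ d' : ι → MD (I ⊕ Y) 1, Fit b j r (Sum.elim h g) (Sum.elim χ 1) d' ∧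
      ∀ i, (d' i).val p (Sum.elim χ 1) = (d i).val p χ := by
  choose μ B hB using fun i => (H i).mo
  refine ⟨fun i => xt (d i) (μ i) (B i), fun i => ⟨adp_ext (H i).adp (hB i),
    ⟨fun x => ?_, fun l h0 => ?_⟩, fun l => ?_⟩, fun i => val_ext ..⟩
  · simp only [Fin.forall_fin_one]
    exact le_total _ _
  · rw [Fin.fin_one_eq_zero l] at h0 ⊢
    refine (H i).tm fun y => ⟨μ i y, Box.mono_zero.1 ((hB i y).congr rfl (funext fun l => ?_))⟩
    rw [Fin.fin_one_eq_zero l]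
    exact h0 (.inr y)
  · rw [den_ext]
    exact (H i).nd l

theorem pvF [Fintype ι] [Fintype ι'] {b : ι → Box p L 1} {b' : ι' → Box p L 1} {d : ι → MD I 1}
    {d' : ι' → MD I 1} (he : Eqv b b') (hd : Dis b) (hd' : Dis b')
    (H : ∀ i, Ft (b i) j r h χ g (d i)) (H' : ∀ i, Ft (b' i) j r h χ g (d' i)) :
    ∑ i, (d i).val p χ = ∑ i, (d' i).val p χ := by
  obtain ⟨e, h1, h2⟩ := fit_ext H
  obtain ⟨e', h3, h4⟩ := fit_ext H'
  simpa only [h2, h4] using pv hd hd' he h1 h3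

omit [Fintype I] in
/-- The coefficient of the form makes the small balls tame. -/
theorem tm_sub {b b' : Box p L 1} {c : Fin 1 → ℚ_[p]} {e : ℕ} (hb : b.IsSub c e b') {d : MD I 1}
    (ha : b'.Adp j r h d) {m : ℤ} (hu : b'.Un (j * b.jac r) m) : 0 < d.ν 0 := by
  have := ((b'.un_p.mono.pow e).pow 1).mul hu.mono
  rw [mul_left_comm, ← hb.jac] at this
  have h1 := congrFun (ha.frm.uniq this).2 0
  simp only [smul_zero, add_zero, Pi.zero_apply] at h1
  omega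

/-- A refinement on which the functions in `T` are monomial. -/
theorem refine1 (hR : RRF1) [Fintype ι] (b : ι → Box p L 1) {j : ι → L} {r : ι → Fin 1 → L}
    {h : ι → I → L} {d : ι → MD I 1}
    (ha : ∀ i, (b i).Adp (j i) (r i) (h i) (d i) ∧ (d i).ND p χ) (T : ι → Finset L)
    (h0 : ∀ i, 0 ∉ T i) :
    ∃ (ι' : Type) (_ : Fintype ι') (π : ι' → ι) (b' : ι' → Box p L 1) (d' : ι' → MD I 1),
      Rfn b b' π ∧ (∀ x, ∃ c e, (b (π x)).IsSub c e (b' x) ∧ Nm c e ∧ (d (π x)).Cut c (d' x) ∧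
        (b' x).Adp (j (π x)) (r (π x)) (h (π x)) (d' x) ∧ ∀ g ∈ T (π x), ∃ m A, (b' x).Mono g m A) ∧
      ∑ i, (d i).val p χ = ∑ x, (d' x).val p χ := by
  classical
  obtain ⟨ι', _, π, b', c, e, h1, h2⟩ := hR b T h0
  choose d' h3 h4 using fun x => (h2 x).1.adp (h2 x).2.1 (ha (π x)).1
  refine ⟨ι', inferInstance, π, b', d', h1,
    fun x => ⟨_, _, (h2 x).1, (h2 x).2.1, h4 x, h3 x, (h2 x).2.2⟩, ?_⟩
  rw [← Fintype.sum_fiberwise π]
  refine sum_congr rfl fun i _ => ?_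
  have := pvF (j := j i) (r := r i) (h := h i) (χ := χ) (g := fun _ : Unit => j i * (b i).jac (r i))
    (d := fun _ => d i) (d' := fun x : {x // π x = i} => d' x) (h1.fib i).eqv sep_one.dis
    ((h1.fib i).dis' sep_one.dis) (fun _ => ⟨(ha i).1, (ha i).2, fun _ => ⟨_, _, (ha i).1.frm⟩,
      fun hu => ?_⟩) (fun ⟨x, hx⟩ => ?_)
  · simpa using this
  · obtain ⟨m, hu⟩ := hu ()
    have := congrFun ((ha i).1.frm.uniq hu.mono).2 0
    simp only [Pi.zero_apply] at this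
    omega
  · subst hx
    exact ⟨h3 x, (h4 x).nd (ha _).2, fun _ => ⟨_, _, (h2 x).1.mono (h2 x).2.1 (ha _).1.frm⟩,
      fun hu => (hu ()).elim fun _ => tm_sub (h2 x).1 (h3 x)⟩

/-- The sum does not depend on the family. -/
theorem pv1 (hR : RRF1) [Fintype ι] [Fintype ι'] {b : ι → Box p L 1} {b' : ι' → Box p L 1}
    {d : ι → MD I 1} {d' : ι' → MD I 1} (he : Eqv b b') (hd : Dis b) (hd' : Dis b')
    (ha : ∀ i, (b i).Adp j r h (d i) ∧ (d i).ND p χ)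
    (ha' : ∀ i, (b' i).Adp j r h (d' i) ∧ (d' i).ND p χ) :
    ∑ i, (d i).val p χ = ∑ i, (d' i).val p χ := by
  classical
  let g : ι ⊕ ι' → L := Sum.elim (fun i => j * (b i).jac r) fun i => j * (b' i).jac r
  have h0 : 0 ∉ univ.image g := fun e => by
    obtain ⟨i | i, -, e⟩ := mem_image.1 e
    exacts [(ha i).1.frm.ne e, (ha' i).1.frm.ne e]
  obtain ⟨_, _, π, c, e, h1, h2, h3⟩ := refine1 hR b ha (fun _ => univ.image g) fun _ => h0
  obtain ⟨_, _, π', c', e', h4, h5, h6⟩ := refine1 hR b' ha' (fun _ => univ.image g) fun _ => h0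
  rw [h3, h6]
  refine pvF (j := j) (r := r) (h := h) (g := g) (h1.eqv.symm.trans (he.trans h4.eqv)) (h1.dis' hd)
    (h4.dis' hd') (fun x => ?_) fun x => ?_
  · obtain ⟨_, _, k1, -, k2, k3, k4⟩ := h2 x
    exact ⟨k3, k2.nd (ha _).2, fun y => k4 _ (mem_image_of_mem _ (mem_univ y)),
      fun hu => (hu (.inl (π x))).elim fun _ => tm_sub k1 k3⟩
  · obtain ⟨_, _, k1, -, k2, k3, k4⟩ := h5 x
    exact ⟨k3, k2.nd (ha' _).2, fun y => k4 _ (mem_image_of_mem _ (mem_univ y)),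
      fun hu => (hu (.inr (π' x))).elim fun _ => tm_sub k1 k3⟩

end

end Pool.Agent.MP_5d9b3c_ag.P3D.CJ
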