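import Pool.Agent.MP_5d9b3c_ag.P3D.CvJ
import Pool.Agent.MP_5d9b3c_ag.P3K.RFace

/-!
Initial forms along a place, and the densities on faces.
-/

namespace Pool.Agent.MP_5d9b3c_ag.P3D.CJ

open P3K Finset

noncomputable section

variable {p : ℕ} [Fact p.Prime] {L k : Type} [Field L] [Algebra ℚ_[p] L] [Field k]
  [Algebra ℚ_[p] k] {ι ι' : Type} {n : ℕ} {P : Plc p L k} {g g' z z' w : L} {a a' : ℤ}

/-- `g` is a unit along the place. -/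
def Ut (P : Plc p L k) (g : L) : Prop := g ∈ P.O ∧ P.π g ≠ 0

theorem Ut.mul (h : Ut P g) (h' : Ut P g') : Ut P (g * g') ∧ P.π (g * g') = P.π g * P.π g' :=
  ⟨⟨mul_mem h.1 h'.1, by rw [P.mul _ h.1 _ h'.1]; exact mul_ne_zero h.2 h'.2⟩, P.mul _ h.1 _ h'.1⟩

theorem Ut.zpow (h : Ut P g) (e : ℤ) : Ut P (g ^ e) ∧ P.π (g ^ e) = P.π g ^ e :=
  have k := P.π_zpow h.1 h.2 e
  ⟨⟨k.1, k.2 ▸ zpow_ne_zero _ h.2⟩, k.2⟩

theorem Ut.ne (h : Ut P g) : g ≠ 0 := fun e => h.2 (e ▸ P.π_zero)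

theorem π_sgn (P : Plc p L k) (e : ℕ) : Ut P ((-1) ^ e) ∧ P.π ((-1) ^ e) = (-1) ^ e := by
  have h1 : P.π (-1) = -1 := by simpa using P.cst (-1)
  have h2 := P.π_pow (neg_mem (one_mem P.O)) e
  rw [h1] at h2
  exact ⟨⟨pow_mem (neg_mem (one_mem _)) _, h2 ▸ pow_ne_zero _ (neg_ne_zero.2 one_ne_zero)⟩, h2⟩

/-- The initial form. -/
def ini (P : Plc p L k) (z g : L) (a : ℤ) : k := P.π (g / z ^ a)

theorem ini_mul (hz : z ≠ 0) (h : Ut P (g / z ^ a)) (h' : Ut P (g' / z ^ a')) :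
    Ut P (g * g' / z ^ (a + a')) ∧ ini P z (g * g') (a + a') = ini P z g a * ini P z g' a' := by
  rw [ini, zpow_add₀ hz, ← div_mul_div_comm]
  exact h.mul h'

theorem ini_zpow (h : Ut P (g / z ^ a)) (e : ℤ) :
    Ut P (g ^ e / z ^ (e * a)) ∧ ini P z (g ^ e) (e * a) = ini P z g a ^ e := by
  rw [ini, mul_comm, zpow_mul, ← div_zpow]
  exact h.zpow e

/-- Change of the uniformizer. -/
theorem ini_chg (hz : Ut P (z' / z)) (h : Ut P (g / z' ^ a)) :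
    Ut P (g / z ^ a) ∧ ini P z g a = ini P z' g a * P.π (z' / z) ^ a := by
  have h0 : z' ≠ 0 := fun e => hz.ne (by rw [e, zero_div])
  have e : g / z ^ a = g / z' ^ a * (z' / z) ^ a := by
    rw [div_zpow, div_mul_div_cancel₀ (zpow_ne_zero _ h0)]
  rw [ini, e, ← (hz.zpow a).2]
  exact h.mul (hz.zpow a).1

/-- The order is unique. -/
theorem ord_uniq (hz : z ≠ 0) (h1 : z ∈ P.O) (h2 : P.π z = 0) (h : Ut P (g / z ^ a))
    (h' : Ut P (g / z ^ a')) : a = a' := by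
  wlog e : a < a' generalizing a a'
  · exact (not_lt.1 e).eq_or_lt.elim Eq.symm fun e' => (this h' h e').symm
  obtain ⟨m, rfl⟩ : ∃ m : ℕ, a' = a + (m + 1 : ℕ) := ⟨(a' - a - 1).toNat, by omega⟩
  refine (h.2 ?_).elim
  have : g / z ^ a = g / z ^ (a + (m + 1 : ℕ)) * z ^ (m + 1) := by
    rw [zpow_add₀ hz, zpow_natCast, ← div_div, div_mul_cancel₀ _ (pow_ne_zero _ hz)]
  rw [this, P.mul _ h'.1 _ (pow_mem h1 _), P.π_pow h1, h2, zero_pow m.succ_ne_zero, mul_zero]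

section Face

variable {b b₀ : Box p L (n + 1)} {i i₀ : Fin (n + 1)} {f f₀ : Box p k n} {j j' u u' : L}
  {r r' : Fin (n + 1) → L} {m ν N : ℤ} {A : Fin (n + 1) → ℤ}

theorem on_mem (h : b.On P i) (l : Fin (n + 1)) : b.z l ∈ P.O := h.reg fun t ht => b.zm t ht l

theorem on_zero (h : b.On P i) : P.π (b.z i) = 0 := h.at0.z0

/-- Two equations of one divisor. -/
theorem unif (h : b.On P i) (h₀ : b₀.On P i₀) : Ut P (b₀.z i₀ / b.z i) := by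
  have h1 := h.at0.div_mem (on_mem h₀ i₀) (on_zero h₀)
  have h2 := h₀.at0.div_mem (on_mem h i) (on_zero h)
  refine ⟨h1, left_ne_zero_of_mul_eq_one (b := P.π (b.z i / b₀.z i₀)) ?_⟩
  rw [← P.mul _ h1 _ h2, div_mul_div_cancel₀ (b.z_ne i), div_self (b₀.z_ne i₀), P.π_one]

theorem face_mono (h : b.IsFace P i f) (hg : b.Mono g m A) : Ut P (g / b.z i ^ A i) ∧
    f.Mono (ini P (b.z i) g (A i)) m fun l => A (i.succAbove l) :=
  ⟨⟨(h.mono hg).1, (h.mono hg).2.ne⟩, (h.mono hg).2⟩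

/-- The data of a face. -/
theorem face_adp {I : Type} {h : I → L} {d : MD I (n + 1)} (hf : b.IsFace P i f)
    (ha : b.Adp j r h d) : f.Adp (ini P (b.z i) (j * b.jac r) (d.ν i - 1)) f.z
      (fun x => ini P (b.z i) (h x) (d.A x i)) (face d i) :=
  ⟨by rw [f.jac_self, mul_one]; exact (face_mono hf ha.frm).2, fun x => (face_mono hf (ha.fn x)).2⟩

theorem face_adp1 {d : MD Unit (n + 1)} (hf : b.IsFace P i f) (ha : b.Adp j r (fun _ => u) d) :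
    f.Adp (ini P (b.z i) (j * b.jac r) (d.ν i - 1)) f.z
      (fun _ => ini P (b.z i) u (d.A () i)) (face d i) :=
  ⟨(face_adp hf ha).frm, fun _ => (face_adp hf ha).fn ()⟩

theorem mono_ord (h : b.IsFace P i f) (h₀ : b₀.On P i₀) (hg : b.Mono g m A)
    (h' : Ut P (g / b₀.z i₀ ^ a)) : A i = a :=
  ord_uniq (b.z_ne i) (on_mem h.on i) (on_zero h.on) (face_mono h hg).1
    (ini_chg (unif h.on h₀) h').1

theorem jac_ne {n : ℕ} (f f₀ : Box p k n) : f.jac f₀.z ≠ 0 :=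
  left_ne_zero_of_mul_eq_one ((f.jac_chain f₀ f.z).symm.trans f.jac_self)

/-- The residue of a form on two boxes. -/
theorem ini_jac (h : b.IsFace P i f) (h₀ : b₀.IsFace P i₀ f₀)
    (hj : Ut P (j * b₀.jac r / b₀.z i₀ ^ (ν - 1))) : Ut P (j * b.jac r / b.z i ^ (ν - 1)) ∧
    ini P (b.z i) (j * b.jac r) (ν - 1) = (-1) ^ ((i : ℕ) + i₀) * P.π (b₀.z i₀ / b.z i) ^ ν *
      (ini P (b₀.z i₀) (j * b₀.jac r) (ν - 1) * f.jac f₀.z) := by
  have h1 := unif h.on h₀.on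
  obtain ⟨h2, h3⟩ := h.jac b₀.z i₀ (on_mem h₀.on) (on_zero h₀.on)
  rw [← funext h₀.z] at h3
  have h4 : Ut P (b.jac b₀.z / b.z i ^ (0 : ℤ)) := by
    rw [zpow_zero, div_one]
    exact ⟨h2, h3 ▸ mul_ne_zero (mul_ne_zero (pow_ne_zero _ (neg_ne_zero.2 one_ne_zero)) h1.2)
      (jac_ne f f₀)⟩
  obtain ⟨h5, h6⟩ := ini_chg h1 hj
  have h7 := ini_mul (b.z_ne i) h5 h4
  rw [add_zero, mul_assoc, mul_comm (b₀.jac r), ← b.jac_chain, h6] at h7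
  refine ⟨h7.1, h7.2.trans ?_⟩
  rw [ini, ini, zpow_zero, div_one, h3, zpow_sub_one₀ h1.2]
  field_simp [h1.2]

theorem nu_ord {I : Type} {h : I → L} {d : MD I (n + 1)} (hf : b.IsFace P i f)
    (h₀ : b₀.IsFace P i₀ f₀) (ha : b.Adp j r h d)
    (hj : Ut P (j * b₀.jac r / b₀.z i₀ ^ (ν - 1))) : d.ν i = ν :=
  sub_left_injective (mono_ord hf hf.on ha.frm (ini_jac hf h₀ hj).1)

end Face

section Curve

variable {b b₀ : Box p L 2} {i i₀ : Fin 2} {f f₀ : Box p k 1} {j j' u u' ψ : L}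
  {r r' : Fin 2 → L} {ν N c : ℤ} {T : ℂˣ}

/-- The density on a polar curve does not depend on the box. -/
theorem face_sim (h : b.IsFace P i f) (h₀ : b₀.IsFace P i₀ f₀)
    (hj : Ut P (j * b₀.jac r / b₀.z i₀ ^ (ν - 1))) (hu : Ut P (u / b₀.z i₀ ^ N))
    (hT : wt p T ν N = 1) :
    Sim p T (ini P (b₀.z i₀) (j * b₀.jac r) (ν - 1)) f₀.z (ini P (b₀.z i₀) u N)
      (ini P (b.z i) (j * b.jac r) (ν - 1)) f.z (ini P (b.z i) u N) := by
  have h1 := unif h.on h₀.on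
  refine sim_of f (by rw [f.jac_self, mul_one, (ini_jac h h₀ hj).2]) hu.2
    (((nul_sgn _ 0).mul (nul_tw h1.2 hT)).cast rfl ?_)
  rw [(ini_chg h1 hu).2, ini, mul_div_cancel_left₀ _ hu.2, pow_zero, one_mul]

/-- A change of the density on the surface. -/
theorem face_tw (z : Fin 1 → k) {e : ℕ} (hj : Ut P (j * b.jac r / b.z i ^ (ν - 1)))
    (hu : Ut P (u / b.z i ^ N)) (hw : Ut P (w / b.z i ^ c)) (hT : wt p T a a' = 1)
    (h1 : j' * b.jac r' = (-1) ^ e * w ^ a * (j * b.jac r)) (h2 : u' = w ^ a' * u) :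
    Ut P (j' * b.jac r' / b.z i ^ (a * c + ν - 1)) ∧ Ut P (u' / b.z i ^ (a' * c + N)) ∧
    Sim p T (ini P (b.z i) (j * b.jac r) (ν - 1)) z (ini P (b.z i) u N)
      (ini P (b.z i) (j' * b.jac r') (a * c + ν - 1)) z (ini P (b.z i) u' (a' * c + N)) := by
  have k0 : Ut P ((-1) ^ e / b.z i ^ (0 : ℤ)) := by simpa using (π_sgn P e).1
  have k1 := ini_zpow hw a
  have k2 := ini_zpow hw a'
  have k3 := ini_mul (b.z_ne i) k0 k1.1
  have k4 := ini_mul (b.z_ne i) k3.1 hj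
  have k5 := ini_mul (b.z_ne i) k2.1 hu
  rw [k3.2, ← h1, zero_add, ← add_sub_assoc, k1.2] at k4
  rw [← h2, k2.2] at k5
  refine ⟨k4.1, k5.1, _, fun b' => by rw [k4.2, mul_assoc], hu.2,
    ((nul_sgn e 0).mul (nul_tw hw.2 hT)).cast ?_ ?_⟩
  · rw [ini, ini, zpow_zero, div_one, (π_sgn P e).2]
  · rw [k5.2, ini, ini, mul_div_cancel_right₀ _ hu.2, pow_zero, one_mul]

omit [Fact p.Prime] in
theorem J_unit (d : MD Unit 1) (c : Unit → ℂˣ) :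
    J d p c (fun _ => 1) = Jn d p c (d.m ()) (d.A ()) := by
  rw [J_eq]
  congr 1
  · simp [mm]
  · funext l
    simp [kk]

/-- The boxes of a dominating family over one face. -/
theorem strict1 (hR : RRF1) [Fintype ι] {b : ι → Box p L 2} {l : ι → Fin 2} {f : ι → Box p k 1}
    {d₀ : MD Unit 2} {d : ι → MD Unit 2} {μ : ι → ℤ} {α : ι → Fin 2 → ℤ} {A B : ℂ}
    (h₀ : b₀.IsFace P i₀ f₀) (hf : ∀ x, (b x).IsFace P (l x) (f x))
    (he : Eqv (fun _ : Unit => f₀) f) (hd : Dis f) (ha₀ : b₀.Adp j r (fun _ => u) d₀)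
    (ha : ∀ x, (b x).Adp j r (fun _ => u) (d x)) (hp : rho d₀ p (fun _ => T) i₀ = 1)
    (hn₀ : rho (face d₀ i₀) p (fun _ => T) 0 ≠ 1)
    (hn : ∀ x, rho (face (d x) (l x)) p (fun _ => T) 0 ≠ 1)
    (hψ : ∀ x, (b x).Mono ψ (μ x) (α x)) (hc : Ut P (ψ / b₀.z i₀ ^ c))
    (hB : HasJ T f₀ (ini P (b₀.z i₀) (j * b₀.jac r) (d₀.ν i₀ - 1)) f₀.z
      (ini P (b₀.z i₀) u (d₀.A () i₀)) (ini P (b₀.z i₀) ψ c) A B) :
    (∀ x, (d x).A () (l x) = d₀.A () i₀ ∧ α x (l x) = c) ∧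
    ∑ x, v0 (face (d x) (l x)) p (fun _ => T) = v0 (face d₀ i₀) p (fun _ => T) ∧
    ∑ x, (c * J (face (d x) (l x)) p (fun _ => T) (fun _ => 1) - d₀.A () i₀ *
      Jn (face (d x) (l x)) p (fun _ => T) (μ x) fun m => α x ((l x).succAbove m)) =
      c * J (face d₀ i₀) p (fun _ => T) (fun _ => 1) - d₀.A () i₀ * B := by
  have k1 := (face_mono h₀ ha₀.frm).1
  have k2 := (face_mono h₀ (ha₀.fn ())).1
  have e1 : ∀ x, (d x).ν (l x) = d₀.ν i₀ := fun x => nu_ord (hf x) h₀ (ha x) k1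
  have e2 : ∀ x, (d x).A () (l x) = d₀.A () i₀ := fun x => mono_ord (hf x) h₀.on ((ha x).fn ()) k2
  have e3 : ∀ x, α x (l x) = c := fun x => mono_ord (hf x) h₀.on (hψ x) hc
  have k3 : Pc T f₀ _ _ _ _ _ _ _ := ⟨face_adp1 h₀ ha₀, hn₀, (face_adp1 h₀ ha₀).fn ()⟩
  have k4 := (k3.hasJ.zpow c).mul hR (hB.zpow (-d₀.A () i₀))
  have k5 := ini_mul (b₀.z_ne i₀) (ini_zpow k2 c).1 (ini_zpow hc (-d₀.A () i₀)).1
  rw [(ini_zpow k2 c).2, (ini_zpow hc _).2, show c * d₀.A () i₀ + -d₀.A () i₀ * c = 0 by ring] at k5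
  rw [← k5.2] at k4
  have k6 := hasJ_of (T := T) (θ := ini P (b₀.z i₀) (u ^ c * ψ ^ (-d₀.A () i₀)) 0) hR he hd
    (fun x => ⟨face_adp1 (hf x) (ha x), hn x, by
      have := (face_mono (hf x) ((((ha x).fn ()).zpow c).mul ((hψ x).zpow (-d₀.A () i₀)))).2
      rw [Pi.add_apply, Pi.smul_apply, Pi.smul_apply, e2, e3, smul_eq_mul, smul_eq_mul,
        show c * d₀.A () i₀ + -d₀.A () i₀ * c = 0 by ring, ini, zpow_zero] at this
      rw [ini, zpow_zero]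
      exact this⟩) fun x => by
        rw [e1, e2]
        exact (face_sim (hf x) h₀ k1 k2 (by rw [← rho_unit, hp])).symm
  obtain ⟨k7, k8⟩ := k6.uniq hR k4
  refine ⟨fun x => ⟨e2 x, e3 x⟩, k7, ?_⟩
  rw [J_unit, sub_eq_add_neg, ← neg_mul, ← Int.cast_neg, ← k8]
  refine sum_congr rfl fun x _ => ?_
  rw [J_unit, sub_eq_add_neg, ← neg_mul, ← Int.cast_neg, ← Jn_smul, ← Jn_smul, ← Jn_add]
  rfl

/-- The strict transform of a double curve. -/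
theorem strict (hR : RRF1) [Fintype ι] [Fintype ι'] {b₀ : ι → Box p L 2} {l₀ : ι → Fin 2}
    {f₀ : ι → Box p k 1} {b : ι' → Box p L 2} {l : ι' → Fin 2} {f : ι' → Box p k 1} {π : ι' → ι}
    {j u : ι → L} {r : ι → Fin 2 → L} {d₀ : ι → MD Unit 2} {d : ι' → MD Unit 2} {μ : ι' → ℤ}
    {α : ι' → Fin 2 → ℤ} {A B : ι → ℂ} (h₀ : ∀ y, (b₀ y).IsFace P (l₀ y) (f₀ y))
    (hf : ∀ x, (b x).IsFace P (l x) (f x)) (ho : ∀ x, (b x).Over (b₀ (π x))) (hs : Sb f₀ f)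
    (hd₀ : Dis f₀) (hd : Dis f) (ha₀ : ∀ y, (b₀ y).Adp (j y) (r y) (fun _ => u y) (d₀ y))
    (ha : ∀ x, (b x).Adp (j (π x)) (r (π x)) (fun _ => u (π x)) (d x))
    (hp : ∀ y, rho (d₀ y) p (fun _ => T) (l₀ y) = 1) (h0 : ∀ y, (d₀ y).A () (l₀ y) ≠ 0)
    (hn₀ : ∀ y, rho (face (d₀ y) (l₀ y)) p (fun _ => T) 0 ≠ 1)
    (hn : ∀ x, rho (face (d x) (l x)) p (fun _ => T) 0 ≠ 1)
    (hψ : ∀ x, (b x).Mono ψ (μ x) (α x)) (hc : ∀ y, Ut P (ψ / (b₀ y).z (l₀ y) ^ c)) (c0 : c ≠ 0)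
    (hB : ∀ y, HasJ T (f₀ y)
      (ini P ((b₀ y).z (l₀ y)) (j y * (b₀ y).jac (r y)) ((d₀ y).ν (l₀ y) - 1)) (f₀ y).z
      (ini P ((b₀ y).z (l₀ y)) (u y) ((d₀ y).A () (l₀ y))) (ini P ((b₀ y).z (l₀ y)) ψ c)
      (A y) (B y)) :
    (∀ x, (d x).A () (l x) = (d₀ (π x)).A () (l₀ (π x)) ∧ α x (l x) = c) ∧
    (∀ g : ℤ → ℂ, ∑ x, v0 (face (d x) (l x)) p (fun _ => T) * g ((d x).A () (l x)) =
      ∑ y, v0 (face (d₀ y) (l₀ y)) p (fun _ => T) * g ((d₀ y).A () (l₀ y))) ∧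
    ∑ x, (J (face (d x) (l x)) p (fun _ => T) (fun _ => 1) / (d x).A () (l x) -
      Jn (face (d x) (l x)) p (fun _ => T) (μ x) (fun m => α x ((l x).succAbove m)) / α x (l x)) =
      ∑ y, (J (face (d₀ y) (l₀ y)) p (fun _ => T) (fun _ => 1) / (d₀ y).A () (l₀ y) - B y / c) := by
  classical
  have H := fun y => strict1 (b := fun x : {x // π x = y} => b x) (d := fun x => d x)
    (μ := fun x => μ x) (α := fun x => α x) hR (h₀ y) (fun x => hf x)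
    (rFIB f₀ f π hs hd₀ (fun x => (hf x).over (h₀ _) (ho x)) y) (hd.comp Subtype.val_injective)
    (ha₀ y) (fun ⟨x, hx⟩ => by subst hx; exact ha x) (hp y) (hn₀ y) (fun x => hn x) (fun x => hψ x) (hc y) (hB y)
  have c1 : (c : ℂ) ≠ 0 := Int.cast_ne_zero.2 c0
  refine ⟨fun x => (H _).1 ⟨x, rfl⟩, fun g => ?_, ?_⟩ <;> rw [← Fintype.sum_fiberwise π] <;>
    refine sum_congr rfl fun y _ => ?_
  · rw [← (H y).2.1, sum_mul]
    exact sum_congr rfl fun x _ => by rw [((H y).1 x).1]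
  · have h1 : ((d₀ y).A () (l₀ y) : ℂ) ≠ 0 := Int.cast_ne_zero.2 (h0 y)
    refine mul_left_cancel₀ (mul_ne_zero c1 h1) ?_
    rw [mul_sum, ← sum_congr rfl fun x _ => ?_, (H y).2.2]
    · field_simp
    · rw [((H y).1 x).1, ((H y).1 x).2]
      field_simp

end Curve

section Zero

variable [Fintype ι] {b : ι → Box p L 1} {X : Set L} {s : L} {γ c₁ c s₁ : ℚ_[p]} {m n k k₁ : ℤ}
  {T : ℂˣ} {K : Type} [Field K] [Algebra ℚ_[p] K]

/-- The weight has its zeros and poles at three points. -/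
theorem curve_zero2 (hR : RRF1) (hd : Dis b) (hi : Itg b X) (hc : Cov b X)
    (hX : X ⊆ Set.range (algebraMap ℚ_[p] L)) (hs : ∃ e : L ≃ₐ[ℚ_[p]] L, e s = p * s) (s0 : s ≠ 0)
    (hT : wt p T n m ≠ 1) {j u : ι → L} {r : ι → Fin 1 → L} {d : ι → MD Unit 1} {A B : ι → ℂ}
    (h1 : ∀ i, (b i).Adp (j i) (r i) (fun _ => u i) (d i) ∧ rho (d i) p (fun _ => T) 0 ≠ 1)
    (hS : ∀ i, Sim p T (j i) (r i) (u i) (algebraMap ℚ_[p] L γ * s ^ (n - 1)) (fun _ => s)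
      (algebraMap ℚ_[p] L c₁ * s ^ m))
    (hk : k₁ = 0 ∨ (n = 1 ∧ m = 0 ∧ ∃ e : L ≃ₐ[ℚ_[p]] L,
      e (s - algebraMap ℚ_[p] L s₁) = p * (s - algebraMap ℚ_[p] L s₁)))
    (hJ : ∀ i, HasJ T (b i) (j i) (r i) (u i)
      (algebraMap ℚ_[p] L c * s ^ k * (s - algebraMap ℚ_[p] L s₁) ^ k₁) (A i) (B i)) :
    ∑ i, A i = 0 ∧ ∑ i, B i = 0 := by
  obtain ⟨e, hs⟩ := hs
  have hX' : ∀ e : L ≃ₐ[ℚ_[p]] L, ∀ c ∈ X, e c = c := fun e c hc => by
    obtain ⟨a, rfl⟩ := hX hc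
    exact e.commutes a
  rcases hk with rfl | ⟨rfl, rfl, e', hs'⟩
  · simp only [zpow_zero, mul_one] at hJ
    exact curve_zero hR hd hi hc (hX' e) hs s0 (e.commutes _) (e.commutes _) hT h1 hS hJ
  rcases isEmpty_or_nonempty ι with _ | ⟨⟨i₀⟩⟩
  · simp
  have t0 : s - algebraMap ℚ_[p] L s₁ ≠ 0 := fun h => by
    obtain ⟨q, k1, -, k2, -⟩ := (hS i₀).symm
    refine (h1 i₀).1.frm.ne ?_
    rw [k1, Box.jac, Matrix.det_unique, Matrix.of_apply, sub_eq_zero.1 h, Derivation.map_algebraMap,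
      mul_zero, mul_zero]
  choose B₁ h2 using fun i => (hJ i).other hR (left_ne_zero_of_mul (hJ i).ne.2)
  choose B₂ h3 using fun i => (hJ i).other hR (mul_ne_zero one_ne_zero (zpow_ne_zero k₁ t0))
  have h4 := curve_zero hR hd hi hc (hX' e) hs s0 (e.commutes _) (e.commutes _) hT h1 hS h2
  have h5 := curve_zero (γ := γ) (n := 1) (m := 0) hR hd hi hc (hX' e') hs' t0 (e'.commutes c₁)
    (map_one e') hT h1 (fun i => by
      obtain ⟨q, k1, k2⟩ := hS i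
      refine ⟨q, fun b' => ?_, by simpa only [zpow_zero] using k2⟩
      rw [← k1, Box.jac, Box.jac, Matrix.det_unique, Matrix.det_unique, Matrix.of_apply,
        Matrix.of_apply, map_sub, Derivation.map_algebraMap, sub_zero, sub_self, zpow_zero,
        zpow_zero]) h3
  refine ⟨h4.1, ?_⟩
  rw [← sum_congr rfl fun i _ => ((((h2 i).mul hR (h3 i)).cast (by rw [one_mul]) rfl rfl).uniq hR
    (hJ i)).2, sum_add_distrib, h4.2, h5.2, add_zero]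

/-- An exceptional curve: all boxes carry the same density of the surface. -/
theorem exc (hR : RRF1) {P : Plc p K L} {g : ι → Box p K 2} {l : ι → Fin 2} {j u ψ : K}
    {r : Fin 2 → K} {d : ι → MD Unit 2} {μ : ι → ℤ} {α : ι → Fin 2 → ℤ} {N N' : ℤ}
    (hf : ∀ x, (g x).IsFace P (l x) (b x)) (hd : Dis b) (hi : Itg b X) (hc : Cov b X)
    (hX : X ⊆ Set.range (algebraMap ℚ_[p] L)) (hs : ∃ e : L ≃ₐ[ℚ_[p]] L, e s = p * s) (s0 : s ≠ 0)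
    (hT : wt p T n m ≠ 1) (ha : ∀ x, (g x).Adp j r (fun _ => u) (d x))
    (hn : ∀ x, rho (face (d x) (l x)) p (fun _ => T) 0 ≠ 1) (hψ : ∀ x, (g x).Mono ψ (μ x) (α x))
    (hN : ∀ x, (d x).A () (l x) = N ∧ α x (l x) = N') (N0 : N ≠ 0) (N1 : N' ≠ 0)
    (hS : ∀ x, Sim p T (ini P ((g x).z (l x)) (j * (g x).jac r) ((d x).ν (l x) - 1)) (b x).z
      (ini P ((g x).z (l x)) u ((d x).A () (l x))) (algebraMap ℚ_[p] L γ * s ^ (n - 1))
      (fun _ => s) (algebraMap ℚ_[p] L c₁ * s ^ m))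
    (hk : k₁ = 0 ∨ (n = 1 ∧ m = 0 ∧ ∃ e : L ≃ₐ[ℚ_[p]] L,
      e (s - algebraMap ℚ_[p] L s₁) = p * (s - algebraMap ℚ_[p] L s₁)))
    (hθ : P.π (ψ ^ N / u ^ N') =
      algebraMap ℚ_[p] L c * s ^ k * (s - algebraMap ℚ_[p] L s₁) ^ k₁) :
    ∑ x, v0 (face (d x) (l x)) p (fun _ => T) = 0 ∧
    ∑ x, (J (face (d x) (l x)) p (fun _ => T) (fun _ => 1) / (d x).A () (l x) -
      Jn (face (d x) (l x)) p (fun _ => T) (μ x) (fun m => α x ((l x).succAbove m)) / α x (l x)) =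
      0 := by
  have H := curve_zero2 hR hd hi hc hX hs s0 hT (fun x => ⟨face_adp1 (hf x) (ha x), hn x⟩) hS hk
    fun x => Pc.hasJ ⟨face_adp1 (hf x) (ha x), hn x, by
      have := (face_mono (hf x) (((hψ x).zpow N).mul (((ha x).fn ()).zpow (-N')))).2
      rwa [Pi.add_apply, Pi.smul_apply, Pi.smul_apply, (hN x).1, (hN x).2, smul_eq_mul, smul_eq_mul,
        show N * N' + -N' * N = 0 by ring, ini, zpow_zero, div_one, zpow_neg, ← div_eq_mul_inv,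
        hθ] at this⟩
  have h1 : (N : ℂ) ≠ 0 := Int.cast_ne_zero.2 N0
  have h2 : (N' : ℂ) ≠ 0 := Int.cast_ne_zero.2 N1
  refine ⟨H.1, mul_left_cancel₀ (neg_ne_zero.2 (mul_ne_zero h1 h2)) ?_⟩
  rw [mul_zero, ← H.2, mul_sum]
  refine sum_congr rfl fun x _ => ?_
  rw [(hN x).1, (hN x).2, J_unit]
  refine Eq.trans ?_ ((Jn_add _ _ _ _ (N • fun m => α x ((l x).succAbove m))
    (-N' • (face (d x) (l x)).A ())).symm)
  rw [Jn_smul, Jn_smul, Int.cast_neg]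
  change -(N * N' : ℂ) * (Jn _ p _ ((d x).m ()) _ / N - _) = _
  field_simp
  ring

/-- A double curve seen from both divisors. -/
theorem cross (hR : RRF1) (hd : Dis b) (hi : Itg b X) (hc : Cov b X)
    (hX : X ⊆ Set.range (algebraMap ℚ_[p] L)) (hs : ∃ e : L ≃ₐ[ℚ_[p]] L, e s = p * s) (s0 : s ≠ 0)
    (hT : wt p T n m ≠ 1) {j u θ : ι → L} {r : ι → Fin 1 → L} {d : ι → MD Unit 1} {A B : ι → ℂ}
    {b' : ι → Box p K 1} {e : ι → K ≃ₐ[ℚ_[p]] L} {j' u' θ' : ι → K} {r' : ι → Fin 1 → K}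
    {A' B' : ι → ℂ} {a a' a'' : ℤ}
    (h1 : ∀ i, (b i).Adp (j i) (r i) (fun _ => u i) (d i) ∧ rho (d i) p (fun _ => T) 0 ≠ 1)
    (hS : ∀ i, Sim p T (j i) (r i) (u i) (algebraMap ℚ_[p] L γ * s ^ (n - 1)) (fun _ => s)
      (algebraMap ℚ_[p] L c₁ * s ^ m))
    (hJ : ∀ i, HasJ T (b i) (j i) (r i) (u i) (θ i) (A i) (B i))
    (hJ' : ∀ i, HasJ T (b' i) (j' i) (r' i) (u' i) (θ' i) (A' i) (B' i))
    (he : ∀ i, (b' i).IsMap (e i) (b i))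
    (hS' : ∀ i, Sim p T (e i (j' i)) (fun l => e i (r' i l)) (e i (u' i)) (j i) (r i) (u i))
    (hθ : ∀ i, θ i ^ a * e i (θ' i) ^ a' * u i ^ a'' = algebraMap ℚ_[p] L c * s ^ k) :
    ∑ i, v0 (d i) p (fun _ => T) = 0 ∧
      ∑ i, (a * B i + a' * B' i + a'' * J (d i) p (fun _ => T) fun _ => 1) = 0 := by
  have H := curve_zero2 (c := c) (k := k) (k₁ := 0) (s₁ := 0) hR hd hi hc hX hs s0 hT h1 hS (.inl rfl) fun i =>
    ((((Pc.hasJ ⟨(h1 i).1, (h1 i).2, (h1 i).1.fn ()⟩).zpow a'').mul hR ((hJ i).zpow a)).mul hR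
      ((((hJ' i).map (he i)).sim hR (hS' i)).zpow a')).cast
        (by rw [zpow_zero, mul_one, ← hθ i]; ring) rfl rfl
  refine ⟨H.1, (sum_congr rfl fun i _ => ?_).trans H.2⟩
  rw [J_unit]
  ring

end Zero

end

end Pool.Agent.MP_5d9b3c_ag.P3D.CJ
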