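import Pool.Agent.MP_5d9b3c_ag.P3D.SpecX
import Pool.Agent.MP_5d9b3c_ag.P3D.Res
import Pool.Agent.MP_5d9b3c_ag.P3D.Rat
import Pool.Agent.MP_5d9b3c_ag.P3K.Asm
import Pool.Agent.MP_5d9b3c_ag.P3B.XGal
import Pool.Agent.MP_5d9b3c_ag.P3G.Hyp

/-!
Densities, their residues, and the data on a polar divisor.
-/

namespace Pool.Agent.MP_5d9b3c_ag.P3D

open MP_ee8c61_ag M3 M3RESID M3BK P3 P3K P3T Set
open H59 (PX)

noncomputable section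

/-- The density `T ^ ord u * |j d r|`. -/
structure Dn (L : Type) (n : ℕ) where
  u : L
  j : L
  r : Fin n → L

abbrev cT (T : ℂˣ) : Fin 2 → ℂˣ := ![T, 1]

/-- The weight is the order of `u`. -/
abbrev k0 : Fin 2 → ℤ := ![1, 0]

/-- The weight is the order of the second function. -/
abbrev k1 : Fin 2 → ℤ := ![0, 1]

/-- The solutions of `T ^ m = p ^ n` are the multiples of `(N, ν)`. -/
def Lam (p : ℕ) (T : ℂˣ) (N ν : ℤ) : Prop :=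
  ∀ m n : ℤ, (T : ℂ) ^ m = (p : ℂ) ^ n ↔ ∃ a, m = a * N ∧ n = a * ν

section F

variable {p : ℕ} [Fact p.Prime] {L k : Type} [Field L] [Algebra ℚ_[p] L] [Field k]
  [Algebra ℚ_[p] k] {n : ℕ}

/-- The coefficient of the form in the coordinates of a box. -/
def Dn.w (δ : Dn L n) (b : Box p L n) : L := δ.j * b.jac δ.r

/-- The box has the data `d` for the density and the function `θ`. -/
def Dn.Adp (δ : Dn L n) (b : Box p L n) (θ : L) (d : MD (Fin 2) n) : Prop :=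
  b.Adp δ.j δ.r ![δ.u, θ] d

def Dn.map (δ : Dn L n) (e : L ≃ₐ[ℚ_[p]] k) : Dn k n := ⟨e δ.u, e δ.j, fun l => e (δ.r l)⟩

variable (p) in
/-- `δ'` is the twist of `δ` by `ε`. -/
structure Dn.Tw (N ν : ℤ) (ε : L) (δ δ' : Dn L n) : Prop where
  ne : ε ≠ 0
  u : δ'.u = δ.u * ε ^ N
  w : ∃ a : ℚ_[p], ‖a‖ = 1 ∧ ∀ b : Box p L n, δ'.w b = a • (ε ^ ν * δ.w b)

variable (p) in
/-- Equivalent densities. -/
def Dn.LE (N ν : ℤ) (δ δ' : Dn L n) : Prop := ∃ ε, Dn.Tw p N ν ε δ δ'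

/-- The mass `A` of the box and the integral `J` of the order of `θ`. -/
def JV (T : ℂˣ) (c : Box p L 1) (δ : Dn L 1) (θ : L) (A J : ℂ) : Prop :=
  ∃ (ι : Type) (_ : Fintype ι) (b : ι → Box p L 1) (d : ι → MD (Fin 2) 1),
    Rfn (fun _ : Unit => c) b (fun _ => ()) ∧
    (∀ i, δ.Adp (b i) θ (d i) ∧ ∀ l, rho (d i) p (cT T) l ≠ 1) ∧
    A = ∑ i, v0 (d i) p (cT T) ∧ J = ∑ i, P3D.J (d i) p (cT T) k1

variable (p) in
/-- The density is a monomial in `s`. -/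
structure Good (T : ℂˣ) (N ν : ℤ) (δ : Dn L 1) (s : L) : Prop where
  tau : ∃ e : L ≃ₐ[ℚ_[p]] L, e s = p * s
  le : ∃ (a a' : ℚ_[p]) (m n : ℤ), a ≠ 0 ∧ a' ≠ 0 ∧ ‖(T : ℂ) ^ m * (p : ℂ) ^ (-n)‖ ≠ 1 ∧
    Dn.LE p N ν ⟨a • s ^ m, a' • s ^ (n - 1), fun _ => s⟩ δ

variable (p) in
/-- The function `θ` is a monomial in good coordinates. -/
def Nul (T : ℂˣ) (N ν : ℤ) (δ : Dn L 1) (θ : L) : Prop :=
  ∃ (a : ℚ_[p]) (s s' : L) (j j' : ℤ), a ≠ 0 ∧ Good p T N ν δ s ∧ Good p T N ν δ s' ∧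
    θ = a • (s ^ j * s' ^ j')

end F

section C

variable {p : ℕ} [Fact p.Prime] [Algebra ℚ_[p] ℂ] {L k : Type} [Field L] [Algebra ℂ L] [Field k]
  [Algebra ℂ k] {n : ℕ} {A : GA ℚ_[p] L} {B : GA ℚ_[p] k} {P : Pl L k}

/-- The initial form. -/
def ini (h : A.Cpt B P) (z g : A.fix) : B.fix := pf h (g / z ^ P.o.v g)

/-- The residue of a density. -/
def Dn.rs (δ : Dn A.fix (n + 1)) (c : CBox A (n + 1)) (h : A.Cpt B P) (i : Fin (n + 1)) :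
    Dn B.fix n :=
  ⟨ini h (c.b.z i) δ.u, ini h (c.b.z i) (δ.w c.b), fun l => pf h (c.b.z (i.succAbove l))⟩

/-- The valuation `o` is polar. -/
def Dn.Pol (T : ℂˣ) (δ : Dn A.fix n) (c : CBox A n) (o : DV L) : Prop :=
  (T : ℂ) ^ o.v δ.u = (p : ℂ) ^ (o.v (δ.w c.b : A.fix) + 1)

/-- `e` is the divergence of the density. -/
def Dn.Of (la : ℚ) (δ : Dn A.fix n) (e : Dv L) : Prop :=
  ∀ c : CBox A n, e = dn c.C (δ.w c.b : A.fix) δ.u la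

/-- The action on the residue field. -/
abbrev rA {o : DV L} (h : A.InvO o) : GA ℚ_[p] o.kf := A.res o.pl h

theorem rc {o : DV L} (h : A.InvO o) : A.Cpt (rA h) o.pl := A.res_cpt o.pl h

end C

variable {p : ℕ} [Fact p.Prime] [Algebra ℚ_[p] ℂ] [Algebra.IsAlgebraic ℚ_[p] ℂ]

/-- The density `T ^ ord f * |d x|`. -/
def dn3 (f : (AK p).fix) : Dn (AK p).fix 3 := ⟨f, 1, xK p⟩

variable (p) in
/-- The standing data. -/
structure Ctx where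
  f₀ : Po 3
  la : ℚ
  b : Polynomial ℂ
  β : Fin 3 → PX 3 (KK 3)
  q : PX 3 (KK 3)
  M : Mod 3
  f : (AK p).fix
  T : ℂˣ
  N : ℤ
  ν : ℤ
  𝓑 : Fam M f
  d : 𝓑.ι → MD (Fin 2) 3
  eo : M3E.EOut
  con : SCON
  hyp : Hyp f₀ la b β q
  hg : P3G.HypG ℚ_[p] la b β q
  ok : M.OK f₀
  stp : Stp p M
  fe : (f : KK 3) = ip 3 f₀
  up : 𝓑.Up f₀
  lam : Lam p T N ν
  nrm : ‖(T : ℂ)‖ = (p : ℝ) ^ (la : ℝ)
  adp : ∀ a, (dn3 f).Adp (𝓑.c a).b f (d a)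
  dν : ∀ a i, (d a).ν i = (𝓑.lab a i).elim 1 fun j => M.kk j + 1
  dA : ∀ a l i, (d a).A l i = (𝓑.lab a i).elim 0 M.aa

namespace Ctx

variable (X : Ctx p)

/-- The value of the polynomial. -/
abbrev b0 : ℂ := X.b.eval (-(X.la : ℂ))

/-- The divisor `o` is polar. -/
def Pol (o : X.M.J) : Prop := (X.T : ℂ) ^ X.M.aa o = (p : ℂ) ^ (X.M.kk o + 1)

/-- The frame on the divisor `o`. -/
structure Sta {o : X.M.J} (h : (AK p).InvO (X.M.v o)) (e : Dv (X.M.v o).kf)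
    (v : VF (X.M.v o).kf) : Prop where
  rd : (X.M.v o).pl.RsD (dvf X.f₀ X.la) e
  rs : (X.M.v o).pl.Res (dvf X.f₀ X.la) (bf X.la X.β) v
  id : (rA h).InvD e
  star : ∀ t, (X.M.v o).v t = 1 → ∃ v' y g, (rA h).StarP e v X.b0 (xb (X.M.v o).pl)
    ((X.M.v o).pl.π (ip 3 X.f₀ / t ^ X.M.a o)) (X.M.a o) v' y g

end Ctx

/-- A polar divisor with its frame and its faces. -/
structure ES (X : Ctx p) (o : X.M.J) where
  inv : (AK p).InvO (X.M.v o)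
  pol : X.Pol o
  e : Dv (X.M.v o).kf
  v : VF (X.M.v o).kf
  sta : X.Sta inv e v
  s : X.𝓑.Fc o (rc inv)

namespace ES

variable {X : Ctx p} {o : X.M.J} (S : ES X o)

abbrev k (_ : ES X o) : Type := (X.M.v o).kf

abbrev B : GA ℚ_[p] S.k := rA S.inv

/-- The density on a face. -/
def δ (x : X.𝓑.F1 o) : Dn S.B.fix 2 := (dn3 X.f).rs (X.𝓑.c x.1.1) (rc S.inv) x.1.2

/-- The data of a face. -/
def d (_ : ES X o) (x : X.𝓑.F1 o) : MD (Fin 2) 2 := face (X.d x.1.1) x.1.2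

/-- A polar double face. -/
def Pl (y : X.𝓑.F1 o × Fin 2) : Prop := rho (S.d y.1) p (cT X.T) y.2 = 1

/-- The double face lies on the curve `G`. -/
def On (G : DV S.k) (y : X.𝓑.F1 o × Fin 2) : Prop := (S.s.g y.1).On G y.2

variable {G : DV S.k} (hG : S.B.InvO G)

/-- The density on a double face. -/
def δ2 (y : X.𝓑.F1 o × Fin 2) : Dn (rA hG).fix 1 := (S.δ y.1).rs (S.s.g y.1) (rc hG) y.2

/-- The cross function. -/
def th (ψ : S.B.fix) (x : X.𝓑.F1 o) : (rA hG).fix :=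
  pf (rc hG) (ψ ^ G.v (S.δ x).u / (S.δ x).u ^ G.v ψ)

/-- The number `r` is the cross term of the double face `y`. -/
def Crs (ψ : S.B.fix) (y : X.𝓑.F1 o × Fin 2) (r : ℂ) : Prop :=
  ∀ q, CFace (S.s.g y.1) (rc hG) y.2 q → G.v ψ ≠ 0 ∧
    ∃ A, JV X.T q.b (S.δ2 hG y) (S.th hG ψ y.1) A (-(G.v (S.δ y.1).u * G.v ψ * r))

open Classical in
/-- The output for one divisor. -/
structure Out (ψ : S.B.fix) (R : X.𝓑.F1 o × Fin 2 → ℂ) : Prop where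
  gd : Gd S.e S.v ψ
  ex : ∃ e, Ex 0 (∑ x, (S.d x).val p (chi (cT X.T) k1)) (-kap p * ∑ y with S.Pl y, R y) e
  jv : ∀ y, S.Pl y → ∀ (G : DV S.k) (hG : S.B.InvO G), S.Crs hG ψ y (R y)

/-- The faces of a dominating family. -/
structure Ups where
  W : Mod 3
  D : Dom W X.M
  𝓦 : Fam W X.f
  ok : W.OK X.f₀
  stp : Stp p W
  s : 𝓦.Fc (D.e o) (rc S.inv)
  π : 𝓦.F1 (D.e o) → X.𝓑.F1 o
  ov : ∀ x, (s.g x).b.Over (S.s.g (π x)).b
  ψ : S.B.fix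
  gd : Gd S.e S.v ψ
  d : 𝓦.F1 (D.e o) → MD (Fin 2) 2
  adp : ∀ x, (S.δ (π x)).Adp (s.g x).b ψ (d x)
  nz : ∀ x l, rho (d x) p (cT X.T) l = 1 →
    kk (d x) k0 l ≠ 0 ∧ kk (d x) k1 l ≠ 0 ∧ s.lb (x, l) ≠ none
  z1 : ∑ x, (d x).val p (chi (cT X.T) k1) = 0
  e0 : ∑ x, (S.d x).val p (chi (cT X.T) k1) = ∑ x, (d x).val p (chi (cT X.T) k0)

variable {S} (U : S.Ups)

/-- A polar double face upstairs. -/
def Ups.Pl (z : U.𝓦.F1 (U.D.e o) × Fin 2) : Prop := rho (U.d z.1) p (cT X.T) z.2 = 1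

def Ups.On (G : DV S.k) (z : U.𝓦.F1 (U.D.e o) × Fin 2) : Prop := (U.s.g z.1).On G z.2

/-- The constant term of a polar double face. -/
def Ups.ct (z : U.𝓦.F1 (U.D.e o) × Fin 2) : ℂ :=
  J (face (U.d z.1) z.2) p (cT X.T) k0 / kk (U.d z.1) k0 z.2 -
    J (face (U.d z.1) z.2) p (cT X.T) k1 / kk (U.d z.1) k1 z.2

/-- The polar term of a polar double face. -/
def Ups.pt (z : U.𝓦.F1 (U.D.e o) × Fin 2) : ℂ :=
  v0 (face (U.d z.1) z.2) p (cT X.T) * ((kk (U.d z.1) k0 z.2 : ℂ)⁻¹ - (kk (U.d z.1) k1 z.2 : ℂ)⁻¹)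

end ES

/-- The same double face, seen from the other divisor. -/
structure Sw {X : Ctx p} {o o' : X.M.J} (y : X.𝓑.F1 o × Fin 2) (y' : X.𝓑.F1 o' × Fin 2) :
    Prop where
  b : y'.1.1.1 = y.1.1.1
  i : y'.1.1.2 = y.1.1.2.succAbove y.2
  i' : y.1.1.2 = y'.1.1.2.succAbove y'.2

end

end Pool.Agent.MP_5d9b3c_ag.P3D
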