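import Pool.Agent.MP_5d9b3c_ag.P3K.Defs

/-!
Two leading terms of Laurent series, and the expansion of box values at `T = T₀ * exp x`.
-/

namespace Pool.Agent.MP_5d9b3c_ag.P3D

open PowerSeries P3K Finset

noncomputable section

/-- The field of Laurent series. -/
abbrev LK : Type := FractionRing ℂ⟦X⟧

/-- The variable. -/
def xx : LK := algebraMap ℂ⟦X⟧ LK X

theorem inj : Function.Injective (algebraMap ℂ⟦X⟧ LK) := IsFractionRing.injective _ _

theorem xx_ne : xx ≠ 0 := (map_ne_zero_iff _ inj).2 X_ne_zero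

theorem alg_C (c : ℂ) : algebraMap ℂ LK c = algebraMap ℂ⟦X⟧ LK (C c) :=
  IsScalarTower.algebraMap_apply ℂ ℂ⟦X⟧ LK c

/-- `x ^ k * r = a + b * x + O (x ^ 2)`. -/
def Ex (k : ℤ) (r : LK) (a b : ℂ) : Prop :=
  ∃ s : ℂ⟦X⟧, xx ^ k * r = algebraMap ℂ⟦X⟧ LK s ∧ coeff 0 s = a ∧ coeff 1 s = b

/-- `r` has no pole. -/
def Reg (r : LK) : Prop := ∃ s : ℂ⟦X⟧, r = algebraMap ℂ⟦X⟧ LK s

namespace Ex

variable {k k' : ℤ} {r r' : LK} {a b a' b' : ℂ}

theorem ser (s : ℂ⟦X⟧) : Ex 0 (algebraMap ℂ⟦X⟧ LK s) (coeff 0 s) (coeff 1 s) :=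
  ⟨s, by rw [zpow_zero, one_mul], rfl, rfl⟩

theorem cast (h : Ex k r a b) (e : k = k') (e0 : r = r') (e1 : a = a') (e2 : b = b') :
    Ex k' r' a' b' := by
  subst e e0 e1 e2
  exact h

theorem uniq (h : Ex k r a b) (h' : Ex k r a' b') : a = a' ∧ b = b' := by
  obtain ⟨s, h1, rfl, rfl⟩ := h
  obtain ⟨s', h2, rfl, rfl⟩ := h'
  rw [inj (h1.symm.trans h2)]
  exact ⟨rfl, rfl⟩

theorem reg (h : Ex 0 r a b) : Reg r := by
  obtain ⟨s, h1, -⟩ := h
  exact ⟨s, by rwa [zpow_zero, one_mul] at h1⟩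

theorem _root_.Pool.Agent.MP_5d9b3c_ag.P3D.Reg.ex (h : Reg r) : ∃ a b, Ex 0 r a b := by
  obtain ⟨s, rfl⟩ := h
  exact ⟨_, _, ser s⟩

theorem const (c : ℂ) : Ex 0 (algebraMap ℂ LK c) c 0 :=
  (ser (C c)).cast rfl (alg_C c).symm (by simp) (by simp)

theorem one : Ex 0 1 1 0 := (const 1).cast rfl (map_one _) rfl rfl

theorem zero (k : ℤ) : Ex k 0 0 0 := ⟨0, by simp, by simp, by simp⟩

theorem add (h : Ex k r a b) (h' : Ex k r' a' b') : Ex k (r + r') (a + a') (b + b') := by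
  obtain ⟨s, h1, rfl, rfl⟩ := h
  obtain ⟨s', h2, rfl, rfl⟩ := h'
  exact ⟨s + s', by rw [mul_add, h1, h2, map_add], by simp, by simp⟩

theorem neg (h : Ex k r a b) : Ex k (-r) (-a) (-b) := by
  obtain ⟨s, h1, rfl, rfl⟩ := h
  exact ⟨-s, by rw [mul_neg, h1, map_neg], by simp, by simp⟩

theorem sub (h : Ex k r a b) (h' : Ex k r' a' b') : Ex k (r - r') (a - a') (b - b') := by
  simpa only [sub_eq_add_neg] using h.add h'.neg

theorem sum {ι : Type} (S : Finset ι) {r : ι → LK} {a b : ι → ℂ}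
    (h : ∀ i ∈ S, Ex k (r i) (a i) (b i)) :
    Ex k (∑ i ∈ S, r i) (∑ i ∈ S, a i) (∑ i ∈ S, b i) := by
  classical
  induction S using Finset.induction_on with
  | empty => simpa using zero k
  | insert i S hi ih =>
    simp only [sum_insert hi]
    exact (h i (mem_insert_self _ _)).add (ih fun j hj => h j (mem_insert_of_mem hj))

theorem mul (h : Ex k r a b) (h' : Ex k' r' a' b') :
    Ex (k + k') (r * r') (a * a') (a * b' + b * a') := by
  obtain ⟨s, h1, rfl, rfl⟩ := h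
  obtain ⟨s', h2, rfl, rfl⟩ := h'
  refine ⟨s * s', ?_, by simp, ?_⟩
  · rw [map_mul, ← h1, ← h2, zpow_add₀ xx_ne]
    ring
  · rw [coeff_mul, Nat.antidiagonal_succ]
    simp

theorem mul0 (h : Ex 0 r a b) (h' : Ex k r' a' b') : Ex k (r * r') (a * a') (a * b' + b * a') :=
  (h.mul h').cast (zero_add _) rfl rfl rfl

theorem smul (c : ℂ) (h : Ex k r a b) : Ex k (algebraMap ℂ LK c * r) (c * a) (c * b) :=
  ((const c).mul0 h).cast rfl rfl rfl (by ring)

theorem inv (h : Ex k r a b) (ha : a ≠ 0) : Ex (-k) r⁻¹ a⁻¹ (-b / a ^ 2) := by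
  obtain ⟨s, h1, h2, h3⟩ := h
  have h4 : s * s⁻¹ = 1 := PowerSeries.mul_inv_cancel s (by rw [← h2] at ha; simpa using ha)
  have h5 := ((ser s).mul0 (ser s⁻¹)).uniq (by rw [← map_mul, h4, map_one]; exact one)
  rw [h2, h3] at h5
  have h6 : coeff 0 s⁻¹ = a⁻¹ := eq_inv_of_mul_eq_one_right h5.1
  refine ⟨s⁻¹, ?_, h6, ?_⟩
  · rw [zpow_neg, ← mul_inv, h1]
    exact (eq_inv_of_mul_eq_one_right (by rw [← map_mul, h4, map_one])).symm
  · have := h5.2
    rw [h6] at this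
    field_simp at this ⊢
    linear_combination this

theorem up (h : Ex k r a b) : Ex (k + 1) r 0 a := by
  obtain ⟨s, h1, rfl, -⟩ := h
  exact ⟨X * s, by rw [map_mul, ← h1, zpow_add_one₀ xx_ne, xx]; ring, by simp,
    coeff_succ_X_mul 0 s⟩

theorem down (h : Ex (k + 1) r 0 a) : ∃ b, Ex k r a b := by
  obtain ⟨s, h1, h2, rfl⟩ := h
  obtain ⟨t, rfl⟩ := X_dvd_iff.2 (by simpa using h2 : constantCoeff s = 0)
  refine ⟨_, t, mul_left_cancel₀ xx_ne ?_, (coeff_succ_X_mul 0 t).symm, rfl⟩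
  rw [map_mul, zpow_add_one₀ xx_ne] at h1
  rw [← mul_assoc, mul_comm xx, h1, xx]

theorem reg2 (h : Ex 2 r 0 0) : Reg r := by
  obtain ⟨b, h1⟩ := down (k := 1) h
  obtain ⟨b', h2⟩ := down (k := 0) h1
  exact h2.reg

theorem up2 (h : Ex 0 r a b) : Ex 2 r 0 0 := h.up.up

/-- The logarithmic derivative of a product. -/
theorem prod {ι : Type} (S : Finset ι) {r : ι → LK} {a b : ι → ℂ}
    (h : ∀ i ∈ S, Ex 0 (r i) (a i) (a i * b i)) :
    Ex 0 (∏ i ∈ S, r i) (∏ i ∈ S, a i) ((∏ i ∈ S, a i) * ∑ i ∈ S, b i) := by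
  classical
  induction S using Finset.induction_on with
  | empty => simpa using one
  | insert i S hi ih =>
    simp only [sum_insert hi, prod_insert hi]
    exact ((h i (mem_insert_self _ _)).mul0 (ih fun j hj => h j (mem_insert_of_mem hj))).cast
      rfl rfl rfl (by ring)

end Ex

/-- The series `exp (n * x)`. -/
def eH : Multiplicative ℤ →* LK where
  toFun n := algebraMap ℂ⟦X⟧ LK (rescale ((n.toAdd : ℤ) : ℂ) (exp ℂ))
  map_one' := by simp
  map_mul' a b := by rw [← map_mul, exp_mul_exp_eq_exp_add, toAdd_mul, Int.cast_add]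

/-- The unit `exp x`. -/
def U : LKˣ := eH.toHomUnits (.ofAdd 1)

theorem U_zpow (n : ℤ) :
    ((U ^ n : LKˣ) : LK) = algebraMap ℂ⟦X⟧ LK (rescale (n : ℂ) (exp ℂ)) := by
  rw [U, ← map_zpow, ← ofAdd_zsmul, smul_eq_mul, mul_one]
  rfl

theorem ex_U (n : ℤ) : Ex 0 (U ^ n : LKˣ) 1 n :=
  (Ex.ser _).cast rfl (U_zpow n).symm (by simp [coeff_rescale]) (by simp [coeff_rescale])

theorem ex_sub_U (n : ℤ) : Ex (-1) (1 - (U ^ n : LKˣ)) (-n) (-(n ^ 2 / 2)) := by
  obtain ⟨t, ht⟩ := X_dvd_iff.2 (by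
    rw [← coeff_zero_eq_constantCoeff_apply, map_sub, coeff_rescale]
    simp : constantCoeff (1 - rescale (n : ℂ) (exp ℂ)) = 0)
  refine ⟨t, ?_, ?_, ?_⟩
  · rw [U_zpow, ← map_one (algebraMap ℂ⟦X⟧ LK), ← map_sub, ht, map_mul, zpow_neg_one, ← xx,
      inv_mul_cancel_left₀ xx_ne]
  · rw [← coeff_succ_X_mul, ← ht]
    simp [coeff_rescale, coeff_one]
  · rw [← coeff_succ_X_mul, ← ht]
    simp [coeff_rescale, coeff_one, div_eq_mul_inv]

theorem one_sub_U_ne {n : ℤ} (hn : n ≠ 0) : (1 - (U ^ n : LKˣ) : LK) ≠ 0 := fun h =>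
  hn (Int.cast_eq_zero.1 (neg_eq_zero.1 ((ex_sub_U n).uniq (h ▸ Ex.zero _)).1))

/-- The polar factor. -/
theorem ex_pole (κ : ℂ) {n : ℤ} (hn : n ≠ 0) :
    Ex 1 (algebraMap ℂ LK κ * (1 - (U ^ n : LKˣ) : LK)⁻¹) (-(κ / n)) (κ / 2) := by
  have h : (n : ℂ) ≠ 0 := Int.cast_ne_zero.2 hn
  exact (((ex_sub_U n).inv (neg_ne_zero.2 h)).smul κ).cast rfl rfl (by field_simp)
    (by field_simp)

theorem ex_den (ρ : ℂ) (n : ℤ) :
    Ex 0 (1 - algebraMap ℂ LK ρ * (U ^ n : LKˣ)) (1 - ρ) (-(ρ * n)) :=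
  (Ex.one.sub ((ex_U n).smul ρ)).cast rfl rfl (by ring) (by ring)

/-- A factor without pole. -/
theorem ex_fac (κ : ℂ) {ρ : ℂ} (hρ : ρ ≠ 1) (n : ℤ) :
    Ex 0 (algebraMap ℂ LK κ * (1 - algebraMap ℂ LK ρ * (U ^ n : LKˣ))⁻¹) (κ * (1 - ρ)⁻¹)
      (κ * (1 - ρ)⁻¹ * (n * ρ / (1 - ρ))) := by
  have h := sub_ne_zero.2 hρ.symm
  exact (((ex_den ρ n).inv h).smul κ).cast rfl rfl rfl (by field_simp)

/-! ### Monomial data -/

variable {I : Type} [Fintype I] {n : ℕ}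

/-- The characters `c i * U ^ k i`. -/
def chi (c : I → ℂˣ) (k : I → ℤ) (i : I) : LKˣ :=
  Units.map (algebraMap ℂ LK : ℂ →* LK) (c i) * U ^ k i

/-- The constant `1 - 1 / p`. -/
def kap (p : ℕ) : ℂ := 1 - (p : ℂ)⁻¹

variable (d : MD I n) (p : ℕ) (c : I → ℂˣ) (k : I → ℤ)

/-- The constant of the density on the box. -/
def cz : ℂ := (p : ℂ) ^ (-d.c) * (∏ i, c i ^ d.m i : ℂˣ)

/-- The ratio of the density along a coordinate. -/
def rho (l : Fin n) : ℂ := (p : ℂ) ^ (-d.ν l) * (∏ i, c i ^ d.A i l : ℂˣ)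

/-- The constant order of the weight. -/
def mm : ℤ := ∑ i, k i * d.m i

/-- The order of the weight along a coordinate. -/
def kk (l : Fin n) : ℤ := ∑ i, k i * d.A i l

/-- The value at `x = 0`. -/
def v0 : ℂ := cz d p c * ∏ l, kap p * (1 - rho d p c l)⁻¹

/-- The derivative at `x = 0`. -/
def J : ℂ := v0 d p c * (mm d k + ∑ l, kk d k l * rho d p c l / (1 - rho d p c l))

theorem chi_prod (e : I → ℤ) : ((∏ i, chi c k i ^ e i : LKˣ) : LK) =
    algebraMap ℂ LK (∏ i, c i ^ e i : ℂˣ) * (U ^ ∑ i, k i * e i : LKˣ) := by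
  have : ∏ i, chi c k i ^ e i =
      Units.map (algebraMap ℂ LK : ℂ →* LK) (∏ i, c i ^ e i) * U ^ ∑ i, k i * e i := by
    simp only [chi, mul_zpow, prod_mul_distrib, map_prod, map_zpow, ← zpow_mul]
    exact congrArg _ (map_prod (zpowersHom _ U) (fun i => Multiplicative.ofAdd (k i * e i)) _).symm
  rw [this]
  rfl

theorem den_chi (l : Fin n) :
    d.den p (chi c k) l = 1 - algebraMap ℂ LK (rho d p c l) * (U ^ kk d k l : LKˣ) := by
  rw [MD.den, chi_prod, rho, map_mul, mul_assoc, kk]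

/-- Normal form of the value of a box. -/
theorem val_chi : d.val p (chi c k) = algebraMap ℂ LK (cz d p c) * (U ^ mm d k : LKˣ) *
    ∏ l, algebraMap ℂ LK (kap p) *
      (1 - algebraMap ℂ LK (rho d p c l) * (U ^ kk d k l : LKˣ))⁻¹ := by
  simp only [MD.val, chi_prod, den_chi, Ring.inverse_eq_inv', cz, map_mul, mul_assoc, mm, kap]

theorem v0_eq : v0 d p c = d.val p c := by
  simp only [MD.val, MD.den, Ring.inverse_eq_inv', v0, cz, rho, kap]
  rfl

variable {d p c k}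

theorem nd_chi (h : ∀ l, rho d p c l ≠ 1 ∨ kk d k l ≠ 0) : d.ND p (chi c k) := fun l => by
  rw [den_chi, isUnit_iff_ne_zero]
  by_cases e : rho d p c l = 1
  · rw [e, map_one, one_mul]
    exact one_sub_U_ne ((h l).resolve_left (not_not.2 e))
  · exact fun h0 => e (sub_eq_zero.1 ((ex_den _ _).uniq (h0 ▸ Ex.zero _)).1).symm

/-- The jet of a box without polar coordinate. -/
theorem ex_val (k : I → ℤ) (h : ∀ l, rho d p c l ≠ 1) :
    Ex 0 (d.val p (chi c k)) (v0 d p c) (J d p c k) :=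
  (((ex_U _).smul _).mul0 (Ex.prod univ fun l _ => ex_fac (kap p) (h l) (kk d k l))).cast rfl
    (val_chi ..).symm (by rw [v0, mul_one]) (by rw [J, v0]; ring)

/-- Boxes with the same normal form have the same value. -/
theorem val_congr {I' : Type} [Fintype I'] {d' : MD I' n} {c' : I' → ℂˣ} {k' : I' → ℤ}
    (h1 : cz d p c = cz d' p c') (h2 : ∀ l, rho d p c l = rho d' p c' l)
    (h3 : mm d k = mm d' k') (h4 : ∀ l, kk d k l = kk d' k' l) :
    d.val p (chi c k) = d'.val p (chi c' k') := by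
  simp only [val_chi, h1, h2, h3, h4]

theorem J_add (k k' : I → ℤ) : J d p c (k + k') = J d p c k + J d p c k' := by
  simp only [J, mm, kk, Pi.add_apply, add_mul, sum_add_distrib, Int.cast_add, add_div]
  ring

theorem J_smul (a : ℤ) (k : I → ℤ) : J d p c (a • k) = a * J d p c k := by
  simp only [J, mm, kk, Pi.smul_apply, smul_eq_mul, mul_assoc, ← mul_sum, Int.cast_mul,
    mul_div_assoc]
  ring

/-- The face `z i = 0`. -/
def face (d : MD I (n + 1)) (i : Fin (n + 1)) : MD I n :=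
  ⟨d.c, fun l => d.ν (i.succAbove l), d.m, fun j l => d.A j (i.succAbove l)⟩

theorem val_face {K : Type} [CommRing K] [Algebra ℂ K] (d : MD I (n + 1)) (p : ℕ) (χ : I → Kˣ)
    (i : Fin (n + 1)) : d.val p χ =
      algebraMap ℂ K (kap p) * Ring.inverse (d.den p χ i) * (face d i).val p χ := by
  rw [MD.val, Fin.prod_univ_succAbove _ i, mul_left_comm]
  rfl

theorem val_polar {d : MD I (n + 1)} {i : Fin (n + 1)} (k : I → ℤ) (h : rho d p c i = 1) :
    d.val p (chi c k) = algebraMap ℂ LK (kap p) * (1 - (U ^ kk d k i : LKˣ) : LK)⁻¹ *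
      (face d i).val p (chi c k) := by
  rw [val_face d p _ i, den_chi, h, map_one, one_mul, Ring.inverse_eq_inv']

end

end Pool.Agent.MP_5d9b3c_ag.P3D
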