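import Pool.Agent.MP_5d9b3c_ag.P3D.Spec

/-!
Small facts on densities and families.
-/

namespace Pool.Agent.MP_5d9b3c_ag.P3D

open MP_ee8c61_ag M3 M3RESID M3BK P3 P3K P3T Set

section F

variable {p : ℕ} [Fact p.Prime] {L k : Type} [Field L] [Algebra ℚ_[p] L] [Field k]
  [Algebra ℚ_[p] k] {n : ℕ} {N ν : ℤ} {ε ε' : L} {δ δ' δ'' : Dn L n} {T : ℂˣ}

theorem Dn.Tw.refl (δ : Dn L n) : Dn.Tw p N ν 1 δ δ :=
  ⟨one_ne_zero, by simp, 1, norm_one, fun b => by simp⟩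

theorem Dn.Tw.symm (h : Dn.Tw p N ν ε δ δ') : Dn.Tw p N ν ε⁻¹ δ' δ := by
  obtain ⟨a, h1, h2⟩ := h.w
  have a0 : a ≠ 0 := fun e => by simp [e] at h1
  refine ⟨inv_ne_zero h.ne, ?_, a⁻¹, by rw [norm_inv, h1, inv_one], fun b => ?_⟩
  · rw [h.u, inv_zpow, mul_inv_cancel_right₀ (zpow_ne_zero _ h.ne)]
  · rw [h2, mul_smul_comm, inv_smul_smul₀ a0, inv_zpow,
      inv_mul_cancel_left₀ (zpow_ne_zero _ h.ne)]

theorem Dn.Tw.trans (h : Dn.Tw p N ν ε δ δ') (h' : Dn.Tw p N ν ε' δ' δ'') :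
    Dn.Tw p N ν (ε * ε') δ δ'' := by
  obtain ⟨a, h1, h2⟩ := h.w
  obtain ⟨a', h3, h4⟩ := h'.w
  refine ⟨mul_ne_zero h.ne h'.ne, by rw [h'.u, h.u, mul_zpow, mul_assoc], a' * a,
    by rw [norm_mul, h1, h3, one_mul], fun b => ?_⟩
  rw [h4, h2, mul_smul_comm, smul_smul, mul_zpow, mul_left_comm, mul_assoc]

theorem Dn.LE.refl (δ : Dn L n) : δ.LE p N ν δ := ⟨1, .refl δ⟩

theorem Dn.LE.symm (h : δ.LE p N ν δ') : δ'.LE p N ν δ := h.elim fun _ h => ⟨_, h.symm⟩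

theorem Dn.LE.trans (h : δ.LE p N ν δ') (h' : δ'.LE p N ν δ'') : δ.LE p N ν δ'' :=
  h.elim fun _ h => h'.elim fun _ h' => ⟨_, h.trans h'⟩

theorem Good.of_le {δ δ' : Dn L 1} {s : L} (h : Good p T N ν δ s) (h' : δ.LE p N ν δ') :
    Good p T N ν δ' s := by
  obtain ⟨a, a', m, n, h1, h2, h3, h4⟩ := h.le
  exact ⟨h.tau, a, a', m, n, h1, h2, h3, h4.trans h'⟩

theorem Good.nul {δ : Dn L 1} {s : L} (h : Good p T N ν δ s) {c : ℚ_[p]} (hc : c ≠ 0) (j : ℤ) :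
    Nul p T N ν δ (c • s ^ j) := ⟨c, s, s, j, 0, hc, h, h, by simp⟩

omit [Fact p.Prime] in
theorem Lam.one (h : Lam p T N ν) : (T : ℂ) ^ N = (p : ℂ) ^ ν := (h N ν).2 ⟨1, by simp⟩

theorem exists_lam (p : ℕ) [Fact p.Prime] (T : ℂˣ) : ∃ N ν, Lam p T N ν := by
  have p0 : (p : ℂ) ≠ 0 := Nat.cast_ne_zero.2 (Fact.out : p.Prime).ne_zero
  have inj : ∀ a b : ℤ, (p : ℂ) ^ a = (p : ℂ) ^ b → a = b := fun a b e =>
    zpow_right_injective₀ (p_pos (p := p)) (H72.one_lt_p (p := p)).ne' (by simpa using congrArg norm e)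
  let H : AddSubgroup ℤ :=
    { carrier := {m | ∃ n : ℤ, (T : ℂ) ^ m = (p : ℂ) ^ n}
      zero_mem' := ⟨0, by simp⟩
      add_mem' := fun ⟨a, ha⟩ ⟨b, hb⟩ => ⟨a + b, by rw [zpow_add₀ T.ne_zero, zpow_add₀ p0, ha, hb]⟩
      neg_mem' := fun ⟨a, ha⟩ => ⟨-a, by rw [zpow_neg, zpow_neg, ha]⟩ }
  obtain ⟨N, hN⟩ := Int.subgroup_cyclic H
  obtain ⟨ν, hν⟩ : N ∈ H := hN ▸ AddSubgroup.subset_closure rfl
  have key : ∀ a : ℤ, (T : ℂ) ^ (a * N) = (p : ℂ) ^ (a * ν) := fun a => by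
    rw [mul_comm, zpow_mul, hν, ← zpow_mul, mul_comm]
  refine ⟨N, ν, fun m n => ⟨fun h => ?_, fun ⟨a, h1, h2⟩ => h1 ▸ h2 ▸ key a⟩⟩
  have hm : m ∈ H := ⟨n, h⟩
  rw [hN] at hm
  obtain ⟨a, rfl⟩ := AddSubgroup.mem_closure_singleton.1 hm
  exact ⟨a, rfl, inj _ _ (h.symm.trans (key a))⟩

/-- The exponent of a polar pair vanishes. -/
theorem pol_ex {la : ℚ} (h : ‖(T : ℂ)‖ = (p : ℝ) ^ (la : ℝ)) {m n : ℤ}
    (e : (T : ℂ) ^ m = (p : ℂ) ^ n) : la * m = n := by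
  have h1 := congrArg norm e
  rw [norm_zpow, norm_zpow, h, Complex.norm_natCast, ← Real.rpow_intCast, ← Real.rpow_intCast,
    ← Real.rpow_mul (p_pos (p := p)).le] at h1
  exact_mod_cast (Real.rpow_right_inj (p_pos (p := p)) (H72.one_lt_p (p := p)).ne').1 h1

variable {ι ι' : Type} {b : ι → Box p L n} {X : Set L}

theorem cov_of (φ : ι' → ι) (h : Cov (fun i => b (φ i)) X) : Cov b X :=
  h.imp fun _ k => ⟨k.1, fun x k1 k2 => (k.2 x k1 k2).elim fun i hi => ⟨φ i, hi⟩⟩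

theorem Full.eqv [Finite ι] [Finite ι'] {b' : ι' → Box p L n} (h : Full b X) (h' : Full b' X) :
    Eqv b b' := rCOV b b' X h.itg h.cov h'.itg h'.cov

/-- Two faces along the same place have the same points. -/
theorem face_same {c : Box p L (n + 1)} {P : Plc p L k} {i : Fin (n + 1)} {f f' : Box p k n}
    (h : c.IsFace P i f) (h' : c.IsFace P i f') : ∀ t ∈ Bl p n, f.Φ t = f'.Φ t := fun t ht =>
  Pt.ext' (SetLike.ext fun y => (h.O t ht y).trans (h'.O t ht y).symm)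

end F

/-- The same double face, seen from the other divisor, exists. -/
theorem exists_sw {p : ℕ} [Fact p.Prime] [Algebra ℚ_[p] ℂ] [Algebra.IsAlgebraic ℚ_[p] ℂ]
    {X : Ctx p} {o o' : X.M.J} (y : X.𝓑.F1 o × Fin 2)
    (h : X.𝓑.lab y.1.1.1 (y.1.1.2.succAbove y.2) = some o') :
    ∃ y' : X.𝓑.F1 o' × Fin 2, Sw y y' := by
  obtain ⟨m, hm⟩ := Fin.exists_succAbove_eq (Fin.succAbove_ne y.1.1.2 y.2).symm
  exact ⟨(⟨(y.1.1.1, y.1.1.2.succAbove y.2), h⟩, m), rfl, rfl, hm.symm⟩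

end Pool.Agent.MP_5d9b3c_ag.P3D
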