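import Pool.Agent.MP_5d9b3c_ag.P3D.RRES
import Pool.Agent.MP_5d9b3c_ag.P3D.Flag
import Pool.Agent.MP_5d9b3c_ag.P3B.XCr2

/-! The cross function of a double curve on the double faces. -/

namespace Pool.Agent.MP_5d9b3c_ag.P3D

open MP_ee8c61_ag M3 M3RESID M3BK P3 P3K P3T P3B Set
open Pool.Agent.MP_96693b_ag.RS (Loc)

namespace CRS

theorem idx3 : ∀ (i i' : Fin 3) (m m' : Fin 2) (l : Fin 1), i.succAbove m = i' →
    i'.succAbove m' = i → i'.succAbove (m'.succAbove l) = i.succAbove (m.succAbove l) := by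
  decide

theorem ins3 {R : Type} [Zero R] {i i' : Fin 3} {m m' : Fin 2} (e : i.succAbove m = i')
    (e' : i'.succAbove m' = i) (t : Fin 1 → R) :
    (i'.insertNth 0 (m'.insertNth 0 t : Fin 2 → R) : Fin 3 → R) =
      i.insertNth 0 (m.insertNth 0 t : Fin 2 → R) := by
  funext l
  refine Fin.succAboveCases i ?_ (fun l => Fin.succAboveCases m ?_ (fun l => ?_) l) l
  · rw [Fin.insertNth_apply_same]
    conv_lhs => rw [← e', Fin.insertNth_apply_succAbove, Fin.insertNth_apply_same]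
  · rw [Fin.insertNth_apply_succAbove, Fin.insertNth_apply_same, e, Fin.insertNth_apply_same]
  · rw [Fin.insertNth_apply_succAbove, Fin.insertNth_apply_succAbove, ← idx3 i i' m m' l e e',
      Fin.insertNth_apply_succAbove, Fin.insertNth_apply_succAbove]

theorem alg_id {K : Type} [Field K] {U : K} (a a' : K) (h : U ≠ 0) (n n' N N' : ℤ) :
    (U ^ (-n) * a ^ N') ^ n' * (U ^ (-n') * a' ^ N) ^ n * U ^ (n * n') =
      a ^ (N' * n') * a' ^ (N * n) * U ^ (-(n * n')) := by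
  have h1 : U ^ (-n * n') * U ^ (-n' * n) * U ^ (n * n') = U ^ (-(n * n')) := by
    rw [← zpow_add₀ h, ← zpow_add₀ h, show -n * n' + -n' * n + n * n' = -(n * n') by ring]
  simp only [mul_zpow, ← zpow_mul]
  rw [← h1]
  ring

theorem coe_zp {K : Type} [Field K] {S : Subfield K} (a : S) (n : ℤ) :
    ((a ^ n : S) : K) = (a : K) ^ n := map_zpow₀ S.subtype a n

section Gen

variable {K k k' : Type} [Field K] [Algebra ℂ K] [Field k] [Algebra ℂ k] [Field k'] [Algebra ℂ k']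

/-- The curve on the second surface is determined by the local ring. -/
theorem tw_same {C C₀ : Co K 3} {Q Q₀ : Loc K} {i i' i₀ i₀' : Fin 3} {P : Pl K k} {C2 C20 : Co k 2}
    {x x₀ : Loc k} {m m₀ : Fin 2} {G G₀ : DV k} (T : Tw C Q i i' P C2 x m G)
    (T₀ : Tw C₀ Q₀ i₀ i₀' P C20 x₀ m₀ G₀) (e : LA Q.O (lift P G) = LA Q₀.O (lift P G₀)) :
    G = G₀ := by
  refine M3B1.dv_uniq (le_antisymm (fun y hy => ?_) fun y hy => ?_) T.dat2.adp.vz T₀.dat2.adp.vz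
  · obtain ⟨g, hg, rfl⟩ := T.lift_fn hy
    exact (T₀.leA (e ▸ hg)).2
  · obtain ⟨g, hg, rfl⟩ := T₀.lift_fn hy
    exact (T.leA (e ▸ hg)).2

variable {p : ℕ} [Fact p.Prime] [Algebra ℚ_[p] ℂ]

theorem exists_eqv {E : GA ℚ_[p] k} {E' : GA ℚ_[p] k'} {ι : k' ≃ₐ[ℂ] k}
    (h : ∀ σ y, ι (E'.ρ σ y) = E.ρ σ (ι y)) :
    ∃ ι' : E'.fix ≃ₐ[ℚ_[p]] E.fix, ∀ y, (ι' y : k) = ι y :=
  ⟨{ toFun := fun g => ⟨ι g, fun σ => by rw [← h, g.2 σ]⟩
     invFun := fun g => ⟨ι.symm g, fun σ => ι.injective (by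
       rw [h, ι.apply_symm_apply, g.2 σ])⟩
     left_inv := fun g => Subtype.ext (ι.symm_apply_apply g)
     right_inv := fun g => Subtype.ext (ι.apply_symm_apply g)
     map_mul' := fun g g' => Subtype.ext (map_mul ι (g : k') g')
     map_add' := fun g g' => Subtype.ext (map_add ι (g : k') g')
     commutes' := fun _ => Subtype.ext (ι.commutes _) }, fun _ => rfl⟩

variable {A : GA ℚ_[p] K} {B : GA ℚ_[p] k} {B' : GA ℚ_[p] k'} {P : Pl K k} {P' : Pl K k'}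
  {h : A.Cpt B P} {h' : A.Cpt B' P'} {G : DV k} {G' : DV k'} {E : GA ℚ_[p] G.kf}
  {E' : GA ℚ_[p] G'.kf} {h2 : B.Cpt E G.pl} {h2' : B'.Cpt E' G'.pl} {a : A.fix}

theorem coe_ini (h : A.Cpt B P) {z : A.fix} (hz : P.o.v z = 1) (h0 : a ≠ 0) :
    (ini h z a : k) = P.π ((a : K) / (z : K) ^ P.o.v a) := by
  rw [ini, coe_pf h (Or.inr (v_ini hz h0).ge)]
  push_cast
  rfl

theorem coe_pf2 (h : A.Cpt B P) (h2 : B.Cpt E G.pl) (ha : (a : K) ∈ lift P G) :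
    (pf h2 (pf h a) : G.kf) = G.pl.π (P.π a) := by
  rw [coe_pf h2 (by rw [coe_pf h ha.1]; exact ha.2), coe_pf h ha.1]

variable [Algebra.IsAlgebraic ℚ_[p] ℂ] {c : CBox A 3} {i i' : Fin 3} {g : CBox B 2}
  {g' : CBox B' 2} {m m' : Fin 2}

theorem tw (hf : CFace c h i g) (hG : g.On G m) (e : i.succAbove m = i') {t : Fin 2 → ℚ_[p]}
    (ht : t ∈ Bl p 2) (h0 : t m = 0) : Tw (sh c.C (up (i.insertNth 0 t))) (c.Q (i.insertNth 0 t))
      i i' P (sh g.C (up t)) (g.Q t) m G :=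
  ⟨c.rg _ (Box.ins_bl i ht), FLG.dat hf ht, FLG.rsC hf ht, hf.O t ht, hf.ev t ht, g.rg t ht, e,
    hG t ht h0⟩

theorem tw0 (hf : CFace c h i g) (hG : g.On G m) (e : i.succAbove m = i') :
    Tw c.C (c.Q 0) i i' P g.C (g.Q 0) m G := by
  have := tw hf hG e zero_bl rfl
  rwa [Fin.insertNth_zero_right, Pi.single_zero, sh_zero, sh_zero] at this

/-- The iterated initial form of a monomial function. -/
theorem ini2 (h2 : B.Cpt E G.pl) (hf : CFace c h i g) (hG : g.On G m) (e : i.succAbove m = i')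
    {μ : ℤ} {α : Fin 3 → ℤ} (ha : c.b.Mono a μ α) :
    ((a / (c.b.z i ^ α i * c.b.z i' ^ α i') : A.fix) : K) ∈ LA (c.Q 0).O (lift P G) ∧
      G.v (ini h (c.b.z i) a) = α i' ∧ ini h2 (g.b.z m) (ini h (c.b.z i) a) =
        pf h2 (pf h (a / (c.b.z i ^ α i * c.b.z i' ^ α i'))) := by
  have T := tw0 hf hG e
  have h1 : (c.Q 0).ev (a / c.C.mon α) ≠ 0 := by
    have h3 : ((a / ∏ l, c.b.z l ^ α l : A.fix) : K) = a / c.C.mon α := by
      simp only [Co.mon, ← c.z]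
      push_cast
      rfl
    rw [← h3, ← c.ev 0 zero_bl, map_ne_zero]
    exact Box.Un.ne ha zero_bl
  obtain ⟨l, a1, a2⟩ := ex_third i i'
  have h3 : ((a / (c.b.z i ^ α i * c.b.z i' ^ α i') : A.fix) : K) =
      a / c.C.mon α * c.C.z l ^ α l := by
    rw [T.mon a1 a2, ← div_div (a : K), div_mul_cancel₀ _ (zpow_ne_zero _ (c.C.ne l)), ← c.z,
      ← c.z]
    push_cast
    rfl
  have h4 := h3 ▸ mul_mem (le_LA (mem_of_ev h1))
    (la_zpow (le_LA (T.rg.st.z l)) (T.un_z a1 a2) (α l))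
  have h5 : G.v (ini h (c.b.z i) a) = α i' := e ▸ hG.ord (hf.mono ha)
  refine ⟨h4, h5, ?_⟩
  have h6 : P.o.v a = α i := hf.on.ord ha
  have h7 : ini h (c.b.z i) a =
      g.b.z m ^ α i' * pf h (a / (c.b.z i ^ α i * c.b.z i' ^ α i')) := Subtype.ext <| by
    rw [coe_ini h hf.vz ha.ne, h6, Subfield.coe_mul, coe_pf h (T.leA h4).1, coe_zp,
      g.z, ← T.pi_z (T.leA h4).1, Subfield.coe_div, Subfield.coe_mul, coe_zp, coe_zp, c.z, c.z,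
      ← div_div, mul_div_cancel₀ _ (zpow_ne_zero _ (c.C.ne i'))]
  have h8 : g.b.z m ≠ 0 := fun e => g.C.ne m (by rw [← g.z, e]; rfl)
  rw [ini, show G.pl.o.v _ = α i' from h5, h7, mul_div_cancel_left₀ _ (zpow_ne_zero _ h8)]

variable {ι₀ : G'.kf ≃ₐ[ℂ] G.kf} {ι : E'.fix ≃ₐ[ℚ_[p]] E.fix}

omit [Algebra.IsAlgebraic ℚ_[p] ℂ] in
theorem io_pf {C : Co K 3} {Q : Loc K} {C2 : Co k 2} {C2' : Co k' 2} {x : Loc k} {x' : Loc k'}
    (T : Tw C Q i i' P C2 x m G) (T' : Tw C Q i' i P' C2' x' m' G') (hι : ∀ y, (ι y : G.kf) = ι₀ y)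
    (io : Io Q P G P' G' ι₀) (ha : (a : K) ∈ LA Q.O (lift P G)) :
    ι (pf h2' (pf h' a)) = pf h2 (pf h a) := Subtype.ext <| by
  rw [hι, coe_pf2 h' h2' (T'.leA (T.la2 T' ▸ ha)), coe_pf2 h h2 (T.leA ha), io _ ha]

/-- The two double faces correspond. -/
theorem isMap (hf : CFace c h i g) (hG : g.On G m) (e : i.succAbove m = i')
    (hf' : CFace c h' i' g') (hG' : g'.On G' m') (e' : i'.succAbove m' = i)
    (hι : ∀ y, (ι y : G.kf) = ι₀ y)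
    (io : ∀ t ∈ Bl p 3, t i = 0 → t i' = 0 → Io (c.Q t) P G P' G' ι₀) {q : CBox E 1}
    {q' : CBox E' 1} (hq : CFace g h2 m q) (hq' : CFace g' h2' m' q') : q'.b.IsMap ι q.b := by
  have key : ∀ t ∈ Bl p 1, ∀ a ∈ (c.b.Φ (i.insertNth 0 (m.insertNth 0 t : Fin 2 → _))).O,
      ι (pf h2' (pf h' a)) = pf h2 (pf h a) := fun t ht a ha => by
    have T' := tw hf' hG' e' (Box.ins_bl m' ht) (by simp)
    rw [ins3 e e'] at T'
    have hb := Box.ins_bl i (Box.ins_bl m ht)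
    exact io_pf (tw hf hG e (Box.ins_bl m ht) (by simp)) T' hι
      (io _ hb (by simp) (by simp [← e])) (le_LA ((c.O _ hb a).1 ha))
  refine ⟨fun l => ?_, fun t ht => Pt.ext' (SetLike.ext fun y => ?_)⟩
  · rw [← hq.zf, ← hq'.zf, ← hf.zf, ← hf'.zf]
    simp only [idx3 i i' m m' l e e']
    exact (key 0 zero_bl _ (c.b.zm _ (Box.ins_bl i (Box.ins_bl m zero_bl)) _)).symm
  · change _ ↔ ι.symm y ∈ (q'.b.Φ t).O
    rw [hq.fc.O t ht, hq'.fc.O t ht]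
    constructor
    · rintro ⟨u, hu, rfl⟩
      obtain ⟨a, ha, rfl⟩ := (hf.fc.O _ (Box.ins_bl m ht) u).1 hu
      exact ⟨pf h' a, (hf'.fc.O _ (Box.ins_bl m' ht) _).2 ⟨a, (ins3 e e' t).symm ▸ ha, rfl⟩,
        ι.eq_symm_apply.2 (key t ht a ha)⟩
    · rintro ⟨u, hu, e1⟩
      obtain ⟨a, ha, rfl⟩ := (hf'.fc.O _ (Box.ins_bl m' ht) u).1 hu
      rw [ins3 e e'] at ha
      exact ⟨pf h a, (hf.fc.O _ (Box.ins_bl m ht) _).2 ⟨a, ha, rfl⟩,
        (key t ht a ha).symm.trans (ι.eq_symm_apply.1 e1)⟩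

end Gen

variable {p : ℕ} [Fact p.Prime] [Algebra ℚ_[p] ℂ] [Algebra.IsAlgebraic ℚ_[p] ℂ] {X : Ctx p}
  {o o' : X.M.J}

theorem pts (b : X.𝓑.ι) {t : Fin 3 → ℚ_[p]} (ht : t ∈ Bl p 3) : (X.𝓑.c b).Q t ∈ X.M.pts :=
  (X.𝓑.pt b).imp fun _ h => h t ht

theorem δw (S : ES X o) (x : X.𝓑.F1 o) : (S.δ x).w (S.s.g x).b =
    ini (rc S.inv) ((X.𝓑.c x.1.1).b.z x.1.2) ((X.𝓑.c x.1.1).b.jac (xK p)) := by
  simp only [ES.δ, Dn.rs, Dn.w, dn3, one_mul]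
  rw [(S.s.fc x).zf, rSpn.self, mul_one]

end CRS

open CRS in
theorem rCRS (p : ℕ) [Fact p.Prime] [Algebra ℚ_[p] ℂ] [Algebra.IsAlgebraic ℚ_[p] ℂ] : OfCRS p := by
  rintro hR hB X o o' S S' G hG ψ ψ' σ θ μ ⟨x₀, m₀⟩ ⟨x₀', m₀'⟩ g g' hE ⟨e1, e2, e3⟩ on₀
  have BM := (X.eo.bas 3 _ _ X.ok).toBas1
  have crv : ∀ (x : X.𝓑.F1 o) (x' : X.𝓑.F1 o') m', x'.1.1 = x.1.1 →
      x.1.2 = x'.1.2.succAbove m' → ∃ G', S'.B.InvO G' ∧ (S'.s.g x').On G' m' :=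
    fun x x' m' e e' => X.𝓑.crv x'.1.1 x'.1.2 m' (by rw [x'.2]; simp)
      (by rw [← e', e, x.2]; simp) _ _ _ _ _ (S'.s.fc x')
  obtain ⟨G', hG', on₀'⟩ := crv x₀ x₀' m₀' e1 e3
  have T₀ := tw0 (S.s.fc x₀) on₀ e2.symm
  have T₀' := tw0 (S'.s.fc x₀') on₀' e3.symm
  rw [show x₀'.1.1 = x₀.1.1 from e1] at T₀'
  have q₀ := pts (X := X) x₀.1.1 zero_bl
  obtain ⟨ι₀, c, j, hc, H⟩ := crp2 X.eo X.hyp X.ok (o := o) (o' := o') rfl rfl (hB.ex X o S.pol)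
    (hB.ex X o' S'.pol) S.sta.rd S.sta.rs S'.sta.rd S'.sta.rs g g' hE q₀ T₀ T₀'
  obtain ⟨ι, hι⟩ := exists_eqv (E := rA hG) (E' := rA hG') (ι := ι₀) fun τ y =>
    (H _ q₀ _ _ _ _ _ _ _ _ _ T₀ T₀').1.eqv S.B T₀ T₀' (rc S.inv) (rc hG) (rc S'.inv) (rc hG')
      (fun τ u hu => (((X.𝓑.c x₀.1.1).fx 0 zero_bl).mem τ).2 hu) τ y
  have key : ∀ y y', Sw y y' → S.On G y → S'.On G' y' ∧ (S'.δ2 hG' y').map ι = S.δ2 hG y ∧
      ((S.th hG ψ y.1 ^ G'.v ψ' * ι (S'.th hG' ψ' y'.1) ^ G.v ψ *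
        (S.δ2 hG y).u ^ (G.v ψ * G'.v ψ') : (rA hG).fix) : G.kf) = algebraMap ℂ _ c * σ ^ j ∧
      ∀ q q', CFace (S.s.g y.1) (rc hG) y.2 q → CFace (S'.s.g y'.1) (rc hG') y'.2 q' →
        q'.b.IsMap ι q.b := by
    rintro ⟨x, m⟩ ⟨x', m'⟩ ⟨f1, f2, f3⟩ on
    obtain ⟨G'', -, on'⟩ := crv x x' m' f1 f3
    obtain ⟨⟨b, i⟩, hi⟩ := x
    obtain ⟨⟨b', i'⟩, hi'⟩ := x'
    obtain rfl : b = b' := f1.symm
    replace f2 : i.succAbove m = i' := f2.symm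
    replace f3 : i'.succAbove m' = i := f3.symm
    have F : CFace (X.𝓑.c b) (rc S.inv) i _ := S.s.fc ⟨(b, i), hi⟩
    have F' : CFace (X.𝓑.c b) (rc S'.inv) i' _ := S'.s.fc ⟨(b, i'), hi'⟩
    have T := tw0 F on f2
    have q := pts (X := X) b zero_bl
    obtain rfl : G' = G'' := tw_same T₀' (tw0 F' on' f3)
      ((T₀.la2 T₀').symm.trans ((la_eq BM q₀ q T₀.le T.le).trans (T.la2 (tw0 F' on' f3))))
    have T' := tw0 F' on' f3
    obtain ⟨io, -, eq⟩ := H _ q _ _ _ _ _ _ _ _ _ T T'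
    obtain ⟨α, hf⟩ := X.𝓑.mf b
    obtain ⟨α', hj⟩ := X.𝓑.mj b
    obtain ⟨a1, a2, a3⟩ := ini2 (rc hG) F on f2 hf
    obtain ⟨-, b2, b3⟩ := ini2 (rc hG') F' on' f3 hf
    obtain ⟨c1, -, c3⟩ := ini2 (rc hG) F on f2 hj
    obtain ⟨-, -, d3⟩ := ini2 (rc hG') F' on' f3 hj
    rw [mul_comm] at b3 d3
    have u1 : ι (S'.δ2 hG' (⟨(b, i'), hi'⟩, m')).u = (S.δ2 hG (⟨(b, i), hi⟩, m)).u :=
      (congrArg ι b3).trans ((io_pf T T' hι io a1).trans a3.symm)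
    refine ⟨on', ?_, ?_, fun q q' hq hq' => isMap F on f2 F' on' f3 hι (fun t ht h0 h0' => ?_)
      hq hq'⟩
    · refine congr (congr (congrArg Dn.mk u1) ?_) (funext fun l => ?_)
      · simp only [ES.δ2, Dn.rs, δw]
        exact (congrArg ι d3).trans ((io_pf T T' hι io c1).trans c3.symm)
      · simp only [ES.δ2, Dn.rs]
        rw [← F.zf, ← F'.zf]
        simp only [idx3 i i' m m' l f2 f3]
        exact io_pf T T' hι io (by rw [CBox.z]; exact le_LA (T.rg.st.z _))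
    · have z1 : G.v ((S.s.g ⟨(b, i), hi⟩).b.z m) = 1 := by rw [CBox.z]; exact T.dat2.adp.vz
      have z2 : G'.v ((S'.s.g ⟨(b, i'), hi'⟩).b.z m') = 1 := by
        rw [CBox.z]; exact T'.dat2.adp.vz
      have ψ0 : ψ ≠ 0 := fun e => g.1 (by rw [e]; rfl)
      have ψ0' : ψ' ≠ 0 := fun e => g'.1 (by rw [e]; rfl)
      have n1 := ini_ne (rc S.inv) F.vz hf.ne
      have n2 := ini_ne (rc S'.inv) F'.vz hf.ne
      have t1 : S.th hG ψ ⟨(b, i), hi⟩ = (S.δ2 hG (⟨(b, i), hi⟩, m)).u ^ (-G.v ψ) *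
          ini (rc hG) ((S.s.g ⟨(b, i), hi⟩).b.z m) ψ ^ X.M.aa o' := by
        have := (hR.ini (rc hG) z1 ψ0 n1).2
        rw [show (X.𝓑.lab b i').elim 0 X.M.aa = X.M.aa o' by rw [hi']; rfl] at a2
        rw [← a2]
        exact this
      have t2 : S'.th hG' ψ' ⟨(b, i'), hi'⟩ = (S'.δ2 hG' (⟨(b, i'), hi'⟩, m')).u ^ (-G'.v ψ') *
          ini (rc hG') ((S'.s.g ⟨(b, i'), hi'⟩).b.z m') ψ' ^ X.M.aa o := by
        have := (hR.ini (rc hG') z2 ψ0' n2).2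
        rw [show (X.𝓑.lab b i).elim 0 X.M.aa = X.M.aa o by rw [hi]; rfl] at b2
        rw [← b2]
        exact this
      rw [t1, t2, map_mul, map_zpow₀, map_zpow₀, u1, alg_id (U := (S.δ2 hG (⟨(b, i), hi⟩, m)).u) _ _
        (ini_ne (rc hG) z1 n1), ← eq]
      rw [Subfield.coe_mul, Subfield.coe_mul, coe_zp, coe_zp, coe_zp, hι, coe_ini (rc hG) z1 ψ0,
        coe_ini (rc hG') z2 ψ0', CBox.z, CBox.z, show (S.δ2 hG (⟨(b, i), hi⟩, m)).u = _ from a3,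
        coe_pf2 _ _ (T.leA a1), Subfield.coe_div, Subfield.coe_mul, coe_zp, coe_zp, X.fe, CBox.z,
        CBox.z, hi, hi']
      rfl
    · obtain ⟨s, hs, rfl⟩ := FLG.exists_ins ht h0
      obtain ⟨s', hs', e⟩ := FLG.exists_ins ht h0'
      have T1 := tw F' on' f3 hs' (by
        have := congrFun e (i'.succAbove m')
        rw [Fin.insertNth_apply_succAbove, f3] at this
        exact this.symm.trans h0)
      rw [← e] at T1
      exact (H _ (pts b ht) _ _ _ _ _ _ _ _ _ (tw F on f2 hs (by simpa [← f2] using h0')) T1).1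
  obtain ⟨a, ha⟩ := mon_desc (rA hG) σ.2 (fun e => hE.p1.tr (e ▸ isAlgebraic_zero))
    ((key (x₀, m₀) (x₀', m₀') ⟨e1, e2, e3⟩ on₀).2.2.1 ▸ Subtype.coe_prop _)
  refine ⟨G', hG', ι, a, j, fun e => hc (by rw [← ha, e, map_zero]), fun y y' h1 h2 => ?_⟩
  obtain ⟨k1, k2, k3, k4⟩ := key y y' h1 h2
  refine ⟨k1, k2, Subtype.ext (k3.trans ?_), k4⟩
  rw [Algebra.smul_def, Subfield.coe_mul, coe_alg, ha, coe_zp]

end Pool.Agent.MP_5d9b3c_ag.P3D
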