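import Pool.Agent.MP_5d9b3c_ag.P3D.CrsK
import Pool.Agent.MP_5d9b3c_ag.P3D.RBKP

/-! The cross function of a double curve. -/

namespace Pool.Agent.MP_5d9b3c_ag.P3D

open MP_ee8c61_ag M3 M3RESID M3BK P3 P3K P3T P3B Set CrsK

variable {p : ℕ} [Fact p.Prime] [Algebra ℚ_[p] ℂ] [Algebra.IsAlgebraic ℚ_[p] ℂ]

theorem CrsK.pts (X : Ctx p) (a : X.𝓑.ι) {t : Fin 3 → ℚ_[p]} (ht : t ∈ Bl p 3) :
    (X.𝓑.c a).Q t ∈ X.M.pts := (X.𝓑.pt a).imp fun _ h => h t ht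

theorem CrsK.dA (X : Ctx p) (a : X.𝓑.ι) (l : Fin 3) : 0 ≤ (X.d a).A 0 l := by
  rw [X.dA]
  rcases X.𝓑.lab _ _ with _ | j
  exacts [le_rfl, Int.natCast_nonneg _]

theorem CrsK.dν (X : Ctx p) (a : X.𝓑.ι) (l : Fin 3) : 0 ≤ (X.d a).ν l - 1 := by
  rw [X.dν]
  rcases X.𝓑.lab _ _ with _ | j
  exacts [le_rfl, (Int.natCast_nonneg (X.M.k j)).trans_eq (add_sub_cancel_right _ _).symm]

variable (p)

theorem rCRSc : OfCRS p := by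
  intro _ hB X o o' S S' G hG ψ ψ' σ θ μ y₀ y₀' gψ gψ' hE sw₀ on₀
  have fc' : ∀ {y : X.𝓑.F1 o × Fin 2} {y' : X.𝓑.F1 o' × Fin 2}, Sw y y' →
      CFace (X.𝓑.c y.1.1.1) (rc S'.inv) y'.1.1.2 (S'.s.g y'.1) := fun {y y'} sw =>
    sw.b ▸ S'.s.fc y'.1
  have ex' : ∀ {y : X.𝓑.F1 o × Fin 2} {y' : X.𝓑.F1 o' × Fin 2}, Sw y y' →
      ∃ G', S'.B.InvO G' ∧ S'.On G' y' := fun {y y'} sw => S'.exG (by
    rw [Fam.Fc.lb, ← sw.i', sw.b, y.1.2]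
    exact Option.some_ne_none o)
  obtain ⟨G', hG', on₀'⟩ := ex' sw₀
  have T₀ := tw_at (S.s.fc y₀.1) on₀ sw₀.i zero_Bl rfl rfl
  have T₀' := tw_at (fc' sw₀) on₀' sw₀.i' zero_Bl rfl rfl
  obtain ⟨ι, c, j, c0, H⟩ := crp2 X.eo X.hyp X.ok rfl rfl (hB.ex X o S.pol) (hB.ex X o' S'.pol)
    S.sta.rd S.sta.rs S'.sta.rd S'.sta.rs gψ gψ' hE (pts X _ zero_Bl) T₀ T₀'
  obtain ⟨ι', hι⟩ := exists_res2 (E := rA hG) (E' := rA hG') (ι := ι) fun τ y =>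
    (H _ (pts X _ zero_Bl) _ _ _ _ _ _ _ _ _ T₀ T₀').1.eqv S.B T₀ T₀' (rc S.inv) (rc hG)
      (rc S'.inv) (rc hG') (fun s g hg => (((X.𝓑.c _).fx 0 zero_Bl).mem s).2 hg) τ y
  have key : ∀ y y', Sw y y' → S.On G y → S'.On G' y' ∧ (S'.δ2 hG' y').map ι' = S.δ2 hG y ∧
      ((S.th hG ψ y.1 ^ G'.v ψ' * ι' (S'.th hG' ψ' y'.1) ^ G.v ψ *
        (S.δ2 hG y).u ^ (G.v ψ * G'.v ψ') : (rA hG).fix) : G.kf) = algebraMap ℂ _ c * σ ^ j ∧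
      ∀ q q', CFace (S.s.g y.1) (rc hG) y.2 q → CFace (S'.s.g y'.1) (rc hG') y'.2 q' →
        q'.b.IsMap ι' q.b := fun y y' sw on => by
    have T := tw_at (S.s.fc y.1) on sw.i zero_Bl rfl rfl
    have on' : S'.On G' y' := by
      obtain ⟨G'', -, k⟩ := ex' sw
      have T' := tw_at (fc' sw) k sw.i' zero_Bl rfl rfl
      exact dv_of_la T' T₀' ((T.la2 T').symm.trans ((la_eq (X.eo.bas 3 _ _ X.ok).toBas1
        (pts X _ zero_Bl) (pts X _ zero_Bl) T.le T₀.le).trans (T₀.la2 T₀'))) ▸ k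
    have T' := tw_at (fc' sw) on' sw.i' zero_Bl rfl rfl
    have hm := fun q q' (hq : CFace (S.s.g y.1) (rc hG) y.2 q)
      (hq' : CFace (S'.s.g y'.1) (rc hG') y'.2 q') =>
      isMap_of (S.s.fc y.1) (fc' sw) hq hq' sw.i sw.i' hι fun t ht h0 h0' =>
        (H _ (pts X _ ht) _ _ _ _ _ _ _ _ _ (tw_at (S.s.fc y.1) on sw.i ht h0 h0')
          (tw_at (fc' sw) on' sw.i' ht h0' h0)).1
    obtain ⟨q, hq⟩ := sFACE p _ _ 1 _ _ _ (rc hG) _ _ on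
    obtain ⟨q', hq'⟩ := sFACE p _ _ 1 _ _ _ (rc hG') _ _ on'
    have e : S'.δ y'.1 = (dn3 X.f).rs (X.𝓑.c y.1.1.1) (rc S'.inv) y'.1.1.2 := by
      rw [ES.δ, sw.b]
    refine ⟨on', ?_, ?_, fun q q' hq hq' => (hm q q' hq hq').1⟩
    · rw [ES.δ2, e]
      exact rs_map (S.s.fc y.1) (fc' sw) hq hq' sw.i sw.i' (hm q q' hq hq').2
        ((X.adp _).fn 0) (X.adp _).frm (dA X _) (dν X _)
    · have h1 := (H _ (pts X _ zero_Bl) _ _ _ _ _ _ _ _ _ T T').2.2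
      have a1 : (X.d y.1.1.1).A 0 y.1.1.2 = X.M.aa o := by rw [X.dA, y.1.2]; rfl
      have a2 : (X.d y.1.1.1).A 0 y'.1.1.2 = X.M.aa o' := by rw [X.dA, ← sw.b, y'.1.2]; rfl
      rw [sh_z _ rfl, sh_z _ rfl, sh_z _ rfl, sh_z _ rfl, ← X.fe, ← a1, ← a2] at h1
      exact (th_eq (S.s.fc y.1) (fc' sw) hq hq' sw.i sw.i' hι (hm q q' hq hq').2
        ((X.adp _).fn 0) (dA X _) (fun e => gψ.1 (congrArg _ e)) (fun e => gψ'.1 (congrArg _ e))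
        rfl (congrArg Dn.u e)).trans h1
  obtain ⟨c', rfl⟩ := mon_desc (rA hG) (j := j) σ.2 (RTh.ne hE.p1)
    ((key y₀ y₀' sw₀ on₀).2.2.1 ▸ Subtype.mem _)
  refine ⟨G', hG', ι', c', j, fun e => c0 (by rw [e, map_zero]), fun y y' sw on => ?_⟩
  obtain ⟨h1, h2, h3, h4⟩ := key y y' sw on
  refine ⟨h1, h2, Subtype.ext (h3.trans ?_), h4⟩
  rw [Algebra.smul_def, Subfield.coe_mul, coe_zp, coe_alg]

end Pool.Agent.MP_5d9b3c_ag.P3D
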