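import Pool.Agent.MP_5d9b3c_ag.P3D.Kit
import Pool.Agent.MP_5d9b3c_ag.P3X.CovS

/-! The points of the faces are separated. -/

namespace Pool.Agent.MP_5d9b3c_ag.P3D

open MP_ee8c61_ag M3 M3RESID M3BK P3 P3K P3T

theorem rSEP {p : ℕ} [Fact p.Prime] [Algebra ℚ_[p] ℂ] [Algebra.IsAlgebraic ℚ_[p] ℂ] {X : Ctx p}
    {o : X.M.J} (S : ES X o) (x x' : X.𝓑.F1 o) : ∀ t ∈ Bl p 2, ∀ t' ∈ Bl p 2, ∀ V,
    Dm ((S.s.g x).Q t) V → Le ((S.s.g x').Q t') V → x = x' ∧ t = t' := by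
  intro t ht t' ht' V h h'
  have B := X.eo.bas 3 _ _ X.ok
  obtain rfl := S.s.sepV B ht ht' h h'
  have := (X.𝓑.c _).b.inj (ins_Bl _ ht) (ins_Bl _ ht') (CBox.Φ_eq (ins_Bl _ ht) (ins_Bl _ ht')
    (RSurf.sep B (X.𝓑.mem_pts _ (ins_Bl _ ht)) (X.𝓑.mem_pts _ (ins_Bl _ ht'))
      (RSurf.dm_lift ((S.s.fc x).pr ht) h) (RSurf.le_lift ((S.s.fc x).pr ht') h')))
  exact ⟨rfl, funext fun l => by simpa using congrFun this (x.1.2.succAbove l)⟩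

end Pool.Agent.MP_5d9b3c_ag.P3D
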