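import Pool.Agent.MP_5d9b3c_ag.P3D.Kit
import Pool.Agent.MP_ee8c61_ag.M3BK.RPt
import Pool.Agent.MP_ee8c61_ag.M3BK.RSurf
import Pool.Agent.MP_ee8c61_ag.M3BK.RAd
import Pool.Agent.MP_ee8c61_ag.M3BK.Kt

/-! Row PTS: the points of a face are separated and good. -/

namespace Pool.Agent.MP_5d9b3c_ag.P3D

open MP_ee8c61_ag M3 M3RESID M3BK P3 P3K P3T Set
open Pool.Agent.MP_96693b_ag.RS (Loc)

namespace RPts

variable {p : ℕ} [Fact p.Prime]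

theorem ins_mem {n : ℕ} {t : Fin n → ℚ_[p]} (ht : t ∈ Bl p n) (i : Fin (n + 1)) :
    (i.insertNth 0 t : Fin (n + 1) → ℚ_[p]) ∈ Bl p (n + 1) := by
  rw [Metric.mem_closedBall, dist_zero_right, pi_norm_le_iff_of_nonneg zero_le_one] at ht ⊢
  intro l
  induction l using Fin.succAboveCases i with
  | x => simp
  | p l => simpa using ht l

variable [Algebra ℚ_[p] ℂ] [Algebra.IsAlgebraic ℚ_[p] ℂ] {X : Ctx p} {o : X.M.J}

/-- The point of the threefold under a point of a face. -/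
noncomputable def qq (x : X.𝓑.F1 o) (t : Fin 2 → ℚ_[p]) : Loc (KK 3) :=
  (X.𝓑.c x.1.1).Q (x.1.2.insertNth 0 t)

theorem qq_mem (x : X.𝓑.F1 o) {t : Fin 2 → ℚ_[p]} (ht : t ∈ Bl p 2) :
    qq x t ∈ X.M.pts ∧ X.M.On (qq x t) o :=
  ⟨let ⟨a, ha⟩ := X.𝓑.pt x.1.1; ⟨a, ha _ (ins_mem ht _)⟩,
    (X.𝓑.on _ _ (ins_mem ht _) o).2 ⟨_, x.2, Fin.insertNth_apply_same _ _ _⟩⟩

theorem qq_inj {x x' : X.𝓑.F1 o} {t t' : Fin 2 → ℚ_[p]} (ht : t ∈ Bl p 2) (ht' : t' ∈ Bl p 2)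
    (e : qq x t = qq x' t') : x = x' ∧ t = t' := by
  obtain ⟨⟨b, i⟩, h⟩ := x
  obtain ⟨⟨b', i'⟩, h'⟩ := x'
  have a1 := ins_mem ht i
  have a2 := ins_mem ht' i'
  have a3 : (X.𝓑.c b).b.Φ (i.insertNth 0 t) = (X.𝓑.c b').b.Φ (i'.insertNth 0 t') :=
    Pt.ext' (SetLike.ext fun g => by
      rw [(X.𝓑.c b).O _ a1, (X.𝓑.c b').O _ a2]
      exact Iff.of_eq (congrArg (fun Q : Loc (KK 3) => (g : KK 3) ∈ Q.O) e))
  obtain rfl : b = b' := X.𝓑.dis _ _ _ a1 _ a2 a3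
  obtain rfl : i = i' := X.𝓑.inj b _ _ o h h'
  refine ⟨rfl, funext fun l => ?_⟩
  have a4 := (X.𝓑.c b).b.sec _ a1 (i.succAbove l)
  rw [a3, (X.𝓑.c b).b.sec _ a2, Fin.insertNth_apply_succAbove, Fin.insertNth_apply_succAbove] at a4
  exact a4.symm

theorem face_eq (S : ES X o) {C lab Z rs} (h : IsSf X.M C lab o (X.M.v o).pl Z rs)
    (x : X.𝓑.F1 o) {t : Fin 2 → ℚ_[p]} (ht : t ∈ Bl p 2) : (S.s.g x).Q t = rs (qq x t) := by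
  obtain ⟨a1, a2⟩ := qq_mem x ht
  have e : ((S.s.g x).Q t).O = (rs (qq x t)).O :=
    SetLike.ext fun y => ((S.s.fc x).O t ht y).trans (h.O _ a1 a2 y).symm
  refine loc_ext e fun g => ?_
  by_cases hg : g ∈ ((S.s.g x).Q t).O
  · exact (Loc.ev_eq_of_le e.le hg).symm
  · rw [Loc.ev_out _ g hg, Loc.ev_out _ g (e ▸ hg)]

end RPts

open RPts in
theorem rPTS (p : ℕ) [Fact p.Prime] [Algebra ℚ_[p] ℂ] [Algebra.IsAlgebraic ℚ_[p] ℂ] : OfPTS p := by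
  intro hB
  have key : ∀ (X : Ctx p) (o : X.M.J), ∃ C lab Z rs, Pts X.M X.f₀ C lab ∧
      IsSf X.M C lab o (X.M.v o).pl Z rs := fun X o => by
    obtain ⟨C, lab, h⟩ := rPt X.eo X.f₀ X.M X.hyp.ne X.ok
    obtain ⟨Z, rs, h'⟩ := rSurf X.eo X.con X.f₀ X.M C lab o _ (X.M.v o).pl X.ok h rfl
    exact ⟨C, lab, Z, rs, h, h'⟩
  refine ⟨fun {X o} S x x' t ht t' ht' V h1 h2 => ?_, fun {X o} S x t ht => ?_⟩
  · obtain ⟨C, lab, Z, rs, -, h⟩ := key X o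
    rw [face_eq S h x ht] at h1
    rw [face_eq S h x' ht'] at h2
    exact qq_inj ht ht' (h.inj (qq_mem x ht) (qq_mem x' ht') (Z.sep V _
      (h.X ▸ mem_image_of_mem rs (qq_mem x ht)) _ (h.X ▸ mem_image_of_mem rs (qq_mem x' ht')) h1 h2))
  obtain ⟨C, lab, Z, rs, hP, h⟩ := key X o
  obtain ⟨a1, a2⟩ := qq_mem x ht
  have a3 : rs (qq x t) ∈ Z.X := h.X ▸ mem_image_of_mem rs (qq_mem x ht)
  obtain ⟨b1, b2⟩ := rAd X.f₀ X.la X.b X.β X.q X.M C lab o _ _ Z rs S.e S.v X.hyp X.ok hP h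
    (hB.ex X o S.pol) S.sta.rd
  have hQ := hP _ a1
  obtain ⟨i, hi⟩ := (hQ.on o).1 a2
  have d1 := hQ.dat i o hi
  have d2 := X.𝓑.dat _ _ o x.2 _ (ins_mem ht x.1.2) (Fin.insertNth_apply_same _ _ _)
  have e2 : (sh (X.𝓑.c x.1.1).C (up (x.1.2.insertNth 0 t))).z x.1.2 =
      (X.𝓑.c x.1.1).C.z x.1.2 := by simp [sh, up]
  set z := (X.𝓑.c x.1.1).C.z x.1.2
  set η := (C (qq x t)).z i
  have z0 : z ≠ 0 := Co.ne _ _
  have η0 : η ≠ 0 := Co.ne _ _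
  have c1 : z / η ∈ (qq x t).O := d1.div _
    (e2 ▸ ((X.𝓑.c x.1.1).rg _ (ins_mem ht x.1.2)).st.z x.1.2) (Or.inr (hB.cu S x).1.ge)
  have c2 : η / z ∈ (qq x t).O := e2 ▸ d2.div _ (hQ.rg.st.z i) (Or.inr d1.adp.vz.ge)
  have c3 := ev_zpow (RPt.u_of c2 (by rwa [inv_div]) (div_ne_zero η0 z0)) (X.M.aa o)
  have c4 := RPt.u_mul hQ.fm c3
  set e : Fin 3 → ℤ := fun i => (lab (qq x t) i).elim 0 X.M.aa with he
  have c5 : e - Pi.single i (X.M.aa o) + Pi.single i (X.M.aa o) = e := sub_add_cancel _ _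
  have c6 : (e - Pi.single i (X.M.aa o) : Fin 3 → ℤ) i = 0 := by simp [he, hi]
  rw [face_eq S h x ht]
  refine ⟨Z.C (rs (qq x t)), _, fun j => (e - Pi.single i (X.M.aa o) : Fin 3 → ℤ) (i.succAbove j),
    ⟨Z.rg _ a3, b1 _ a3, ?_⟩, b2 S.sta.rs _ a3⟩
  have c7 : ip 3 X.f₀ / z ^ X.M.a o = ip 3 X.f₀ / (C (qq x t)).mon e * (η / z) ^ X.M.aa o *
      (C (qq x t)).mon (e - Pi.single i (X.M.aa o)) := by
    have f1 := (C (qq x t)).mon_add (e - Pi.single i (X.M.aa o)) (Pi.single i (X.M.aa o))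
    have f2 := (C (qq x t)).mon_ne (e - Pi.single i (X.M.aa o))
    rw [c5, Co.mon_single] at f1
    rw [f1]
    generalize (C (qq x t)).mon (e - Pi.single i (X.M.aa o)) = u at f2
    show _ = _ / (u * η ^ (X.M.a o : ℤ)) * (η / z) ^ (X.M.a o : ℤ) * u
    rw [div_zpow, zpow_natCast, zpow_natCast]
    field_simp
  have c8 := (C (qq x t)).mon_ne (e - Pi.single i (X.M.aa o))
  have c9 : (X.M.v o).pl.o.v ((C (qq x t)).mon (e - Pi.single i (X.M.aa o))) = 0 :=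
    (d1.adp.v_mon _).trans c6
  rw [← (h.crd _ a1 i hi).1.mon d1.adp c6, (hB.cu S x).2, c7,
    (X.M.v o).pl.mul _ (a2 _ (mem_of_ev c4)) _ (Or.inr c9.ge),
    mul_div_cancel_right₀ _ (Pl.π_ne c8 c9), h.ev _ a1 a2 _ (mem_of_ev c4)]
  exact c4

end Pool.Agent.MP_5d9b3c_ag.P3D
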