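import Pool.Agent.MP_5d9b3c_ag.P3D.Defs

/-!
The cancellation of the pole: the statements. Every `OfX` is one task.
-/

namespace Pool.Agent.MP_5d9b3c_ag.P3D

open MP_ee8c61_ag M3 M3RESID M3BK P3 P3K P3T P3B Set
open H59 (PX)

noncomputable section

section F

variable (p : ℕ) [Fact p.Prime]

/-- The calculus of the integrals over one box of a curve. -/
structure SJV : Prop where
  self : ∀ {L : Type} [Field L] [Algebra ℚ_[p] L] {T : ℂˣ} {c : Box p L 1} {δ : Dn L 1} {θ : L}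
    {d : MD (Fin 2) 1} (a b : ℤ), δ.Adp c θ d → (∀ l, rho d p (cT T) l ≠ 1) →
    JV T c δ (δ.u ^ a * θ ^ b) (v0 d p (cT T)) (a * J d p (cT T) k0 + b * J d p (cT T) k1)
  ex : ∀ {L : Type} [Field L] [Algebra ℚ_[p] L] {T : ℂˣ} {c : Box p L 1} {δ : Dn L 1} {θ θ' : L}
    {A J : ℂ}, JV T c δ θ A J → θ' ≠ 0 → ∃ J', JV T c δ θ' A J'
  mul : ∀ {L : Type} [Field L] [Algebra ℚ_[p] L] {T : ℂˣ} {c : Box p L 1} {δ : Dn L 1} {θ θ' : L}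
    {A J A' J' : ℂ} (a b : ℤ), JV T c δ θ A J → JV T c δ θ' A' J' →
    JV T c δ (θ ^ a * θ' ^ b) A (a * J + b * J')
  fib : ∀ {L : Type} [Field L] [Algebra ℚ_[p] L] {T : ℂˣ} {N ν : ℤ} {ι : Type} [Fintype ι]
    {c₀ : Box p L 1} {c : ι → Box p L 1} {δ₀ : Dn L 1} {δ : ι → Dn L 1} {θ : L} {A₀ J₀ : ℂ}
    {A J : ι → ℂ}, Lam p T N ν → Eqv (fun _ : Unit => c₀) c → Dis c → (∀ i, δ₀.LE p N ν (δ i)) →
    JV T c₀ δ₀ θ A₀ J₀ → (∀ i, JV T (c i) (δ i) θ (A i) (J i)) → A₀ = ∑ i, A i ∧ J₀ = ∑ i, J i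
  map : ∀ {L k : Type} [Field L] [Algebra ℚ_[p] L] [Field k] [Algebra ℚ_[p] k] {T : ℂˣ}
    {c : Box p L 1} {c' : Box p k 1} {e : L ≃ₐ[ℚ_[p]] k} {δ : Dn L 1} {θ : L} {A J : ℂ},
    c.IsMap e c' → JV T c δ θ A J → JV T c' (δ.map e) (e θ) A J
  same : ∀ {L : Type} [Field L] [Algebra ℚ_[p] L] {T : ℂˣ} {c c' : Box p L 1} {δ : Dn L 1} {θ : L}
    {A J : ℂ}, (∀ t ∈ Bl p 1, c.Φ t = c'.Φ t) → JV T c δ θ A J → JV T c' δ θ A J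

/-- The integrals over a rational curve. -/
structure SCV : Prop where
  np : ∀ {L : Type} [Field L] [Algebra ℚ_[p] L] {T : ℂˣ} {N ν : ℤ} {c : Box p L 1} {δ₀ δ : Dn L 1}
    {s θ : L} {d : MD (Fin 2) 1}, Lam p T N ν → Good p T N ν δ₀ s → δ₀.LE p N ν δ →
    δ.Adp c θ d → ∀ l, rho d p (cT T) l ≠ 1
  cur : ∀ {L : Type} [Field L] [Algebra ℚ_[p] L] {T : ℂˣ} {N ν : ℤ} {ι : Type} [Fintype ι]
    {c : ι → Box p L 1} {X : Set L} {δ₀ : Dn L 1} {δ : ι → Dn L 1} {θ : ι → L} {s : L}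
    {A J : ι → ℂ}, Lam p T N ν → Full c X → X ⊆ range (algebraMap ℚ_[p] L) → Good p T N ν δ₀ s →
    (∀ i, δ₀.LE p N ν (δ i)) → (∀ i, JV T (c i) (δ i) (θ i) (A i) (J i)) →
    ∑ i, A i = 0 ∧ ∀ θ₀, Nul p T N ν δ₀ θ₀ → (∀ i, θ i = θ₀) → ∑ i, J i = 0

/-- A face is compared with the faces over it. -/
def SPV2 : Prop := ∀ {L : Type} [Field L] [Algebra ℚ_[p] L] {n : ℕ} {T : ℂˣ} {ι : Type} [Fintype ι]
  {b₀ : Box p L n} {b : ι → Box p L n} {δ : Dn L n} {θ : ι → L} {d₀ : MD (Fin 2) n}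
  {d : ι → MD (Fin 2) n}, δ.Adp b₀ δ.u d₀ → b₀.Reg δ.u → b₀.Reg (δ.w b₀) →
  (∀ i, (b i).Over b₀) → Eqv (fun _ : Unit => b₀) b → Dis b → (∀ i, δ.Adp (b i) (θ i) (d i)) →
  d₀.val p (chi (cT T) k1) = ∑ i, (d i).val p (chi (cT T) k0) ∧
    ∀ i l, rho (d i) p (cT T) l = 1 → kk (d i) k0 l ≠ 0

/-- The integral of the eigenfunction vanishes. -/
def SSF0 : Prop := ∀ {L : Type} [Field L] [Algebra ℚ_[p] L] {T : ℂˣ} {N ν : ℤ} {ι : Type}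
  [Fintype ι] {b : ι → Box p L 2} {X : Set L} {a : Fin 4 → L} {m : Fin 4 → ℤ}
  {τ : L ≃ₐ[ℚ_[p]] L} {δ : ι → Dn L 2} {ε : ι → L}, Lam p T N ν → Full b X → (∀ c ∈ X, τ c = c) →
  (∀ l, τ (a l) = (p : L) ^ m l * a l) → m 0 = 1 →
  (∀ i l, (∃ μ A, (b i).Mono (a l) μ A) ∧ ((b i).Reg (a l) ∨ (b i).Reg (a l)⁻¹)) →
  (∀ i, Dn.Tw p N ν (ε i) ⟨a 2, a 3, ![a 0, a 1]⟩ (δ i)) → (∀ i, ∃ μ A, (b i).Mono (ε i) μ A) →
  (∀ i, ∃ μ A, (b i).Mono ((δ i).w (b i)) μ A) →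
  ∃ (k : Fin 4 → ℤ) (d : ι → MD (Fin 2) 2), (∀ i, (δ i).Adp (b i) (∏ l, a l ^ k l) (d i) ∧
    ∀ l, rho (d i) p (cT T) l = 1 → kk (d i) k1 l ≠ 0) ∧ ∑ i, (d i).val p (chi (cT T) k1) = 0

end F

variable (p : ℕ) [Fact p.Prime] [Algebra ℚ_[p] ℂ] [Algebra.IsAlgebraic ℚ_[p] ℂ]

/-- Data restrict to faces. -/
structure SRES : Prop where
  ord : ∀ {L : Type} [Field L] [Algebra ℂ L] {n : ℕ} {A : GA ℚ_[p] L} {c : CBox A n} {o : DV L}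
    {i : Fin n} {g : A.fix} {m : ℤ} {a : Fin n → ℤ}, c.On o i → c.b.Mono g m a → o.v g = a i
  pol : ∀ {L : Type} [Field L] [Algebra ℂ L] {n : ℕ} {A : GA ℚ_[p] L} {c : CBox A n} {o : DV L}
    {i : Fin n} {T : ℂˣ} {δ : Dn A.fix n} {θ : A.fix} {d : MD (Fin 2) n}, c.On o i →
    δ.Adp c.b θ d → (δ.Pol T c o ↔ rho d p (cT T) i = 1) ∧ kk d k0 i = o.v δ.u ∧
      kk d k1 i = o.v θ
  adp : ∀ {L k : Type} [Field L] [Algebra ℂ L] [Field k] [Algebra ℂ k] {n : ℕ} {A : GA ℚ_[p] L}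
    {B : GA ℚ_[p] k} {P : Pl L k} {h : A.Cpt B P} {c : CBox A (n + 1)} {i : Fin (n + 1)}
    {f : CBox B n} {δ : Dn A.fix (n + 1)} {θ : A.fix} {d : MD (Fin 2) (n + 1)}, CFace c h i f →
    δ.Adp c.b θ d → (δ.rs c h i).Adp f.b (ini h (c.b.z i) θ) (face d i)
  ini : ∀ {L k : Type} [Field L] [Algebra ℂ L] [Field k] [Algebra ℂ k] {A : GA ℚ_[p] L}
    {B : GA ℚ_[p] k} {P : Pl L k} (h : A.Cpt B P) {z g g' : A.fix}, P.o.v z = 1 → g ≠ 0 → g' ≠ 0 →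
    ini h z g ≠ 0 ∧ pf h (g ^ P.o.v g' / g' ^ P.o.v g) =
      ini h z g' ^ (-P.o.v g) * ini h z g ^ P.o.v g'
  uniq : ∀ {L : Type} [Field L] [Algebra ℂ L] {A : GA ℚ_[p] L} {c : CBox A 2} {G G' : DV L}
    {m : Fin 2}, c.On G m → c.On G' m → G = G'

/-- The residue does not depend on the box. -/
def SRSD : Prop := ∀ {L k : Type} [Field L] [Algebra ℂ L] [Field k] [Algebra ℂ k] {n : ℕ}
  {A : GA ℚ_[p] L} {B : GA ℚ_[p] k} {P : Pl L k} {h : A.Cpt B P} {c c' : CBox A (n + 1)}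
  {i i' : Fin (n + 1)} {f f' : CBox B n} {δ δ' : Dn A.fix (n + 1)} {T : ℂˣ} {N ν : ℤ},
  Lam p T N ν → CFace c h i f → CFace c' h i' f' → δ.LE p N ν δ' → δ.u ≠ 0 → δ.w c.b ≠ 0 →
  δ.Pol T c P.o → δ'.Pol T c' P.o ∧ (δ.rs c h i).LE p N ν (δ'.rs c' h i')

open Classical in
/-- The divergence of a density. -/
structure SOF : Prop where
  top : ∀ (f₀ : Po 3) (f : (AK p).fix) (la : ℚ), (f : KK 3) = ip 3 f₀ → (dn3 f).Of la (dvf f₀ la)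
  res : ∀ {L k : Type} [Field L] [Algebra ℂ L] [Field k] [Algebra ℂ k] {n : ℕ} {A : GA ℚ_[p] L}
    {B : GA ℚ_[p] k} {P : Pl L k} {h : A.Cpt B P} {c : CBox A (n + 1)} {i : Fin (n + 1)}
    {f : CBox B n} {δ : Dn A.fix (n + 1)} {T : ℂˣ} {la : ℚ} {d : Dv L} {e : Dv k},
    ‖(T : ℂ)‖ = (p : ℝ) ^ (la : ℝ) → CFace c h i f → δ.u ≠ 0 → δ.w c.b ≠ 0 → δ.Pol T c P.o →
    δ.Of la d → P.RsD d e → (δ.rs c h i).Of la e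
  exp : ∀ {L : Type} [Field L] [Algebra ℂ L] {n : ℕ} {A : GA ℚ_[p] L} {c : CBox A n} {o : DV L}
    {i : Fin n} {δ : Dn A.fix n} {T : ℂˣ} {la : ℚ} {e : Dv L}, ‖(T : ℂ)‖ = (p : ℝ) ^ (la : ℝ) →
    c.On o i → δ.u ≠ 0 → δ.w c.b ≠ 0 → δ.Pol T c o → δ.Of la e → Exp e o 0
  ad : ∀ {L : Type} [Field L] [Algebra ℂ L] {n : ℕ} {A : GA ℚ_[p] L} {c : CBox A n}
    {δ : Dn A.fix n} {θ : A.fix} {d : MD (Fin 2) n} {la : ℚ} {e : Dv L}, δ.Adp c.b θ d →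
    δ.Of la e → ∀ t ∈ Bl p n, (sh c.C (up t)).Ad (c.Q t).O e
      fun l => if t l = 0 then (d.ν l : ℂ) - la * d.A 0 l else 1

/-- The faces of a polar divisor. -/
structure SBAS : Prop where
  of : ∀ {X : Ctx p} {o : X.M.J} (S : ES X o) x, (S.δ x).Of X.la S.e
  adp : ∀ {X : Ctx p} {o : X.M.J} (S : ES X o) x, (S.δ x).Adp (S.s.g x).b (S.δ x).u (S.d x)
  reg : ∀ {X : Ctx p} {o : X.M.J} (S : ES X o) x,
    (S.s.g x).b.Reg (S.δ x).u ∧ (S.s.g x).b.Reg ((S.δ x).w (S.s.g x).b)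
  le : ∀ {X : Ctx p} {o : X.M.J} (S : ES X o) x x', (S.δ x).LE p X.N X.ν (S.δ x')
  ne : ∀ {X : Ctx p} {o : X.M.J} (S : ES X o) x (g : Box p S.B.fix 2),
    (S.δ x).u ≠ 0 ∧ (S.δ x).w g ≠ 0
  cu : ∀ {X : Ctx p} {o : X.M.J} (S : ES X o) (x : X.𝓑.F1 o),
    (X.M.v o).v ((X.𝓑.c x.1.1).C.z x.1.2) = 1 ∧ ((S.δ x).u : S.k) =
      (X.M.v o).pl.π (ip 3 X.f₀ / (X.𝓑.c x.1.1).C.z x.1.2 ^ X.M.a o)
  pl : ∀ {X : Ctx p} {o : X.M.J} (S : ES X o) y, S.Pl y ↔ ∃ o', S.s.lb y = some o' ∧ X.Pol o'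
  ex : ∀ (X : Ctx p) (o : X.M.J), X.Pol o → X.M.ex X.la o = 0
  lam : ∀ X : Ctx p, X.la * X.N = X.ν

def OfBAS : Prop := SRES p → SRSD p → SOF p → SBAS p

/-- The points of a face are separated and good. -/
structure SPTS : Prop where
  sep : ∀ {X : Ctx p} {o : X.M.J} (S : ES X o) x x', ∀ t ∈ Bl p 2, ∀ t' ∈ Bl p 2, ∀ V,
    Dm ((S.s.g x).Q t) V → Le ((S.s.g x').Q t') V → x = x' ∧ t = t'
  gp : ∀ {X : Ctx p} {o : X.M.J} (S : ES X o) x, ∀ t ∈ Bl p 2, ∃ (C : Co S.k 2) (a : Fin 2 → ℂ)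
    (m : Fin 2 → ℤ), GP S.e (S.δ x).u C ((S.s.g x).Q t) a m ∧
      ∃ u ∈ S.e.Ex, ∃ c, S.v - u ∈ C.F ((S.s.g x).Q t).O c

def OfPTS : Prop := SBAS p → SPTS p

/-- The frame. -/
def SFRM : Prop := ∀ {X : Ctx p} {o : X.M.J} (S : ES X o) (x : X.𝓑.F1 o),
  ∃ (a : Fin 4 → S.B.fix) (m : Fin 4 → ℤ) (τ : S.B.fix ≃ₐ[ℚ_[p]] S.B.fix),
    (∀ l, a l ≠ 0 ∧ τ (a l) = (p : S.B.fix) ^ m l * a l) ∧ m 0 = 1 ∧
    (∀ c ∈ x1 (rc S.inv), τ c = c) ∧ Dn.LE p X.N X.ν ⟨a 2, a 3, ![a 0, a 1]⟩ (S.δ x) ∧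
    ∀ k : Fin 4 → ℤ, Gd S.e S.v (∏ l, a l ^ k l : S.B.fix)

def OfFRM : Prop := SBAS p → SFRM p

/-- The type of a polar curve. -/
def SCUR : Prop := ∀ {X : Ctx p} {o : X.M.J} (S : ES X o) (x : X.𝓑.F1 o) (g : CBox S.B 2)
  {G : DV S.k} (hG : S.B.InvO G) (m : Fin 2) (q : CBox (rA hG) 1), CFace g (rc hG) m q →
  (S.δ x).Pol X.T g G → ∃ σ : (rA hG).fix, Good p X.T X.N X.ν ((S.δ x).rs g (rc hG) m) σ ∧
    (∃ θ μ, Eu S.e S.v X.b0 G σ θ μ) ∧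
    x2 (rc S.inv) (rc hG) ⊆ range (algebraMap ℚ_[p] (rA hG).fix) ∧
    ∀ ψ : S.B.fix, Gd S.e S.v ψ → ∀ t ∈ Bl p 2, Dm ((S.s.g x).Q t) G.O →
      Nul p X.T X.N X.ν ((S.δ x).rs g (rc hG) m) (S.th hG ψ x)

def OfCUR : Prop := SOF p → SBAS p → SPTS p → SCUR p

/-- Two polar curves do not meet. -/
def SNP2 : Prop := ∀ {X : Ctx p} {o : X.M.J} (S : ES X o) (x : X.𝓑.F1 o) (g : CBox S.B 2)
  {G : DV S.k} (_ : S.B.InvO G) (m : Fin 2) (θ : S.B.fix) (d : MD (Fin 2) 2), g.On G m →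
  (S.δ x).Adp g.b θ d → rho d p (cT X.T) m = 1 → ∀ l, rho (face d m) p (cT X.T) l ≠ 1

def OfNP2 : Prop := SFACE p → SCV p → SRES p → SCUR p → SNP2 p

def SUPS : Prop := ∀ {X : Ctx p} {o : X.M.J} (S : ES X o), Nonempty (X.𝓑.F1 o) → Nonempty S.Ups

def OfUPS : Prop := SFACE p → SDOMC p → SCOV1 p → SPV2 p → SSF0 p → SRES p → SRSD p → SBAS p →
  SFRM p → SUPS p

/-- A polar curve is exceptional or a double curve. -/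
def SDIC : Prop := ∀ {X : Ctx p} {o : X.M.J} {S : ES X o} (U : S.Ups) (G : DV S.k),
  Exp S.e G 0 → ((∀ y, S.s.lb y ≠ none → ¬S.On G y) ∧ ∀ z z', U.On G z → U.On G z' →
      U.π z.1 = U.π z'.1 ∧ ∃ t ∈ Bl p 2, Dm ((S.s.g (U.π z.1)).Q t) G.O) ∨
    ∀ z, U.On G z → ∃ m, S.s.lb (U.π z.1, m) ≠ none ∧ S.On G (U.π z.1, m)

def OfDIC : Prop := SDOMC p → SRES p → SOF p → SBAS p → SPTS p → SDIC p

open Classical in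
/-- The mass of a polar double curve vanishes. -/
def SCLA : Prop := ∀ {X : Ctx p} {o : X.M.J} (S : ES X o) (G : DV S.k) (_ : S.B.InvO G)
  (g : Option X.M.J → ℂ),
  ∑ y with S.Pl y ∧ S.On G y, v0 (face (S.d y.1) y.2) p (cT X.T) * g (S.s.lb y) = 0

def OfCLA : Prop := SFACE p → SCOV2 p → SJV p → SCV p → SRES p → SRSD p → SBAS p → SCUR p →
  SCLA p

open Classical in
/-- An exceptional curve. -/
def SGEX : Prop := ∀ {X : Ctx p} {o : X.M.J} {S : ES X o} (U : S.Ups) (G : DV S.k)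
  (_ : S.B.InvO G) (x : X.𝓑.F1 o), (∀ z, U.On G z → U.π z.1 = x) →
  (∃ t ∈ Bl p 2, Dm ((S.s.g x).Q t) G.O) →
  ∑ z with U.Pl z ∧ U.On G z, U.pt z = 0 ∧ ∑ z with U.Pl z ∧ U.On G z, U.ct z = 0

def OfGEX : Prop := SFACE p → SCOV2 p → SJV p → SCV p → SRES p → SRSD p → SBAS p → SCUR p →
  SGEX p

open Classical in
/-- A double curve. -/
def SGFL : Prop := ∀ {X : Ctx p} {o : X.M.J} {S : ES X o} (U : S.Ups) (G : DV S.k)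
  (hG : S.B.InvO G), (∃ z, U.Pl z ∧ U.On G z) →
  (∀ z, U.On G z → ∃ m, S.s.lb (U.π z.1, m) ≠ none ∧ S.On G (U.π z.1, m)) →
  ∑ z with U.Pl z ∧ U.On G z, U.pt z = 0 ∧ ∃ R : X.𝓑.F1 o × Fin 2 → ℂ,
    ∑ z with U.Pl z ∧ U.On G z, U.ct z = ∑ y with S.Pl y ∧ S.On G y, R y ∧
      ∀ y, S.Pl y → S.Crs hG U.ψ y (R y)

def OfGFL : Prop := SFACE p → SCOV2 p → SJV p → SCV p → SRES p → SRSD p → SBAS p → SCUR p →
  SCLA p → SGFL p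

def SOUT : Prop := ∀ {X : Ctx p} {o : X.M.J} (S : ES X o), Nonempty (X.𝓑.F1 o) → ∃ ψ R, S.Out ψ R

def OfOUT : Prop := SFACE p → SFLAG p → SRES p → SRSD p → SOF p → SBAS p → SNP2 p → SUPS p →
  SDIC p → SGEX p → SGFL p → SOUT p

/-- The cross function of a double curve. -/
def SCRS : Prop := ∀ {X : Ctx p} {o o' : X.M.J} (S : ES X o) (S' : ES X o') {G : DV S.k}
  (hG : S.B.InvO G) (ψ : S.B.fix) (ψ' : S'.B.fix) (σ : (rA hG).fix) θ μ y₀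
  (y₀' : X.𝓑.F1 o' × Fin 2),
  Gd S.e S.v ψ → Gd S'.e S'.v ψ' → Eu S.e S.v X.b0 G σ θ μ → Sw y₀ y₀' → S.On G y₀ →
  ∃ (G' : DV S'.k) (hG' : S'.B.InvO G') (ι : (rA hG').fix ≃ₐ[ℚ_[p]] (rA hG).fix) (c : ℚ_[p])
    (j : ℤ), c ≠ 0 ∧ ∀ y y', Sw y y' → S.On G y → S'.On G' y' ∧
      (S'.δ2 hG' y').map ι = S.δ2 hG y ∧
      S.th hG ψ y.1 ^ G'.v ψ' * ι (S'.th hG' ψ' y'.1) ^ G.v ψ *
        (S.δ2 hG y).u ^ (G.v ψ * G'.v ψ') = c • σ ^ j ∧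
      ∀ q q', CFace (S.s.g y.1) (rc hG) y.2 q → CFace (S'.s.g y'.1) (rc hG') y'.2 q' →
        q'.b.IsMap ι q.b

def OfCRS : Prop := SRES p → SBAS p → SCRS p

open Classical in
/-- The cross terms of a double curve cancel. -/
def SHJ : Prop := ∀ {X : Ctx p} {o o' : X.M.J} (S : ES X o) (S' : ES X o') ψ R ψ' R'
  (G : DV S.k) (_ : S.B.InvO G) (w : X.𝓑.F1 o × Fin 2 → ℂ), S.Out ψ R → S'.Out ψ' R' →
  (∀ y y', Sw y y' → w y = R y / X.M.aa o + R' y' / X.M.aa o' -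
    J (face (S'.d y'.1) y'.2) p (cT X.T) k1 / (X.M.aa o * X.M.aa o')) →
  ∑ y with S.s.lb y = some o' ∧ S.On G y, w y = 0

def OfHJ : Prop := SFACE p → SCOV2 p → SJV p → SCV p → SRES p → SRSD p → SBAS p → SCUR p →
  SCRS p → SHJ p

/-- No pole. -/
def SBKP : Prop := ∀ X : Ctx p,
  (∀ o (h : (AK p).InvO (X.M.v o)), X.M.ex X.la o = 0 → ∃ e v, X.Sta h e v) →
  Reg (∑ a, (X.d a).val p (chi (cT X.T) k1))

def OfBKP : Prop := SFACE p → SRES p → SBAS p → SNP2 p → SCLA p → SOUT p → SHJ p → SBKP p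

end

end Pool.Agent.MP_5d9b3c_ag.P3D
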