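import Pool.Agent.MP_5d9b3c_ag.P3D.Br
import Pool.Agent.MP_5d9b3c_ag.P3B.TGal

/-!
The dilation of a ruled field.
-/

namespace Pool.Agent.MP_5d9b3c_ag.P3D

open MP_ee8c61_ag M3 M3RESID M3BK M3H47 P3 P3B Set Polynomial
open scoped IntermediateField

noncomputable section

variable {F L k : Type} [Field F] [Algebra F ℂ] [Field L] [Algebra ℂ L] [Field k] [Algebra ℂ k]
  {K : IntermediateField ℂ L} {y y' : L}

theorem rl_tr (h : Rl K y) : Transcendental K y := transcendental_iff_injective.2 h.inj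

theorem rl_gen (h : Rl K y) : K⟮y⟯ = ⊤ := eq_top_iff.2 fun z _ => by
  obtain ⟨A, B, -, hB, e⟩ := h.frac z
  exact (IntermediateField.mem_adjoin_simple_iff K z).2 ⟨A, B, eq_div_of_mul_eq (h.ne hB) e⟩

theorem rl_eqv (h : Rl K y) : ∃ e : RatFunc K ≃ₐ[K] L, e RatFunc.X = y :=
  ⟨(RatFunc.algEquivOfTranscendental y (rl_tr h)).trans
    ((IntermediateField.equivOfEq (rl_gen h)).trans IntermediateField.topEquiv),
    RatFunc.algEquivOfTranscendental_X y (rl_tr h)⟩

theorem rl_iso (h : Rl K y) (h' : Rl K y') : ∃ τ : L ≃ₐ[K] L, τ y = y' := by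
  obtain ⟨e, he⟩ := rl_eqv h
  obtain ⟨e', he'⟩ := rl_eqv h'
  exact ⟨e.symm.trans e', by rw [← he, AlgEquiv.trans_apply, e.symm_apply_apply, he']⟩

/-- An affine change of the variable. -/
theorem rl_aff (h : Rl K y) {r c : L} (hr : r ∈ K) (hc : c ∈ K) (r0 : r ≠ 0) :
    Rl K (r * y + c) := by
  have e : y = (r * y + c - c) / r := by rw [add_sub_cancel_right, mul_div_cancel_left₀ _ r0]
  refine rl_of (fun h1 => rl_tr h ?_) (eq_top_iff.2 ((rl_gen h).ge.trans
    (IntermediateField.adjoin_simple_le_iff.2 ?_)))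
  · rw [e, div_eq_mul_inv]
    exact (h1.sub (isAlgebraic_algebraMap (⟨c, hc⟩ : K))).mul
      (isAlgebraic_algebraMap (⟨r, hr⟩ : K)).inv
  · have h1 := IntermediateField.mem_adjoin_simple_self K (r * y + c)
    generalize r * y + c = s at e h1 ⊢
    exact e ▸ div_mem (sub_mem h1 (K⟮s⟯.algebraMap_mem ⟨c, hc⟩)) (K⟮s⟯.algebraMap_mem ⟨r, hr⟩)

/-- Homomorphisms are determined on the base and on the variable. -/
theorem rl_ext {L' : Type} [Field L'] (h : Rl K y) {φ ψ : L →+* L'} (h1 : ∀ c ∈ K, φ c = ψ c)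
    (h2 : φ y = ψ y) (z : L) : φ z = ψ z := by
  have key : ∀ A : K[X], φ (aeval y A) = ψ (aeval y A) := fun A => by
    induction A using Polynomial.induction_on with
    | C c => simpa using h1 c c.2
    | add p q hp hq => rw [map_add, map_add, map_add, hp, hq]
    | monomial n c hp =>
      rw [pow_succ, ← mul_assoc, map_mul, map_mul φ, map_mul ψ, hp, aeval_X, h2]
  obtain ⟨A, B, -, hB, e⟩ := h.frac z
  rw [eq_div_of_mul_eq (h.ne hB) e, map_div₀, map_div₀, key, key]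

/-- An automorphism that commutes with the action, and its restriction to the fixed field. -/
structure Tau (A : GA F L) (τ : L ≃ₐ[ℂ] L) (τ' : A.fix ≃ₐ[F] A.fix) : Prop where
  cm : ∀ σ g, A.ρ σ (τ g) = τ (A.ρ σ g)
  coe : ∀ g, (τ' g : L) = τ g

theorem exists_res (A : GA F L) {τ : L ≃ₐ[ℂ] L} (h : ∀ σ g, A.ρ σ (τ g) = τ (A.ρ σ g)) :
    ∃ τ', Tau A τ τ' :=
  ⟨{ toFun := fun g => ⟨τ g, fun σ => by rw [h, g.2 σ]⟩
     invFun := fun g => ⟨τ.symm g, fun σ => τ.injective (by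
       rw [← h, τ.apply_symm_apply, g.2 σ])⟩
     left_inv := fun g => Subtype.ext (τ.symm_apply_apply g)
     right_inv := fun g => Subtype.ext (τ.apply_symm_apply g)
     map_mul' := fun g g' => Subtype.ext (map_mul τ (g : L) g')
     map_add' := fun g g' => Subtype.ext (map_add τ (g : L) g')
     commutes' := fun a => Subtype.ext (τ.commutes _) }, h, fun _ => rfl⟩

theorem exists_tau (A : GA F L) (h : Rl K y) (h' : Rl K y') (hK : A.Stb K) (hy : y ∈ A.fix)
    (hy' : y' ∈ A.fix) : ∃ τ τ', Tau A τ τ' ∧ τ y = y' ∧ ∀ c ∈ K, τ c = c := by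
  obtain ⟨τ, e⟩ := rl_iso h h'
  have h1 : ∀ c ∈ K, τ c = c := fun c hc => τ.commutes ⟨c, hc⟩
  obtain ⟨τ', t⟩ := exists_res A (τ := τ.restrictScalars ℂ) fun σ =>
    rl_ext h (φ := (A.ρ σ : L →+* L).comp τ) (ψ := (τ : L →+* L).comp (A.ρ σ))
      (fun c hc => by simp [h1 c hc, h1 _ (hK σ c hc)]) (by simp [e, hy σ, hy' σ])
  exact ⟨_, τ', t, e, h1⟩

/-- The dilation of the frame. -/
theorem tau_star {A : GA F L} {d : Dv L} {v v' : VF L} {b : ℂ} {X : Set L} {u : L} {N : ℕ} {g : ℚ}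
    (h : A.StarP d v b X u N v' y g) (hb : b ≠ 0) {q : ℚ} (hq : q ≠ 0) :
    ∃ τ τ', Tau A τ τ' ∧ τ y = q * y ∧ ∀ c, v' c = 0 → τ c = c := by
  have : CharZero L := charZero_of_injective_algebraMap (algebraMap ℂ L).injective
  have h1 := rl_aff (rl_star h hb).2 (r := q) (SubfieldClass.ratCast_mem _ q) (zero_mem _)
    (by exact_mod_cast hq)
  rw [add_zero] at h1
  exact exists_tau A (rl_star h hb).2 h1 (stb_cst h.inv) h.fix
    (mul_mem (SubfieldClass.ratCast_mem _ q) h.fix)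

/-- The dilation of the projective line about the fixed point `s`. -/
theorem tau_p1 (B : GA F k) {σ s : k} {θ : VF k} (h : P1 σ θ) (hσ : σ ∈ B.fix) (hs : s ∈ B.fix)
    (hc : s ∈ range (algebraMap ℂ k)) {q : ℚ} (hq : q ≠ 0) :
    ∃ τ τ', Tau B τ τ' ∧ τ (σ - s) = q * (σ - s) := by
  have : CharZero k := charZero_of_injective_algebraMap (algebraMap ℂ k).injective
  have h0 := rl_aff (p1_rl h) (one_mem _) (neg_mem (IntermediateField.mem_bot.2 hc)) one_ne_zero
  rw [one_mul, ← sub_eq_add_neg] at h0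
  have h1 := rl_aff h0 (r := q) (SubfieldClass.ratCast_mem _ q) (zero_mem _)
    (by exact_mod_cast hq)
  rw [add_zero] at h1
  obtain ⟨τ, τ', t, e, -⟩ := exists_tau B h0 h1 (fun s c hc => by
    obtain ⟨r, rfl⟩ := IntermediateField.mem_bot.1 hc
    exact IntermediateField.mem_bot.2 ⟨_, (B.semi s r).symm⟩) (sub_mem hσ hs)
    (mul_mem (SubfieldClass.ratCast_mem _ q) (sub_mem hσ hs))
  exact ⟨τ, τ', t, e⟩

end

end Pool.Agent.MP_5d9b3c_ag.P3D
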